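import Pool.Agent.Work.MP_6d7a54_an.NG.Stmts

set_option autoImplicit false

namespace Pool.Agent.Work.MP_6d7a54_an.NG

noncomputable section

namespace PAdjx

open Matrix

theorem ne_zero {K : Type} [Field K] {n : ℕ} (M : Matrix (Fin (n + 1)) (Fin (n + 1)) K)
    (c : Fin (n + 1) → K) (a0 : Fin (n + 1)) (ha : c a0 ≠ 0)
    (h2 : ∀ c' : Fin (n + 1) → K, (∀ j, ∑ a, c' a * M a j = 0) → ∃ t : K, ∀ a, c' a = t * c a) :
    M.adjugate ≠ 0 := by
  intro h0
  have h3 : ∀ v : Fin (n + 1) → K, (M.updateRow a0 v).det = 0 := by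
    intro v
    rw [← Matrix.cramer_transpose_apply, Matrix.cramer_eq_adjugate_mulVec,
      ← Matrix.adjugate_transpose, h0]
    simp
  have h4 : ∀ v : Fin (n + 1) → K,
      v ∈ Submodule.span K (Set.range fun a : {a : Fin (n + 1) // a ≠ a0} => M a) := by
    intro v
    obtain ⟨w, hw, hw0⟩ := Matrix.exists_vecMul_eq_zero_iff.2 (h3 v)
    have h5 : ∀ j, w a0 * v j + ∑ a ∈ Finset.univ.erase a0, w a * M a j = 0 := by
      intro j
      have h6 := congrFun hw0 j
      simp only [Matrix.vecMul, dotProduct, Pi.zero_apply] at h6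
      rw [← Finset.add_sum_erase _ _ (Finset.mem_univ a0)] at h6
      rw [Matrix.updateRow_self] at h6
      rw [← h6]
      congr 1
      refine Finset.sum_congr rfl fun a ha' => ?_
      rw [Matrix.updateRow_ne (Finset.ne_of_mem_erase ha')]
    have h7 : w a0 ≠ 0 := by
      intro h8
      have h9 : ∀ j, ∑ a, w a * M a j = 0 := by
        intro j
        rw [← Finset.add_sum_erase _ _ (Finset.mem_univ a0)]
        have := h5 j
        rw [h8, zero_mul, zero_add] at this ⊢
        exact this
      obtain ⟨t, ht⟩ := h2 w h9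
      have h10 : t = 0 := by
        have := ht a0
        rw [h8] at this
        exact (mul_eq_zero.1 this.symm).resolve_right ha
      apply hw
      funext a
      rw [ht a, h10, zero_mul]
      rfl
    have h11 : v = ∑ a ∈ Finset.univ.erase a0, (-(w a0)⁻¹ * w a) • M a := by
      funext j
      rw [Finset.sum_apply]
      simp only [Pi.smul_apply, smul_eq_mul]
      have h12 := h5 j
      have h13 : ∑ a ∈ Finset.univ.erase a0, -(w a0)⁻¹ * w a * M a j =
          -(w a0)⁻¹ * ∑ a ∈ Finset.univ.erase a0, w a * M a j := by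
        rw [Finset.mul_sum]
        exact Finset.sum_congr rfl fun a _ => by ring
      rw [h13, show ∑ a ∈ Finset.univ.erase a0, w a * M a j = -(w a0 * v j) by
        linear_combination h12]
      field_simp
    rw [h11]
    refine Submodule.sum_mem _ fun a ha' => Submodule.smul_mem _ _ ?_
    exact Submodule.subset_span ⟨⟨a, Finset.ne_of_mem_erase ha'⟩, rfl⟩
  have h14 : Submodule.span K (Set.range fun a : {a : Fin (n + 1) // a ≠ a0} => M a) = ⊤ :=
    eq_top_iff.2 fun v _ => h4 v
  have h15 := finrank_range_le_card (R := K) (fun a : {a : Fin (n + 1) // a ≠ a0} => M a)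
  unfold Set.finrank at h15
  rw [h14, finrank_top, Module.finrank_fin_fun] at h15
  have h16 : Fintype.card {a : Fin (n + 1) // a ≠ a0} = n := by
    rw [Fintype.card_subtype_compl]
    simp
  omega

end PAdjx

theorem Adj_proof : S_Adj := by
  intro K _ n M c hc h1 h2
  obtain ⟨a0, ha0⟩ := Function.ne_iff.1 hc
  have h3 := PAdjx.ne_zero M c a0 ha0 h2
  have hdet : M.det = 0 := by
    rw [← Matrix.exists_vecMul_eq_zero_iff]
    exact ⟨c, hc, by
      funext j
      simpa [Matrix.vecMul, dotProduct] using h1 j⟩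
  obtain ⟨j, hj⟩ : ∃ j, M.adjugate j ≠ 0 := by
    by_contra hcon
    push Not at hcon
    exact h3 (by ext j a; rw [hcon j]; rfl)
  obtain ⟨t, ht⟩ := h2 (fun a => M.adjugate j a) (by
    intro j'
    have h4 := congrFun (congrFun (Matrix.adjugate_mul M) j) j'
    rw [Matrix.mul_apply, hdet, zero_smul] at h4
    exact h4)
  refine ⟨j, t, ?_, ht⟩
  rintro rfl
  apply hj
  funext a
  have := ht a
  rw [zero_mul] at this
  exact this

end

end Pool.Agent.Work.MP_6d7a54_an.NG
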