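import Pool.Agent.Work.MP_6d7a54_an.NG.Stmts

/-!
# A weighted homogeneous polynomial dominates the pure powers (MP_6d7a54_an)
-/

set_option autoImplicit false
set_option linter.unusedSectionVars false

namespace Pool.Agent.Work.MP_6d7a54_an.NG

open MvPolynomial
open Pool.Agent.Work.MP_6d7a54_an.NF (NR InK IsNev)

noncomputable section

namespace PAlx

section

variable {F K R Om : Type} [Field F] [Field K] [CommRing R] [IsDomain R] [Algebra F K]
  [Algebra K R] {dl : Derivation ℤ K K} {dR : Derivation ℤ R R}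
  {A : Submodule ℝ (Om → ℝ)} {E : (Om → ℝ) →ₗ[ℝ] ℝ} {x : R → Om → ℝ}

omit [IsDomain R] [Algebra F K] [Algebra K R] [Field F] [Field K] [CommRing R] in
theorem Bl_le {v w : Om → ℝ} (h : v ≤ w) : Bl E v w := by
  unfold Bl
  have : (v - w) ⊔ 0 = 0 := by
    apply sup_eq_right.2
    exact sub_nonpos.2 h
  rw [this, map_zero]

theorem Bl_abs (hN : NRV F K R Om dl dR A E x) (hv : VF (K := K) dR A E x) {v w : Om → ℝ}
    (hA : v ∈ A) (hB : w ∈ A) (h : E |v - w| = 0) : Bl E v w := by
  unfold Bl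
  have h1 : v - w ∈ A := A.sub_mem hA hB
  have h2 : (v - w) ⊔ 0 ∈ A := hv.pp _ h1
  have h3 : |v - w| ∈ A := hv.abs _ h1
  have h4 : (v - w) ⊔ 0 ≤ |v - w| := by
    intro o
    simp only [Pi.sup_apply, Pi.sub_apply, Pi.zero_apply, Pi.abs_apply]
    exact sup_le (le_abs_self _) (abs_nonneg _)
  have h5 := hv.mono _ h2 _ h3 h4
  have h6 := hN.pos _ h2 le_sup_right
  linarith

theorem Bl_sum (hv : VF (K := K) dR A E x) {ι : Type} (s : Finset ι)
    (v w : ι → Om → ℝ) (hA : ∀ i, v i ∈ A) (hB : ∀ i, w i ∈ A) (h : ∀ i ∈ s, Bl E (v i) (w i)) :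
    Bl E (∑ i ∈ s, v i) (∑ i ∈ s, w i) := by
  classical
  induction s using Finset.induction_on with
  | empty =>
    simp only [Finset.sum_empty]
    exact Bl_le le_rfl
  | insert i s hi ih =>
    rw [Finset.sum_insert hi, Finset.sum_insert hi]
    exact hv.bla _ (hA i) _ (hB i) _ (A.sum_mem fun j _ => hA j) _ (A.sum_mem fun j _ => hB j)
      (h i (Finset.mem_insert_self i s)) (ih fun j hj => h j (Finset.mem_insert_of_mem hj))

omit [IsDomain R] in
theorem vq_eq {s : Type} (q : s → R) (P : MvPolynomial s F) :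
    vq K q P = eval₂Hom ((algebraMap K R).comp (algebraMap F K)) q P := by
  unfold vq bc
  rw [aeval_def, eval₂_map]
  rfl

omit [IsDomain R] in
theorem vq_sum {n : ℕ} (q : Fin n → R) (P : MvPolynomial (Fin n) F) :
    vq K q P = ∑ d ∈ P.support, algebraMap K R (algebraMap F K (coeff d P)) *
      ∏ i, q i ^ d i := by
  rw [vq_eq, coe_eval₂Hom, eval₂_eq']
  rfl

/-- monomials in the units -/
def G {r : ℕ} (g : Fin r → Rˣ) (v : Fin r → ℤ) : Rˣ := ∏ l, g l ^ (v l)

theorem G_mul {r : ℕ} (g : Fin r → Rˣ) (v w : Fin r → ℤ) : G g v * G g w = G g (v + w) := by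
  unfold G
  rw [← Finset.prod_mul_distrib]
  exact Finset.prod_congr rfl fun l _ => by rw [Pi.add_apply, zpow_add]

theorem G_inv {r : ℕ} (g : Fin r → Rˣ) (w : Fin r → ℤ) : (G g w)⁻¹ = G g (-w) := by
  unfold G
  rw [← Finset.prod_inv_distrib]
  exact Finset.prod_congr rfl fun l _ => by rw [Pi.neg_apply, zpow_neg]

theorem G_pow {r : ℕ} (g : Fin r → Rˣ) (w : Fin r → ℤ) (k : ℕ) :
    (G g w) ^ k = G g (fun l => (k : ℤ) * w l) := by
  unfold G
  rw [← Finset.prod_pow]
  refine Finset.prod_congr rfl fun l _ => ?_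
  show (g l ^ w l) ^ k = g l ^ ((k : ℤ) * w l)
  rw [mul_comm (k : ℤ), zpow_mul, zpow_natCast]

theorem zp_sum {M ι : Type} [CommGroup M] (u : M) (s : Finset ι) (f : ι → ℤ) :
    ∏ i ∈ s, u ^ f i = u ^ ∑ i ∈ s, f i := by
  classical
  induction s using Finset.induction_on with
  | empty => simp
  | insert i s hi ih => rw [Finset.prod_insert hi, Finset.sum_insert hi, ih, zpow_add]

theorem G_prod {r : ℕ} (g : Fin r → Rˣ) {ι : Type} (s : Finset ι) (w : ι → Fin r → ℤ) :
    ∏ i ∈ s, G g (w i) = G g (fun l => ∑ i ∈ s, w i l) := by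
  unfold G
  rw [Finset.prod_comm]
  exact Finset.prod_congr rfl fun l _ => zp_sum _ _ _

/-- exponent of a monomial -/
def pe {r n : ℕ} (m : Fin n → Fin r → ℤ) (I : Fin n →₀ ℕ) : Fin r → ℤ :=
  fun l => ∑ b, (I b : ℤ) * m b l

/-- value of a monomial -/
theorem mon_eq {r n : ℕ} (g : Fin r → Rˣ) (kap : Fin n → K) (m : Fin n → Fin r → ℤ)
    (y : Fin n → R) (hy : ∀ a, y a = mo kap m g a) (I : Fin n →₀ ℕ) :
    ∏ a, y a ^ I a = algebraMap K R (∏ a, kap a ^ I a) * (G g (pe m I) : R) := by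
  have h1 : ∀ a, y a ^ I a = algebraMap K R (kap a ^ I a) *
      ((G g (fun l => (I a : ℤ) * m a l) : Rˣ) : R) := by
    intro a
    rw [hy a, ← G_pow, Units.val_pow_eq_pow_val, map_pow, ← mul_pow]
    rfl
  rw [Finset.prod_congr rfl fun a _ => h1 a, Finset.prod_mul_distrib, ← map_prod,
    ← Units.coe_prod, G_prod]
  rfl

end

/-- the combinatorial claim -/
theorem comb {n r W : ℕ} (dg Mx : Fin n → ℕ) (hdg : ∀ a, 1 ≤ dg a) (hW : 1 ≤ W)
    (hM : ∀ a, Mx a * dg a = W) (m : Fin n → Fin r → ℤ) (v : Fin n → Fin r → ℝ)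
    (hvd : ∀ c l, v c l = (Mx c : ℝ) * (m c l : ℝ)) (b : Fin n)
    (hb : ∀ th : Fin n → ℝ, (∀ c, 0 ≤ th c) → ∑ c, th c = 1 →
      ∑ c, th c • v c = v b → ∀ c, th c ≠ 0 → v c = v b)
    (I : Fin n →₀ ℕ) (hI : ∑ a, I a * dg a = W) :
    (pe m I = fun l => (Mx b : ℤ) * m b l) ↔ ∀ c, I c ≠ 0 → v c = v b := by
  have hW' : (0 : ℝ) < W := by exact_mod_cast hW
  have hterm : ∀ c l, ((I c : ℝ) * dg c / W) * v c l = (I c : ℝ) * (m c l : ℝ) := by
    intro c l
    rw [hvd]
    have h1 : (Mx c : ℝ) * dg c = W := by exact_mod_cast hM c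
    field_simp
    rw [← h1]
    ring
  have hsum : ∑ c, (I c : ℝ) * dg c / W = 1 := by
    rw [← Finset.sum_div, div_eq_one_iff_eq hW'.ne']
    exact_mod_cast hI
  have hpe : ∀ l, ((pe m I l : ℤ) : ℝ) = ∑ c, ((I c : ℝ) * dg c / W) * v c l := by
    intro l
    unfold pe
    push_cast
    exact Finset.sum_congr rfl fun c _ => by rw [hterm]
  constructor
  · intro h c hc
    apply hb (fun c => (I c : ℝ) * dg c / W) (fun c => by positivity) hsum _ c _
    · funext l
      rw [Finset.sum_apply]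
      simp only [Pi.smul_apply, smul_eq_mul]
      rw [← hpe, h, hvd]
      push_cast
      ring
    · have h1 : (0 : ℝ) < I c := by exact_mod_cast Nat.pos_of_ne_zero hc
      have h2 : (0 : ℝ) < dg c := by exact_mod_cast hdg c
      positivity
  · intro h
    funext l
    have h1 : ((pe m I l : ℤ) : ℝ) = v b l := by
      rw [hpe]
      have h2 : ∀ c, ((I c : ℝ) * dg c / W) * v c l = ((I c : ℝ) * dg c / W) * v b l := by
        intro c
        by_cases hc : I c = 0
        · rw [hc]; simp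
        · rw [h c hc]
      rw [Finset.sum_congr rfl fun c _ => h2 c, ← Finset.sum_mul, hsum, one_mul]
    rw [hvd] at h1
    exact_mod_cast h1

end PAlx

open PAlx in
theorem Al_proof (h1 : S_VB) (h2 : S_Dom) (h3 : S_Ext) (h4 : S_Un) : S_Al := by
  classical
  intro F K R Om _ _ _ _ _ _ dl dR A E x hN n dg N W Mx hdg hW hNw hM y hT a
  have hv := h1 F K R Om dl dR A E x hN
  obtain ⟨r, g, kap, m, hkap, hy, hind⟩ := h4 F K R dl dR hN.nr (n + 1) y
  set v : Fin (n + 1) → Fin r → ℝ := fun c l => (Mx c : ℝ) * (m c l : ℝ) with hvd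
  obtain ⟨Ex, hEx1, hEx2⟩ := h3 (n + 1) r v
  -- weights
  have hwt : ∀ I ∈ N.support, ∑ c, I c * dg c = W := by
    intro I hI
    have h5 := hNw (mem_support_iff.1 hI)
    rw [Finsupp.weight_apply, Finsupp.sum_fintype _ _ (by simp)] at h5
    rw [← h5]
    simp
  -- the sum over exponents
  set cc : (Fin (n + 1) →₀ ℕ) → K := fun I => algebraMap F K (coeff I N) *
    ∏ c, kap c ^ I c with hcc
  set p : (Fin r → ℤ) → K := fun w => ∑ I ∈ N.support.filter (fun I => pe m I = w), cc I with hp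
  set S : Finset (Fin r → ℤ) := N.support.image (pe m) with hS
  have hterm : ∀ I, algebraMap K R (algebraMap F K (coeff I N)) * ∏ c, (y c : R) ^ I c =
      algebraMap K R (cc I) * (G g (pe m I) : R) := by
    intro I
    rw [mon_eq g kap m (fun c => (y c : R)) hy I, hcc]
    simp only [map_mul]
    ring
  have hval : vq K (fun c => (y c : R)) N = ∑ w ∈ S, algebraMap K R (p w) * (G g w : R) := by
    rw [vq_sum, Finset.sum_congr rfl fun I _ => hterm I]
    rw [← Finset.sum_fiberwise_of_maps_to (s := N.support) (t := S) (g := pe m)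
      (fun I hI => Finset.mem_image_of_mem _ hI)]
    refine Finset.sum_congr rfl fun w _ => ?_
    rw [hp]
    simp only [map_sum, Finset.sum_mul]
    refine Finset.sum_congr rfl fun I hI => ?_
    rw [(Finset.mem_filter.1 hI).2]
  -- extreme exponents
  have hext : ∀ b ∈ Ex, p (fun l => (Mx b : ℤ) * m b l) ≠ 0 := by
    intro b hb h0
    set T : Finset (Fin (n + 1)) := Finset.univ.filter (fun c => v c = v b) with hTd
    apply hT T ⟨b, by simp [hTd]⟩
    rw [vq_sum]
    have h5 : ∀ I ∈ N.support, algebraMap K R (algebraMap F K (coeff I N)) *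
        ∏ c, (cut T (fun c => (y c : R))) c ^ I c =
        if pe m I = (fun l => (Mx b : ℤ) * m b l) then
          algebraMap K R (cc I) * (G g (fun l => (Mx b : ℤ) * m b l) : R) else 0 := by
      intro I hI
      have hiff := comb dg Mx hdg hW hM m v (fun c l => rfl) b (hEx1 b hb) I (hwt I hI)
      split_ifs with hif
      · rw [← hif, ← hterm]
        congr 1
        refine Finset.prod_congr rfl fun c _ => ?_
        by_cases hc : I c = 0
        · rw [hc, pow_zero, pow_zero]
        · have h6 := hiff.1 hif c hc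
          have h7 : c ∈ T := by
            rw [hTd, Finset.mem_filter]
            exact ⟨Finset.mem_univ _, h6⟩
          unfold cut
          rw [if_pos h7]
      · have h6 : ¬ ∀ c, I c ≠ 0 → v c = v b := fun h => hif (hiff.2 h)
        push Not at h6
        obtain ⟨c, hc, hcv⟩ := h6
        rw [Finset.prod_eq_zero (Finset.mem_univ c), mul_zero]
        have h7 : c ∉ T := by
          rw [hTd, Finset.mem_filter]
          exact fun h => hcv h.2
        unfold cut
        rw [if_neg h7, zero_pow hc]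
    rw [Finset.sum_congr rfl h5, ← Finset.sum_filter, ← Finset.sum_mul, ← map_sum]
    have h8 : ∑ I ∈ N.support.filter (fun I => pe m I = (fun l => (Mx b : ℤ) * m b l)), cc I =
        0 := h0
    rw [h8, map_zero, zero_mul]
  have hmemS : ∀ w, p w ≠ 0 → w ∈ S := by
    intro w hw
    obtain ⟨I, hI, -⟩ := Finset.exists_ne_zero_of_sum_ne_zero hw
    rw [Finset.mem_filter] at hI
    rw [hS, Finset.mem_image]
    exact ⟨I, hI.1, hI.2⟩
  -- the index type
  set S' : Finset (Fin r → ℤ) := S.filter (fun w => p w ≠ 0) with hS'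
  have hmemS' : ∀ w, p w ≠ 0 → w ∈ S' := fun w hw => Finset.mem_filter.2 ⟨hmemS w hw, hw⟩
  obtain ⟨th, hth0, hth1, hthE, hthv⟩ := hEx2 a
  have hne : Nonempty S' := by
    have h5 : ∑ c, th c ≠ 0 := by rw [hth1]; exact one_ne_zero
    obtain ⟨b, -, hb⟩ := Finset.exists_ne_zero_of_sum_ne_zero h5
    exact ⟨⟨_, hmemS' _ (hext b (hthE b hb))⟩⟩
  have hval2 : vq K (fun c => (y c : R)) N =
      ∑ i : S', algebraMap K R (p (i : Fin r → ℤ)) * (G g (i : Fin r → ℤ) : R) := by
    rw [hval, Finset.sum_coe_sort S' (fun w => algebraMap K R (p w) * (G g w : R)), hS',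
      Finset.sum_filter]
    refine Finset.sum_congr rfl fun w _ => ?_
    split_ifs with h
    · rfl
    · rw [not_not] at h
      rw [h, map_zero, zero_mul]
  have hdom := h2 F K R Om dl dR A E x hN S' (fun i => G g (i : Fin r → ℤ))
    (fun i => p (i : Fin r → ℤ)) (fun i => (Finset.mem_filter.1 i.2).2) (by
      intro i j hij
      rw [G_inv, G_mul]
      apply hind
      intro h
      apply hij
      apply Subtype.ext
      rw [← sub_eq_add_neg] at h
      exact sub_eq_zero.1 h)
  rw [← hval2] at hdom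
  obtain ⟨hne0, hdom⟩ := hdom
  have hXA : x (vq K (fun c => (y c : R)) N) ∈ A := hN.mem _ hne0
  have hgA : ∀ l, x (g l : R) ∈ A := fun l => hN.mem _ (g l).ne_zero
  -- linear form
  set L : (Fin r → ℝ) → Om → ℝ := fun w => ∑ l, w l • x (g l : R) with hL
  have hLA : ∀ w, L w ∈ A := fun w => A.sum_mem fun l _ => A.smul_mem _ (hgA l)
  have hLb : ∀ b ∈ Ex, Bl E (L (v b)) (x (vq K (fun c => (y c : R)) N)) := by
    intro b hb
    have h5 := hdom ⟨_, hmemS' _ (hext b hb)⟩
    have h6 := hv.mon r g (fun l => (Mx b : ℤ) * m b l) 1 one_ne_zero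
    rw [map_one, one_mul] at h6
    have h7 : ∑ l, (((Mx b : ℤ) * m b l : ℤ) : ℝ) • x (g l : R) = L (v b) := by
      rw [hL]
      refine Finset.sum_congr rfl fun l _ => ?_
      rw [hvd]
      push_cast
      rfl
    rw [h7] at h6
    have hGA : x ((G g (fun l => (Mx b : ℤ) * m b l) : Rˣ) : R) ∈ A := hN.mem _ (Units.ne_zero _)
    apply hv.blt _ (hLA _) _ hGA _ hXA _ h5
    apply Bl_abs hN hv (hLA _) hGA
    rw [abs_sub_comm]
    exact h6
  -- the point a
  have hya : x (y a : R) ∈ A := hN.mem _ (y a).ne_zero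
  have h8 : Bl E (x (y a : R)) (L (fun l => (m a l : ℝ))) := by
    apply Bl_abs hN hv hya (hLA _)
    have h9 := hv.mon r g (m a) (kap a) (hkap a)
    have h10 : algebraMap K R (kap a) * ((∏ l, g l ^ (m a l) : Rˣ) : R) = (y a : R) := (hy a).symm
    rw [h10] at h9
    exact h9
  have h9 : Bl E ((Mx a : ℝ) • x (y a : R)) (L (v a)) := by
    have h10 := hv.blc _ hya _ (hLA _) (Mx a : ℝ) (Nat.cast_nonneg _) h8
    convert h10 using 1
    rw [hL, Finset.smul_sum]
    refine Finset.sum_congr rfl fun l _ => ?_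
    rw [hvd, smul_smul]
  have h10 : L (v a) = ∑ b, th b • L (v b) := by
    rw [← hthv]
    funext o
    simp only [hL, Finset.sum_apply, Pi.smul_apply, smul_eq_mul, Finset.mul_sum, Finset.sum_mul]
    rw [Finset.sum_comm]
    exact Finset.sum_congr rfl fun b _ => Finset.sum_congr rfl fun l _ => by ring
  have h11 : Bl E (∑ b, th b • L (v b)) (∑ b, th b • x (vq K (fun c => (y c : R)) N)) := by
    apply Bl_sum hv _ _ _ (fun b => A.smul_mem _ (hLA _)) (fun b => A.smul_mem _ hXA)
    intro b _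
    by_cases hb : th b = 0
    · rw [hb, zero_smul, zero_smul]
      exact Bl_le le_rfl
    · exact hv.blc _ (hLA _) _ hXA _ (hth0 b) (hLb b (hthE b hb))
  rw [← Finset.sum_smul, hth1, one_smul, ← h10] at h11
  exact hv.blt _ (A.smul_mem _ hya) _ (hLA _) _ hXA h9 h11

end

end Pool.Agent.Work.MP_6d7a54_an.NG
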