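import Pool.Agent.Work.MP_6d7a54_an.NG.Stmts

/-!
# Avoiding finitely many hyperplanes (MP_6d7a54_an, block NG, item Av)
-/

namespace Pool.Agent.Work.MP_6d7a54_an.NG

open MvPolynomial

namespace PAvx

theorem exists_lin {F V : Type*} [Field F] [AddCommGroup V] [Module F V] (v : V) (hv : v ≠ 0) :
    ∃ φ : V →ₗ[F] F, φ v ≠ 0 := by
  by_contra h
  push Not at h
  exact hv ((Module.forall_dual_apply_eq_zero_iff F v).mp h)

end PAvx

theorem Av_proof : S_Av := by
  intro F _ _ ι _ Om _ _ N c0 c hc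
  classical
  cases nonempty_fintype ι
  have h1 : ∀ i, ∃ φ : Om i →ₗ[F] F, ¬ (φ (c0 i) = 0 ∧ ∀ j, φ (c i j) = 0) := by
    intro i
    by_cases h0 : c0 i = 0
    · have : ∃ j, c i j ≠ 0 := by
        by_contra h
        push Not at h
        exact hc i ⟨h0, h⟩
      obtain ⟨j, hj⟩ := this
      obtain ⟨φ, hφ⟩ := PAvx.exists_lin (F := F) _ hj
      exact ⟨φ, fun h => hφ (h.2 j)⟩
    · obtain ⟨φ, hφ⟩ := PAvx.exists_lin (F := F) _ h0
      exact ⟨φ, fun h => hφ h.1⟩
  choose φ hφ using h1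
  let L : ι → MvPolynomial (Fin N) F := fun i =>
    C (φ i (c0 i)) + ∑ j, C (φ i (c i j)) * X j
  have hev : ∀ i (x : Fin N → F), eval x (L i) = φ i (c0 i) + ∑ j, φ i (c i j) * x j := by
    intro i x
    simp [L]
  have hL : ∀ i, L i ≠ 0 := by
    intro i h
    apply hφ i
    have h0 : φ i (c0 i) = 0 := by
      have := hev i 0
      rw [h] at this
      simpa using this.symm
    refine ⟨h0, fun j => ?_⟩
    have := hev i (Pi.single j 1)
    rw [h, h0] at this
    simpa [Pi.single_apply] using this.symm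
  have hP : ∏ i, L i ≠ 0 := Finset.prod_ne_zero_iff.mpr (fun i _ => hL i)
  have hex : ∃ al : Fin N → F, eval al (∏ i, L i) ≠ 0 := by
    by_contra h
    push Not at h
    exact hP (MvPolynomial.funext (fun x => by rw [h x, map_zero]))
  obtain ⟨al, hal⟩ := hex
  refine ⟨al, fun i h => hal ?_⟩
  rw [map_prod]
  apply Finset.prod_eq_zero (Finset.mem_univ i)
  rw [hev]
  have h2 := congrArg (φ i) h
  rw [map_zero, map_add, map_sum] at h2
  rw [← h2]
  congr 1
  refine Finset.sum_congr rfl (fun j _ => ?_)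
  rw [← Algebra.smul_def, map_smul, smul_eq_mul, mul_comm]

end Pool.Agent.Work.MP_6d7a54_an.NG
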