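import Pool.Agent.Work.MP_6d7a54_an.NG.Stmts

/-!
# Coprimality (MP_6d7a54_an)
-/

set_option linter.style.haveILetI false

namespace Pool.Agent.Work.MP_6d7a54_an.NG

open MvPolynomial
open Pool.Agent.Work.MP_6d7a54_an.NF (NR InK IsNev)

noncomputable section

namespace PCprx

/-! ### The evaluation `vq` -/

section vq

variable {F s s' K R : Type} [Field F] [Field K] [CommRing R] [Algebra F K] [Algebra K R]

/-- `vq` as a ring homomorphism -/
def vh (K : Type) [Field K] [Algebra F K] [Algebra K R] (q : s → R) : MvPolynomial s F →+* R :=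
  ((aeval q : MvPolynomial s K →ₐ[K] R) : MvPolynomial s K →+* R).comp
    (MvPolynomial.map (algebraMap F K))

lemma vq_eq (q : s → R) (P : MvPolynomial s F) : vq K q P = vh K q P := rfl

lemma vh_C (q : s → R) (c : F) : vh K q (C c) = algebraMap K R (algebraMap F K c) := by
  simp [vh]

lemma vh_X (q : s → R) (i : s) : vh (F := F) K q (X i) = q i := by
  simp [vh]

lemma vq_aeval (q : s → R) (Q : s' → MvPolynomial s F) (P : MvPolynomial s' F) :
    vq K q (aeval Q P) = vq K (fun a => vq K q (Q a)) P := by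
  have h : (vh K q).comp ((aeval Q : MvPolynomial s' F →ₐ[F] MvPolynomial s F) :
      MvPolynomial s' F →+* MvPolynomial s F) = vh K (fun a => vq K q (Q a)) := by
    apply MvPolynomial.ringHom_ext
    · intro c
      rw [vh_C, RingHom.comp_apply]
      have : ((aeval Q : MvPolynomial s' F →ₐ[F] MvPolynomial s F) :
        MvPolynomial s' F →+* MvPolynomial s F) (C c) = C c := by
        change aeval Q (C c) = _
        rw [aeval_C]; rfl
      rw [this, vh_C]
    · intro i
      rw [vh_X, RingHom.comp_apply]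
      have : ((aeval Q : MvPolynomial s' F →ₐ[F] MvPolynomial s F) :
        MvPolynomial s' F →+* MvPolynomial s F) (X i) = Q i := aeval_X _ _
      rw [this]
      rfl
  exact congrArg (fun f : MvPolynomial s' F →+* R => f P) h

lemma vq_rename (q : s → R) (f : s' → s) (P : MvPolynomial s' F) :
    vq K q (rename f P) = vq K (q ∘ f) P := by
  unfold vq bc
  rw [map_rename, aeval_rename]

lemma vq_tower {Om : Type} [Field Om] [Algebra K Om] [Algebra F Om] [IsScalarTower F K Om]
    (q : s → Om) (P : MvPolynomial s F) : vq K q P = aeval q P :=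
  aeval_map_algebraMap K q P

lemma vh_monomial [Fintype s] (q : s → R) (i : s →₀ ℕ) (c : F) :
    vh K q (monomial i c) = algebraMap K R (algebraMap F K c) * ∏ a, q a ^ (i a) := by
  change aeval q (MvPolynomial.map (algebraMap F K) (monomial i c)) = _
  rw [map_monomial, aeval_monomial, Finsupp.prod_fintype]
  intro a
  exact pow_zero _

end vq

/-! ### Monomials -/

section mo

variable {K : Type} [Field K] {N r : ℕ}

lemma zpow_sum' {G ι : Type} [CommGroup G] (g : G) (s : Finset ι) (f : ι → ℤ) :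
    ∏ a ∈ s, g ^ (f a) = g ^ (∑ a ∈ s, f a) := by
  classical
  induction s using Finset.induction_on with
  | empty => simp
  | insert a s ha ih => rw [Finset.prod_insert ha, Finset.sum_insert ha, ih, zpow_add]

lemma mo_prod {S : Type} [CommRing S] [Algebra K S] (kap : Fin N → K) (m : Fin N → Fin r → ℤ)
    (t : Fin r → Sˣ) (i : Fin N → ℕ) :
    ∏ a, mo kap m t a ^ (i a) = algebraMap K S (∏ a, kap a ^ (i a)) *
      ((∏ l, t l ^ (∑ a, (i a : ℤ) * m a l) : Sˣ) : S) := by
  have h1 : ∀ a, mo kap m t a ^ (i a) = algebraMap K S (kap a ^ (i a)) *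
      ((∏ l, t l ^ ((i a : ℤ) * m a l) : Sˣ) : S) := by
    intro a
    unfold mo
    rw [mul_pow, map_pow, ← Units.val_pow_eq_pow_val, ← Finset.prod_pow]
    congr 2
    apply Finset.prod_congr rfl
    intro l _
    rw [mul_comm, zpow_mul, zpow_natCast]
  rw [Finset.prod_congr rfl fun a _ => h1 a, Finset.prod_mul_distrib, map_prod]
  congr 1
  have h2 : (∏ l, t l ^ (∑ a, (i a : ℤ) * m a l) : Sˣ) =
      ∏ a, ∏ l, t l ^ ((i a : ℤ) * m a l) := by
    rw [Finset.prod_comm]
    apply Finset.prod_congr rfl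
    intro l _
    rw [zpow_sum']
  rw [h2, Units.coe_prod]

/-- values of a polynomial supported in a coset -/
lemma coset {F : Type} [Field F] [Algebra F K] (m : Fin N → Fin r → ℤ)
    (e : MvPolynomial (Fin N) F) (he : e ≠ 0)
    (hc : ∀ i ∈ e.support, ∀ j ∈ e.support, ∀ l, ∑ a, ((i a : ℤ) - j a) * m a l = 0)
    (kap : Fin N → K) : ∃ w : Fin r → ℤ, ∀ (S : Type) [CommRing S] [Algebra K S]
      (t : Fin r → Sˣ), vq K (mo kap m t) e =
        algebraMap K S (vq K kap e) * ((∏ l, t l ^ (w l) : Sˣ) : S) := by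
  have hne : e.support.Nonempty := by
    rw [Finset.nonempty_iff_ne_empty]
    intro h
    exact he (support_eq_empty.1 h)
  obtain ⟨i0, hi0⟩ := hne
  refine ⟨fun l => ∑ a, (i0 a : ℤ) * m a l, ?_⟩
  intro S _ _ t
  have h1 : ∀ (T : Type) [CommRing T] [Algebra K T] (y : Fin N → T), vq K y e =
      ∑ i ∈ e.support, algebraMap K T (algebraMap F K (coeff i e)) * ∏ a, y a ^ (i a) := by
    intro T _ _ y
    rw [vq_eq]
    conv_lhs => rw [e.as_sum, map_sum]
    apply Finset.sum_congr rfl
    intro i _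
    rw [vh_monomial]
  rw [h1 S, h1 K, map_sum, Finset.sum_mul]
  apply Finset.sum_congr rfl
  intro i hi
  rw [mo_prod, map_mul, ← mul_assoc]
  congr 3
  funext l
  congr 1
  change _ = ∑ a, (i0 a : ℤ) * m a l
  have h2 := hc i hi i0 hi0 l
  simp only [sub_mul, Finset.sum_sub_distrib] at h2
  linarith

end mo

/-! ### The polynomial with parameters -/

section XX0

variable {F : Type} [Field F] {n : ℕ}

/-- the Jacobian plus a combination of the components of the vector field -/
def XX0 (Q : Fin (n + 1) → MvPolynomial (Fin (n + 1)) F) :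
    MvPolynomial (Fin (n + 1) ⊕ (Fin (n + 1) ⊕ Fin (n + 1))) F :=
  rename Sum.inl (Jac Q) + ∑ j, X (Sum.inr (Sum.inl j)) *
    ∑ a, rename Sum.inl ((Jm Q).adjugate j a * Q a) * X (Sum.inr (Sum.inr a))

lemma XX0_ne (Q : Fin (n + 1) → MvPolynomial (Fin (n + 1)) F) (hJ : Jac Q ≠ 0) : XX0 Q ≠ 0 := by
  intro h
  apply hJ
  have h1 : aeval (Sum.elim X (fun _ => 0) : _ → MvPolynomial (Fin (n + 1)) F) (XX0 Q) =
      Jac Q := by
    unfold XX0
    rw [map_add, map_sum, Finset.sum_eq_zero, add_zero, aeval_rename, Sum.elim_comp_inl,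
      aeval_X_left_apply]
    intro j _
    rw [map_mul, aeval_X]
    simp
  rw [← h1, h, map_zero]

lemma XX0_eval {K S : Type} [Field K] [CommRing S] [Algebra F K] [Algebra K S]
    (Q : Fin (n + 1) → MvPolynomial (Fin (n + 1)) F) (q : Fin (n + 1) → S)
    (s : Fin (n + 1) ⊕ Fin (n + 1) → K) :
    vq K (Sum.elim q (fun i => algebraMap K S (s i))) (XX0 Q) = vq K q (Jac Q) +
      ∑ j, algebraMap K S (s (Sum.inl j)) *
        aeval q (VV (fun a => bc K (Q a)) (fun a => s (Sum.inr a)) j) := by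
  have h2 : ∀ j a, (Jm fun a => bc K (Q a)).adjugate j a = bc K ((Jm Q).adjugate j a) := by
    intro j a
    have h3 : (Jm fun a => bc K (Q a)) =
        (MvPolynomial.map (algebraMap F K) : MvPolynomial (Fin (n + 1)) F →+* _).mapMatrix
          (Jm Q) := by
      ext1 a j
      change pderiv j (MvPolynomial.map (algebraMap F K) (Q a)) =
        MvPolynomial.map (algebraMap F K) (pderiv j (Q a))
      rw [pderiv_map]
    rw [h3, ← RingHom.map_adjugate]
    rfl
  unfold XX0
  rw [vq_eq, map_add, map_sum]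
  congr 1
  · rw [← vq_eq, vq_rename, Sum.elim_comp_inl]
  · apply Finset.sum_congr rfl
    intro j _
    rw [map_mul, vh_X, map_sum]
    congr 1
    unfold VV
    rw [map_sum]
    apply Finset.sum_congr rfl
    intro a _
    rw [map_mul, vh_X, ← vq_eq, vq_rename, Sum.elim_comp_inl, vq_eq, map_mul (vh K q),
      map_mul, map_mul, h2, aeval_C]
    simp only [Sum.elim_inr]
    change vh K q ((Jm Q).adjugate j a) * vh K q (Q a) * _ =
      vh K q ((Jm Q).adjugate j a) * (_ * vh K q (Q a))
    ring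

end XX0

/-! ### Logarithmic derivatives -/

section dlog

variable {R : Type} [CommRing R]

/-- logarithmic derivative -/
def Lh (dR : Derivation ℤ R R) : Rˣ →* Multiplicative R where
  toFun u := Multiplicative.ofAdd (dR (u : R) * ((u⁻¹ : Rˣ) : R))
  map_one' := by simp
  map_mul' u v := by
    rw [← ofAdd_add]
    congr 1
    rw [Units.val_mul, Derivation.leibniz, mul_inv, Units.val_mul, smul_eq_mul, smul_eq_mul]
    have h1 := Units.mul_inv u
    have h2 := Units.mul_inv v
    linear_combination (dR (v : R) * ((v⁻¹ : Rˣ) : R)) * h1 + (dR (u : R) * ((u⁻¹ : Rˣ) : R)) * h2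

lemma dlog {r : ℕ} (dR : Derivation ℤ R R) (t : Fin r → Rˣ) (lam : Fin r → R)
    (h : ∀ l, dR (t l : R) = lam l * (t l : R)) (m : Fin r → ℤ) :
    dR ((∏ l, t l ^ (m l) : Rˣ) : R) = (∑ l, (m l : R) * lam l) * ((∏ l, t l ^ (m l) : Rˣ) : R) := by
  have h1 : ∀ l, Lh dR (t l) = Multiplicative.ofAdd (lam l) := by
    intro l
    change Multiplicative.ofAdd (dR (t l : R) * (((t l)⁻¹ : Rˣ) : R)) = _
    rw [h, mul_assoc, Units.mul_inv, mul_one]
  have h2 : Lh dR (∏ l, t l ^ (m l)) = Multiplicative.ofAdd (∑ l, (m l : R) * lam l) := by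
    rw [map_prod, ofAdd_sum]
    apply Finset.prod_congr rfl
    intro l _
    rw [map_zpow, h1, ← ofAdd_zsmul, zsmul_eq_mul]
  have h3 : dR ((∏ l, t l ^ (m l) : Rˣ) : R) * (((∏ l, t l ^ (m l) : Rˣ)⁻¹ : Rˣ) : R) =
      ∑ l, (m l : R) * lam l := Multiplicative.ofAdd.injective h2
  rw [← h3, mul_assoc, Units.inv_mul, mul_one]

end dlog

/-! ### The point of a hypersurface -/

lemma ex_pt (K : Type) [Field K] (r : ℕ) (h : MvPolynomial (Fin r) K) (hi : Irreducible h) :
    ∃ (Om : Type) (_ : Field Om) (_ : IsAlgClosed Om) (φ : MvPolynomial (Fin r) K →+* Om),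
      ∀ f, φ f = 0 ↔ h ∣ f := by
  have hp : Prime h := hi.prime
  haveI : (Ideal.span {h}).IsPrime := (Ideal.span_singleton_prime hi.ne_zero).2 hp
  refine ⟨AlgebraicClosure (FractionRing (MvPolynomial (Fin r) K ⧸ Ideal.span {h})),
    inferInstance, inferInstance, (algebraMap (FractionRing (MvPolynomial (Fin r) K ⧸
      Ideal.span {h})) _).comp ((algebraMap (MvPolynomial (Fin r) K ⧸ Ideal.span {h}) _).comp
      (Ideal.Quotient.mk (Ideal.span {h}))), ?_⟩
  intro f
  rw [RingHom.comp_apply, RingHom.comp_apply, map_eq_zero_iff _ (RingHom.injective _),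
    map_eq_zero_iff _ (IsFractionRing.injective _ _), Ideal.Quotient.eq_zero_iff_mem,
    Ideal.mem_span_singleton]

lemma ex_Om (F K : Type) [Field F] [Field K] [CharZero K] [Algebra F K] (r : ℕ)
    (h : MvPolynomial (Fin r) K) (hi : Irreducible h) (hX : ∀ l, ¬ h ∣ X l) :
    ∃ (Om : Type) (_ : Field Om) (_ : IsAlgClosed Om) (_ : CharZero Om) (_ : Algebra K Om)
      (_ : Algebra F Om) (_ : IsScalarTower F K Om) (t : Fin r → Omˣ),
      ∀ f : MvPolynomial (Fin r) K, aeval (fun b => (t b : Om)) f = 0 ↔ h ∣ f := by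
  obtain ⟨Om, _, _, φ, hφ⟩ := ex_pt K r h hi
  letI : Algebra K Om := (φ.comp C).toAlgebra
  letI : Algebra F Om := ((φ.comp C).comp (algebraMap F K)).toAlgebra
  haveI : IsScalarTower F K Om := IsScalarTower.of_algebraMap_eq (fun x => rfl)
  haveI : CharZero Om := charZero_of_injective_ringHom (RingHom.injective (φ.comp C))
  refine ⟨Om, inferInstance, inferInstance, inferInstance, inferInstance, inferInstance,
    inferInstance, fun b => Units.mk0 (φ (X b)) (by rw [Ne, hφ]; exact hX b), ?_⟩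
  intro f
  rw [← hφ]
  have : ((aeval (fun b => φ (X b)) : MvPolynomial (Fin r) K →ₐ[K] Om) :
      MvPolynomial (Fin r) K →+* Om) = φ := by
    apply MvPolynomial.ringHom_ext
    · intro c
      change aeval (fun b => φ (X b)) (C c) = _
      rw [aeval_C]
      rfl
    · intro i
      change aeval (fun b => φ (X b)) (X i) = _
      rw [aeval_X]
  have h2 : aeval (fun b => φ (X b)) f = φ f := congrArg (fun g : _ →+* Om => g f) this
  simp only [Units.val_mk0]
  rw [h2]

lemma degreeOf_dvd {K : Type} [Field K] {r : ℕ} {h P : MvPolynomial (Fin r) K} (hd : h ∣ P)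
    (hP : P ≠ 0) (l : Fin r) : degreeOf l h ≤ degreeOf l P := by
  obtain ⟨c, rfl⟩ := hd
  rw [degreeOf_mul_eq (left_ne_zero_of_mul hP) (right_ne_zero_of_mul hP)]
  exact Nat.le_add_right _ _

end PCprx

open PCprx in
theorem Cpr_proof (h1 : S_Int) (h2 : S_Nm) (h3 : S_Sub) (h4 : S_Strip) (h5 : S_Fib) (h6 : S_Av)
    (h7 : S_qd) (h8 : S_Lcr) (h9 : S_PiD) : S_Cpr := by
  intro F _ _ n Q dg hNC N Js W g Mx hNJ r m
  obtain ⟨-, hJ, -, -⟩ := h1 F n Q dg hNC
  obtain ⟨M0, hM0, hXM, -, hzero⟩ := h2 F n Q dg hNC (Fin (n + 1) ⊕ Fin (n + 1)) (XX0 Q)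
    (XX0_ne Q hJ)
  obtain ⟨dN, bN, hN⟩ := h3 F n r Empty m (rename Sum.inl N)
  obtain ⟨dM, bM, hM⟩ := h3 F n r (Fin (n + 1) ⊕ Fin (n + 1)) m M0
  refine ⟨max dN dM, ?_⟩
  intro e hSard K R _ _ _ _ _ _ dl dR hNR q kap tau hkap hq hInd he hNq
  have hinj : Function.Injective (algebraMap K R) := (algebraMap K R).injective
  -- logarithmic derivatives
  have hlam : ∀ l, ∃ a : K, dR (tau l : R) = algebraMap K R a * (tau l : R) :=
    fun l => hNR.unit _ (tau l).isUnit
  choose lam hlam using hlam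
  have hyu : ∀ a, IsUnit (vq K q (Q a)) := by
    intro a
    rw [hq]
    unfold mo
    exact ((isUnit_iff_ne_zero.2 (hkap a)).map (algebraMap K R)).mul (Units.isUnit _)
  have hl : ∀ a, ∃ b : K, dR (vq K q (Q a)) = algebraMap K R b * vq K q (Q a) :=
    fun a => hNR.unit _ (hyu a)
  choose l hl using hl
  have hrel : ∀ a, l a * kap a = dl (kap a) + kap a * ∑ b, (m a b : K) * lam b := by
    intro a
    have e1 := hl a
    rw [hq] at e1
    unfold mo at e1
    rw [Derivation.leibniz, hNR.comp, dlog dR tau _ hlam (m a), smul_eq_mul, smul_eq_mul] at e1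
    apply hinj
    apply (Units.isUnit (∏ l, tau l ^ (m a l) : Rˣ)).mul_right_cancel
    rw [map_add, map_mul, map_mul, map_sum]
    simp only [map_mul, map_intCast]
    linear_combination -e1
  -- the polynomial of N
  obtain ⟨G, hG1, hG2⟩ := hN K kap Empty.elim
  have hfun : (fun a => vq K q (Q a)) = mo kap m tau := funext hq
  have hGt : aeval (fun l => (tau l : R)) G =
      (∏ l, (tau l : R) ^ (bN l)) * vq K q (aeval Q N) := by
    rw [hG2 R tau, vq_rename, Sum.elim_comp_inl, vq_aeval, hfun]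
  have hprod : ∀ k : Fin r → ℕ, IsUnit (∏ l, (tau l : R) ^ (k l)) := by
    intro k
    have : (∏ l, (tau l : R) ^ (k l)) = ((∏ l, tau l ^ (k l) : Rˣ) : R) := by
      rw [Units.coe_prod]
      rfl
    rw [this]
    exact Units.isUnit _
  have hG0 : G ≠ 0 := by
    rintro rfl
    rw [map_zero] at hGt
    exact mul_ne_zero (hprod bN).ne_zero hNq hGt.symm
  obtain ⟨k, P, hGP, hXP, hdP⟩ := h4 K r G hG0
  have hP0 : P ≠ 0 := by
    rintro rfl
    rw [mul_zero] at hGP
    exact hG0 hGP
  have hJN : vq K q (Jac Q) ∣ vq K q (aeval Q N) := by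
    rw [hNJ.jac, vq_eq, vq_eq, map_mul]
    exact Dvd.intro _ rfl
  have hdvdP : vq K q (Jac Q) ∣ aeval (fun l => (tau l : R)) P := by
    have e1 : vq K q (Jac Q) ∣ aeval (fun l => (tau l : R)) G := by
      rw [hGt]
      exact hJN.mul_left _
    rw [hGP, map_mul, map_prod] at e1
    simp only [map_pow, aeval_X] at e1
    exact ((hprod k).dvd_mul_left).1 e1
  have hdegP : ∀ l, degreeOf l P ≤ max dN dM := fun l =>
    ((hdP l).trans (hG1 l)).trans (le_max_left _ _)
  by_cases hPu : IsUnit P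
  · refine ⟨P, 1, hP0, one_ne_zero, isRelPrime_one_right, hdegP, ?_, hdvdP, ?_⟩
    · intro l
      rw [degreeOf_one]
      exact Nat.zero_le _
    · rw [map_one]
      exact hdvdP.trans (hPu.map (aeval fun l => (tau l : R))).dvd
  -- the factors of `P` and the points
  have hirr : ∀ h : {h // h ∈ UniqueFactorizationMonoid.factors P}, Irreducible h.1 :=
    fun h => UniqueFactorizationMonoid.irreducible_of_factor h.1 h.2
  have hdvd : ∀ h : {h // h ∈ UniqueFactorizationMonoid.factors P}, h.1 ∣ P :=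
    fun h => UniqueFactorizationMonoid.dvd_of_mem_factors h.2
  have hXh : ∀ (h : {h // h ∈ UniqueFactorizationMonoid.factors P}) (l : Fin r),
      ¬ MvPolynomial.X l ∣ h.1 := fun h l hd => hXP l (hd.trans (hdvd h))
  have hhX : ∀ (h : {h // h ∈ UniqueFactorizationMonoid.factors P}) (l : Fin r),
      ¬ h.1 ∣ MvPolynomial.X l := by
    intro h l hd
    have hX : Irreducible (MvPolynomial.X l : MvPolynomial (Fin r) K) := X_prime.irreducible
    exact hXh h l ((hirr h).associated_of_dvd hX hd).symm.dvd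
  haveI hfin : Finite {h // h ∈ UniqueFactorizationMonoid.factors P} := by
    classical
    exact Set.Finite.to_subtype (s := {h | h ∈ UniqueFactorizationMonoid.factors P})
      ((UniqueFactorizationMonoid.factors P).toFinset.finite_toSet.subset fun h hh => by
        simpa using hh)
  have hpt := fun h : {h // h ∈ UniqueFactorizationMonoid.factors P} =>
    ex_Om F K r h.1 (hirr h) (hhX h)
  choose Om iF iA iC iK iFO iT t ht using hpt
  haveI hfib : ∀ h, Finite {p : Fin (n + 1) → Om h // ∀ a, aeval p (Q a) = mo kap m (t h) a} :=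
    fun h => (h5 F n Q dg hNC (Om h) (mo kap m (t h))).to_subtype
  obtain ⟨w, hw⟩ := coset m e hSard.ne (fun i hi j hj => (hSard.coset i hi j hj).2) kap
  have hek : vq K kap e ≠ 0 := by
    intro h0
    apply he
    rw [vq_aeval, hfun, hw R tau, h0, map_zero, zero_mul]
  obtain ⟨al, hal⟩ := h6 F (Σ h, {p : Fin (n + 1) → Om h // ∀ a, aeval p (Q a) =
      mo kap m (t h) a}) (fun i => Om i.1) (n + 1) (fun i => aeval i.2.1 (Jac Q))
    (fun i j => aeval i.2.1 (VV (fun a => bc K (Q a)) l j)) (by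
      rintro ⟨h, p, hp⟩ ⟨hJp, hVp⟩
      have hcrit : ¬ Crit Q m p := by
        intro hc
        have hmo : ∀ a, mo kap m (t h) a ≠ 0 := by
          intro a
          unfold mo
          exact mul_ne_zero (by
            rw [Ne, map_eq_zero_iff _ (algebraMap K (Om h)).injective]; exact hkap a)
            (Units.ne_zero _)
        have e1 := hSard.crit (Om h) p (fun a => by rw [hp a]; exact hmo a) hc
        have e2 := hw (Om h) (t h)
        rw [vq_tower, ← funext hp, e1] at e2
        rcases mul_eq_zero.1 e2.symm with e3 | e3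
        · exact hek ((map_eq_zero_iff _ (algebraMap K (Om h)).injective).1 e3)
        · exact Units.ne_zero _ e3
      obtain ⟨j, hj⟩ := h8 F K (Om h) dl hNR.c0 n Q dg hNC r m kap l lam hkap hrel h.1 (t h)
        (hirr h) (h9 F K R dl dR hNR r (max dN dM) tau lam hInd hlam h.1 (hirr h) (hXh h)
          (fun l => (degreeOf_dvd (hdvd h) hP0 l).trans (hdegP l))) (ht h) p hp hJp hcrit
      exact hj (hVp j))
  -- the second polynomial
  set s : Fin (n + 1) ⊕ Fin (n + 1) → K := Sum.elim (fun j => algebraMap F K (al j)) l with hs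
  obtain ⟨G', hG'1, hG'2⟩ := hM K kap s
  have key : ∀ π, Irreducible π → π ∣ P → ¬ π ∣ G' := by
    intro π hπ hπP hπG
    obtain ⟨h, hh, hass⟩ := UniqueFactorizationMonoid.exists_mem_factors_of_dvd hP0 hπ hπP
    have hdG : h ∣ G' := hass.symm.dvd.trans hπG
    have e1 := (ht ⟨h, hh⟩ G').2 hdG
    rw [hG'2] at e1
    have e2 : vq K (Sum.elim (mo kap m (t ⟨h, hh⟩))
        (fun i => algebraMap K (Om ⟨h, hh⟩) (s i))) M0 = 0 := by
      rcases mul_eq_zero.1 e1 with e3 | e3
      · exfalso
        rw [Finset.prod_eq_zero_iff] at e3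
        obtain ⟨l, -, hl⟩ := e3
        exact pow_ne_zero _ (Units.ne_zero _) hl
      · exact e3
    rw [vq_tower] at e2
    obtain ⟨p, hp, hXp⟩ := hzero (Om ⟨h, hh⟩) (mo kap m (t ⟨h, hh⟩))
      (fun i => algebraMap K (Om ⟨h, hh⟩) (s i)) e2
    rw [← vq_tower (K := K), XX0_eval, vq_tower] at hXp
    apply hal ⟨⟨h, hh⟩, p, hp⟩
    rw [← hXp]
    congr 1
    apply Finset.sum_congr rfl
    intro j _
    congr 1
    exact IsScalarTower.algebraMap_apply F K (Om ⟨h, hh⟩) (al j)
  refine ⟨P, G', hP0, ?_, ?_, hdegP, fun l => (hG'1 l).trans (le_max_right _ _), hdvdP, ?_⟩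
  · rintro rfl
    obtain ⟨π, hπ, hπP⟩ := WfDvdMonoid.exists_irreducible_factor hPu hP0
    exact key π hπ hπP (dvd_zero π)
  · intro d hd1 hd2
    by_contra hdu
    have hd0 : d ≠ 0 := by
      rintro rfl
      exact hP0 (zero_dvd_iff.1 hd1)
    obtain ⟨π, hπ, hπd⟩ := WfDvdMonoid.exists_irreducible_factor hdu hd0
    exact key π hπ (hπd.trans hd1) (hπd.trans hd2)
  · rw [hG'2 R tau]
    apply Dvd.dvd.mul_left
    have e1 := map_dvd (vh K (Sum.elim q (fun i => algebraMap K R (s i)))) hXM
    rw [← vq_eq, ← vq_eq, vq_aeval] at e1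
    have e2 : (fun a => vq K (Sum.elim q (fun i => algebraMap K R (s i)))
        (Sum.elim (fun a => rename Sum.inl (Q a))
          (fun i => (X (Sum.inr i) : MvPolynomial (Fin (n + 1) ⊕ (Fin (n + 1) ⊕ Fin (n + 1))) F))
            a)) = Sum.elim (mo kap m tau) (fun i => algebraMap K R (s i)) := by
      funext a
      rcases a with a | i
      · simp only [Sum.elim_inl]
        rw [vq_rename, Sum.elim_comp_inl, hq]
      · simp only [Sum.elim_inr]
        rw [vq_eq, vh_X]
        rfl
    rw [e2] at e1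
    refine Dvd.dvd.trans ?_ e1
    rw [XX0_eval]
    refine ⟨1 + ∑ j, algebraMap K R (s (Sum.inl j)) * dR (q j), ?_⟩
    rw [mul_add, mul_one, Finset.mul_sum]
    congr 1
    apply Finset.sum_congr rfl
    intro j _
    rw [mul_left_comm, h7 F K R dl dR hNR n Q q l hl j]
    rfl

end

end Pool.Agent.Work.MP_6d7a54_an.NG
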