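import Pool.Agent.Work.MP_6d7a54_an.NG.Stmts

/-!
# Cyclic vectors (MP_6d7a54_an, block NG)
-/

set_option autoImplicit false

namespace Pool.Agent.Work.MP_6d7a54_an.NG

open Pool.Agent.Work.MP_6d7a54_an.NF (NR InK IsNev)

namespace PCycx

/-- the coefficients of the derivatives -/
def rows {K ι : Type} [Field K] (dl : Derivation ℤ K K) (l p : ι → K) : ℕ → ι → K
  | 0 => p
  | k + 1 => fun i => dl (rows dl l p k i) + l i * rows dl l p k i

theorem iter {F K R : Type} [Field F] [Field K] [CommRing R] [IsDomain R] [Algebra F K]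
    [Algebra K R] {dl : Derivation ℤ K K} {dR : Derivation ℤ R R} (h : NR F K R dl dR)
    {ι : Type} [Fintype ι] (mn : ι → Rˣ) (l p : ι → K)
    (hl : ∀ i, dR (mn i : R) = algebraMap K R (l i) * (mn i : R)) (k : ℕ) :
    (dR : R → R)^[k] (∑ i, algebraMap K R (p i) * (mn i : R)) =
      ∑ i, algebraMap K R (rows dl l p k i) * (mn i : R) := by
  induction k with
  | zero => rfl
  | succ k ih =>
    rw [Function.iterate_succ_apply', ih, map_sum]
    refine Finset.sum_congr rfl fun i _ => ?_
    rw [Derivation.leibniz, hl, h.comp]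
    change _ = algebraMap K R (dl (rows dl l p k i) + l i * rows dl l p k i) * _
    rw [map_add, map_mul, smul_eq_mul, smul_eq_mul]
    ring

theorem quot {F K R : Type} [Field F] [Field K] [CommRing R] [IsDomain R] [Algebra F K]
    [Algebra K R] {dl : Derivation ℤ K K} {dR : Derivation ℤ R R} (h : NR F K R dl dR)
    (x y : Rˣ) (a b v : K) (hx : dR (x : R) = algebraMap K R a * (x : R))
    (hy : dR (y : R) = algebraMap K R b * (y : R)) (hv : v ≠ 0) (hd : dl v = (b - a) * v) :
    InK K ((x * y⁻¹ : Rˣ) : R) := by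
  obtain ⟨u, hu⟩ : ∃ u : Rˣ, u = x * y⁻¹ := ⟨_, rfl⟩
  rw [← hu]
  have e1 : (u : R) * (y : R) = x := by
    rw [hu, ← Units.val_mul, inv_mul_cancel_right]
  have e2 : dR (u : R) = algebraMap K R (a - b) * (u : R) := by
    have e3 : dR ((u : R) * (y : R)) = algebraMap K R a * ((u : R) * (y : R)) := by
      rw [e1, hx]
    rw [Derivation.leibniz, hy, smul_eq_mul, smul_eq_mul] at e3
    have e4 : (y : R) * dR (u : R) = (y : R) * (algebraMap K R (a - b) * (u : R)) := by
      rw [map_sub]
      linear_combination e3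
    exact mul_left_cancel₀ y.ne_zero e4
  refine h.const (u : R) v u.isUnit hv ?_
  rw [Derivation.leibniz, e2, h.comp, hd, smul_eq_mul, smul_eq_mul, map_mul, map_sub, map_sub]
  ring

theorem dual {F K R : Type} [Field F] [Field K] [CommRing R] [IsDomain R] [Algebra F K]
    [Algebra K R] {dl : Derivation ℤ K K} {dR : Derivation ℤ R R} (h : NR F K R dl dR)
    {ι : Type} [Fintype ι] (mn : ι → Rˣ) (l p : ι → K)
    (hl : ∀ i, dR (mn i : R) = algebraMap K R (l i) * (mn i : R)) (hp : ∀ i, p i ≠ 0)
    (hmn : ∀ i j, i ≠ j → ¬ InK K ((mn i * (mn j)⁻¹ : Rˣ) : R)) (n : ℕ) :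
    ∀ v : ι → K, {i | v i ≠ 0}.ncard = n → (∀ k, ∑ i, rows dl l p k i * v i = 0) → v = 0 := by
  classical
  induction n using Nat.strong_induction_on with
  | _ n ih =>
    intro v hv hk
    by_contra hne
    obtain ⟨i0, hi0⟩ : ∃ i, v i ≠ 0 := by
      by_contra hcon
      push Not at hcon
      exact hne (funext hcon)
    obtain ⟨v', hv'⟩ : ∃ v' : ι → K, v' = fun i => (v i0)⁻¹ * v i := ⟨_, rfl⟩
    have hs : ∀ i, v' i ≠ 0 ↔ v i ≠ 0 := by
      intro i
      rw [hv']
      simp [hi0]
    have h1 : v' i0 = 1 := by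
      rw [hv']
      exact inv_mul_cancel₀ hi0
    have hk' : ∀ k, ∑ i, rows dl l p k i * v' i = 0 := by
      intro k
      have e : ∑ i, rows dl l p k i * v' i = (v i0)⁻¹ * ∑ i, rows dl l p k i * v i := by
        rw [Finset.mul_sum]
        refine Finset.sum_congr rfl fun i _ => ?_
        rw [hv']
        ring
      rw [e, hk k, mul_zero]
    obtain ⟨w, hw⟩ : ∃ w : ι → K, w = fun i => dl (v' i) - l i * v' i + l i0 * v' i := ⟨_, rfl⟩
    have hw0 : w i0 = 0 := by
      rw [hw]
      change dl (v' i0) - l i0 * v' i0 + l i0 * v' i0 = 0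
      rw [h1, Derivation.map_one_eq_zero]
      ring
    have hwk : ∀ k, ∑ i, rows dl l p k i * w i = 0 := by
      intro k
      have e1 : ∀ i, rows dl l p k i * w i = dl (rows dl l p k i * v' i) -
          rows dl l p (k + 1) i * v' i + l i0 * (rows dl l p k i * v' i) := by
        intro i
        rw [Derivation.leibniz, hw, smul_eq_mul, smul_eq_mul]
        change rows dl l p k i * (dl (v' i) - l i * v' i + l i0 * v' i) = _ -
          (dl (rows dl l p k i) + l i * rows dl l p k i) * v' i + _
        ring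
      rw [Finset.sum_congr rfl fun i _ => e1 i, Finset.sum_add_distrib, Finset.sum_sub_distrib,
        ← map_sum, ← Finset.mul_sum, hk' k, hk' (k + 1)]
      simp
    have hlt : {i | w i ≠ 0}.ncard < n := by
      rw [← hv]
      refine Set.ncard_lt_ncard ?_ (Set.toFinite _)
      refine (Set.ssubset_iff_of_subset ?_).2 ⟨i0, hi0, fun hc => hc hw0⟩
      intro i hi
      change v i ≠ 0
      rw [← hs]
      intro hc
      refine hi ?_
      rw [hw]
      change dl (v' i) - l i * v' i + l i0 * v' i = 0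
      rw [hc, map_zero]
      ring
    have hwz := ih _ hlt w rfl hwk
    have hz : ∀ i, i ≠ i0 → v' i = 0 := by
      intro i hi
      by_contra hc
      refine hmn i0 i hi.symm (quot h (mn i0) (mn i) (l i0) (l i) (v' i) (hl i0) (hl i) hc ?_)
      have e : w i = 0 := by rw [hwz]; rfl
      rw [hw] at e
      change dl (v' i) - l i * v' i + l i0 * v' i = 0 at e
      linear_combination e
    have e := hk' 0
    rw [Finset.sum_eq_single i0 (fun i _ hi => by rw [hz i hi, mul_zero])
      (fun hc => absurd (Finset.mem_univ i0) hc), h1, mul_one] at e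
    exact hp i0 e

end PCycx

open PCycx in
theorem Cyc_proof : S_Cyc := by
  classical
  intro F K R _ _ _ _ _ _ dl dR h ι _ mn p hp hmn i
  have hl' : ∀ i, ∃ a : K, dR (mn i : R) = algebraMap K R a * (mn i : R) := fun i =>
    h.unit _ (mn i).isUnit
  choose l hl using hl'
  have htop : Submodule.span K (Set.range (rows dl l p)) = ⊤ := by
    by_contra hne
    obtain ⟨f, hf0, hf⟩ := Submodule.exists_le_ker_of_lt_top _ (lt_top_iff_ne_top.2 hne)
    obtain ⟨v, hv⟩ : ∃ v : ι → K, v = fun i => f (Pi.single i 1) := ⟨_, rfl⟩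
    have hfv : ∀ x : ι → K, f x = ∑ i, x i * v i := by
      intro x
      rw [LinearMap.pi_apply_eq_sum_univ f x, hv]
      refine Finset.sum_congr rfl fun j _ => ?_
      rw [smul_eq_mul]
      congr 2
      ext j'
      rw [Pi.single_apply]
      by_cases hj : j = j'
      · rw [if_pos hj, if_pos hj.symm]
      · rw [if_neg hj, if_neg (Ne.symm hj)]
    have hv0 : v = 0 := by
      refine dual h mn l p hl hp hmn _ v rfl ?_
      intro k
      rw [← hfv]
      exact hf (Submodule.subset_span ⟨k, rfl⟩)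
    refine hf0 (LinearMap.ext fun x => ?_)
    rw [hfv, hv0]
    simp
  have hmem : (Pi.single i 1 : ι → K) ∈ Submodule.span K (Set.range (rows dl l p)) := by
    rw [htop]
    exact Submodule.mem_top
  obtain ⟨c, hc⟩ := Finsupp.mem_span_range_iff_exists_finsupp.1 hmem
  obtain ⟨N, hN⟩ : ∃ N : ℕ, ∀ k ∈ c.support, k < N :=
    ⟨c.support.sup id + 1, fun k hk => Nat.lt_succ_of_le (Finset.le_sup (f := id) hk)⟩
  refine ⟨N, fun k => c k, ?_⟩
  have hc' : ∑ k ∈ Finset.range N, c k • rows dl l p k = Pi.single i 1 := by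
    rw [← hc]
    exact (Finsupp.sum_of_support_subset c (fun k hk => Finset.mem_range.2 (hN k hk))
      (fun k a => a • rows dl l p k) (fun k _ => zero_smul K _)).symm
  have hc2 : ∀ j, ∑ k ∈ Finset.range N, c k * rows dl l p k j = (Pi.single i 1 : ι → K) j := by
    intro j
    rw [← hc', Finset.sum_apply]
    rfl
  have e1 : ∀ k : Fin N, algebraMap K R (c k) *
      ((dR : R → R)^[(k : ℕ)] (∑ i, algebraMap K R (p i) * (mn i : R))) =
      ∑ j, algebraMap K R (c k * rows dl l p k j) * (mn j : R) := by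
    intro k
    rw [iter h mn l p hl, Finset.mul_sum]
    refine Finset.sum_congr rfl fun j _ => ?_
    rw [map_mul]
    ring
  rw [Finset.sum_congr rfl fun k _ => e1 k, Finset.sum_comm]
  have e2 : ∀ j, ∑ k : Fin N, algebraMap K R (c k * rows dl l p k j) * (mn j : R) =
      algebraMap K R ((Pi.single i 1 : ι → K) j) * (mn j : R) := by
    intro j
    rw [← Finset.sum_mul, ← map_sum, ← hc2 j,
      Finset.sum_range (fun k => c k * rows dl l p k j)]
  rw [Finset.sum_congr rfl fun j _ => e2 j, Finset.sum_eq_single i]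
  · simp
  · intro j _ hj
    simp [hj]
  · intro hcon
    exact absurd (Finset.mem_univ i) hcon

end Pool.Agent.Work.MP_6d7a54_an.NG
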