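import Pool.Agent.Work.MP_6d7a54_an.NG.Stmts

/-!
# MP_6d7a54_an, block NG, item Dom: a sum of inequivalent monomials dominates its terms
-/

set_option autoImplicit false

namespace Pool.Agent.Work.MP_6d7a54_an.NG

open Pool.Agent.Work.MP_6d7a54_an.NF (NR InK IsNev)

theorem Dom_proof (h0 : S_VB) (h : S_Cyc) : S_Dom := by
  intro F K R Om _ _ _ _ _ _ dl dR A E x hx ι _ _ mn p hp hne
  have hv := h0 F K R Om dl dR A E x hx
  have hc := h F K R dl dR hx.nr ι mn p hp hne
  set G : R := ∑ i, algebraMap K R (p i) * (mn i : R) with hG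
  have hG0 : G ≠ 0 := by
    intro h1
    obtain ⟨i⟩ := ‹Nonempty ι›
    obtain ⟨N, b, hb⟩ := hc i
    have h2 : ∀ k : ℕ, ((dR : R → R)^[k] (0 : R)) = 0 := by
      intro k
      induction k with
      | zero => rfl
      | succ k ih => rw [Function.iterate_succ_apply', ih, map_zero]
    rw [h1] at hb
    apply (mn i).ne_zero
    rw [hb]
    exact Finset.sum_eq_zero fun k _ => by rw [h2, mul_zero]
  refine ⟨hG0, fun i => ?_⟩
  have hGA : x G ∈ A := hx.mem G hG0
  have h3 : ∀ k : ℕ, Dm E x ((dR : R → R)^[k] G) (x G) := by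
    intro k
    induction k with
    | zero => exact hv.self G hG0
    | succ k ih =>
      rw [Function.iterate_succ_apply']
      exact hv.der _ _ hGA ih
  obtain ⟨N, b, hb⟩ := hc i
  have h4 : ∀ k : Fin N, Dm E x (algebraMap K R (b k) * ((dR : R → R)^[(k : ℕ)] G)) (x G) := by
    intro k
    have := hv.mul _ _ 0 A.zero_mem (x G) hGA (hv.cst (b k)) (h3 k)
    rwa [zero_add] at this
  have h5 : ∀ T : Finset (Fin N),
      Dm E x (∑ k ∈ T, algebraMap K R (b k) * ((dR : R → R)^[(k : ℕ)] G)) (x G) := by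
    classical
    intro T
    induction T using Finset.induction_on with
    | empty =>
      rw [Finset.sum_empty]
      exact hv.zero _
    | insert a s ha ih =>
      rw [Finset.sum_insert ha]
      exact hv.add _ _ _ hGA (h4 a) ih
  have h6 := h5 Finset.univ
  rw [← hb] at h6
  exact h6.resolve_left (mn i).ne_zero

end Pool.Agent.Work.MP_6d7a54_an.NG
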