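import Pool.Agent.Work.MP_6d7a54_an.NG.StmtsA

/-!
# MP_6d7a54_an, block NG: the mean
-/

set_option autoImplicit false

namespace Pool.Agent.Work.MP_6d7a54_an.NG

open MvPolynomial Filter Metric Set Topology Real MeasureTheory
open Pool.Agent.Work.MP_6d7a54_an.NF (UF)

namespace PEFx

/-- bounded sequences converge along the ultrafilter -/
theorem lim {f : ℕ → ℝ} {K : ℝ} (h : ∀ᶠ n in UF, |f n| ≤ K) : ∃ L, Tendsto f UF (𝓝 L) := by
  have h1 : ((hyperfilter ℕ).map f : Filter ℝ) ≤ 𝓟 (Icc (-K) K) := by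
    rw [Ultrafilter.coe_map, le_principal_iff, mem_map]
    filter_upwards [h] with n hn
    exact abs_le.1 hn
  obtain ⟨L, -, hL⟩ := isCompact_Icc.ultrafilter_le_nhds _ h1
  exact ⟨L, hL⟩

theorem ci_sup {f g : ℂ → ℝ} {c : ℂ} {R : ℝ} (hf : CircleIntegrable f c R)
    (hg : CircleIntegrable g c R) : CircleIntegrable (fun z => f z ⊔ g z) c R :=
  ⟨hf.1.sup hg.1, hf.2.sup hg.2⟩

theorem ci_add {f g : ℂ → ℝ} {c : ℂ} {R : ℝ} (hf : CircleIntegrable f c R)
    (hg : CircleIntegrable g c R) : CircleIntegrable (fun z => f z + g z) c R :=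
  ⟨hf.1.add hg.1, hf.2.add hg.2⟩

theorem ci_smul {f : ℂ → ℝ} {c : ℂ} {R : ℝ} (a : ℝ) (hf : CircleIntegrable f c R) :
    CircleIntegrable (fun z => a * f z) c R :=
  ⟨hf.1.const_mul a, hf.2.const_mul a⟩

theorem ci_abs {f : ℂ → ℝ} {c : ℂ} {R : ℝ} (hf : CircleIntegrable f c R) :
    CircleIntegrable (fun z => |f z|) c R :=
  ⟨hf.1.abs, hf.2.abs⟩

variable {c : ℕ → ℂ} {r T : ℕ → ℝ}

/-- comparison -/
theorem dom {v w u : ℕ × ℂ → ℝ} (hv : InA c r T v) (hw : InA c r T w)
    (hu : ∀ n, CircleIntegrable (fun z => u (n, z)) (c n) (r n))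
    (h : ∀ p, |u p| ≤ |v p| + |w p|) : InA c r T u := by
  obtain ⟨hv1, K, hK⟩ := hv
  obtain ⟨hw1, K', hK'⟩ := hw
  refine ⟨hu, K + K', ?_⟩
  filter_upwards [hK, hK'] with n h1 h2
  have h3 : Real.circleAverage (fun z => |u (n, z)|) (c n) (r n) ≤
      Real.circleAverage (fun z => |v (n, z)| + |w (n, z)|) (c n) (r n) :=
    Real.circleAverage_mono (ci_abs (hu n)) (ci_add (ci_abs (hv1 n)) (ci_abs (hw1 n)))
      fun z _ => h (n, z)
  have h4 : Real.circleAverage (fun z => |v (n, z)| + |w (n, z)|) (c n) (r n) =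
      Real.circleAverage (fun z => |v (n, z)|) (c n) (r n) +
        Real.circleAverage (fun z => |w (n, z)|) (c n) (r n) :=
    Real.circleAverage_fun_add (ci_abs (hv1 n)) (ci_abs (hw1 n))
  rw [add_mul]
  linarith

theorem zero_mem : InA c r T 0 := by
  refine ⟨fun n => ?_, 0, Eventually.of_forall fun n => ?_⟩
  · exact circleIntegrable_const 0 (c n) (r n)
  · have h : Real.circleAverage (fun z : ℂ => |(0 : ℕ × ℂ → ℝ) (n, z)|) (c n) (r n) = 0 := by
      have h1 : (fun z : ℂ => |(0 : ℕ × ℂ → ℝ) (n, z)|) = fun _ => (0 : ℝ) := by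
        funext z
        simp
      rw [h1]
      exact Real.circleAverage_const 0 (c n) (r n)
    rw [h, zero_mul]

theorem add_mem {v w : ℕ × ℂ → ℝ} (hv : InA c r T v) (hw : InA c r T w) :
    InA c r T (v + w) :=
  dom hv hw (fun n => ci_add (hv.1 n) (hw.1 n)) fun p => abs_add_le _ _

theorem sup_mem {v w : ℕ × ℂ → ℝ} (hv : InA c r T v) (hw : InA c r T w) :
    InA c r T (v ⊔ w) := by
  refine dom hv hw (fun n => ci_sup (hv.1 n) (hw.1 n)) fun p => ?_
  have h1 := abs_nonneg (v p)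
  have h2 := abs_nonneg (w p)
  rcases le_total (v p) (w p) with h | h
  · rw [Pi.sup_apply, sup_eq_right.2 h]
    linarith
  · rw [Pi.sup_apply, sup_eq_left.2 h]
    linarith

theorem smul_avg (a : ℝ) (f : ℂ → ℝ) (d : ℂ) (R : ℝ) :
    Real.circleAverage (fun z => a * f z) d R = a * Real.circleAverage f d R := by
  have h := Real.circleAverage_fun_smul (a := a) (f := f) (c := d) (R := R)
  simpa only [smul_eq_mul] using h

theorem smul_mem (a : ℝ) {v : ℕ × ℂ → ℝ} (hv : InA c r T v) : InA c r T (a • v) := by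
  obtain ⟨hv1, K, hK⟩ := hv
  refine ⟨fun n => ci_smul a (hv1 n), |a| * K, ?_⟩
  filter_upwards [hK] with n h1
  have h2 : Real.circleAverage (fun z : ℂ => |(a • v) (n, z)|) (c n) (r n) =
      |a| * Real.circleAverage (fun z => |v (n, z)|) (c n) (r n) := by
    rw [← smul_avg]
    congr 1
    funext z
    rw [Pi.smul_apply, smul_eq_mul, abs_mul]
  rw [h2, mul_assoc]
  exact mul_le_mul_of_nonneg_left h1 (abs_nonneg a)

/-- the vector lattice -/
def AA (c : ℕ → ℂ) (r T : ℕ → ℝ) : Submodule ℝ (ℕ × ℂ → ℝ) where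
  carrier := {v | InA c r T v}
  add_mem' := fun hv hw => add_mem hv hw
  zero_mem' := zero_mem
  smul_mem' := fun a _ hv => smul_mem a hv

/-- the averages -/
noncomputable def av (c : ℕ → ℂ) (r T : ℕ → ℝ) (v : ℕ × ℂ → ℝ) (n : ℕ) : ℝ :=
  Real.circleAverage (fun z => v (n, z)) (c n) (r n) / T n

theorem ex_lim (hT : ∀ᶠ n in UF, 0 < T n) {v : ℕ × ℂ → ℝ} (hv : InA c r T v) :
    ∃ L, Tendsto (av c r T v) UF (𝓝 L) := by
  obtain ⟨hv1, K, hK⟩ := hv
  refine lim (K := K) ?_
  filter_upwards [hK, hT] with n h1 h2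
  unfold av
  rw [abs_div, abs_of_pos h2, div_le_iff₀ h2]
  refine le_trans ?_ h1
  exact Real.abs_circleAverage_le_circleAverage_abs

theorem av_add {v w : ℕ × ℂ → ℝ} (hv : InA c r T v) (hw : InA c r T w) (n : ℕ) :
    av c r T (v + w) n = av c r T v n + av c r T w n := by
  unfold av
  rw [← add_div]
  congr 1
  exact Real.circleAverage_fun_add (hv.1 n) (hw.1 n)

theorem av_smul (a : ℝ) (v : ℕ × ℂ → ℝ) (n : ℕ) :
    av c r T (a • v) n = a * av c r T v n := by
  unfold av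
  rw [← mul_div_assoc, ← smul_avg]
  rfl

end PEFx

open PEFx in
theorem EF_proof : S_EF := by
  intro c r T hT
  have hex : ∀ v : AA c r T, ∃ L, Tendsto (av c r T v) UF (𝓝 L) := fun v => ex_lim hT v.2
  choose L hL using hex
  let E0 : AA c r T →ₗ[ℝ] ℝ :=
    { toFun := L
      map_add' := fun v w => by
        have h1 : Tendsto (av c r T ((v + w : AA c r T) : ℕ × ℂ → ℝ)) UF (𝓝 (L v + L w)) := by
          have h2 := (hL v).add (hL w)
          refine h2.congr fun n => ?_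
          exact (av_add v.2 w.2 n).symm
        exact tendsto_nhds_unique (hL (v + w)) h1
      map_smul' := fun a v => by
        have h1 : Tendsto (av c r T ((a • v : AA c r T) : ℕ × ℂ → ℝ)) UF (𝓝 (a * L v)) := by
          have h2 := (hL v).const_mul a
          refine h2.congr fun n => ?_
          exact (av_smul a v n).symm
        exact tendsto_nhds_unique (hL (a • v)) h1 }
  obtain ⟨E, hE⟩ := LinearMap.exists_extend E0
  have hEL : ∀ (v : ℕ × ℂ → ℝ) (hv : v ∈ AA c r T), E v = L ⟨v, hv⟩ := by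
    intro v hv
    have h1 := LinearMap.congr_fun hE (⟨v, hv⟩ : AA c r T)
    exact h1
  have hlim : ∀ v ∈ AA c r T, Tendsto (av c r T v) UF (𝓝 (E v)) := by
    intro v hv
    rw [hEL v hv]
    exact hL ⟨v, hv⟩
  refine ⟨AA c r T, E, fun v => Iff.rfl, fun v hv w hw => sup_mem hv hw, fun v hv h0 => ?_,
    fun v hv => hlim v hv⟩
  refine ge_of_tendsto (hlim v hv) ?_
  filter_upwards [hT] with n hn
  exact div_nonneg (Real.circleAverage_nonneg_of_nonneg fun z _ => h0 (n, z)) hn.le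

end Pool.Agent.Work.MP_6d7a54_an.NG
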