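import Pool.Agent.Work.MP_6d7a54_an.NG.StmtsA
import Pool.Agent.Work.MP_6d7a54_an.NF.I_lo

/-!
# Logarithms of elements are integrable of finite order (MP_6d7a54_an)
-/

set_option autoImplicit false

namespace Pool.Agent.Work.MP_6d7a54_an.NG

open MvPolynomial Filter Metric Set Topology Real
open Pool.Agent.Work.MP_6d7a54_an.NF (NR InK IsNev Conf Cen Rad DP ev dd Tiny TT UF sm lo BadSeq)

noncomputable section

namespace PELx

theorem abs_log (x : ℝ) : |Real.log x| = 2 * Real.posLog x - Real.log x := by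
  have h := Real.half_mul_log_add_log_abs (x := x)
  linarith

end PELx

open PELx in
theorem EL_proof (h1 : NF.S_Mx) (h2 : NF.S_ev) (h3 : NF.S_fin) (h4 : NF.S_lo) : S_EL := by
  intro F I _ _ d C u0 g u a b c r hC hc hr P hP
  have hint : ∀ n, CircleIntegrable (fun z => Real.log ‖ev (g n) z P‖) (c n) (r n) := by
    intro n
    refine MeromorphicOn.circleIntegrable_log_norm_of_nonneg ?_ (NF.lox.rpos hC hr n).le
    exact ((NF.lox.ana h2 hC hc hr P n).mono sphere_subset_closedBall).meromorphicOn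
  have hpos : ∀ n, CircleIntegrable (fun z => Real.posLog ‖ev (g n) z P‖) (c n) (r n) := by
    intro n
    have e : (fun z => Real.posLog ‖ev (g n) z P‖) = fun z =>
        (2 : ℝ)⁻¹ • (Real.log ‖ev (g n) z P‖ + |Real.log ‖ev (g n) z P‖|) := by
      funext z
      rw [smul_eq_mul, Real.half_mul_log_add_log_abs]
    rw [e]
    exact ((hint n).add (hint n).abs).const_smul
  refine ⟨hint, ?_⟩
  obtain ⟨K, hK⟩ := h3 F I d C u0 g u a b c r hC hc hr P
  refine ⟨2 * K + 1, ?_⟩
  filter_upwards [hK, (h4 F I d C u0 g u a b c r hC hc hr).2.1 P hP 1 one_pos] with n hn hn'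
  have e1 : (fun z => Real.log ‖ev (g n) z P‖ - Real.log ‖ev (g n) z (1 : DP F I)‖) =
      fun z => Real.log ‖ev (g n) z P‖ := by
    funext z
    rw [NF.lox.ev_one, norm_one, Real.log_one, sub_zero]
  rw [e1] at hn'
  have e2 : (fun z => |Real.log ‖ev (g n) z P‖|) = fun z =>
      (2 : ℝ) • Real.posLog ‖ev (g n) z P‖ - Real.log ‖ev (g n) z P‖ := by
    funext z
    rw [smul_eq_mul]
    exact abs_log _
  show Real.circleAverage (fun z => |Real.log ‖ev (g n) z P‖|) (c n) (r n) ≤
    (2 * K + 1) * TT (u n) (c n) (r n)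
  have e3 : CircleIntegrable (fun z => (2 : ℝ) • Real.posLog ‖ev (g n) z P‖) (c n) (r n) :=
    (hpos n).const_smul
  rw [e2, Real.circleAverage_fun_sub e3 (hint n), Real.circleAverage_fun_smul, smul_eq_mul]
  linarith

end

end Pool.Agent.Work.MP_6d7a54_an.NG
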