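import Pool.Agent.Work.MP_6d7a54_an.NG.StmtsA

/-!
# The characteristic tends to infinity (MP_6d7a54_an)
-/

namespace Pool.Agent.Work.MP_6d7a54_an.NG

open MvPolynomial Filter Metric Set Topology Real
open Pool.Agent.Work.MP_6d7a54_an.NF (NR InK IsNev Conf Cen Rad DP ev dd Tiny TT UF sm lo BadSeq)

namespace PEPx

lemma le_Mx (h1 : NF.S_Mx) {F I : Type} [Field F] [Algebra F ℂ] {d : ℕ} {C : ℝ}
    {u0 : Fin d → ℂ} {g : ℕ → I → ℂ → ℂ} {u : ℕ → Fin d → ℂ → ℂ} {a b : ℕ → ℝ}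
    (hC : Conf F C u0 g u a b) (n : ℕ) (hn : 2 ≤ n) :
    (n : ℝ) ≤ NF.Mx (u n) (a n / 16) := by
  obtain ⟨hM0, -, hM3, -⟩ := h1 d (u n) (hC.dat n).hu
  have hb := hC.hb n
  have hab := hC.hab n
  have ha := hC.ha n
  have hbig := hC.big n
  have hn' : (2 : ℝ) ≤ n := by exact_mod_cast hn
  have h27 : (27 : ℝ) ≤ ((n : ℝ) + 1) ^ 3 := by
    have h3 : (3 : ℝ) ≤ (n : ℝ) + 1 := by linarith
    calc (27 : ℝ) = 3 ^ 3 := by norm_num
      _ ≤ ((n : ℝ) + 1) ^ 3 := pow_le_pow_left₀ (by norm_num) h3 3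
  have hb27 : b n * 27 ≤ a n := le_trans (mul_le_mul_of_nonneg_left h27 hb.le) hab
  have hb16 : b n ≤ a n / 16 := by linarith
  have ha16 : 0 < a n / 16 := lt_of_lt_of_le hb hb16
  have hth : b n / (a n / 16) ≤ 1 := (div_le_one ha16).2 hb16
  have hth0 : 0 < b n / (a n / 16) := div_pos hb ha16
  have hM := hM3 (b n / (a n / 16)) (a n / 16) hth0 hth ha16 (by linarith)
  rw [div_mul_cancel₀ _ ha16.ne'] at hM
  have hM2 : b n / (a n / 16) * NF.Mx (u n) (a n / 16) ≤ NF.Mx (u n) (a n / 16) :=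
    mul_le_of_le_one_left (hM0 _) hth
  have hlog : 0 ≤ Real.log (1 / b n) := by
    apply Real.log_nonneg
    rw [le_div_iff₀ hb]
    linarith
  have hn0 : (n : ℝ) ≤ (n : ℝ) * (1 + Real.log (1 / b n)) := by
    have : 0 ≤ (n : ℝ) * Real.log (1 / b n) := mul_nonneg (by linarith) hlog
    linarith
  linarith

end PEPx

theorem EP_proof (h1 : NF.S_Mx) : S_EP := by
  intro F I _ _ d C u0 g u a b c r hC _ hR K
  obtain ⟨kap, hkap, htt⟩ := hR.tt
  have hev : ∀ᶠ n : ℕ in UF, 2 ≤ n ∧ K / kap ≤ (n : ℝ) := by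
    have h2 : ∀ᶠ n : ℕ in atTop, 2 ≤ n ∧ K / kap ≤ (n : ℝ) :=
      (eventually_ge_atTop 2).and (tendsto_natCast_atTop_atTop.eventually_ge_atTop (K / kap))
    exact (Nat.hyperfilter_le_atTop) h2
  filter_upwards [hev, htt] with n hn htn
  have h3 := PEPx.le_Mx h1 hC n hn.1
  have h4 : K / kap ≤ NF.Mx (u n) (a n / 16) := hn.2.trans h3
  rw [div_le_iff₀ hkap] at h4
  linarith [mul_comm kap (NF.Mx (u n) (a n / 16))]

end Pool.Agent.Work.MP_6d7a54_an.NG
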