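import Pool.Agent.Work.MP_6d7a54_an.NG.StmtsA
import Pool.Agent.Work.MP_6d7a54_an.NF.I_s1

/-!
# Pointwise facts on the circles (MP_6d7a54_an)
-/

set_option autoImplicit false

namespace Pool.Agent.Work.MP_6d7a54_an.NG

open Filter Metric Set Topology Real
open Pool.Agent.Work.MP_6d7a54_an.NF (NR InK IsNev Conf Cen Rad DP ev dd Tiny TT UF sm lo BadSeq
  Mx)

noncomputable section

namespace PETx

/-- the pointwise inequality -/
theorem point {p q p' q' t : ℂ} {X : ℝ} (hX : 4 ≤ X) (ht : t = p * q' - p' * q)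
    (h0 : ‖t‖ ≤ Real.exp (-X)) (h1 : Real.exp (-(1 / 4 * X)) ≤ ‖p‖)
    (h2 : Real.exp (-(1 / 4 * X)) ≤ ‖q‖) (h3 : Real.exp (-(1 / 4 * X)) ≤ ‖p'‖)
    (h4 : Real.exp (-(1 / 4 * X)) ≤ ‖q'‖) :
    |(Real.log ‖p‖ - Real.log ‖q‖) - (Real.log ‖p'‖ - Real.log ‖q'‖)| ≤ 1 := by
  have hp : 0 < ‖p‖ := (Real.exp_pos _).trans_le h1
  have hq : 0 < ‖q‖ := (Real.exp_pos _).trans_le h2
  have hp' : 0 < ‖p'‖ := (Real.exp_pos _).trans_le h3
  have hq' : 0 < ‖q'‖ := (Real.exp_pos _).trans_le h4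
  have hp0' : p' ≠ 0 := norm_pos_iff.1 hp'
  have hq0 : q ≠ 0 := norm_pos_iff.1 hq
  have e1 : (p * q') / (p' * q) = 1 + t / (p' * q) := by
    rw [ht]
    field_simp
    ring
  have e2 : ‖t / (p' * q)‖ ≤ 1 / 4 := by
    rw [norm_div, norm_mul, div_le_iff₀ (mul_pos hp' hq)]
    have e3 : Real.exp (-X) ≤ 1 / 4 * (Real.exp (-(1 / 4 * X)) * Real.exp (-(1 / 4 * X))) := by
      have e4 : Real.exp (-X) = Real.exp (-(1 / 2 * X)) *
          (Real.exp (-(1 / 4 * X)) * Real.exp (-(1 / 4 * X))) := by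
        rw [← Real.exp_add, ← Real.exp_add]
        congr 1
        ring
      have e5 : Real.exp (-(1 / 2 * X)) ≤ 1 / 4 := by
        have e6 : Real.exp (-(1 / 2 * X)) ≤ Real.exp (-2) := Real.exp_le_exp.2 (by linarith)
        have e7 : Real.exp (-2) ≤ 1 / 4 := by
          rw [Real.exp_neg, inv_le_comm₀ (Real.exp_pos _) (by norm_num)]
          have e8 : (2 : ℝ) ≤ Real.exp 1 := by
            have := Real.add_one_le_exp (1 : ℝ)
            linarith
          have e9 : Real.exp 2 = Real.exp 1 * Real.exp 1 := by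
            rw [← Real.exp_add]
            norm_num
          rw [e9]
          nlinarith
        linarith
      rw [e4]
      exact mul_le_mul_of_nonneg_right e5 (by positivity)
    calc ‖t‖ ≤ Real.exp (-X) := h0
      _ ≤ 1 / 4 * (Real.exp (-(1 / 4 * X)) * Real.exp (-(1 / 4 * X))) := e3
      _ ≤ 1 / 4 * (‖p'‖ * ‖q‖) := by
        apply mul_le_mul_of_nonneg_left _ (by norm_num)
        exact mul_le_mul h3 h2 (Real.exp_pos _).le hp'.le
  have e3 : (Real.log ‖p‖ - Real.log ‖q‖) - (Real.log ‖p'‖ - Real.log ‖q'‖) =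
      Real.log ‖(p * q') / (p' * q)‖ := by
    rw [norm_div, norm_mul, norm_mul, Real.log_div (mul_pos hp hq').ne' (mul_pos hp' hq).ne',
      Real.log_mul hp.ne' hq'.ne', Real.log_mul hp'.ne' hq.ne']
    ring
  rw [e3, e1]
  have u1 : ‖1 + t / (p' * q)‖ ≤ 5 / 4 := by
    have := norm_add_le (1 : ℂ) (t / (p' * q))
    rw [norm_one] at this
    linarith
  have u2 : 3 / 4 ≤ ‖1 + t / (p' * q)‖ := by
    have := norm_sub_le (1 + t / (p' * q)) (t / (p' * q))
    rw [add_sub_cancel_right, norm_one] at this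
    linarith
  have u0 : 0 < ‖1 + t / (p' * q)‖ := by linarith
  rw [abs_le]
  constructor
  · have := Real.one_sub_inv_le_log_of_pos u0
    have v : ‖1 + t / (p' * q)‖⁻¹ ≤ 4 / 3 := by
      rw [inv_le_comm₀ u0 (by norm_num)]
      linarith
    linarith
  · have := Real.log_le_sub_one_of_pos u0
    linarith

end PETx

open PETx in
theorem ET_proof (h1 : NF.S_Mx) : S_ET := by
  intro F I _ _ d C u0 g u a b c r hConf hCen hRad
  refine ⟨?_, ?_⟩
  · intro P hP
    filter_upwards [hRad.lower P hP 1 one_pos] with n hn z hz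
    exact norm_pos_iff.1 ((Real.exp_pos _).trans_le (hn z hz))
  · intro P Q P' Q' hP hQ hP' hQ' hT
    have hn0 : ∀ᶠ n : ℕ in UF, 2 ≤ n := by
      have h : ∀ᶠ n : ℕ in atTop, 2 ≤ n := eventually_ge_atTop 2
      rw [← Nat.cofinite_eq_atTop] at h
      exact Filter.hyperfilter_le_cofinite h
    filter_upwards [hn0, hT, hRad.lower P hP (1 / 4) (by norm_num),
      hRad.lower Q hQ (1 / 4) (by norm_num), hRad.lower P' hP' (1 / 4) (by norm_num),
      hRad.lower Q' hQ' (1 / 4) (by norm_num)] with n hn hn3 hl1 hl2 hl3 hl4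
    have hb := hConf.hb n
    have hab := hConf.hab n
    have ha := hConf.ha n
    have hbig := hConf.big n
    have hc := hCen.hc n
    have hr1 := hRad.h1 n
    have hr2 := hRad.h2 n
    obtain ⟨hM0, -, hM2, -⟩ := h1 d (u n) (hConf.dat n).hu
    have hn2' : (2 : ℝ) ≤ (n : ℝ) := by exact_mod_cast hn
    have hcube : (27 : ℝ) ≤ ((n : ℝ) + 1) ^ 3 := by
      have : (3 : ℝ) ^ 3 ≤ ((n : ℝ) + 1) ^ 3 := pow_le_pow_left₀ (by norm_num) (by linarith) 3
      linarith [show (3 : ℝ) ^ 3 = 27 by norm_num]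
    have hba : 27 * b n ≤ a n := by
      have := mul_le_mul_of_nonneg_left hcube hb.le
      linarith
    have ha0 : 0 < a n := by linarith
    have hsph : ∀ z ∈ sphere (c n) (r n), ‖z‖ ≤ a n := by
      intro z hz
      have e : ‖z - c n‖ = r n := by rw [← dist_eq_norm]; exact hz
      have : ‖z‖ ≤ ‖z - c n‖ + ‖c n‖ := by
        have := norm_add_le (z - c n) (c n)
        rwa [sub_add_cancel] at this
      linarith
    have hMb : (n : ℝ) ≤ Mx (u n) (b n) := by
      have hlog : 0 ≤ Real.log (1 / b n) := by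
        apply Real.log_nonneg
        rw [le_div_iff₀ hb]
        linarith
      have : (n : ℝ) * 1 ≤ (n : ℝ) * (1 + Real.log (1 / b n)) :=
        mul_le_mul_of_nonneg_left (by linarith) (by linarith)
      linarith
    have hMb2 : Mx (u n) (b n) ≤ Mx (u n) (a n) := by
      have e := hM2 (b n / a n) (a n) (by positivity)
        (by rw [div_le_one (by linarith)]; linarith) (by linarith) (by linarith)
      rw [div_mul_cancel₀ _ (by linarith : a n ≠ 0)] at e
      refine e.trans ?_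
      have : b n / a n ≤ 1 := by rw [div_le_one (by linarith)]; linarith
      calc b n / a n * Mx (u n) (a n) ≤ 1 * Mx (u n) (a n) :=
            mul_le_mul_of_nonneg_right this (hM0 _)
        _ = _ := one_mul _
    have hX : 4 ≤ (n : ℝ) * Mx (u n) (a n) := by
      nlinarith [hMb.trans hMb2]
    intro z hz
    refine point hX (t := ev (g n) z (P * Q' - P' * Q)) ?_ (hn3 z (hsph z hz)) (hl1 z hz)
      (hl2 z hz) (hl3 z hz) (hl4 z hz)
    rw [NF.s1x.ev_sub, NF.s1x.ev_mul, NF.s1x.ev_mul]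

end

end Pool.Agent.Work.MP_6d7a54_an.NG
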