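import Pool.Agent.Work.MP_6d7a54_an.NG.Stmts

/-!
# Extension of derivations in characteristic zero (MP_6d7a54_an, item Ex0)
-/

namespace Pool.Agent.Work.MP_6d7a54_an.NG

namespace PEx0x

/-- field extensions of characteristic zero are formally smooth -/
theorem smooth0 (K L : Type) [Field K] [Field L] [CharZero K] [Algebra K L] :
    Algebra.FormallySmooth K L := by
  obtain ⟨s, hs⟩ := exists_isTranscendenceBasis K L
  have h1 : Algebra.IsAlgebraic (IntermediateField.adjoin K (Set.range ((↑) : s → L))) L :=
    hs.isAlgebraic_field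
  have h2 : CharZero (IntermediateField.adjoin K (Set.range ((↑) : s → L))) :=
    charZero_of_injective_algebraMap
      (algebraMap K (IntermediateField.adjoin K (Set.range ((↑) : s → L)))).injective
  exact Algebra.FormallySmooth.of_algebraicIndependent_of_isSeparable hs.1

/-- lifting of the identity along a square zero extension -/
theorem lift0 (K L S : Type) [Field K] [Field L] [CharZero K] [Algebra K L] [CommRing S]
    (φ : S →+* L) (hs : Function.Surjective φ) (hk : IsNilpotent (RingHom.ker φ))
    (ψ : K →+* S) (h : ∀ a, φ (ψ a) = algebraMap K L a) :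
    ∃ σ : L →+* S, (∀ x, φ (σ x) = x) ∧ ∀ a, σ (algebraMap K L a) = ψ a := by
  let _ : Algebra K S := ψ.toAlgebra
  have hsm : Algebra.FormallySmooth K L := smooth0 K L
  let g : S →ₐ[K] L := { φ with commutes' := fun a => h a }
  have hg : Function.Surjective g := hs
  have hg' : IsNilpotent (RingHom.ker (g : S →+* L)) := hk
  refine ⟨(Algebra.FormallySmooth.liftOfSurjective (AlgHom.id K L) g hg hg' : L →ₐ[K] S), ?_, ?_⟩
  · intro x
    exact Algebra.FormallySmooth.liftOfSurjective_apply (AlgHom.id K L) g hg hg' x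
  · intro a
    exact (Algebra.FormallySmooth.liftOfSurjective (AlgHom.id K L) g hg hg').commutes a

/-- the ring homomorphism to the dual numbers defined by a derivation -/
noncomputable def toDual (B E : Type) [CommRing B] [Field E] [Algebra B E]
    (de : Derivation ℤ B E) : B →+* TrivSqZeroExt E E where
  toFun a := TrivSqZeroExt.inl (algebraMap B E a) + TrivSqZeroExt.inr (de a)
  map_one' := by
    ext <;> simp
  map_mul' a b := by
    ext
    · simp
    · simp only [TrivSqZeroExt.snd_add, TrivSqZeroExt.snd_inl, TrivSqZeroExt.snd_inr,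
        TrivSqZeroExt.snd_mul, TrivSqZeroExt.fst_add, TrivSqZeroExt.fst_inl,
        TrivSqZeroExt.fst_inr, Derivation.leibniz, Algebra.smul_def, op_smul_eq_smul,
        Algebra.algebraMap_self, RingHom.id_apply, add_zero, zero_add]
  map_zero' := by
    ext <;> simp
  map_add' a b := by
    ext <;> simp

theorem toDual_fst (B E : Type) [CommRing B] [Field E] [Algebra B E]
    (de : Derivation ℤ B E) (a : B) : (toDual B E de a).fst = algebraMap B E a := by
  simp [toDual]

theorem toDual_snd (B E : Type) [CommRing B] [Field E] [Algebra B E]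
    (de : Derivation ℤ B E) (a : B) : (toDual B E de a).snd = de a := by
  simp [toDual]

/-- a section of the dual numbers is a derivation -/
theorem section_der (E : Type) [Field E] (σ : E →+* TrivSqZeroExt E E)
    (h : ∀ x, (σ x).fst = x) : ∃ D : Derivation ℤ E E, ∀ x, D x = (σ x).snd := by
  refine ⟨Derivation.mk' (AddMonoidHom.toIntLinearMap
    { toFun := fun x => (σ x).snd, map_zero' := by simp, map_add' := fun x y => by simp }) ?_, ?_⟩
  · intro a b
    simp [h]
    ring
  · intro x
    rfl

end PEx0x

open PEx0x in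
theorem Ex0_proof : S_Ex0 := by
  intro B E _ _ _ _ de hde
  set P : Ideal B := RingHom.ker (algebraMap B E) with hP
  have hPp : P.IsPrime := RingHom.ker_isPrime _
  -- the homomorphism from the quotient
  let e1 : B ⧸ P →+* E := Ideal.Quotient.lift P (algebraMap B E) (fun a ha => ha)
  have he1 : Function.Injective e1 := RingHom.kerLift_injective (algebraMap B E)
  let s1 : B ⧸ P →+* TrivSqZeroExt E E := Ideal.Quotient.lift P (toDual B E de) (by
    intro a ha
    have ha' : algebraMap B E a = 0 := ha
    ext
    · rw [toDual_fst, ha']; rfl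
    · rw [toDual_snd, hde a ha']; rfl)
  have hfs : ∀ y, (s1 y).fst = e1 y := by
    intro y
    obtain ⟨a, rfl⟩ := Ideal.Quotient.mk_surjective y
    simp only [s1, e1, Ideal.Quotient.lift_mk, toDual_fst]
  have : IsDomain (B ⧸ P) := Ideal.Quotient.isDomain P
  let k0 := FractionRing (B ⧸ P)
  have hu1 : ∀ y : nonZeroDivisors (B ⧸ P), IsUnit (e1 y) := by
    intro y
    have hy : (y : B ⧸ P) ≠ 0 := nonZeroDivisors.ne_zero y.2
    exact isUnit_iff_ne_zero.mpr (fun h => hy (he1 (by rw [h, map_zero])))
  have hu2 : ∀ y : nonZeroDivisors (B ⧸ P), IsUnit (s1 y) := by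
    intro y
    rw [TrivSqZeroExt.isUnit_iff_isUnit_fst, hfs]
    exact hu1 y
  let e2 : k0 →+* E := IsLocalization.lift hu1
  let s2 : k0 →+* TrivSqZeroExt E E := IsLocalization.lift hu2
  let _ : Algebra k0 E := e2.toAlgebra
  have hcomp : ∀ z : k0, TrivSqZeroExt.fstHom ℤ E E (s2 z) = e2 z := by
    have h : ((TrivSqZeroExt.fstHom ℤ E E : TrivSqZeroExt E E →+* E).comp s2) = e2 := by
      apply IsLocalization.ringHom_ext (nonZeroDivisors (B ⧸ P))
      ext y
      simp only [RingHom.comp_apply, e2, s2, IsLocalization.lift_eq]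
      exact hfs _
    intro z
    exact DFunLike.congr_fun h z
  have : CharZero k0 := RingHom.charZero e2
  obtain ⟨σ, h1, h2⟩ := lift0 k0 E (TrivSqZeroExt E E)
    (TrivSqZeroExt.fstHom ℤ E E : TrivSqZeroExt E E →+* E)
    (fun x => ⟨TrivSqZeroExt.inl x, by simp⟩) (by
      refine ⟨2, ?_⟩
      rw [pow_two]
      rw [Ideal.zero_eq_bot, eq_bot_iff, Ideal.mul_le]
      intro a ha b hb
      have ha' : a.fst = 0 := ha
      have hb' : b.fst = 0 := hb
      rw [Ideal.mem_bot]
      ext
      · simp [ha']
      · simp [ha', hb']) s2 hcomp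
  obtain ⟨D, hD⟩ := section_der E σ h1
  refine ⟨D, fun a => ?_⟩
  rw [hD]
  have h3 : algebraMap B E a = algebraMap k0 E (algebraMap (B ⧸ P) k0 (Ideal.Quotient.mk P a)) := by
    change _ = e2 _
    simp only [e2, IsLocalization.lift_eq, e1, Ideal.Quotient.lift_mk]
  rw [h3, h2]
  simp only [s2, IsLocalization.lift_eq, s1, Ideal.Quotient.lift_mk, toDual_snd]

end Pool.Agent.Work.MP_6d7a54_an.NG
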