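import Pool.Agent.Work.MP_6d7a54_an.NG.Stmts

/-! Item Fib: finite fibres. -/

set_option autoImplicit false

namespace Pool.Agent.Work.MP_6d7a54_an.NG

open MvPolynomial

theorem Fib_proof (h : S_Int) : S_Fib := by
  intro F _ _ n Q dg hNC Om _ _ y
  obtain ⟨-, -, -, hint⟩ := h F n Q dg hNC
  choose P hP1 hP2 using fun j : Fin (n + 1) => hint (X j)
  have hfin : ∀ j : Fin (n + 1), {z : Om | ((P j).map
      ((aeval y : MvPolynomial (Fin (n + 1)) F →ₐ[F] Om) :
        MvPolynomial (Fin (n + 1)) F →+* Om)).IsRoot z}.Finite := by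
    intro j
    exact Polynomial.finite_setOfPred_isRoot ((hP1 j).map _).ne_zero
  refine (Set.Finite.pi hfin).subset ?_
  intro p hp j _
  have hp' : ∀ a, aeval p (Q a) = y a := hp
  show ((P j).map _).IsRoot (p j)
  rw [Polynomial.IsRoot.def, Polynomial.eval_map]
  have h1 := congrArg (aeval p : MvPolynomial (Fin (n + 1)) F →ₐ[F] Om) (hP2 j)
  rw [map_zero] at h1
  have h2 : (((aeval p : MvPolynomial (Fin (n + 1)) F →ₐ[F] Om) :
      MvPolynomial (Fin (n + 1)) F →+* Om).comp ((aeval Q : MvPolynomial (Fin (n + 1)) F →ₐ[F]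
      MvPolynomial (Fin (n + 1)) F) : MvPolynomial (Fin (n + 1)) F →+*
      MvPolynomial (Fin (n + 1)) F)) = ((aeval y : MvPolynomial (Fin (n + 1)) F →ₐ[F] Om) :
        MvPolynomial (Fin (n + 1)) F →+* Om) := by
    have h3 : (aeval p : MvPolynomial (Fin (n + 1)) F →ₐ[F] Om).comp
        (aeval Q : MvPolynomial (Fin (n + 1)) F →ₐ[F] MvPolynomial (Fin (n + 1)) F) =
        aeval y := by
      apply MvPolynomial.algHom_ext
      intro a
      rw [AlgHom.comp_apply, aeval_X, aeval_X, hp' a]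
    rw [← h3]
    rfl
  rw [← h2]
  have h4 := Polynomial.hom_eval₂ (P j) ((aeval Q : MvPolynomial (Fin (n + 1)) F →ₐ[F]
      MvPolynomial (Fin (n + 1)) F) : MvPolynomial (Fin (n + 1)) F →+*
      MvPolynomial (Fin (n + 1)) F) ((aeval p : MvPolynomial (Fin (n + 1)) F →ₐ[F] Om) :
      MvPolynomial (Fin (n + 1)) F →+* Om) (X j)
  have h5 : ((aeval p : MvPolynomial (Fin (n + 1)) F →ₐ[F] Om) :
      MvPolynomial (Fin (n + 1)) F →+* Om) (X j) = p j := aeval_X p j
  rw [h5] at h4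
  rw [← h4]
  exact h1

end Pool.Agent.Work.MP_6d7a54_an.NG
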