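import Pool.Agent.Work.MP_6d7a54_an.NG.Stmts

set_option autoImplicit false

namespace Pool.Agent.Work.MP_6d7a54_an.NG

noncomputable section

namespace PFrx

/-- the ring homomorphism `x ↦ x + ε d x` to the dual numbers over the field of fractions -/
def psi {A L : Type} [CommRing A] [Field L] [Algebra A L]
    (d : Derivation ℤ A A) : A →+* TrivSqZeroExt L L where
  toFun x := TrivSqZeroExt.inl (algebraMap A L x) + TrivSqZeroExt.inr (algebraMap A L (d x))
  map_one' := by
    rw [d.map_one_eq_zero, map_one, map_zero]
    simp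
  map_zero' := by simp
  map_add' x y := by
    rw [map_add, map_add, map_add]
    ext
    · simp
    · simp only [TrivSqZeroExt.snd_add, TrivSqZeroExt.snd_inl, TrivSqZeroExt.snd_inr, zero_add]
  map_mul' x y := by
    rw [d.leibniz]
    ext
    · simp
    · simp only [TrivSqZeroExt.snd_add, TrivSqZeroExt.snd_inl, TrivSqZeroExt.snd_inr, zero_add,
        TrivSqZeroExt.snd_mul, TrivSqZeroExt.fst_add, TrivSqZeroExt.fst_inl,
        TrivSqZeroExt.fst_inr, add_zero, smul_eq_mul, map_add, map_mul,
        MulOpposite.smul_eq_mul_unop, MulOpposite.unop_op]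
      ring

/-- a derivation extends to the field of fractions -/
lemma ext_der {A L : Type} [CommRing A] [IsDomain A] [Field L]
    [Algebra A L] [IsFractionRing A L] (d : Derivation ℤ A A) :
    ∃ D : Derivation ℤ L L, ∀ x, D (algebraMap A L x) = algebraMap A L (d x) := by
  have hu : ∀ y : nonZeroDivisors A, IsUnit (psi (L := L) d y) := by
    intro y
    rw [TrivSqZeroExt.isUnit_iff_isUnit_fst]
    have h1 : (psi (L := L) d y).fst = algebraMap A L y := by simp [psi]
    rw [h1]
    exact IsLocalization.map_units L y
  set Psi : L →+* TrivSqZeroExt L L := IsLocalization.lift (M := nonZeroDivisors A) hu with hPsi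
  have hPe : ∀ x : A, Psi (algebraMap A L x) = psi (L := L) d x := fun x => by
    rw [hPsi]
    exact IsLocalization.lift_eq hu x
  have hf : ∀ x : L, (Psi x).fst = x := by
    have h1 : (TrivSqZeroExt.fstHom L L L : TrivSqZeroExt L L →+* L).comp Psi = RingHom.id L := by
      refine IsLocalization.ringHom_ext (nonZeroDivisors A) ?_
      ext x
      simp [hPe, psi]
    intro x
    have h2 := congrArg (fun f : L →+* L => f x) h1
    simpa using h2
  have hadd : ∀ x y : L, (Psi (x + y)).snd = (Psi x).snd + (Psi y).snd := by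
    intro x y
    rw [map_add, TrivSqZeroExt.snd_add]
  let g : L →+ L := AddMonoidHom.mk' (fun x => (Psi x).snd) hadd
  refine ⟨Derivation.mk' g.toIntLinearMap ?_, ?_⟩
  · intro x y
    show (Psi (x * y)).snd = x • (Psi y).snd + y • (Psi x).snd
    rw [map_mul, TrivSqZeroExt.snd_mul, hf, hf]
    simp [mul_comm]
  · intro x
    show (Psi (algebraMap A L x)).snd = _
    rw [hPe]
    simp only [psi, RingHom.coe_mk, MonoidHom.coe_mk, OneHom.coe_mk, TrivSqZeroExt.snd_add,
      TrivSqZeroExt.snd_inl, TrivSqZeroExt.snd_inr, zero_add]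

end PFrx

theorem Fr_proof : S_Fr := by
  intro R _ _ dR
  obtain ⟨D, hD⟩ := PFrx.ext_der (L := FractionRing R) dR
  exact ⟨FractionRing R, inferInstance, inferInstance, D,
    IsFractionRing.injective R (FractionRing R), hD⟩

end

end Pool.Agent.Work.MP_6d7a54_an.NG
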