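import Pool.Agent.Work.MP_6d7a54_an.NG.Stmts

/-!
# Selection of the finite dimensional spaces of coefficients (MP_6d7a54_an)
-/

namespace Pool.Agent.Work.MP_6d7a54_an.NG

open MvPolynomial

noncomputable section

namespace PGc1x

/-- the field of constants -/
def kf {K : Type} [Field K] (dl : Derivation ℤ K K) : Subfield K where
  carrier := {a | dl a = 0}
  mul_mem' := by
    intro a b ha hb
    simp only [Set.mem_ofPred_eq] at ha hb ⊢
    rw [Derivation.leibniz, ha, hb, smul_zero, smul_zero, add_zero]
  one_mem' := by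
    simp only [Set.mem_ofPred_eq]
    exact Derivation.map_one_eq_zero dl
  add_mem' := by
    intro a b ha hb
    simp only [Set.mem_ofPred_eq] at ha hb ⊢
    rw [map_add, ha, hb, add_zero]
  zero_mem' := by
    simp only [Set.mem_ofPred_eq]
    exact map_zero dl
  neg_mem' := by
    intro a ha
    simp only [Set.mem_ofPred_eq] at ha ⊢
    rw [map_neg, ha, neg_zero]
  inv_mem' := by
    intro a ha
    simp only [Set.mem_ofPred_eq] at ha ⊢
    rw [Derivation.leibniz_inv, ha, smul_zero]

lemma mem_kf {K : Type} [Field K] (dl : Derivation ℤ K K) (a : K) : a ∈ kf dl ↔ dl a = 0 :=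
  Iff.rfl

/-- the coefficients outside of the box vanish -/
lemma coeff_out {K : Type} [Field K] {r D : ℕ} (f : MvPolynomial (Fin r) K)
    (hf : ∀ l, degreeOf l f ≤ D) (σ : Fin r →₀ ℕ) (hσ : coeff σ f ≠ 0) (l : Fin r) : σ l ≤ D :=
  (monomial_le_degreeOf l (mem_support_iff.mpr hσ)).trans (hf l)

/-- a combination of the polynomials whose box coefficients vanish is zero -/
lemma zero_of_cf {K : Type} [Field K] {r D M : ℕ} (f : Fin M → MvPolynomial (Fin r) K)
    (hf : ∀ j l, degreeOf l (f j) ≤ D) (v : Fin M → K)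
    (h : ∀ m : Fin r → Fin (D + 1), ∑ j, v j * cf (f j) m = 0) : ∑ j, v j • f j = 0 := by
  ext σ
  rw [coeff_sum, coeff_zero]
  by_cases hσ : ∀ l, σ l < D + 1
  · have h1 := h (fun l => ⟨σ l, hσ l⟩)
    have e : (Finsupp.equivFunOnFinite.symm fun l : Fin r => σ l) = σ := by
      ext l
      rfl
    rw [← h1]
    refine Finset.sum_congr rfl fun j _ => ?_
    rw [coeff_smul, smul_eq_mul]
    unfold cf
    change v j * coeff σ (f j) =
      v j * coeff (Finsupp.equivFunOnFinite.symm fun l : Fin r => σ l) (f j)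
    rw [e]
  · push Not at hσ
    obtain ⟨l, hl⟩ := hσ
    refine Finset.sum_eq_zero fun j _ => ?_
    rw [coeff_smul, smul_eq_mul]
    by_cases h0 : coeff σ (f j) = 0
    · rw [h0, mul_zero]
    · have := coeff_out (f j) (hf j) σ h0 l
      omega

end PGc1x

open PGc1x

theorem Gc1_proof (h1 : S_Grow) (h2 : S_Adp) : S_Gc1 := by
  intro K _ dl r D M f hli hdeg eps heps
  let k : Subfield K := kf dl
  let C : Submodule k K := Submodule.span k
    (insert 1 (Set.range (fun p : Fin M × (Fin r → Fin (D + 1)) => cf (f p.1) p.2)))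
  have hCfg : C.FG := Submodule.fg_span ((Set.finite_range _).insert 1)
  have h1C : (1 : K) ∈ C := Submodule.subset_span (Set.mem_insert _ _)
  have hcfC : ∀ j m, cf (f j) m ∈ C := fun j m =>
    Submodule.subset_span (Set.mem_insert_of_mem _ ⟨(j, m), rfl⟩)
  obtain ⟨s, hs⟩ := h1 k K C hCfg h1C eps heps
  have hfgs : (C ^ s).FG := hCfg.pow s
  have hfgs1 : (C ^ (s + 1)).FG := hCfg.pow (s + 1)
  have fin1 : Module.Finite k ↥(C ^ s) := Module.Finite.of_fg hfgs
  have h1s : (1 : K) ∈ C ^ s := by
    have := Submodule.pow_mem_pow C h1C s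
    rwa [one_pow] at this
  set h : ℕ := Module.finrank k ↥(C ^ s) with hh
  set h' : ℕ := Module.finrank k ↥(C ^ (s + 1)) with hh'
  let b : Module.Basis (Fin h) k ↥(C ^ s) := Module.finBasis k ↥(C ^ s)
  let u : Fin h → K := fun i => (b i : K)
  have hpos : 0 < h := by
    have hnt : Nontrivial ↥(C ^ s) := ⟨⟨⟨1, h1s⟩, 0, fun hc => one_ne_zero (congrArg Subtype.val hc)⟩⟩
    exact Module.finrank_pos
  let e : Fin (h * M) → (Fin r → Fin (D + 1)) → K := fun x m =>
    u (finProdFinEquiv.symm x).1 * cf (f (finProdFinEquiv.symm x).2) m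
  -- independence
  have hind : ∀ g : Fin (h * M) → k, (∀ m, ∑ x, (g x : K) * e x m = 0) → ∀ x, g x = 0 := by
    intro g hg
    have hv : ∀ m : Fin r → Fin (D + 1),
        ∑ j, (∑ a, (g (finProdFinEquiv (a, j)) : K) * u a) * cf (f j) m = 0 := by
      intro m
      rw [← hg m, ← finProdFinEquiv.sum_comp, Fintype.sum_prod_type, Finset.sum_comm]
      refine Finset.sum_congr rfl fun j _ => ?_
      rw [Finset.sum_mul]
      refine Finset.sum_congr rfl fun a _ => ?_
      simp only [e, Equiv.symm_apply_apply]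
      ring
    have hz := zero_of_cf f hdeg _ hv
    rw [Fintype.linearIndependent_iff] at hli
    have hz2 := hli _ hz
    have hb := b.linearIndependent
    rw [Fintype.linearIndependent_iff] at hb
    have hall : ∀ j a, g (finProdFinEquiv (a, j)) = 0 := by
      intro j
      refine hb (fun a => g (finProdFinEquiv (a, j))) ?_
      apply Subtype.ext
      have h3 := hz2 j
      rw [Submodule.coe_sum, Submodule.coe_zero, ← h3]
      refine Finset.sum_congr rfl fun a _ => ?_
      rfl
    intro x
    have := hall (finProdFinEquiv.symm x).2 (finProdFinEquiv.symm x).1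
    rwa [Prod.mk.eta, Equiv.apply_symm_apply] at this
  have hLI : LinearIndependent k e := by
    rw [Fintype.linearIndependent_iff]
    intro g hg
    refine hind g fun m => ?_
    have h3 := congrFun hg m
    rw [Finset.sum_apply] at h3
    exact h3
  have hmem : ∀ x m, e x m ∈ C ^ (s + 1) := by
    intro x m
    rw [pow_succ]
    exact Submodule.mul_mem_mul (b _).2 (hcfC _ _)
  have hadp := h2 k K (Fin r → Fin (D + 1)) (C ^ (s + 1)) hfgs1 ((D + 1) ^ r) (h * M) e hLI hmem
  have hcard : Fintype.card (Fin r → Fin (D + 1)) = (D + 1) ^ r := by simp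
  refine ⟨h, h', u, hpos, hs, (hadp (Fintype.equivFinOfCardEq hcard)).1, ?_, ?_⟩
  · intro c hc hcm x
    have := hind (fun x => ⟨c x, hc x⟩) hcm x
    exact congrArg Subtype.val this
  · intro s0
    obtain ⟨-, c, hdet, hcs⟩ := hadp s0
    refine ⟨c.map (algebraMap k K), fun i j => (c i j).2, ?_, ?_⟩
    · have hm := RingHom.map_det (algebraMap k K) c
      have hm2 : (c.map (algebraMap k K)).det = algebraMap k K c.det := hm.symm
      rw [hm2]
      intro h0
      exact hdet ((map_eq_zero_iff _ (algebraMap k K).injective).mp h0)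
    · intro j m hne
      exact hcs j m hne

end

end Pool.Agent.Work.MP_6d7a54_an.NG
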