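import Pool.Agent.Work.MP_6d7a54_an.NG.Stmts

/-!
# The gcd theorem (MP_6d7a54_an)
-/

set_option autoImplicit false

namespace Pool.Agent.Work.MP_6d7a54_an.NG

open MvPolynomial
open Pool.Agent.Work.MP_6d7a54_an.NF (NR InK IsNev)

noncomputable section

namespace PGcdx

/-- the final estimate -/
theorem num {D C0 r M : ℕ} {eta e S : ℝ} (hD : 2 * C0 ≤ D)
    (hD2 : 2 * (C0 : ℝ) ≤ eta * (D + 1)) (hM : M ≤ (D + 1) ^ r)
    (hM2 : ((D + 1) ^ r - M) * (D + 1) ^ 2 ≤ C0 * (D + 1) ^ r) (he : 0 ≤ e) (hS : 0 ≤ S)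
    (h : (M : ℝ) * e ≤ (((D + 1) ^ r - M : ℕ) : ℝ) * (D * S)) : e ≤ eta * S := by
  set X : ℕ := (D + 1) ^ r with hX
  have hX0 : 0 < X := by positivity
  obtain ⟨Y, hY⟩ : ∃ Y : ℕ, X - M = Y := ⟨_, rfl⟩
  rw [hY] at hM2 h
  have hMY : X = M + Y := by omega
  have hX0' : (0 : ℝ) < X := by exact_mod_cast hX0
  have hM2' : (Y : ℝ) * ((D : ℝ) + 1) ^ 2 ≤ C0 * X := by exact_mod_cast hM2
  have hMY' : (X : ℝ) = M + Y := by exact_mod_cast hMY
  have hD' : 2 * (C0 : ℝ) ≤ D := by exact_mod_cast hD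
  have hC0 : (0 : ℝ) ≤ C0 := Nat.cast_nonneg _
  have hDn : (0 : ℝ) ≤ D := Nat.cast_nonneg _
  have hYn : (0 : ℝ) ≤ Y := Nat.cast_nonneg _
  have hd1 : (1 : ℝ) ≤ (D : ℝ) + 1 := by linarith
  -- `2 Y ≤ X`
  have h2Y : 2 * (Y : ℝ) ≤ X := by
    have e1 : 2 * (Y : ℝ) * ((D : ℝ) + 1) ≤ X * ((D : ℝ) + 1) := by
      calc 2 * (Y : ℝ) * ((D : ℝ) + 1) ≤ 2 * (Y : ℝ) * ((D : ℝ) + 1) ^ 2 := by
            apply mul_le_mul_of_nonneg_left _ (by positivity)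
            nlinarith
        _ ≤ 2 * (C0 * X) := by linarith
        _ = (2 * C0) * X := by ring
        _ ≤ ((D : ℝ) + 1) * X := mul_le_mul_of_nonneg_right (by linarith) hX0'.le
        _ = X * ((D : ℝ) + 1) := mul_comm _ _
    exact le_of_mul_le_mul_right e1 (by linarith)
  have hMX : (X : ℝ) ≤ 2 * M := by linarith
  -- the estimate
  have e2 : (X : ℝ) * e ≤ 2 * (Y * (D * S)) := by
    calc (X : ℝ) * e ≤ 2 * M * e := mul_le_mul_of_nonneg_right hMX he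
      _ = 2 * (M * e) := by ring
      _ ≤ 2 * (Y * (D * S)) := by linarith
  have e3 : (X * ((D : ℝ) + 1) ^ 2) * e ≤ (X * ((D : ℝ) + 1) ^ 2) * (eta * S) := by
    calc (X * ((D : ℝ) + 1) ^ 2) * e = ((D : ℝ) + 1) ^ 2 * (X * e) := by ring
      _ ≤ ((D : ℝ) + 1) ^ 2 * (2 * (Y * (D * S))) := mul_le_mul_of_nonneg_left e2 (by positivity)
      _ = (Y * ((D : ℝ) + 1) ^ 2) * (2 * (D * S)) := by ring
      _ ≤ (C0 * X) * (2 * (D * S)) := mul_le_mul_of_nonneg_right hM2' (by positivity)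
      _ = (2 * C0) * (X * (D * S)) := by ring
      _ ≤ (eta * (D + 1)) * (X * (D * S)) := mul_le_mul_of_nonneg_right hD2 (by positivity)
      _ = (eta * S * X * (D + 1)) * D := by ring
      _ ≤ (eta * S * X * (D + 1)) * (D + 1) := by
        apply mul_le_mul_of_nonneg_left (by linarith)
        have h0 : 0 ≤ eta := by
          have : 0 ≤ eta * ((D : ℝ) + 1) := le_trans (by positivity) hD2
          exact nonneg_of_mul_nonneg_left this (by linarith)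
        positivity
      _ = (X * ((D : ℝ) + 1) ^ 2) * (eta * S) := by ring
  exact le_of_mul_le_mul_left e3 (by positivity)

end PGcdx

open PGcdx in
theorem Gcd_proof (h1 : S_Idl) (h2 : S_GcdD) (h3 : S_VB) : S_Gcd := by
  intro r d0 eta heta
  obtain ⟨C0, hC0⟩ := h1 r d0
  obtain ⟨n1, hn1⟩ := exists_nat_ge (2 * (C0 : ℝ) / eta)
  rw [div_le_iff₀ heta] at hn1
  refine ⟨2 * d0 + 2 * C0 + n1, ?_⟩
  intro F K R Om _ _ _ _ _ _ dl dR A E x hx tau htau P Q hP hQ hPQ hdP hdQ w hw hwP hwQ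
  obtain ⟨M, f, hf1, hf2, hf3, hf4, hf5⟩ := hC0 K P Q hP hQ hPQ hdP hdQ (2 * d0 + 2 * C0 + n1)
    (by omega)
  have hv := h3 F K R Om dl dR A E x hx
  obtain ⟨hM, hE⟩ := h2 F K R Om dl dR A E x hx r (2 * d0 + 2 * C0 + n1) tau htau M f hf1 hf3 w
    hw (fun j => by
      obtain ⟨G, H, hGH⟩ := hf2 j
      rw [hGH, map_add, map_mul, map_mul]
      exact dvd_add (Dvd.dvd.mul_left hwP _) (Dvd.dvd.mul_left hwQ _))
  refine num (D := 2 * d0 + 2 * C0 + n1) (C0 := C0) (r := r) (M := M) (by omega) ?_ hf4 hf5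
    (hx.hol w hw) (Finset.sum_nonneg fun l _ => hx.pos _
      (hv.abs _ (hx.mem _ (tau l).ne_zero)) (abs_nonneg _)) hE
  push_cast
  have e1 : (0 : ℝ) ≤ d0 := Nat.cast_nonneg _
  have e2 : (0 : ℝ) ≤ C0 := Nat.cast_nonneg _
  nlinarith [mul_nonneg heta.le e1, mul_nonneg heta.le e2]

end

end Pool.Agent.Work.MP_6d7a54_an.NG
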