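import Pool.Agent.Work.MP_6d7a54_an.NG.Stmts

/-!
# GCD theorem for many polynomials (MP_6d7a54_an, block NG)
-/

set_option autoImplicit false

namespace Pool.Agent.Work.MP_6d7a54_an.NG

open MvPolynomial
open Pool.Agent.Work.MP_6d7a54_an.NF (NR InK IsNev)

noncomputable section

namespace PGcdDx

/-- evaluation at units of a polynomial with exponents in a box -/
theorem aeval_box {K R : Type} [Field K] [CommRing R] [Algebra K R] {r D : ℕ}
    (tau : Fin r → Rˣ) (f : MvPolynomial (Fin r) K) (hf : ∀ l, degreeOf l f ≤ D) :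
    aeval (fun l => (tau l : R)) f = ∑ m : Fin r → Fin (D + 1), algebraMap K R (cf f m) *
      ((∏ l, tau l ^ (((m l : ℕ) : ℤ)) : Rˣ) : R) := by
  classical
  let emb : (Fin r → Fin (D + 1)) → (Fin r →₀ ℕ) :=
    fun m => Finsupp.equivFunOnFinite.symm fun l => (m l : ℕ)
  have hinj : Function.Injective emb := by
    intro m m' h
    funext l
    have h2 := DFunLike.congr_fun h l
    exact Fin.ext h2
  rw [MvPolynomial.aeval_def, MvPolynomial.eval₂_eq']
  have hsub : f.support ⊆ Finset.univ.image emb := by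
    intro e he
    rw [Finset.mem_image]
    refine ⟨fun l => ⟨e l, ?_⟩, Finset.mem_univ _, ?_⟩
    · exact Nat.lt_succ_of_le ((monomial_le_degreeOf l he).trans (hf l))
    · ext l
      rfl
  rw [Finset.sum_subset hsub, Finset.sum_image (fun a _ b _ h => hinj h)]
  · refine Finset.sum_congr rfl fun m _ => ?_
    congr 1
    push_cast
    refine Finset.prod_congr rfl fun l _ => ?_
    show (tau l : R) ^ (m l : ℕ) = _
    rw [zpow_natCast, Units.val_pow_eq_pow_val]
  · intro e _ he
    rw [MvPolynomial.notMem_support_iff.mp he, map_zero, zero_mul]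

variable {K R Om : Type} [Field K] [CommRing R] [Algebra K R] {dR : Derivation ℤ R R}
  {A : Submodule ℝ (Om → ℝ)} {E : (Om → ℝ) →ₗ[ℝ] ℝ} {x : R → Om → ℝ}

theorem E_zero (hV : VF (K := K) dR A E x) {v : Om → ℝ} (hv : v ∈ A) (h : E |v| = 0) :
    E v = 0 := by
  refine le_antisymm ?_ ?_
  · rw [← h]
    exact hV.mono v hv |v| (hV.abs v hv) (le_abs_self v)
  · have h1 := hV.mono (-v) (A.neg_mem hv) |v| (hV.abs v hv) (neg_le_abs v)
    rw [map_neg, h] at h1
    linarith

theorem Dm_sum (hV : VF (K := K) dR A E x) {ι : Type} (s : Finset ι) (f : ι → R) {v : Om → ℝ}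
    (hv : v ∈ A) (h : ∀ i ∈ s, Dm E x (f i) v) : Dm E x (∑ i ∈ s, f i) v := by
  classical
  induction s using Finset.induction_on with
  | empty => rw [Finset.sum_empty]; exact hV.zero v
  | insert a s ha ih =>
    rw [Finset.sum_insert ha]
    exact hV.add _ _ v hv (h a (Finset.mem_insert_self a s))
      (ih fun i hi => h i (Finset.mem_insert_of_mem hi))

/-- the monomial functions -/
def LL {r D : ℕ} (x : R → Om → ℝ) (tau : Fin r → Rˣ) (m : Fin r → Fin (D + 1)) : Om → ℝ :=
  ∑ l, (((m l : ℕ) : ℝ)) • x (tau l : R)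

theorem LL_mem (hm : ∀ f : Rˣ, x (f : R) ∈ A) {r D : ℕ} (tau : Fin r → Rˣ)
    (m : Fin r → Fin (D + 1)) : LL x tau m ∈ A :=
  A.sum_mem fun l _ => A.smul_mem _ (hm _)

theorem LL_apply {r D : ℕ} (tau : Fin r → Rˣ) (m : Fin r → Fin (D + 1)) (o : Om) :
    LL x tau m o = ∑ l, ((m l : ℕ) : ℝ) * x (tau l : R) o := by
  simp [LL, Finset.sum_apply]

theorem sup_mem (hsup : ∀ v ∈ A, ∀ w ∈ A, v ⊔ w ∈ A) {ι : Type} (s : Finset ι)
    (hs : s.Nonempty) (f : ι → Om → ℝ) (h : ∀ i ∈ s, f i ∈ A) : s.sup' hs f ∈ A := by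
  refine Finset.sup'_induction hs f (p := fun v => v ∈ A) ?_ h
  intro a ha b hb
  exact hsup a ha b hb

end PGcdDx

open PGcdDx

theorem GcdD_proof (h1 : S_VB) (h2 : S_WrN) (h3 : S_WrF) (h4 : S_WrD) (h5 : S_Srt)
    (h6 : S_Gc1) : S_GcdD := by
  classical
  intro F K R Om _ _ _ _ _ _ dl dR A E x hN r D tau hInd M f hf hdeg w hw hdvd
  have hV := h1 F K R Om dl dR A E x hN
  have hunit : ∀ g : Rˣ, x (g : R) ∈ A := fun g => hN.mem _ g.ne_zero
  have hS0 : 0 ≤ ∑ l, E |x (tau l : R)| := Finset.sum_nonneg fun l _ =>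
    hN.pos _ (hV.abs _ (hunit _)) (abs_nonneg _)
  -- the estimate with eps
  have key : ∀ eps : ℝ, 0 < eps → (M : ℝ) ≤ (1 + eps) * ((D + 1) ^ r : ℕ) ∧
      (M : ℝ) * E (x w) ≤ ((1 + eps) * ((D + 1) ^ r : ℕ) - M) * (D * ∑ l, E |x (tau l : R)|) := by
    intro eps heps
    obtain ⟨h, h', u, hpos, hh', hM, hindep, hord⟩ := h6 K dl r D M f hf hdeg eps heps
    have hhr : (0 : ℝ) < h := by exact_mod_cast hpos
    have hMr : (h : ℝ) * M ≤ h' * ((D + 1) ^ r : ℕ) := by exact_mod_cast hM
    have hPr : (0 : ℝ) ≤ (((D + 1) ^ r : ℕ) : ℝ) := Nat.cast_nonneg _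
    have hfirst : (M : ℝ) ≤ (1 + eps) * ((D + 1) ^ r : ℕ) := by
      have e1 : (h : ℝ) * M ≤ h * ((1 + eps) * ((D + 1) ^ r : ℕ)) := by
        calc (h : ℝ) * M ≤ h' * ((D + 1) ^ r : ℕ) := hMr
          _ ≤ ((1 + eps) * h) * ((D + 1) ^ r : ℕ) := mul_le_mul_of_nonneg_right hh' hPr
          _ = h * ((1 + eps) * ((D + 1) ^ r : ℕ)) := by ring
      exact le_of_mul_le_mul_left e1 hhr
    refine ⟨hfirst, ?_⟩
    have hDS : 0 ≤ (D : ℝ) * ∑ l, E |x (tau l : R)| := mul_nonneg (Nat.cast_nonneg _) hS0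
    rcases Nat.eq_zero_or_pos M with hM0 | hM0
    · have e2 : (M : ℝ) = 0 := by rw [hM0]; simp
      rw [e2, zero_mul]
      exact mul_nonneg (by rw [sub_zero]; positivity) hDS
    have hP0 : 0 < (D + 1) ^ r := by positivity
    have hh0 : 0 < h' := by
      rcases Nat.eq_zero_or_pos h' with h0 | h0
      · exfalso
        rw [h0, zero_mul] at hM
        have : 0 < h * M := Nat.mul_pos hpos hM0
        omega
      · exact h0
    -- the monomials
    set mn : (Fin r → Fin (D + 1)) → Rˣ := fun m => ∏ l, tau l ^ (((m l : ℕ) : ℤ)) with hmn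
    have hmon : ∀ m m' : Fin r → Fin (D + 1), m ≠ m' →
        ¬ InK K ((mn m * (mn m')⁻¹ : Rˣ) : R) := by
      intro m m' hne
      have e1 : mn m * (mn m')⁻¹ = ∏ l, tau l ^ (((m l : ℕ) : ℤ) - ((m' l : ℕ) : ℤ)) := by
        rw [hmn]
        simp only
        rw [← Finset.prod_inv_distrib, ← Finset.prod_mul_distrib]
        refine Finset.prod_congr rfl fun l _ => ?_
        rw [zpow_sub]
      rw [e1]
      refine hInd _ ?_ ?_
      · intro h0
        apply hne
        funext l
        have h7 := congrFun h0 l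
        simp only [Pi.zero_apply] at h7
        apply Fin.ext
        omega
      · intro l
        have h8 := (m l).is_lt
        have h9 := (m' l).is_lt
        rw [abs_le]
        constructor <;> omega
    obtain ⟨p, e, hp, hdF, hindep, hord⟩ : ∃ (p : ℕ) (e : Fin p → (Fin r → Fin (D + 1)) → K),
        p = h * M ∧ (∀ y, w ∣ ∑ m, algebraMap K R (e y m) * (mn m : R)) ∧
        (∀ c : Fin p → K, (∀ y, dl (c y) = 0) → (∀ m : Fin r → Fin (D + 1),
          ∑ y, c y * e y m = 0) → ∀ y, c y = 0) ∧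
        ∀ s : (Fin r → Fin (D + 1)) ≃ Fin ((D + 1) ^ r),
          ∃ c : Matrix (Fin p) (Fin p) K, (∀ i j, dl (c i j) = 0) ∧ c.det ≠ 0 ∧
          ∀ (j : Fin p) m, ∑ y, c j y * e y m ≠ 0 →
            h' * (s m : ℕ) ≤ (j : ℕ) + (h' * (D + 1) ^ r - p) := by
      refine ⟨h * M, fun y m => u (finProdFinEquiv.symm y).1 * cf (f (finProdFinEquiv.symm y).2) m,
        rfl, ?_, hindep, hord⟩
      intro y
      have hFeq : ∑ m, algebraMap K R (u (finProdFinEquiv.symm y).1 *
          cf (f (finProdFinEquiv.symm y).2) m) * (mn m : R) =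
          algebraMap K R (u (finProdFinEquiv.symm y).1) *
          aeval (fun l => (tau l : R)) (f (finProdFinEquiv.symm y).2) := by
        rw [aeval_box tau _ (hdeg _), Finset.mul_sum]
        refine Finset.sum_congr rfl fun m _ => ?_
        rw [map_mul, mul_assoc]
      rw [hFeq]
      exact (hdvd _).mul_left _
    let Fx : Fin p → R := fun y => ∑ m, algebraMap K R (e y m) * (mn m : R)
    have hGex : ∀ y, ∃ G, Fx y = w * G := fun y => hdF y
    choose G hG using hGex
    have hMp : p ≤ h' * (D + 1) ^ r := by rw [hp]; exact hM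
    have hWne : Wr dR Fx ≠ 0 := h2 F K R dl dR hN.nr _ mn hmon p e hindep
    have hWG : Wr dR Fx = w ^ p * Wr dR G := by
      have e1 : Fx = fun j => w * G j := funext hG
      rw [e1]
      exact (h3 R dR p G).1 w
    have hGne : Wr dR G ≠ 0 := by
      intro h0
      rw [h0, mul_zero] at hWG
      exact hWne hWG
    have hwp : w ^ p ≠ 0 := pow_ne_zero _ hw
    -- lower bound
    have hlow : (p : ℝ) * E (x w) ≤ E (x (Wr dR Fx)) := by
      have e1 := hN.mul (w ^ p) (Wr dR G) hwp hGne
      rw [← hWG] at e1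
      have e2 := E_zero hV (A.sub_mem (hN.mem _ hWne) (A.add_mem (hN.mem _ hwp)
        (hN.mem _ hGne))) e1
      have e3 := E_zero hV (A.sub_mem (hN.mem _ hwp) (A.smul_mem (p : ℝ) (hN.mem _ hw)))
        (hV.pw w p hw)
      rw [map_sub, map_add] at e2
      rw [map_sub, map_smul, smul_eq_mul] at e3
      have e4 := hN.hol _ hGne
      linarith
    -- the orderings
    obtain ⟨g, hg⟩ : ∃ g, g = h' * (D + 1) ^ r - p := ⟨_, rfl⟩
    rw [← hg] at hord
    have hset : ∀ (s : (Fin r → Fin (D + 1)) ≃ Fin ((D + 1) ^ r)) (j : Fin p),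
        (Finset.univ.filter fun m => h' * (s m : ℕ) ≤ (j : ℕ) + g).Nonempty := by
      intro s j
      refine ⟨s.symm ⟨0, hP0⟩, ?_⟩
      rw [Finset.mem_filter]
      refine ⟨Finset.mem_univ _, ?_⟩
      rw [Equiv.apply_symm_apply]
      simp
    let bb : ((Fin r → Fin (D + 1)) ≃ Fin ((D + 1) ^ r)) → Fin p → Om → ℝ := fun s j =>
      (Finset.univ.filter fun m => h' * (s m : ℕ) ≤ (j : ℕ) + g).sup' (hset s j) (LL x tau)
    have hbbA : ∀ s j, bb s j ∈ A := fun s j =>
      sup_mem hN.sup _ _ _ fun m _ => LL_mem hunit tau m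
    have hbb : ∀ s, Bl E (x (Wr dR Fx)) (∑ j, bb s j) := by
      intro s
      obtain ⟨c, hc0, hcdet, hc⟩ := hord s
      let F' : Fin p → R := fun j => ∑ y, algebraMap K R (c j y) * Fx y
      have hWF' : Wr dR F' = algebraMap K R c.det * Wr dR Fx := by
        have e1 := (h3 R dR p Fx).2 ((algebraMap K R).mapMatrix c) (fun i j => by
          rw [RingHom.mapMatrix_apply, Matrix.map_apply, hN.nr.comp, hc0, map_zero])
        rw [← RingHom.map_det] at e1
        exact e1
      have hF'eq : ∀ j, F' j = ∑ m, algebraMap K R (∑ y, c j y * e y m) * (mn m : R) := by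
        intro j
        show ∑ y, algebraMap K R (c j y) * (∑ m, algebraMap K R (e y m) * (mn m : R)) = _
        simp only [Finset.mul_sum]
        rw [Finset.sum_comm]
        refine Finset.sum_congr rfl fun m _ => ?_
        rw [map_sum, Finset.sum_mul]
        refine Finset.sum_congr rfl fun y _ => ?_
        rw [map_mul]
        ring
      have hDm : ∀ j, Dm E x (F' j) (bb s j) := by
        intro j
        rw [hF'eq]
        refine Dm_sum hV _ _ (hbbA s j) fun m _ => ?_
        by_cases hk : (∑ y, c j y * e y m) = 0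
        · rw [hk, map_zero, zero_mul]
          exact hV.zero _
        · have hle : LL x tau m ≤ bb s j := by
            refine Finset.le_sup' (LL x tau) ?_
            rw [Finset.mem_filter]
            exact ⟨Finset.mem_univ _, hc j m hk⟩
          have hne : algebraMap K R (∑ y, c j y * e y m) * (mn m : R) ≠ 0 := by
            have : algebraMap K R (∑ y, c j y * e y m) ≠ 0 := by
              intro h0
              exact hk ((algebraMap K R).injective (by rw [h0, map_zero]))
            exact mul_ne_zero this (mn m).ne_zero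
          have hx := hN.mem _ hne
          have hmon2 := hV.mon r tau (fun l => ((m l : ℕ) : ℤ)) _ hk
          have hLL : (∑ l, ((((m l : ℕ) : ℤ) : ℝ)) • x (tau l : R)) = LL x tau m := by
            unfold LL
            refine Finset.sum_congr rfl fun l _ => ?_
            rw [Int.cast_natCast]
          rw [hLL] at hmon2
          refine hV.weak _ _ hx _ (hbbA s j) ?_ (hV.self _ hne)
          refine hV.blw _ hx _ (hbbA s j) _ (hV.abs _ (A.sub_mem hx (LL_mem hunit tau m)))
            (abs_nonneg _) hmon2 ?_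
          have e5 := le_abs_self (x (algebraMap K R (∑ y, c j y * e y m) * (mn m : R)) -
            LL x tau m)
          intro o
          have e6 := e5 o
          have e7 := hle o
          simp only [Pi.sub_apply, Pi.add_apply] at e6 ⊢
          linarith
      have hWD := h4 K R Om dR A E x hV p F' (bb s) (hbbA s) hDm
      have hWeq : Wr dR Fx = algebraMap K R (c.det)⁻¹ * Wr dR F' := by
        rw [hWF', ← mul_assoc, ← map_mul, inv_mul_cancel₀ hcdet, map_one, one_mul]
      have hD2 := hV.mul (algebraMap K R (c.det)⁻¹) (Wr dR F') 0 A.zero_mem (∑ j, bb s j)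
        (A.sum_mem fun j _ => hbbA s j) (hV.cst _) hWD
      rw [← hWeq, zero_add] at hD2
      rcases hD2 with h0 | h0
      · exact absurd h0 hWne
      · exact h0
    -- upper bound
    let nn : ((Fin r → Fin (D + 1)) ≃ Fin ((D + 1) ^ r)) → Om → ℝ := fun s =>
      (x (Wr dR Fx) - ∑ j, bb s j) ⊔ 0
    have hnnA : ∀ s, nn s ∈ A := fun s =>
      hV.pp _ (A.sub_mem (hN.mem _ hWne) (A.sum_mem fun j _ => hbbA s j))
    have hnn0 : ∀ s, E (nn s) = 0 := fun s => hbb s
    have hnnp : ∀ s o, 0 ≤ nn s o := fun s o => le_sup_right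
    let T : Om → ℝ := (h' : ℝ) • (∑ m : Fin r → Fin (D + 1), LL x tau m) +
      ((g : ℝ) * D) • (∑ l, |x (tau l : R)|) + ∑ s, nn s
    have hTA : T ∈ A := by
      refine A.add_mem (A.add_mem (A.smul_mem _ (A.sum_mem fun m _ => LL_mem hunit tau m))
        (A.smul_mem _ (A.sum_mem fun l _ => hV.abs _ (hunit _)))) (A.sum_mem fun s _ => hnnA s)
    have hpw : x (Wr dR Fx) ≤ T := by
      intro o
      obtain ⟨s, b, hb1, hb2⟩ := h5 r D h' p hh0 hMp (fun l => x (tau l : R) o)
      rw [← hg] at hb1 hb2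
      have e1 : ∀ j, bb s j o ≤ b j := by
        intro j
        show ((Finset.univ.filter fun m => h' * (s m : ℕ) ≤ (j : ℕ) + g).sup' (hset s j)
          (LL x tau)) o ≤ b j
        rw [Finset.sup'_apply]
        refine Finset.sup'_le _ _ fun m hm => ?_
        rw [LL_apply]
        exact hb1 j m (Finset.mem_filter.mp hm).2
      have e2 : x (Wr dR Fx) o - ∑ j, bb s j o ≤ nn s o := by
        have : (x (Wr dR Fx) - ∑ j, bb s j) o ≤ nn s o := le_sup_left
        rwa [Pi.sub_apply, Finset.sum_apply] at this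
      have e3 : nn s o ≤ ∑ s', nn s' o :=
        Finset.single_le_sum (fun s' _ => hnnp s' o) (Finset.mem_univ s)
      have e4 : ∑ j, bb s j o ≤ ∑ j, b j := Finset.sum_le_sum fun j _ => e1 j
      have e5 : T o = (h' : ℝ) * (∑ m : Fin r → Fin (D + 1), ∑ l, ((m l : ℕ) : ℝ) *
          x (tau l : R) o) + ((g : ℝ) * D) * (∑ l, |x (tau l : R) o|) + ∑ s, nn s o := by
        show ((h' : ℝ) • (∑ m : Fin r → Fin (D + 1), LL x tau m) +
          ((g : ℝ) * D) • (∑ l, |x (tau l : R)|) + ∑ s, nn s) o = _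
        simp only [Pi.add_apply, Pi.smul_apply, Finset.sum_apply, smul_eq_mul, LL_apply,
          Pi.abs_apply]
      rw [e5]
      have e6 : ((g : ℝ) * D) * (∑ l, |x (tau l : R) o|) =
          (g : ℝ) * (D * ∑ l, |x (tau l : R) o|) := by ring
      rw [e6]
      linarith
    have hup := hV.mono _ (hN.mem _ hWne) T hTA hpw
    have hET : E T = (g : ℝ) * D * ∑ l, E |x (tau l : R)| := by
      show E ((h' : ℝ) • (∑ m : Fin r → Fin (D + 1), LL x tau m) +
        ((g : ℝ) * D) • (∑ l, |x (tau l : R)|) + ∑ s, nn s) = _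
      rw [map_add, map_add, map_smul, map_smul, map_sum, map_sum, map_sum]
      have z1 : ∀ m : Fin r → Fin (D + 1), E (LL x tau m) = 0 := by
        intro m
        unfold LL
        rw [map_sum]
        refine Finset.sum_eq_zero fun l _ => ?_
        rw [map_smul, hV.unit _ (tau l).isUnit, smul_zero]
      rw [Finset.sum_eq_zero (fun m _ => z1 m), Finset.sum_eq_zero (fun s _ => hnn0 s),
        smul_zero, zero_add, add_zero, smul_eq_mul]
    rw [hET] at hup
    have hgr : (g : ℝ) = h' * ((D + 1) ^ r : ℕ) - h * M := by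
      rw [hg, Nat.cast_sub hMp, hp]
      push_cast
      ring
    have hpr : (p : ℝ) = h * M := by rw [hp]; push_cast; ring
    have hfin : (h : ℝ) * (M * E (x w)) ≤
        h * (((1 + eps) * ((D + 1) ^ r : ℕ) - M) * (D * ∑ l, E |x (tau l : R)|)) := by
      have e1 : (h : ℝ) * (M * E (x w)) = p * E (x w) := by rw [hpr]; ring
      rw [e1]
      refine hlow.trans (hup.trans ?_)
      have e2 : (g : ℝ) ≤ h * ((1 + eps) * ((D + 1) ^ r : ℕ) - M) := by
        rw [hgr]
        have := mul_le_mul_of_nonneg_right hh' hPr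
        linarith
      have e3 := mul_le_mul_of_nonneg_right e2 hDS
      calc (g : ℝ) * D * ∑ l, E |x (tau l : R)| = g * (D * ∑ l, E |x (tau l : R)|) := by ring
        _ ≤ _ := e3
        _ = _ := by ring
    exact le_of_mul_le_mul_left hfin hhr
  -- the limit
  have hMP : M ≤ (D + 1) ^ r := by
    have hreal : (M : ℝ) ≤ ((D + 1) ^ r : ℕ) := by
      refine le_of_forall_pos_le_add fun ep hep => ?_
      have hP1 : (0 : ℝ) < (((D + 1) ^ r : ℕ) : ℝ) + 1 := by positivity
      have h7 := (key (ep / ((((D + 1) ^ r : ℕ) : ℝ) + 1)) (by positivity)).1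
      have h8 : ep / ((((D + 1) ^ r : ℕ) : ℝ) + 1) * (((D + 1) ^ r : ℕ) : ℝ) ≤ ep := by
        rw [div_mul_eq_mul_div, div_le_iff₀ hP1]
        nlinarith
      linarith
    exact_mod_cast hreal
  refine ⟨hMP, ?_⟩
  rw [Nat.cast_sub hMP]
  have hDS : 0 ≤ (D : ℝ) * ∑ l, E |x (tau l : R)| := mul_nonneg (Nat.cast_nonneg _) hS0
  refine le_of_forall_pos_le_add fun ep hep => ?_
  set DS := (D : ℝ) * ∑ l, E |x (tau l : R)| with hDSdef
  set PP := (((D + 1) ^ r : ℕ) : ℝ) with hPP
  have hPP0 : 0 ≤ PP := Nat.cast_nonneg _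
  have hP1 : (0 : ℝ) < PP * DS + 1 := by positivity
  have h7 := (key (ep / (PP * DS + 1)) (by positivity)).2
  have h8 : ep / (PP * DS + 1) * (PP * DS) ≤ ep := by
    rw [div_mul_eq_mul_div, div_le_iff₀ hP1]
    nlinarith [mul_nonneg hPP0 hDS]
  have h9 : ((1 + ep / (PP * DS + 1)) * PP - M) * DS =
      (PP - M) * DS + ep / (PP * DS + 1) * (PP * DS) := by ring
  rw [h9] at h7
  linarith

end

end Pool.Agent.Work.MP_6d7a54_an.NG
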