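import Pool.Agent.Work.MP_6d7a54_an.NG.Stmts

/-!
# MP_6d7a54_an, block NG, item Grow: slow growth of the powers of a finite dimensional space
-/

set_option autoImplicit false

namespace Pool.Agent.Work.MP_6d7a54_an.NG

open Filter

namespace PGrowx

variable {k K : Type} [Field k] [Field K] [Algebra k K]

/-- monomials with exponents at most `s` -/
noncomputable def mono {c : ℕ} (g : Fin c → K) (s : ℕ) (e : Fin c → Fin (s + 1)) : K :=
  ∏ i, g i ^ (e i : ℕ)

theorem pow_le {c : ℕ} (g : Fin c → K) (s : ℕ) :
    (Submodule.span k (Set.range g)) ^ s ≤ Submodule.span k (Set.range (mono g s)) := by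
  classical
  induction s with
  | zero =>
    rw [pow_zero, Submodule.one_le]
    refine Submodule.subset_span ⟨fun _ => 0, ?_⟩
    unfold mono
    simp
  | succ s ih =>
    rw [pow_succ]
    refine (mul_le_mul' ih le_rfl).trans ?_
    rw [Submodule.span_mul_span, Submodule.span_le]
    rintro _ ⟨x, ⟨e, rfl⟩, y, ⟨i, rfl⟩, rfl⟩
    refine Submodule.subset_span ⟨fun j => ⟨(e j : ℕ) + if j = i then 1 else 0, ?_⟩, ?_⟩
    · have := (e j).2
      split_ifs <;> omega
    · change ∏ j, g j ^ ((e j : ℕ) + if j = i then 1 else 0) = (∏ j, g j ^ (e j : ℕ)) * g i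
      rw [Finset.prod_congr rfl fun j _ => pow_add (g j) _ _, Finset.prod_mul_distrib]
      congr 1
      have h1 : ∀ j : Fin c, (g j ^ if j = i then 1 else 0) = if j = i then g j else 1 := by
        intro j
        split_ifs
        · rw [pow_one]
        · rw [pow_zero]
      rw [Finset.prod_congr rfl fun j _ => h1 j, Finset.prod_ite_eq' Finset.univ i g,
        if_pos (Finset.mem_univ i)]

theorem dim_le {c : ℕ} (g : Fin c → K) (s : ℕ) :
    Module.finrank k ↥((Submodule.span k (Set.range g)) ^ s) ≤ (s + 1) ^ c := by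
  have h1 : Module.Finite k ↥(Submodule.span k (Set.range (mono g s))) :=
    Module.Finite.span_of_finite k (Set.finite_range _)
  refine (Submodule.finrank_mono (pow_le g s)).trans ?_
  have h2 := finrank_range_le_card (R := k) (mono g s)
  rw [Fintype.card_pi_const, Fintype.card_fin] at h2
  exact h2

end PGrowx

open PGrowx

theorem Grow_proof : S_Grow := by
  intro k K _ _ _ C hC h1 eps heps
  by_contra hcon
  push Not at hcon
  obtain ⟨S, hS⟩ := hC
  obtain ⟨g, hg⟩ : ∃ g : Fin S.card → K, Set.range g = (S : Set K) := by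
    refine ⟨fun i => (S.equivFin.symm i : K), ?_⟩
    ext x
    constructor
    · rintro ⟨i, rfl⟩
      exact (S.equivFin.symm i).2
    · intro hx
      exact ⟨S.equivFin ⟨x, hx⟩, by simp⟩
  rw [← hg] at hS
  have hlow : ∀ s, (1 + eps) ^ s ≤ (Module.finrank k ↥(C ^ s) : ℝ) := by
    intro s
    induction s with
    | zero =>
      rw [pow_zero, pow_zero]
      have : 0 < Module.finrank k ↥(1 : Submodule k K) := by
        have hfin : Module.Finite k ↥(1 : Submodule k K) := by
          rw [Submodule.one_eq_span]
          exact Module.Finite.span_of_finite k (Set.finite_singleton _)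
        rw [Module.finrank_pos_iff]
        refine ⟨⟨0, Submodule.zero_mem _⟩, ⟨1, Submodule.one_le.1 le_rfl⟩, fun h => ?_⟩
        exact zero_ne_one (congrArg Subtype.val h)
      exact_mod_cast this
    | succ s ih =>
      refine le_trans ?_ (hcon s).le
      rw [pow_succ, mul_comm]
      exact mul_le_mul_of_nonneg_left ih (by linarith)
  have hup : ∀ s : ℕ, (Module.finrank k ↥(C ^ s) : ℝ) ≤ ((s : ℝ) + 1) ^ S.card := by
    intro s
    have := dim_le (k := k) g s
    rw [hS] at this
    exact_mod_cast this
  have ht := tendsto_pow_const_div_const_pow_of_one_lt S.card (r := 1 + eps) (by linarith)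
  have ht2 : Tendsto (fun n : ℕ => ((n + 1 : ℕ) : ℝ) ^ S.card / (1 + eps) ^ (n + 1)) atTop
      (nhds 0) := ht.comp (tendsto_add_atTop_nat 1)
  have hev := ht2.eventually (gt_mem_nhds (show (0 : ℝ) < 1 / (1 + eps) by positivity))
  obtain ⟨n, hn⟩ := hev.exists
  have h2 := (hlow n).trans (hup n)
  have h3 : (0 : ℝ) < 1 + eps := by linarith
  rw [div_lt_div_iff₀ (by positivity) h3, one_mul, pow_succ] at hn
  have h4 := lt_of_mul_lt_mul_right hn h3.le
  push_cast at h4
  linarith

end Pool.Agent.Work.MP_6d7a54_an.NG
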