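import Pool.Agent.Work.MP_6d7a54_an.NG.Stmts

namespace Pool.Agent.Work.MP_6d7a54_an.NG

open MvPolynomial

noncomputable section

namespace PIdlx

/-! ### numerical part -/

theorem num1 (d X : ℝ) (hd : 0 ≤ d) (hX : 2 * d ≤ X) (r : ℕ) (a b : Fin r → ℝ)
    (ha : ∀ l, 0 ≤ a l ∧ a l ≤ d) (hb : ∀ l, 0 ≤ b l ∧ b l ≤ d) :
    0 ≤ ∏ l, (X - a l - b l) ∧ ∏ l, (X - a l - b l) ≤ X ^ r ∧
    ∏ l, (X - a l - b l) ≤ ∏ l, (X - a l) ∧
    (∏ l, (X - a l) - ∏ l, (X - a l - b l)) * X ≤ r * d * X ^ r := by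
  induction r with
  | zero => simp
  | succ r ih =>
    obtain ⟨h1, h2, h3, h4⟩ := ih (fun l => a l.succ) (fun l => b l.succ) (fun l => ha _)
      (fun l => hb _)
    rw [Fin.prod_univ_succ, Fin.prod_univ_succ, pow_succ]
    obtain ⟨ha0, ha1⟩ := ha 0
    obtain ⟨hb0, hb1⟩ := hb 0
    have hX0 : 0 ≤ X := by linarith
    have hp : (0:ℝ) ≤ X ^ r := pow_nonneg hX0 r
    set P := ∏ l : Fin r, (X - a l.succ) with hP
    set Q := ∏ l : Fin r, (X - a l.succ - b l.succ) with hQ
    have e1 : 0 ≤ X - a 0 - b 0 := by linarith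
    have e2 : X - a 0 - b 0 ≤ X := by linarith
    refine ⟨mul_nonneg e1 h1, ?_, ?_, ?_⟩
    · calc (X - a 0 - b 0) * Q ≤ X * X ^ r := mul_le_mul e2 h2 h1 hX0
        _ = X ^ r * X := by ring
    · exact mul_le_mul (by linarith) h3 h1 (by linarith)
    · rw [Nat.cast_succ]
      have k1 : ((X - a 0) * P - (X - a 0 - b 0) * Q) = (X - a 0) * (P - Q) + b 0 * Q := by ring
      rw [k1]
      have k2 : (X - a 0) * (P - Q) ≤ X * (P - Q) := by
        apply mul_le_mul_of_nonneg_right _ (by linarith)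
        linarith
      have k3 : b 0 * Q ≤ d * X ^ r := mul_le_mul hb1 h2 h1 hd
      calc ((X - a 0) * (P - Q) + b 0 * Q) * X ≤ (X * (P - Q) + d * X ^ r) * X := by
            apply mul_le_mul_of_nonneg_right _ hX0
            linarith
        _ = X * ((P - Q) * X) + d * X ^ r * X := by ring
        _ ≤ X * (r * d * X ^ r) + d * X ^ r * X := by
            have := mul_le_mul_of_nonneg_left h4 hX0
            linarith
        _ = (r + 1) * d * (X ^ r * X) := by ring

theorem num2 (d X : ℝ) (hd : 0 ≤ d) (hX : 2 * d ≤ X) (r : ℕ) (a b : Fin r → ℝ)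
    (ha : ∀ l, 0 ≤ a l ∧ a l ≤ d) (hb : ∀ l, 0 ≤ b l ∧ b l ≤ d) :
    (X ^ r - ∏ l, (X - a l) - ∏ l, (X - b l) + ∏ l, (X - a l - b l)) * X ^ 2 ≤
      r ^ 2 * d ^ 2 * X ^ r := by
  induction r with
  | zero => simp
  | succ r ih =>
    have h0 := ih (fun l => a l.succ) (fun l => b l.succ) (fun l => ha _) (fun l => hb _)
    obtain ⟨h1, h2, h3, h4⟩ := num1 d X hd hX r (fun l => a l.succ) (fun l => b l.succ)
      (fun l => ha _) (fun l => hb _)
    obtain ⟨h1', h2', h3', h4'⟩ := num1 d X hd hX r (fun l => b l.succ) (fun l => a l.succ)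
      (fun l => hb _) (fun l => ha _)
    have hc : ∏ l : Fin r, (X - b l.succ - a l.succ) = ∏ l : Fin r, (X - a l.succ - b l.succ) :=
      Finset.prod_congr rfl fun l _ => by ring
    rw [hc] at h1' h2' h3' h4'
    rw [Fin.prod_univ_succ, Fin.prod_univ_succ, Fin.prod_univ_succ, pow_succ]
    obtain ⟨ha0, ha1⟩ := ha 0
    obtain ⟨hb0, hb1⟩ := hb 0
    have hX0 : 0 ≤ X := by linarith
    have hp : (0:ℝ) ≤ X ^ r := pow_nonneg hX0 r
    set P := ∏ l : Fin r, (X - a l.succ) with hP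
    set P' := ∏ l : Fin r, (X - b l.succ) with hP'
    set Q := ∏ l : Fin r, (X - a l.succ - b l.succ) with hQ
    have k1 : (X ^ r * X - (X - a 0) * P - (X - b 0) * P' + (X - a 0 - b 0) * Q) * X ^ 2 =
      X * ((X ^ r - P - P' + Q) * X ^ 2) + a 0 * ((P - Q) * X) * X
        + b 0 * ((P' - Q) * X) * X := by ring
    rw [k1]
    have k2 : a 0 * ((P - Q) * X) * X ≤ d * (r * d * X ^ r) * X := by
      apply mul_le_mul_of_nonneg_right _ hX0
      exact mul_le_mul ha1 h4 (mul_nonneg (by linarith) hX0) hd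
    have k3 : b 0 * ((P' - Q) * X) * X ≤ d * (r * d * X ^ r) * X := by
      apply mul_le_mul_of_nonneg_right _ hX0
      exact mul_le_mul hb1 h4' (mul_nonneg (by linarith) hX0) hd
    have k4 := mul_le_mul_of_nonneg_left h0 hX0
    have k5 : 0 ≤ d ^ 2 * (X ^ r * X) := by positivity
    rw [Nat.cast_succ]
    nlinarith [k2, k3, k4, k5]

/-! ### boxes -/

/-- polynomials with degrees in a box -/
def Box (K : Type) [Field K] {r : ℕ} (c : Fin r → ℕ) : Submodule K (MvPolynomial (Fin r) K) :=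
  restrictSupport K (Set.Iic (Finsupp.equivFunOnFinite.symm c))

theorem mem_Box {K : Type} [Field K] {r : ℕ} (c : Fin r → ℕ) (f : MvPolynomial (Fin r) K) :
    f ∈ Box K c ↔ ∀ l, degreeOf l f ≤ c l := by
  unfold Box
  rw [mem_restrictSupport_iff]
  constructor
  · intro h l
    rw [degreeOf_le_iff]
    intro m hm
    have := h (Finset.mem_coe.2 hm)
    rw [Set.mem_Iic] at this
    simpa using this l
  · intro h m hm
    rw [Set.mem_Iic]
    intro l
    have := (degreeOf_le_iff.1 (h l)) m (Finset.mem_coe.1 hm)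
    simpa using this

instance {r : ℕ} (c : Fin r → ℕ) :
    Finite (Set.Iic (Finsupp.equivFunOnFinite.symm c : Fin r →₀ ℕ)) :=
  (Set.finite_Iic _).to_subtype

instance Box_fd {K : Type} [Field K] {r : ℕ} (c : Fin r → ℕ) : Module.Finite K (Box K c) :=
  Module.Finite.of_basis (basisRestrictSupport K (Set.Iic (Finsupp.equivFunOnFinite.symm c)))

theorem Box_rank {K : Type} [Field K] {r : ℕ} (c : Fin r → ℕ) :
    Module.finrank K (Box K c) = ∏ l, (c l + 1) := by
  classical
  unfold Box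
  rw [Module.finrank_eq_nat_card_basis
    (basisRestrictSupport K (Set.Iic (Finsupp.equivFunOnFinite.symm c)))]
  have h1 : (Set.Iic (Finsupp.equivFunOnFinite.symm c : Fin r →₀ ℕ)) =
      ↑(Finset.Iic (Finsupp.equivFunOnFinite.symm c : Fin r →₀ ℕ)) := by simp
  rw [h1, Nat.card_eq_card_toFinset]
  simp only [Finset.toFinset_coe]
  rw [Finsupp.card_Iic]
  rw [← Finset.prod_subset (Finset.subset_univ
    (Finsupp.equivFunOnFinite.symm c : Fin r →₀ ℕ).support)]
  · apply Finset.prod_congr rfl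
    intro l _
    simp
  · intro l _ hl
    have : c l = 0 := by simpa using hl
    rw [this, zero_add]

/-- multiplication by a polynomial, as a linear map -/
def mu {K : Type} [Field K] {r : ℕ} (A : MvPolynomial (Fin r) K) :
    MvPolynomial (Fin r) K →ₗ[K] MvPolynomial (Fin r) K := LinearMap.mulLeft K A

theorem mu_inj {K : Type} [Field K] {r : ℕ} (A : MvPolynomial (Fin r) K) (hA : A ≠ 0) :
    Function.Injective (mu A) := by
  intro x y h
  exact mul_left_cancel₀ hA h

theorem map_rank {K : Type} [Field K] {r : ℕ} (A : MvPolynomial (Fin r) K) (hA : A ≠ 0)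
    (c : Fin r → ℕ) : Module.finrank K ((Box K c).map (mu A)) = ∏ l, (c l + 1) := by
  rw [← (Submodule.equivMapOfInjective (mu A) (mu_inj A hA) (Box K c)).finrank_eq]
  exact Box_rank c

instance map_fd {K : Type} [Field K] {r : ℕ} (A : MvPolynomial (Fin r) K) (c : Fin r → ℕ) :
    Module.Finite K ((Box K c).map (mu A)) := by
  infer_instance

/-- the main dimension count -/
theorem main {K : Type} [Field K] (r d0 : ℕ) (A B : MvPolynomial (Fin r) K) (hA : A ≠ 0)
    (hB : B ≠ 0) (hAB : IsRelPrime A B) (dA : ∀ l, degreeOf l A ≤ d0)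
    (dB : ∀ l, degreeOf l B ≤ d0) (D : ℕ) (hD : 2 * d0 ≤ D) :
    ∃ V : Submodule K (MvPolynomial (Fin r) K), V ≤ Box K (fun _ => D) ∧
      (∀ f ∈ V, ∃ G H : MvPolynomial (Fin r) K, f = G * A + H * B) ∧
      (((D + 1) ^ r : ℕ) : ℝ) - Module.finrank K V ≤ ((D : ℝ) + 1) ^ r
        - ∏ l, (((D : ℝ) + 1) - degreeOf l A) - ∏ l, (((D : ℝ) + 1) - degreeOf l B)
        + ∏ l, (((D : ℝ) + 1) - degreeOf l A - degreeOf l B) := by
  classical
  set cA : Fin r → ℕ := fun l => D - degreeOf l A with hcA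
  set cB : Fin r → ℕ := fun l => D - degreeOf l B with hcB
  set cC : Fin r → ℕ := fun l => D - degreeOf l A - degreeOf l B with hcC
  set VA := (Box K cA).map (mu A) with hVA
  set VB := (Box K cB).map (mu B) with hVB
  have hAD : VA ≤ Box K (fun _ => D) := by
    rintro _ ⟨g, hg, rfl⟩
    rw [mem_Box]
    intro l
    have h1 := (mem_Box cA g).1 hg l
    have h2 : degreeOf l (A * g) ≤ degreeOf l A + degreeOf l g := degreeOf_mul_le l A g
    have h3 := dA l
    simp only [hcA] at h1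
    change degreeOf l (A * g) ≤ D
    omega
  have hBD : VB ≤ Box K (fun _ => D) := by
    rintro _ ⟨g, hg, rfl⟩
    rw [mem_Box]
    intro l
    have h1 := (mem_Box cB g).1 hg l
    have h2 : degreeOf l (B * g) ≤ degreeOf l B + degreeOf l g := degreeOf_mul_le l B g
    have h3 := dB l
    simp only [hcB] at h1
    change degreeOf l (B * g) ≤ D
    omega
  have hinf : VA ⊓ VB ≤ (Box K cC).map (mu (A * B)) := by
    rintro f ⟨⟨g, hg, hgf⟩, ⟨h, hh, hhf⟩⟩
    have e1 : A ∣ f := ⟨g, hgf.symm⟩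
    have e2 : B ∣ f := ⟨h, hhf.symm⟩
    obtain ⟨k, hk⟩ := hAB.mul_dvd e1 e2
    refine ⟨k, ?_, hk.symm⟩
    have hfD : f ∈ Box K (fun _ => D) := hAD ⟨g, hg, hgf⟩
    rw [mem_Box] at hfD
    change k ∈ Box K cC
    rw [mem_Box]
    intro l
    by_cases hk0 : k = 0
    · rw [hk0]; simp
    have h1 := hfD l
    rw [hk, degreeOf_mul_eq (mul_ne_zero hA hB) hk0, degreeOf_mul_eq hA hB] at h1
    simp only [hcC]
    omega
  refine ⟨VA ⊔ VB, sup_le hAD hBD, ?_, ?_⟩
  · intro f hf
    obtain ⟨y, ⟨g, hg, hgy⟩, z, ⟨h, hh, hhz⟩, rfl⟩ := Submodule.mem_sup.1 hf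
    refine ⟨g, h, ?_⟩
    rw [← hgy, ← hhz]
    change A * g + B * h = _
    ring
  · have r1 := Submodule.finrank_sup_add_finrank_inf_eq VA VB
    have r2 : Module.finrank K VA = ∏ l, (cA l + 1) := map_rank A hA cA
    have r3 : Module.finrank K VB = ∏ l, (cB l + 1) := map_rank B hB cB
    have r4 : Module.finrank K ↥(VA ⊓ VB) ≤ ∏ l, (cC l + 1) := by
      rw [← map_rank (A * B) (mul_ne_zero hA hB) cC]
      exact Submodule.finrank_mono hinf
    have s2 : ((∏ l, (cA l + 1) : ℕ) : ℝ) = ∏ l, (((D : ℝ) + 1) - degreeOf l A) := by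
      rw [Nat.cast_prod]
      apply Finset.prod_congr rfl
      intro l _
      have h3 := dA l
      simp only [hcA]
      rw [Nat.cast_add, Nat.cast_sub (by omega)]
      push_cast
      ring
    have s3 : ((∏ l, (cB l + 1) : ℕ) : ℝ) = ∏ l, (((D : ℝ) + 1) - degreeOf l B) := by
      rw [Nat.cast_prod]
      apply Finset.prod_congr rfl
      intro l _
      have h3 := dB l
      simp only [hcB]
      rw [Nat.cast_add, Nat.cast_sub (by omega)]
      push_cast
      ring
    have s4 : ((∏ l, (cC l + 1) : ℕ) : ℝ) =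
        ∏ l, (((D : ℝ) + 1) - degreeOf l A - degreeOf l B) := by
      rw [Nat.cast_prod]
      apply Finset.prod_congr rfl
      intro l _
      have h3 := dA l
      have h4 := dB l
      simp only [hcC]
      rw [Nat.cast_add, Nat.cast_sub (by omega), Nat.cast_sub (by omega)]
      push_cast
      ring
    have r1' : ((Module.finrank K ↥(VA ⊔ VB) : ℕ) : ℝ) + (Module.finrank K ↥(VA ⊓ VB) : ℕ) =
        (Module.finrank K VA : ℕ) + (Module.finrank K VB : ℕ) := by exact_mod_cast r1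
    have r4' : ((Module.finrank K ↥(VA ⊓ VB) : ℕ) : ℝ) ≤ ((∏ l, (cC l + 1) : ℕ) : ℝ) := by
      exact_mod_cast r4
    rw [r2, r3, s2, s3] at r1'
    rw [s4] at r4'
    push_cast
    linarith

end PIdlx

theorem Idl_proof : S_Idl := by
  intro r d0
  refine ⟨r ^ 2 * d0 ^ 2, ?_⟩
  intro K _ A B hA hB hAB dA dB D hD
  obtain ⟨V, hV, hG, hr⟩ := PIdlx.main r d0 A B hA hB hAB dA dB D hD
  have : Module.Finite K V := Submodule.finiteDimensional_of_le hV
  have hM : Module.finrank K V ≤ (D + 1) ^ r := by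
    have h1 : Module.finrank K V ≤ Module.finrank K (PIdlx.Box K (fun _ : Fin r => D)) :=
      Submodule.finrank_mono hV
    rw [PIdlx.Box_rank] at h1
    simpa using h1
  refine ⟨Module.finrank K V, fun j => ((Module.finBasis K V) j : MvPolynomial (Fin r) K),
    ?_, ?_, ?_, hM, ?_⟩
  · exact (Module.finBasis K V).linearIndependent.map' V.subtype (Submodule.ker_subtype V)
  · intro j
    exact hG _ (Subtype.mem _)
  · intro j l
    exact (PIdlx.mem_Box _ _).1 (hV (Subtype.mem _)) l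
  · have h2 := PIdlx.num2 d0 ((D : ℝ) + 1) (by positivity)
      (by have : (2 * d0 : ℝ) ≤ D := by exact_mod_cast hD
          linarith) r (fun l => degreeOf l A) (fun l => degreeOf l B)
      (fun l => ⟨by positivity, by exact_mod_cast dA l⟩)
      (fun l => ⟨by positivity, by exact_mod_cast dB l⟩)
    have h3 : ((((D + 1) ^ r - Module.finrank K V : ℕ) : ℝ)) * ((D : ℝ) + 1) ^ 2 ≤
        (r : ℝ) ^ 2 * (d0 : ℝ) ^ 2 * ((D : ℝ) + 1) ^ r := by
      refine le_trans ?_ h2
      apply mul_le_mul_of_nonneg_right _ (by positivity)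
      rw [Nat.cast_sub hM]
      exact hr
    exact_mod_cast h3

end

end Pool.Agent.Work.MP_6d7a54_an.NG
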