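import Pool.Agent.Work.MP_6d7a54_an.NG.Stmts

/-!
# Common zeros, Jacobian, algebraic independence and integrality (MP_6d7a54_an, item Int)
-/

namespace Pool.Agent.Work.MP_6d7a54_an.NG

open MvPolynomial

noncomputable section

namespace PIntx

/-- integrality from generation of the target by a finite set -/
theorem int_of (S A : Type) [CommRing S] [CommRing A] (f : S →+* A) (T : Set A) (hT : T.Finite)
    (H : ∀ M : AddSubgroup A, (∀ s x, x ∈ M → f s * x ∈ M) → (∀ t ∈ T, t ∈ M) → ∀ x, x ∈ M) :
    f.IsIntegral := by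
  let _ := f.toAlgebra
  have h1 : Submodule.span S T = ⊤ := by
    rw [eq_top_iff]
    intro x _
    have := H (Submodule.span S T).toAddSubgroup (fun s x hx => by
      have h2 := (Submodule.span S T).smul_mem s hx
      rw [Algebra.smul_def] at h2
      exact h2) (fun t ht => Submodule.subset_span ht) x
    exact this
  have h2 : Module.Finite S A := by
    constructor
    rw [← h1]
    exact Submodule.fg_span hT
  have h3 : f.Finite := h2
  exact h3.to_isIntegral

theorem jac_eval {F Om : Type} [Field F] [Field Om] [Algebra F Om] {N : ℕ}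
    (Q : Fin N → MvPolynomial (Fin N) F) (w : Fin N → Om) :
    aeval w (Jac Q) = (Matrix.of fun a j => aeval w (pderiv j (Q a))).det := by
  unfold Jac
  rw [AlgHom.map_det]
  congr 1

/-- no common zero -/
theorem nocommon {F : Type} [Field F] {n : ℕ} (Q : Fin (n + 1) → MvPolynomial (Fin (n + 1)) F)
    (dg : Fin (n + 1) → ℕ) (h : NC Q dg) (Om : Type) [Field Om] [Algebra F Om]
    (w : Fin (n + 1) → Om) (hw : ∀ a, aeval w (Q a) = 0) : w = 0 := by
  by_contra hne
  have h1 := h.n1 Om w hne 0 (fun b _ => hw b)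
  apply h1
  rw [jac_eval]
  rw [← Matrix.exists_mulVec_eq_zero_iff]
  refine ⟨w, hne, ?_⟩
  funext a
  have h2 := (h.hom a).sum_X_mul_pderiv
  have h3 := congrArg (aeval w) h2
  rw [map_sum, map_nsmul, hw a, nsmul_zero] at h3
  simp only [map_mul, aeval_X] at h3
  simp only [Matrix.mulVec, dotProduct, Matrix.of_apply, Pi.zero_apply]
  rw [← h3]
  exact Finset.sum_congr rfl fun j _ => mul_comm _ _

/-- powers of the variables lie in the ideal -/
theorem powmem {F : Type} [Field F] {n : ℕ} (Q : Fin (n + 1) → MvPolynomial (Fin (n + 1)) F)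
    (dg : Fin (n + 1) → ℕ) (h : NC Q dg) : ∃ N : ℕ, ∀ j,
      (X j : MvPolynomial (Fin (n + 1)) F) ^ N ∈ Ideal.span (Set.range Q) := by
  have h1 : ∀ j, ∃ N : ℕ, (X j : MvPolynomial (Fin (n + 1)) F) ^ N ∈
      Ideal.span (Set.range Q) := by
    intro j
    have h2 : (X j : MvPolynomial (Fin (n + 1)) F) ∈ (Ideal.span (Set.range Q)).radical := by
      rw [← vanishingIdeal_zeroLocus_eq_radical (K := AlgebraicClosure F)]
      rw [mem_vanishingIdeal_iff]
      intro x hx
      have h3 : x = 0 := nocommon Q dg h (AlgebraicClosure F) x fun a =>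
        hx (Q a) (Ideal.subset_span (Set.mem_range_self a))
      rw [aeval_X, h3]
      rfl
    exact h2
  choose N hN using h1
  refine ⟨∑ j, N j, fun j => ?_⟩
  have h4 : N j ≤ ∑ j, N j := Finset.single_le_sum (f := N) (fun _ _ => Nat.zero_le _)
    (Finset.mem_univ j)
  obtain ⟨k, hk⟩ := Nat.exists_eq_add_of_le h4
  rw [hk, pow_add]
  exact Ideal.mul_mem_right _ _ (hN j)

/-- homogeneous components of a multiple of a homogeneous form -/
theorem comp_mem {F : Type} [Field F] {N : ℕ} (M : AddSubgroup (MvPolynomial (Fin N) F))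
    (g q : MvPolynomial (Fin N) F) (d n : ℕ) (hd : 1 ≤ d) (hq : q.IsHomogeneous d)
    (hM : ∀ x ∈ M, q * x ∈ M)
    (ih : ∀ m < n, ∀ x : MvPolynomial (Fin N) F, x.IsHomogeneous m → x ∈ M) :
    homogeneousComponent n (g * q) ∈ M := by
  have h1 : g * q = ∑ i ∈ Finset.range (g.totalDegree + 1), homogeneousComponent i g * q := by
    rw [← Finset.sum_mul, sum_homogeneousComponent]
  rw [h1, map_sum]
  refine AddSubgroup.sum_mem _ fun i _ => ?_
  have h2 : homogeneousComponent i g * q ∈ homogeneousSubmodule (Fin N) F (i + d) :=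
    (homogeneousComponent_isHomogeneous i g).mul hq
  rw [homogeneousComponent_of_mem h2]
  split_ifs with h3
  · rw [mul_comm]
    exact hM _ (ih i (by omega) _ (homogeneousComponent_isHomogeneous i g))
  · exact M.zero_mem

theorem exists_big (n N : ℕ) (d : Fin (n + 1) →₀ ℕ) (h : (n + 1) * N ≤ d.degree) :
    ∃ j, N ≤ d j := by
  by_contra hcon
  push Not at hcon
  have h1 : d.degree = ∑ j, d j := by
    rw [Finsupp.degree_eq_sum]
  have h2 : ∑ j, d j < ∑ _j : Fin (n + 1), N :=
    Finset.sum_lt_sum_of_nonempty Finset.univ_nonempty fun j _ => hcon j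
  rw [Finset.sum_const, Finset.card_univ, Fintype.card_fin, smul_eq_mul] at h2
  omega

theorem finmon (s B : ℕ) (F : Type) [Field F] :
    {p : MvPolynomial (Fin s) F | ∃ d : Fin s →₀ ℕ, d.degree < B ∧ p = monomial d 1}.Finite := by
  have h1 : {d : Fin s →₀ ℕ | d.degree < B}.Finite := by
    refine Set.Finite.subset (Set.finite_Iic (Finsupp.equivFunOnFinite.symm fun _ : Fin s => B)) ?_
    intro d hd
    rw [Set.mem_Iic]
    intro j
    have h2 : d j ≤ d.degree := Finsupp.le_degree j d
    have h3 : d.degree < B := hd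
    show d j ≤ B
    omega
  refine (h1.image fun d => monomial d (1 : F)).subset ?_
  rintro p ⟨d, hd, rfl⟩
  exact ⟨d, hd, rfl⟩

theorem integral {F : Type} [Field F] {n : ℕ} (Q : Fin (n + 1) → MvPolynomial (Fin (n + 1)) F)
    (dg : Fin (n + 1) → ℕ) (h : NC Q dg) :
    ((aeval Q : MvPolynomial (Fin (n + 1)) F →ₐ[F] MvPolynomial (Fin (n + 1)) F) :
      MvPolynomial (Fin (n + 1)) F →+* MvPolynomial (Fin (n + 1)) F).IsIntegral := by
  obtain ⟨N, hN⟩ := powmem Q dg h
  refine int_of _ _ _ _ (finmon (n + 1) ((n + 1) * N) F) ?_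
  intro M hM hT
  have hC : ∀ (c : F) (x : MvPolynomial (Fin (n + 1)) F), x ∈ M → C c * x ∈ M := by
    intro c x hx
    have := hM (C c) x hx
    rwa [AlgHom.coe_toRingHom, aeval_C, algebraMap_eq] at this
  have hQ : ∀ (a : Fin (n + 1)) (x : MvPolynomial (Fin (n + 1)) F), x ∈ M → Q a * x ∈ M := by
    intro a x hx
    have := hM (X a) x hx
    rwa [AlgHom.coe_toRingHom, aeval_X] at this
  have key : ∀ k : ℕ, ∀ x : MvPolynomial (Fin (n + 1)) F, x.IsHomogeneous k → x ∈ M := by
    intro k
    induction k using Nat.strong_induction_on with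
    | _ k ih =>
      intro x hx
      have h1 : ∀ d : Fin (n + 1) →₀ ℕ, d.degree = k → monomial d (1 : F) ∈ M := by
        intro d hd
        by_cases hlt : k < (n + 1) * N
        · exact hT _ ⟨d, by omega, rfl⟩
        · obtain ⟨j, hj⟩ := exists_big n N d (by omega)
          have h2 : (monomial d (1 : F)) =
              monomial (d - Finsupp.single j N) (1 : F) * X j ^ N := by
            rw [X_pow_eq_monomial, monomial_mul, mul_one]
            congr 1
            rw [tsub_add_cancel_of_le]
            rw [Finsupp.single_le_iff]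
            exact hj
          have h3 := hN j
          rw [Ideal.span, Submodule.mem_span_range_iff_exists_fun] at h3
          obtain ⟨c, hc⟩ := h3
          have h4 : homogeneousComponent k (monomial d (1 : F)) = monomial d (1 : F) :=
            homogeneousComponent_eq_self (isHomogeneous_monomial _ hd)
          rw [← h4, h2, ← hc, Finset.mul_sum, map_sum]
          refine AddSubgroup.sum_mem _ fun a _ => ?_
          rw [smul_eq_mul, ← mul_assoc]
          exact comp_mem M _ (Q a) (dg a) k (h.pos a) (h.hom a) (hQ a) ih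
      rw [x.as_sum]
      refine AddSubgroup.sum_mem _ fun d hd => ?_
      have h5 : d.degree = k := by
        have := hx (mem_support_iff.mp hd)
        rw [Finsupp.degree_eq_weight_one]
        exact this
      have h6 : monomial d (coeff d x) = C (coeff d x) * monomial d (1 : F) := by
        rw [C_mul_monomial, mul_one]
      rw [h6]
      exact hC _ _ (h1 d h5)
  intro x
  rw [← sum_homogeneousComponent x]
  exact AddSubgroup.sum_mem _ fun i _ => key i _ (homogeneousComponent_isHomogeneous i x)

/-- algebraic independence from integrality -/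
theorem algind {F : Type} [Field F] {N : ℕ} (Q : Fin N → MvPolynomial (Fin N) F)
    (h : ((aeval Q : MvPolynomial (Fin N) F →ₐ[F] MvPolynomial (Fin N) F) :
      MvPolynomial (Fin N) F →+* MvPolynomial (Fin N) F).IsIntegral) :
    AlgebraicIndependent F Q := by
  have h1 : Algebra.IsIntegral (Algebra.adjoin F (Set.range Q)) (MvPolynomial (Fin N) F) := by
    constructor
    intro x
    obtain ⟨p, hp, hx⟩ := h x
    have h2 : ∀ g : MvPolynomial (Fin N) F, aeval Q g ∈ Algebra.adjoin F (Set.range Q) := by
      intro g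
      rw [Algebra.adjoin_range_eq_range_aeval]
      exact ⟨g, rfl⟩
    let f : MvPolynomial (Fin N) F →+* Algebra.adjoin F (Set.range Q) :=
      ((aeval Q : MvPolynomial (Fin N) F →ₐ[F] MvPolynomial (Fin N) F) :
        MvPolynomial (Fin N) F →+* MvPolynomial (Fin N) F).codRestrict _ h2
    refine ⟨p.map f, hp.map f, ?_⟩
    rw [Polynomial.eval₂_map]
    exact hx
  have h3 : Algebra.IsAlgebraic (Algebra.adjoin F (Set.range Q)) (MvPolynomial (Fin N) F) :=
    inferInstance
  exact (Algebra.IsAlgebraic.isTranscendenceBasis_of_le_trdeg_of_finite F Q (by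
    rw [MvPolynomial.trdeg_of_isDomain]
    simp)).1

/-- the derivation `∑ v j ∂ j` -/
def DD {F : Type} [Field F] {N : ℕ} (v : Fin N → MvPolynomial (Fin N) F) :
    Derivation F (MvPolynomial (Fin N) F) (MvPolynomial (Fin N) F) :=
  ∑ j, v j • pderiv j

theorem DD_apply {F : Type} [Field F] {N : ℕ} (v : Fin N → MvPolynomial (Fin N) F)
    (P : MvPolynomial (Fin N) F) : DD v P = ∑ j, v j * pderiv j P := by
  unfold DD
  rw [← Derivation.coeFnAddMonoidHom_apply, map_sum, Finset.sum_apply]
  rfl

/-- derivation of a polynomial expression with constant coefficients -/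
theorem D_eval₂ {A B : Type} [CommRing A] [CommRing B] (f : A →+* B) (D : Derivation ℤ B B)
    (hD : ∀ a, D (f a) = 0) (x : B) (p : Polynomial A) :
    D (Polynomial.eval₂ f x p) = Polynomial.eval₂ f x (Polynomial.derivative p) * D x := by
  induction p using Polynomial.induction_on' with
  | add p q hp hq =>
    rw [Polynomial.eval₂_add, map_add, hp, hq, Polynomial.derivative_add, Polynomial.eval₂_add,
      add_mul]
  | monomial k a =>
    rw [Polynomial.eval₂_monomial, Polynomial.derivative_monomial, Polynomial.eval₂_monomial,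
      Derivation.leibniz, hD, smul_zero, add_zero, Derivation.leibniz_pow, map_mul, map_natCast]
    simp only [smul_eq_mul, nsmul_eq_mul]
    ring

/-- a derivation vanishing on a ring vanishes on an algebraic element -/
theorem D_zero {A B : Type} [CommRing A] [IsDomain A] [CharZero A] [CommRing B] [IsDomain B]
    (f : A →+* B) (hf : Function.Injective f) (D : Derivation ℤ B B)
    (hD : ∀ a, D (f a) = 0) (x : B) (h : ∃ p : Polynomial A, p ≠ 0 ∧
      Polynomial.eval₂ f x p = 0) : D x = 0 := by
  classical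
  have h1 : ∃ k, ∃ p : Polynomial A, p ≠ 0 ∧ Polynomial.eval₂ f x p = 0 ∧ p.natDegree = k := by
    obtain ⟨p, hp, hx⟩ := h
    exact ⟨_, p, hp, hx, rfl⟩
  obtain ⟨p, hp, hx, hk⟩ := Nat.find_spec h1
  have h2 : p.natDegree ≠ 0 := by
    intro h0
    rw [Polynomial.natDegree_eq_zero] at h0
    obtain ⟨c, rfl⟩ := h0
    rw [Polynomial.eval₂_C] at hx
    apply hp
    rw [(injective_iff_map_eq_zero f).mp hf c hx, map_zero]
  have h3 := D_eval₂ f D hD x p
  rw [hx, map_zero] at h3
  rcases mul_eq_zero.mp h3.symm with h4 | h4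
  · exfalso
    have h5 : Polynomial.derivative p ≠ 0 := by
      intro h6
      exact h2 (Polynomial.derivative_eq_zero.mp h6)
    have h6 : (Polynomial.derivative p).natDegree < p.natDegree :=
      Polynomial.natDegree_derivative_lt h2
    rw [hk] at h6
    exact Nat.find_min h1 h6 ⟨_, h5, h4, rfl⟩
  · exact h4

/-- the Jacobian does not vanish -/
theorem jac_ne {F : Type} [Field F] [CharZero F] {N : ℕ} (Q : Fin N → MvPolynomial (Fin N) F)
    (h : ((aeval Q : MvPolynomial (Fin N) F →ₐ[F] MvPolynomial (Fin N) F) :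
      MvPolynomial (Fin N) F →+* MvPolynomial (Fin N) F).IsIntegral) : Jac Q ≠ 0 := by
  intro h0
  unfold Jac at h0
  rw [← Matrix.exists_mulVec_eq_zero_iff] at h0
  obtain ⟨v, hv, h1⟩ := h0
  have h2 : ∀ a, DD v (Q a) = 0 := by
    intro a
    have h3 := congrFun h1 a
    simp only [Matrix.mulVec, dotProduct, Jm, Matrix.of_apply, Pi.zero_apply] at h3
    rw [DD_apply, ← h3]
    exact Finset.sum_congr rfl fun j _ => mul_comm _ _
  have h3 : ∀ P : MvPolynomial (Fin N) F, DD v (aeval Q P) = 0 := by
    intro P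
    induction P using MvPolynomial.induction_on with
    | C c => rw [aeval_C, Derivation.map_algebraMap]
    | add p q hp hq => rw [map_add, map_add, hp, hq, add_zero]
    | mul_X p a hp => rw [map_mul, Derivation.leibniz, hp, aeval_X, h2 a, smul_zero, smul_zero,
        add_zero]
  apply hv
  funext j
  have h4 := D_zero _ (algind Q h) ((DD v).restrictScalars ℤ) h3 (X j) (by
    obtain ⟨p, hp, hx⟩ := h (X j)
    exact ⟨p, hp.ne_zero, hx⟩)
  have h5 : DD v (X j) = v j := by
    rw [DD_apply, Finset.sum_eq_single j]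
    · rw [pderiv_X_self, mul_one]
    · intro i _ hi
      rw [pderiv_X_of_ne (Ne.symm hi), mul_zero]
    · intro hj
      exact absurd (Finset.mem_univ j) hj
  rw [Pi.zero_apply, ← h5]
  exact h4

end PIntx

theorem Int_proof : S_Int := by
  intro F _ _ n Q dg h
  have hi := PIntx.integral Q dg h
  refine ⟨?_, PIntx.jac_ne Q hi, PIntx.algind Q hi, ?_⟩
  · intro Om _ _ w hw
    exact PIntx.nocommon Q dg h Om w hw
  · intro P
    exact hi P

end

end Pool.Agent.Work.MP_6d7a54_an.NG
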