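import Pool.Agent.Work.MP_6d7a54_an.NG.Stmts

set_option autoImplicit false

namespace Pool.Agent.Work.MP_6d7a54_an.NG

open MvPolynomial

noncomputable section

theorem JH_proof : S_JH := by
  intro K _ n Q dg h hp
  unfold Jac
  rw [Matrix.det_apply']
  refine IsHomogeneous.sum _ _ _ fun σ _ => ?_
  have h1 : (∏ i, Jm Q (σ i) i).IsHomogeneous (∑ i, (dg (σ i) - 1)) :=
    IsHomogeneous.prod _ _ _ fun i _ => (h (σ i)).pderiv
  have h2 : ∑ i, (dg (σ i) - 1) = ∑ a, dg a - (n + 1) := by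
    rw [Equiv.sum_comp σ (fun a => dg a - 1)]
    have h3 : ∑ a, dg a = ∑ a, (dg a - 1) + (n + 1) := by
      have h4 : ∀ a ∈ Finset.univ, dg a = (dg a - 1) + 1 := fun a _ => by
        have := hp a
        omega
      rw [Finset.sum_congr rfl h4, Finset.sum_add_distrib]
      simp
    omega
  rw [h2] at h1
  have h5 : ((((Equiv.Perm.sign σ : ℤ)) : MvPolynomial (Fin (n + 1)) K)).IsHomogeneous 0 := by
    have : ((((Equiv.Perm.sign σ : ℤ)) : MvPolynomial (Fin (n + 1)) K)) =
        C (((Equiv.Perm.sign σ : ℤ)) : K) := by simp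
    rw [this]
    exact isHomogeneous_C _ _
  have h6 := h5.mul h1
  rwa [zero_add] at h6

end

end Pool.Agent.Work.MP_6d7a54_an.NG
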