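import Pool.Agent.Work.MP_6d7a54_an.NF.StmtsB

/-!
# Normal crossing hypersurfaces with many components: definitions (MP_6d7a54_an)

The number of variables is `n + 1`; the hypersurface has `n + 1` components `Q a`.
-/

namespace Pool.Agent.Work.MP_6d7a54_an.NG

open MvPolynomial
open Pool.Agent.Work.MP_6d7a54_an.NF (NR InK IsNev)

noncomputable section

/-! ### Polynomials in `n + 1` variables -/

/-- base change of a polynomial -/
abbrev bc {F s : Type} (K : Type) [Field F] [Field K] [Algebra F K] (P : MvPolynomial s F) :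
    MvPolynomial s K := MvPolynomial.map (algebraMap F K) P

/-- Jacobian matrix of `Q` -/
def Jm {K : Type} [CommRing K] {N : ℕ} (Q : Fin N → MvPolynomial (Fin N) K) :
    Matrix (Fin N) (Fin N) (MvPolynomial (Fin N) K) := Matrix.of fun a j => pderiv j (Q a)

/-- Jacobian determinant of `Q` -/
def Jac {K : Type} [CommRing K] {N : ℕ} (Q : Fin N → MvPolynomial (Fin N) K) :
    MvPolynomial (Fin N) K := (Jm Q).det

/-- the vector field with `V (Q a) = Jac Q * (l a * Q a)` -/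
def VV {K : Type} [CommRing K] {N : ℕ} (Q : Fin N → MvPolynomial (Fin N) K) (l : Fin N → K) :
    Fin N → MvPolynomial (Fin N) K :=
  fun j => ∑ a, (Jm Q).adjugate j a * (C (l a) * Q a)

/-- `n + 1` homogeneous polynomials in `n + 1` variables of total degree at least `n + 2`, such
that `n` of them vanish only at points where the Jacobian does not vanish -/
structure NC {F : Type} [Field F] {n : ℕ} (Q : Fin (n + 1) → MvPolynomial (Fin (n + 1)) F)
    (dg : Fin (n + 1) → ℕ) : Prop where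
  hom : ∀ a, (Q a).IsHomogeneous (dg a)
  pos : ∀ a, 1 ≤ dg a
  deg : n + 2 ≤ ∑ a, dg a
  n1 : ∀ (Om : Type) [Field Om] [Algebra F Om] (w : Fin (n + 1) → Om), w ≠ 0 → ∀ a,
    (∀ b, b ≠ a → aeval w (Q b) = 0) → aeval w (Jac Q) ≠ 0

/-- value of a polynomial over the constants at a point of `R` -/
def vq {F s : Type} (K : Type) {R : Type} [Field F] [Field K] [CommRing R] [Algebra F K]
    [Algebra K R] (q : s → R) (P : MvPolynomial s F) : R := aeval q (bc K P)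

/-- derivation on the coefficients -/
def dc {K s : Type} [Field K] (dl : Derivation ℤ K K) (f : MvPolynomial s K) :
    MvPolynomial s K := ∑ m ∈ f.support, monomial m (dl (coeff m f))

/-- coefficient with exponents in a box -/
def cf {K : Type} [CommSemiring K] {r D : ℕ} (P : MvPolynomial (Fin r) K)
    (m : Fin r → Fin (D + 1)) : K :=
  coeff (Finsupp.equivFunOnFinite.symm fun l => (m l : ℕ)) P

/-- the family `y`, with zeros outside `T` -/
def cut {R : Type} [CommRing R] {N : ℕ} (T : Finset (Fin N)) (y : Fin N → R) : Fin N → R :=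
  fun a => if a ∈ T then y a else 0

/-! ### Valuations with values in functions -/

/-- `v ≤ w` up to a function of mean zero -/
def Bl {Om : Type} (E : (Om → ℝ) →ₗ[ℝ] ℝ) (v w : Om → ℝ) : Prop := E ((v - w) ⊔ 0) = 0

/-- `f` is dominated by the function `v` -/
def Dm {R Om : Type} [CommRing R] (E : (Om → ℝ) →ₗ[ℝ] ℝ) (x : R → Om → ℝ) (f : R)
    (v : Om → ℝ) : Prop := f = 0 ∨ Bl E (x f) v

/-- Nevanlinna ring with a valuation `x` with values in functions on `Om`, and a mean `E` which is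
positive on the vector lattice `A` -/
structure NRV (F K R Om : Type) [Field F] [Field K] [CommRing R] [IsDomain R] [Algebra F K]
    [Algebra K R] (dl : Derivation ℤ K K) (dR : Derivation ℤ R R)
    (A : Submodule ℝ (Om → ℝ)) (E : (Om → ℝ) →ₗ[ℝ] ℝ) (x : R → Om → ℝ) : Prop where
  nr : NR F K R dl dR
  sup : ∀ v ∈ A, ∀ w ∈ A, v ⊔ w ∈ A
  pos : ∀ v ∈ A, 0 ≤ v → 0 ≤ E v
  mem : ∀ f : R, f ≠ 0 → x f ∈ A
  hol : ∀ f : R, f ≠ 0 → 0 ≤ E (x f)
  mul : ∀ f g : R, f ≠ 0 → g ≠ 0 → E |x (f * g) - (x f + x g)| = 0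
  add : ∀ f g : R, f ≠ 0 → g ≠ 0 → f + g ≠ 0 → Bl E (x (f + g)) (x f ⊔ x g)
  der : ∀ f : R, f ≠ 0 → dR f ≠ 0 → Bl E (x (dR f)) (x f)
  cst : ∀ a : K, a ≠ 0 → E |x (algebraMap K R a)| = 0
  sml : ∀ f : R, f ≠ 0 → Bl E (x f) 0 → InK K f

/-- facts on valuations -/
structure VF {K R Om : Type} [Field K] [CommRing R] [Algebra K R] (dR : Derivation ℤ R R)
    (A : Submodule ℝ (Om → ℝ)) (E : (Om → ℝ) →ₗ[ℝ] ℝ) (x : R → Om → ℝ) : Prop where
  abs : ∀ v ∈ A, |v| ∈ A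
  pp : ∀ v ∈ A, v ⊔ 0 ∈ A
  mono : ∀ v ∈ A, ∀ w ∈ A, v ≤ w → E v ≤ E w
  ble : ∀ v ∈ A, ∀ w ∈ A, Bl E v w → E v ≤ E w
  blt : ∀ v ∈ A, ∀ w ∈ A, ∀ z ∈ A, Bl E v w → Bl E w z → Bl E v z
  blw : ∀ v ∈ A, ∀ w ∈ A, ∀ z ∈ A, 0 ≤ z → E z = 0 → v ≤ w + z → Bl E v w
  bla : ∀ v ∈ A, ∀ w ∈ A, ∀ v' ∈ A, ∀ w' ∈ A, Bl E v w → Bl E v' w' → Bl E (v + v') (w + w')
  blc : ∀ v ∈ A, ∀ w ∈ A, ∀ c : ℝ, 0 ≤ c → Bl E v w → Bl E (c • v) (c • w)
  zero : ∀ v, Dm E x 0 v
  self : ∀ f, f ≠ 0 → Dm E x f (x f)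
  weak : ∀ f, ∀ v ∈ A, ∀ w ∈ A, Bl E v w → Dm E x f v → Dm E x f w
  add : ∀ f g, ∀ v ∈ A, Dm E x f v → Dm E x g v → Dm E x (f + g) v
  der : ∀ f, ∀ v ∈ A, Dm E x f v → Dm E x (dR f) v
  mul : ∀ f g, ∀ v ∈ A, ∀ w ∈ A, Dm E x f v → Dm E x g w → Dm E x (f * g) (v + w)
  cst : ∀ a : K, Dm E x (algebraMap K R a) 0
  unit : ∀ f, IsUnit f → E (x f) = 0
  pw : ∀ (f : R) (k : ℕ), f ≠ 0 → E |x (f ^ k) - (k : ℝ) • x f| = 0
  mon : ∀ (r : ℕ) (tau : Fin r → Rˣ) (m : Fin r → ℤ) (k : K), k ≠ 0 →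
    E |x (algebraMap K R k * ((∏ l, tau l ^ (m l) : Rˣ) : R))
      - ∑ l, (m l : ℝ) • x (tau l : R)| = 0

/-- Wronskian -/
def Wr {R : Type} [CommRing R] (d : Derivation ℤ R R) {p : ℕ} (f : Fin p → R) : R :=
  (Matrix.of fun k j : Fin p => ((d : R → R)^[(k : ℕ)] (f j))).det

/-- the maximum of the functions `x (y a) / dg a` -/
def XX {R Om : Type} {n : ℕ} (x : R → Om → ℝ) (dg : Fin (n + 1) → ℕ) (y : Fin (n + 1) → R) :
    Om → ℝ := Finset.univ.sup' Finset.univ_nonempty fun a => (dg a : ℝ)⁻¹ • x (y a)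

/-- the units `tau` are multiplicatively independent modulo `K`, for exponents at most `B` -/
def Ind (K : Type) {R : Type} [Field K] [CommRing R] [Algebra K R] {r : ℕ} (tau : Fin r → Rˣ)
    (B : ℕ) : Prop := ∀ j : Fin r → ℤ, j ≠ 0 → (∀ l, |j l| ≤ B) →
  ¬ InK K ((∏ l, tau l ^ (j l) : Rˣ) : R)

/-- the value `kappa t ^ m` -/
def mo {K R : Type} [Field K] [CommRing R] [Algebra K R] {N r : ℕ} (kap : Fin N → K)
    (m : Fin N → Fin r → ℤ) (t : Fin r → Rˣ) : Fin N → R :=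
  fun a => algebraMap K R (kap a) * ((∏ l, t l ^ (m a l) : Rˣ) : R)

/-- the critical condition: a nonzero vector in the left kernel of the Jacobian matrix which is
orthogonal to `m` -/
def Crit {F Om : Type} [Field F] [Field Om] [Algebra F Om] {N r : ℕ}
    (Q : Fin N → MvPolynomial (Fin N) F) (m : Fin N → Fin r → ℤ) (p : Fin N → Om) : Prop :=
  ∃ c : Fin N → Om, c ≠ 0 ∧ (∀ j, ∑ a, c a * aeval p (pderiv j (Q a)) = 0) ∧
    ∀ l, ∑ a, c a * aeval p (Q a) * (m a l : Om) = 0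

/-- `e` is a Sard polynomial for the exponents `m` -/
structure Sard {F : Type} [Field F] {N r : ℕ} (Q : Fin N → MvPolynomial (Fin N) F)
    (dg : Fin N → ℕ) (m : Fin N → Fin r → ℤ) (e : MvPolynomial (Fin N) F) : Prop where
  ne : e ≠ 0
  coset : ∀ i ∈ e.support, ∀ j ∈ e.support, ∑ a, ((i a : ℤ) - j a) * dg a = 0 ∧
    ∀ l, ∑ a, ((i a : ℤ) - j a) * m a l = 0
  crit : ∀ (Om : Type) [Field Om] [Algebra F Om] (p : Fin N → Om), (∀ a, aeval p (Q a) ≠ 0) →
    Crit Q m p → aeval (fun a => aeval p (Q a)) e = 0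

/-- an elimination polynomial for the Jacobian -/
structure NJ {F : Type} [Field F] {n : ℕ} (Q : Fin (n + 1) → MvPolynomial (Fin (n + 1)) F)
    (dg : Fin (n + 1) → ℕ) (N Js : MvPolynomial (Fin (n + 1)) F) (W g : ℕ)
    (Mx : Fin (n + 1) → ℕ) : Prop where
  ne : N ≠ 0
  hom : N.IsWeightedHomogeneous dg W
  mx : ∀ a, Mx a * dg a = W
  pure : ∀ a, coeff (Finsupp.single a (Mx a)) N ≠ 0
  jac : aeval Q N = Jac Q * Js
  js : Js.IsHomogeneous g
  deg : W + (n + 1) = ∑ a, dg a + g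

end

end Pool.Agent.Work.MP_6d7a54_an.NG
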