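import Pool.Agent.Work.MP_6d7a54_an.NF.Stmts
import Pool.Agent.Work.MP_6d7a54_an.NG.Defs

/-!
# Nevanlinna fields with a valuation: statements of the analytic items (MP_6d7a54_an)
-/

namespace Pool.Agent.Work.MP_6d7a54_an.NG

open MvPolynomial Filter Metric Set Topology Real
open Pool.Agent.Work.MP_6d7a54_an.NF (NR InK IsNev Conf Cen Rad DP ev dd Tiny TT UF sm lo BadSeq)

noncomputable section

/-- Nevanlinna field with a valuation `x` with values in functions on `Om` and a mean `E` -/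
structure NVal {F L Om : Type} [Field F] [Field L] [Algebra F L] (D : Derivation F L L)
    (S Sm : Subalgebra F L) (A : Submodule ℝ (Om → ℝ)) (E : (Om → ℝ) →ₗ[ℝ] ℝ)
    (x : L → Om → ℝ) : Prop where
  nev : IsNev D S Sm
  sup : ∀ v ∈ A, ∀ w ∈ A, v ⊔ w ∈ A
  pos : ∀ v ∈ A, 0 ≤ v → 0 ≤ E v
  mem : ∀ f : L, f ≠ 0 → x f ∈ A
  mul : ∀ f g : L, f ≠ 0 → g ≠ 0 → E |x (f * g) - (x f + x g)| = 0
  add : ∀ f g : L, f ≠ 0 → g ≠ 0 → f + g ≠ 0 → Bl E (x (f + g)) (x f ⊔ x g)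
  sm : ∀ f : L, f ≠ 0 → (f ∈ Sm ↔ Bl E (x f) 0)
  hol : ∀ f ∈ S, f ≠ 0 → 0 ≤ E (x f)

/-- integrable families of finite order -/
def InA (c : ℕ → ℂ) (r T : ℕ → ℝ) (v : ℕ × ℂ → ℝ) : Prop :=
  (∀ n, CircleIntegrable (fun z => v (n, z)) (c n) (r n)) ∧
  ∃ K : ℝ, ∀ᶠ n in UF, Real.circleAverage (fun z => |v (n, z)|) (c n) (r n) ≤ K * T n

/-- the mean -/
def S_EF : Prop := ∀ (c : ℕ → ℂ) (r T : ℕ → ℝ), (∀ᶠ n in UF, 0 < T n) →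
  ∃ (A : Submodule ℝ (ℕ × ℂ → ℝ)) (E : (ℕ × ℂ → ℝ) →ₗ[ℝ] ℝ), (∀ v, v ∈ A ↔ InA c r T v) ∧
  (∀ v ∈ A, ∀ w ∈ A, v ⊔ w ∈ A) ∧ (∀ v ∈ A, 0 ≤ v → 0 ≤ E v) ∧
  ∀ v ∈ A, Tendsto (fun n => Real.circleAverage (fun z => v (n, z)) (c n) (r n) / T n) UF
    (𝓝 (E v))

/-- the characteristic tends to infinity -/
def S_EP : Prop := ∀ (F I : Type) [Field F] [Algebra F ℂ] (d : ℕ) (C : ℝ) (u0 : Fin d → ℂ)
  (g : ℕ → I → ℂ → ℂ) (u : ℕ → Fin d → ℂ → ℂ) (a b : ℕ → ℝ) (c : ℕ → ℂ) (r : ℕ → ℝ),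
  Conf F C u0 g u a b → Cen F g u a b c → Rad F g u a c r → ∀ K : ℝ, ∀ᶠ n in UF,
  K ≤ TT (u n) (c n) (r n)

/-- logarithms of elements are integrable of finite order -/
def S_EL : Prop := ∀ (F I : Type) [Field F] [Algebra F ℂ] (d : ℕ) (C : ℝ) (u0 : Fin d → ℂ)
  (g : ℕ → I → ℂ → ℂ) (u : ℕ → Fin d → ℂ → ℂ) (a b : ℕ → ℝ) (c : ℕ → ℂ) (r : ℕ → ℝ),
  Conf F C u0 g u a b → Cen F g u a b c → Rad F g u a c r → ∀ P : DP F I, ¬ Tiny g u a P →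
  InA c r (fun n => TT (u n) (c n) (r n)) (fun p => Real.log ‖ev (g p.1) p.2 P‖)

/-- pointwise facts on the circles -/
def S_ET : Prop := ∀ (F I : Type) [Field F] [Algebra F ℂ] (d : ℕ) (C : ℝ) (u0 : Fin d → ℂ)
  (g : ℕ → I → ℂ → ℂ) (u : ℕ → Fin d → ℂ → ℂ) (a b : ℕ → ℝ) (c : ℕ → ℂ) (r : ℕ → ℝ),
  Conf F C u0 g u a b → Cen F g u a b c → Rad F g u a c r →
  (∀ P : DP F I, ¬ Tiny g u a P → ∀ᶠ n in UF, ∀ z ∈ sphere (c n) (r n), ev (g n) z P ≠ 0) ∧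
  (∀ P Q P' Q' : DP F I, ¬ Tiny g u a P → ¬ Tiny g u a Q → ¬ Tiny g u a P' →
    ¬ Tiny g u a Q' → Tiny g u a (P * Q' - P' * Q) → ∀ᶠ n in UF, ∀ z ∈ sphere (c n) (r n),
    |(Real.log ‖ev (g n) z P‖ - Real.log ‖ev (g n) z Q‖)
      - (Real.log ‖ev (g n) z P'‖ - Real.log ‖ev (g n) z Q'‖)| ≤ 1)

/-- Nevanlinna field, with more information -/
def S_AC2 : Prop := ∀ (F R : Type) [Field F] [CharZero F] [CommRing R] [Algebra F R]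
  (dl : Derivation F R R) (T : Ideal R), T.IsPrime → (∀ x ∈ T, dl x ∈ T) →
  ∀ sml low : R → R → Prop,
  (∀ p q p' q', q ∉ T → q' ∉ T → p * q' - p' * q ∈ T → sml p q → sml p' q') →
  (∀ x : F, sml (algebraMap F R x) 1) →
  (∀ p q p' q', q ∉ T → q' ∉ T → sml p q → sml p' q' →
    sml (p * p') (q * q') ∧ sml (p * q' + p' * q) (q * q')) →
  (∀ p q, p ∉ T → q ∉ T → sml (dl p * q - p * dl q) (p * q)) →
  (∀ p q, ∀ e : ℕ, q ∉ T → e ≠ 0 → sml (p ^ e) (q ^ e) → sml p q) →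
  (∀ p q, q ∉ T → dl p * q - p * dl q ∈ T → sml p q) →
  (∀ p q p' q', p ∉ T → q ∉ T → p' ∉ T → q' ∉ T → p * q' - p' * q ∈ T →
    low p q → low p' q') →
  (∀ p, p ∉ T → low p 1) →
  (∀ p q p' q', p ∉ T → q ∉ T → p' ∉ T → q' ∉ T → low p q → low p' q' →
    low (p * p') (q * q')) →
  (∀ p q, p ∉ T → q ∉ T → sml p q → low q p) →
  (∀ p q, p ∉ T → q ∉ T → low p q → sml p q → sml q p) →
  (∀ x y p q, x ∉ T → y ∉ T → p ∉ T → q ∉ T →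
    (∀ k : ℕ, k ≠ 0 → low (x * p ^ k) (y * q ^ k)) → low p q) →
  ∃ (L : Type) (_ : Field L) (_ : Algebra F L) (D : Derivation F L L) (S Sm : Subalgebra F L)
    (phi : R →ₐ[F] L), IsNev D S Sm ∧ (∀ x, phi x ∈ S) ∧ (∀ x, phi x = 0 ↔ x ∈ T) ∧
    (∀ x y, y ∉ T → (phi x / phi y ∈ Sm ↔ sml x y)) ∧
    (∀ f : L, ∃ p q, q ∉ T ∧ f = phi p / phi q) ∧
    ∀ p q, p ∉ T → q ∉ T → phi p / phi q ∈ S → low p q

/-- THE ANALYTIC THEOREM, with a valuation -/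
def S_NevE : Prop := ∀ (F : Type) [Field F] [Algebra F ℂ] [Countable F] (I : Type) [Fintype I]
  (d : ℕ) (C : ℝ) (u0 : Fin d → ℂ) (g : ℕ → I → ℂ → ℂ) (u : ℕ → Fin d → ℂ → ℂ),
  BadSeq C u0 g u →
  ∃ (L : Type) (_ : Field L) (_ : Algebra F L) (D : Derivation F L L) (S Sm : Subalgebra F L)
    (phi : I → L) (A : Submodule ℝ (ℕ × ℂ → ℝ)) (E : (ℕ × ℂ → ℝ) →ₗ[ℝ] ℝ)
    (x : L → ℕ × ℂ → ℝ), NVal D S Sm A E x ∧ (∀ l, phi l ∈ S) ∧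
    (∀ P : MvPolynomial I F, (∀ n, ∀ z ∈ ball (0 : ℂ) 1,
      MvPolynomial.aeval (fun l => g n l z) P = 0) → MvPolynomial.aeval phi P = 0) ∧
    (∀ P : MvPolynomial I F, (∃ c : ℂ, c ≠ 0 ∧ ∀ n,
      MvPolynomial.aeval (fun l => g n l 0) P = c) → MvPolynomial.aeval phi P ≠ 0) ∧
    (∀ e e' : Fin d → I, (∀ n i, ∀ z ∈ ball (0 : ℂ) 1, g n (e i) z = Complex.exp (u n i z)) →
      (∀ n i, ∀ z ∈ ball (0 : ℂ) 1, g n (e' i) z = Complex.exp (-(u n i z))) →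
      ¬ ((∀ i, phi (e i) ∈ Sm) ∧ (∀ i, phi (e' i) ∈ Sm)))

/-! ### From fields to rings -/

/-- the ring of holomorphic elements of a Nevanlinna field with a valuation -/
def S_KSV : Prop := ∀ (F L Om : Type) [Field F] [CharZero F] [Field L] [Algebra F L]
  (D : Derivation F L L) (S Sm : Subalgebra F L) (A : Submodule ℝ (Om → ℝ))
  (E : (Om → ℝ) →ₗ[ℝ] ℝ) (x : L → Om → ℝ), NVal D S Sm A E x →
  ∃ (K R : Type) (_ : Field K) (_ : CommRing R) (_ : IsDomain R) (_ : Algebra F K)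
    (_ : Algebra K R) (dl : Derivation ℤ K K) (dR : Derivation ℤ R R) (io : R →+* L),
    Function.Injective io ∧ (∀ f, f ∈ S ↔ ∃ r, io r = f) ∧
    (∀ f, (f ∈ S ∧ f ∈ Sm) ↔ ∃ a : K, io (algebraMap K R a) = f) ∧
    (∀ a : F, io (algebraMap K R (algebraMap F K a)) = algebraMap F L a) ∧
    NRV F K R Om dl dR A E (fun r => x (io r))

/-- ALGEBRAIC THEOREM for Nevanlinna fields -/
def S_T5 : Prop := ∀ (F : Type) [Field F] [CharZero F] (n : ℕ)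
  (Q : Fin (n + 1) → MvPolynomial (Fin (n + 1)) F) (dg : Fin (n + 1) → ℕ), NC Q dg →
  ∃ (B : MvPolynomial (Fin (n + 1)) F) (nB : ℕ), B ≠ 0 ∧ B.IsHomogeneous nB ∧
  ∀ (L Om : Type) [Field L] [Algebra F L] (D : Derivation F L L) (S Sm : Subalgebra F L)
  (A : Submodule ℝ (Om → ℝ)) (E : (Om → ℝ) →ₗ[ℝ] ℝ) (x : L → Om → ℝ),
  NVal D S Sm A E x → ∀ q : Fin (n + 1) → L, (∀ j, q j ∈ S) →
  (∀ a, aeval q (Q a) ≠ 0 ∧ (aeval q (Q a))⁻¹ ∈ S) → aeval q (Q (Fin.last n)) = 1 →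
  aeval q B ≠ 0 → ∀ a, aeval q (Q a) ∈ Sm ∧ (aeval q (Q a))⁻¹ ∈ Sm

end

end Pool.Agent.Work.MP_6d7a54_an.NG
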