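import Pool.Agent.Work.MP_6d7a54_an.NF.StmtsB
import Pool.Agent.Work.MP_6d7a54_an.NG.StmtsA

/-!
# Block NG, item KSV: the ring of holomorphic elements of a Nevanlinna field with a valuation
-/

set_option autoImplicit false

namespace Pool.Agent.Work.MP_6d7a54_an.NG

open Pool.Agent.Work.MP_6d7a54_an.NF (NR InK IsNev)

namespace PKSVx

variable {Om : Type} {A : Submodule ℝ (Om → ℝ)} {E : (Om → ℝ) →ₗ[ℝ] ℝ}

theorem abs_mem (hsup : ∀ v ∈ A, ∀ w ∈ A, v ⊔ w ∈ A) (v : Om → ℝ) (hv : v ∈ A) : |v| ∈ A :=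
  hsup v hv (-v) (A.neg_mem hv)

theorem mono (hpos : ∀ v ∈ A, 0 ≤ v → 0 ≤ E v) (v w : Om → ℝ) (hv : v ∈ A) (hw : w ∈ A)
    (h : v ≤ w) : E v ≤ E w := by
  have h1 := hpos (w - v) (A.sub_mem hw hv) (sub_nonneg.2 h)
  rw [map_sub] at h1
  linarith

theorem der_aux (hsup : ∀ v ∈ A, ∀ w ∈ A, v ⊔ w ∈ A) (hpos : ∀ v ∈ A, 0 ≤ v → 0 ≤ E v)
    (u v g : Om → ℝ) (hu : u ∈ A) (hv : v ∈ A) (hg : g ∈ A) (hg0 : Bl E g 0)
    (hm : E |u - (g + v)| = 0) : Bl E u v := by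
  unfold Bl at hg0 ⊢
  have h0 : (0 : Om → ℝ) ∈ A := A.zero_mem
  have h1 : (u - v) ⊔ 0 ∈ A := hsup _ (A.sub_mem hu hv) _ h0
  have h2 : |u - (g + v)| ∈ A := abs_mem hsup _ (A.sub_mem hu (A.add_mem hg hv))
  have h3 : (g - 0) ⊔ 0 ∈ A := hsup _ (A.sub_mem hg h0) _ h0
  have h4 : (u - v) ⊔ 0 ≤ |u - (g + v)| + (g - 0) ⊔ 0 := by
    intro w
    simp only [Pi.sup_apply, Pi.sub_apply, Pi.add_apply, Pi.zero_apply, Pi.abs_apply, sub_zero]
    apply sup_le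
    · have h5 := le_abs_self (u w - (g w + v w))
      have h6 : g w ≤ g w ⊔ 0 := le_sup_left
      linarith
    · have h5 := abs_nonneg (u w - (g w + v w))
      have h6 : (0 : ℝ) ≤ g w ⊔ 0 := le_sup_right
      linarith
  have h5 := mono hpos _ _ h1 (A.add_mem h2 h3) h4
  rw [map_add, hm, hg0, add_zero] at h5
  exact le_antisymm h5 (hpos _ h1 le_sup_right)

theorem cst_aux (hsup : ∀ v ∈ A, ∀ w ∈ A, v ⊔ w ∈ A) (hpos : ∀ v ∈ A, 0 ≤ v → 0 ≤ E v)
    (v : Om → ℝ) (hv : v ∈ A) (h1 : Bl E v 0) (h2 : 0 ≤ E v) : E |v| = 0 := by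
  unfold Bl at h1
  have h3 : |v| = (2 : ℝ) • ((v - 0) ⊔ 0) - v := by
    ext w
    simp only [Pi.sup_apply, Pi.sub_apply, Pi.zero_apply, Pi.abs_apply, Pi.smul_apply,
      sub_zero, smul_eq_mul]
    rcases le_total (v w) 0 with h | h
    · rw [abs_of_nonpos h, sup_of_le_right h]
      ring
    · rw [abs_of_nonneg h, sup_of_le_left h]
      ring
  have h4 : E |v| = - E v := by
    rw [h3, map_sub, map_smul, h1, smul_zero, zero_sub]
  have h5 := hpos _ (abs_mem hsup v hv) (abs_nonneg v)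
  linarith

end PKSVx

open PKSVx in
theorem KSV_proof (h : NF.S_KS) : S_KSV := by
  intro F L Om _ _ _ _ D S Sm A E x hN
  obtain ⟨K, R, iK, iR, iD, iFK, iKR, dl, dR, io, hinj, hS, hSm, hD, hF, hNR⟩ :=
    h F L D S Sm hN.nev
  refine ⟨K, R, iK, iR, iD, iFK, iKR, dl, dR, io, hinj, hS, hSm, hF, ?_⟩
  have hne : ∀ f : R, f ≠ 0 → io f ≠ 0 := fun f hf h0 => hf (hinj (h0.trans (map_zero io).symm))
  have hmemS : ∀ f : R, io f ∈ S := fun f => (hS _).2 ⟨f, rfl⟩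
  refine
    { nr := hNR
      sup := hN.sup
      pos := hN.pos
      mem := fun f hf => hN.mem _ (hne f hf)
      hol := fun f hf => hN.hol _ (hmemS f) (hne f hf)
      mul := ?_
      add := ?_
      der := ?_
      cst := ?_
      sml := ?_ }
  · intro f g hf hg
    show E |x (io (f * g)) - (x (io f) + x (io g))| = 0
    rw [map_mul]
    exact hN.mul _ _ (hne f hf) (hne g hg)
  · intro f g hf hg hfg
    show Bl E (x (io (f + g))) (x (io f) ⊔ x (io g))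
    have h1 := hne _ hfg
    rw [map_add] at h1 ⊢
    exact hN.add _ _ (hne f hf) (hne g hg) h1
  · intro f hf hdf
    show Bl E (x (io (dR f))) (x (io f))
    have hf0 := hne f hf
    have hd0 : D (io f) ≠ 0 := by
      rw [← hD]
      exact hne _ hdf
    have hg0 : D (io f) * (io f)⁻¹ ≠ 0 := mul_ne_zero hd0 (inv_ne_zero hf0)
    have h1 := hN.mul _ _ hg0 hf0
    rw [inv_mul_cancel_right₀ hf0] at h1
    rw [hD]
    exact der_aux hN.sup hN.pos _ _ _ (hN.mem _ hd0) (hN.mem _ hf0) (hN.mem _ hg0)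
      ((hN.sm _ hg0).1 (hN.nev.ld _)) h1
  · intro a ha
    show E |x (io (algebraMap K R a))| = 0
    have ha0 : algebraMap K R a ≠ 0 := by
      intro h0
      exact ha ((algebraMap K R).injective (h0.trans (map_zero _).symm))
    have h1 := hne _ ha0
    have h2 := (hSm _).2 ⟨a, rfl⟩
    exact cst_aux hN.sup hN.pos _ (hN.mem _ h1) ((hN.sm _ h1).1 h2.2) (hN.hol _ h2.1 h1)
  · intro f hf hb
    have h1 := (hN.sm _ (hne f hf)).2 hb
    obtain ⟨a, ha⟩ := (hSm _).1 ⟨hmemS f, h1⟩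
    exact ⟨a, (hinj ha).symm⟩

end Pool.Agent.Work.MP_6d7a54_an.NG
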