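import Pool.Agent.Work.MP_6d7a54_an.NG.Stmts

/-!
# Lower bound for the values of the Jacobian (MP_6d7a54_an, item LB)
-/

namespace Pool.Agent.Work.MP_6d7a54_an.NG

open MvPolynomial

namespace PLBx

/-- the value as a ring homomorphism -/
noncomputable def vh {F s : Type} (K : Type) {R : Type} [Field F] [Field K] [CommRing R]
    [Algebra F K] [Algebra K R] (q : s → R) : MvPolynomial s F →+* R :=
  ((aeval q : MvPolynomial s K →ₐ[K] R) : MvPolynomial s K →+* R).comp
    (MvPolynomial.map (algebraMap F K))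

theorem vh_apply {F s : Type} (K : Type) {R : Type} [Field F] [Field K] [CommRing R]
    [Algebra F K] [Algebra K R] (q : s → R) (P : MvPolynomial s F) :
    vh K q P = vq K q P := rfl

theorem vq_aeval {F s t : Type} (K : Type) {R : Type} [Field F] [Field K] [CommRing R]
    [Algebra F K] [Algebra K R] (q : s → R) (g : t → MvPolynomial s F) (N : MvPolynomial t F) :
    vq K q (aeval g N) = vq K (fun a => vq K q (g a)) N := by
  have h : (vh K q).comp ((aeval g : MvPolynomial t F →ₐ[F] MvPolynomial s F) :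
      MvPolynomial t F →+* MvPolynomial s F) = vh K (fun a => vq K q (g a)) := by
    apply MvPolynomial.ringHom_ext
    · intro c
      simp [vh, MvPolynomial.algebraMap_eq]
    · intro i
      simp [vh, vq]
  exact DFunLike.congr_fun h N

theorem vq_mul {F s : Type} (K : Type) {R : Type} [Field F] [Field K] [CommRing R]
    [Algebra F K] [Algebra K R] (q : s → R) (P Q : MvPolynomial s F) :
    vq K q (P * Q) = vq K q P * vq K q Q := by
  rw [← vh_apply, ← vh_apply, ← vh_apply, map_mul]

theorem vq_cut {F : Type} (K : Type) {R : Type} [Field F] [Field K] [CommRing R]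
    [Algebra F K] [Algebra K R] {N : ℕ} {s : Type} (q : s → R)
    (Q : Fin N → MvPolynomial s F) (T : Finset (Fin N)) (a : Fin N) :
    vq K q (cut T Q a) = cut T (fun a => vq K q (Q a)) a := by
  unfold cut
  split_ifs with h
  · rfl
  · rw [← vh_apply, map_zero]

theorem cut_univ {R : Type} [CommRing R] {N : ℕ} (y : Fin N → R) : cut Finset.univ y = y := by
  funext a
  simp [cut]

end PLBx

open PLBx in
theorem LB_proof (h1 : S_VB) (h2 : S_Al) (h3 : S_Up) : S_LB := by
  intro F _ _ n Q dg hNC N Js W g Mx hNJ K R Om _ _ _ _ _ dl dR A E x hx q hu hlast hT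
  have hV : VF (K := K) dR A E x := h1 F K R Om dl dR A E x hx
  set y : Fin (n + 1) → Rˣ := fun a => (hu a).unit with hy
  have hyv : ∀ a, (y a : R) = vq K q (Q a) := fun a => (hu a).unit_spec
  have hyf : (fun a => (y a : R)) = fun a => vq K q (Q a) := funext hyv
  have hy0 : ∀ a, vq K q (Q a) ≠ 0 := fun a => (hu a).ne_zero
  -- values of the elimination polynomial
  have hT' : ∀ T : Finset (Fin (n + 1)), T.Nonempty → vq K (cut T fun a => (y a : R)) N ≠ 0 := by
    intro T hTn
    have := hT T hTn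
    rw [vq_aeval] at this
    have e : (fun a => vq K q (cut T Q a)) = cut T fun a => (y a : R) := by
      funext a
      rw [vq_cut, hyf]
    rwa [e] at this
  have hNy : vq K (fun a => (y a : R)) N ≠ 0 := by
    have := hT' Finset.univ Finset.univ_nonempty
    rwa [cut_univ] at this
  have hprod : vq K (fun a => (y a : R)) N = vq K q (Jac Q) * vq K q Js := by
    rw [← vq_mul, ← hNJ.jac, vq_aeval, hyf]
  have hJ : vq K q (Jac Q) ≠ 0 := by
    intro h
    rw [h, zero_mul] at hprod
    exact hNy hprod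
  have hJs : vq K q Js ≠ 0 := by
    intro h
    rw [h, mul_zero] at hprod
    exact hNy hprod
  set X : Om → ℝ := XX x dg (fun a => vq K q (Q a)) with hX
  -- the maximum is in the lattice
  have hXA : X ∈ A := by
    rw [hX]
    unfold XX
    apply Finset.sup'_induction (p := fun v => v ∈ A)
    · intro v hv w hw
      exact hx.sup v hv w hw
    · intro a _
      exact A.smul_mem _ (hx.mem _ (hy0 a))
  have hdg : ∀ a, (0 : ℝ) < dg a := fun a => by exact_mod_cast hNC.pos a
  have hle : ∀ a, x (vq K q (Q a)) ≤ (dg a : ℝ) • X := by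
    intro a
    have h : (dg a : ℝ)⁻¹ • x (vq K q (Q a)) ≤ X := by
      rw [hX]
      exact Finset.le_sup' (fun a => (dg a : ℝ)⁻¹ • x (vq K q (Q a))) (Finset.mem_univ a)
    intro w
    have h' := h w
    simp only [Pi.smul_apply, smul_eq_mul] at h' ⊢
    have := mul_le_mul_of_nonneg_left h' (hdg a).le
    rwa [← mul_assoc, mul_inv_cancel₀ (hdg a).ne', one_mul] at this
  have hmax : ∀ w, ∃ a, X w = (dg a : ℝ)⁻¹ * x (vq K q (Q a)) w := by
    intro w
    have h : X w = Finset.univ.sup' Finset.univ_nonempty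
        (fun a => (dg a : ℝ)⁻¹ * x (vq K q (Q a)) w) := by
      rw [hX]
      unfold XX
      rw [Finset.sup'_apply]
      rfl
    obtain ⟨a, _, ha⟩ := Finset.exists_mem_eq_sup' Finset.univ_nonempty
      (fun a => (dg a : ℝ)⁻¹ * x (vq K q (Q a)) w)
    exact ⟨a, h.trans ha⟩
  have hdeg : W + (n + 1) = ∑ a, dg a + g := hNJ.deg
  have hdeg2 : n + 2 ≤ ∑ a, dg a := hNC.deg
  have hW1 : 1 + g ≤ W := by omega
  have hAl : ∀ a, Bl E ((Mx a : ℝ) • x (y a : R)) (x (vq K (fun a => (y a : R)) N)) :=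
    h2 F K R Om dl dR A E x hx n dg N W Mx hNC.pos (by omega) hNJ.hom hNJ.mx y hT'
  set xN : Om → ℝ := x (vq K (fun a => (y a : R)) N) with hxN
  have hxNA : xN ∈ A := hx.mem _ hNy
  have hyA : ∀ a, x (y a : R) ∈ A := fun a => hx.mem _ (y a).ne_zero
  have hpA : ∀ a, ((Mx a : ℝ) • x (y a : R) - xN) ⊔ 0 ∈ A := fun a =>
    hV.pp _ (A.sub_mem (A.smul_mem _ (hyA a)) hxNA)
  have hWX : (W : ℝ) * E X ≤ E xN := by
    have h : (W : ℝ) • X ≤ xN + ∑ a, (((Mx a : ℝ) • x (y a : R) - xN) ⊔ 0) := by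
      intro w
      obtain ⟨a, ha⟩ := hmax w
      have e : (W : ℝ) * X w = (Mx a : ℝ) * x (y a : R) w := by
        rw [ha, ← hyv a, ← hNJ.mx a]
        push_cast
        field_simp [(hdg a).ne']
      simp only [Pi.smul_apply, smul_eq_mul, Pi.add_apply, Finset.sum_apply, Pi.sup_apply,
        Pi.sub_apply, Pi.zero_apply]
      rw [e]
      have h4 : ((Mx a : ℝ) * x (y a : R) w - xN w) ⊔ 0 ≤
          ∑ a, (((Mx a : ℝ) * x (y a : R) w - xN w) ⊔ 0) :=
        Finset.single_le_sum (f := fun a => ((Mx a : ℝ) * x (y a : R) w - xN w) ⊔ 0)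
          (fun i _ => le_sup_right) (Finset.mem_univ a)
      have h5 : (Mx a : ℝ) * x (y a : R) w - xN w ≤
          ((Mx a : ℝ) * x (y a : R) w - xN w) ⊔ 0 := le_sup_left
      linarith
    have h6 := hV.mono _ (A.smul_mem _ hXA) _ (A.add_mem hxNA (A.sum_mem fun a _ => hpA a)) h
    rw [map_smul, map_add, map_sum, smul_eq_mul] at h6
    have h7 : ∑ a, E (((Mx a : ℝ) • x (y a : R) - xN) ⊔ 0) = 0 :=
      Finset.sum_eq_zero fun a _ => hAl a
    rw [h7, add_zero] at h6
    exact h6
  have hEN : E xN ≤ E (x (vq K q (Jac Q))) + E (x (vq K q Js)) := by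
    have hm := hx.mul _ _ hJ hJs
    rw [← hprod] at hm
    have hA1 : xN - (x (vq K q (Jac Q)) + x (vq K q Js)) ∈ A :=
      A.sub_mem hxNA (A.add_mem (hx.mem _ hJ) (hx.mem _ hJs))
    have h6 := hV.mono _ hA1 _ (hV.abs _ hA1) (le_abs_self _)
    rw [hm, map_sub, map_add] at h6
    linarith
  have hUp : E (x (vq K q Js)) ≤ (g : ℝ) * E X := by
    have h6 := hV.ble _ (hx.mem _ hJs) _ (A.smul_mem _ hXA)
      (h3 F n Q dg hNC Js g hNJ.js K R Om dl dR A E x hx q hy0 hJs X hXA hle)
    rwa [map_smul, smul_eq_mul] at h6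
  -- the last estimate
  have hone : E |x (1 : R)| = 0 := by
    have := hx.cst 1 one_ne_zero
    rwa [map_one] at this
  have h1A : |x (1 : R)| ∈ A := hV.abs _ (hx.mem _ one_ne_zero)
  have hXl : ∀ w, -(|x (1 : R)| w) ≤ X w := by
    intro w
    have h := hle (Fin.last n) w
    rw [hlast] at h
    simp only [Pi.smul_apply, smul_eq_mul] at h
    rw [Pi.abs_apply]
    have h8 : (1 : ℝ) ≤ dg (Fin.last n) := by exact_mod_cast hNC.pos (Fin.last n)
    have h9 : -|x (1 : R) w| ≤ x (1 : R) w := neg_abs_le _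
    have h10 : 0 ≤ |x (1 : R) w| := abs_nonneg _
    by_contra hc
    push Not at hc
    nlinarith
  have habs : ∀ a, E |x (vq K q (Q a))| ≤ 2 * dg a * E X := by
    intro a
    have hA1 : x (vq K q (Q a)) ∈ A := hx.mem _ (hy0 a)
    have e1 : |x (vq K q (Q a))| = (2 : ℝ) • (x (vq K q (Q a)) ⊔ 0) - x (vq K q (Q a)) := by
      funext w
      simp only [Pi.abs_apply, Pi.sub_apply, Pi.smul_apply, smul_eq_mul, Pi.sup_apply,
        Pi.zero_apply]
      rcases le_total 0 (x (vq K q (Q a)) w) with h | h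
      · rw [abs_of_nonneg h, sup_eq_left.mpr h]; ring
      · rw [abs_of_nonpos h, sup_eq_right.mpr h]; ring
    have h6 : x (vq K q (Q a)) ⊔ 0 ≤ (dg a : ℝ) • (X + |x (1 : R)|) := by
      intro w
      have h11 := hle a w
      have h12 := hXl w
      simp only [Pi.smul_apply, smul_eq_mul, Pi.sup_apply, Pi.zero_apply, Pi.add_apply] at h11 ⊢
      have h13 : 0 ≤ X w + |x (1 : R)| w := by linarith
      have h14 : 0 ≤ |x (1 : R)| w := by
        rw [Pi.abs_apply]
        exact abs_nonneg _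
      apply sup_le
      · have := mul_nonneg (hdg a).le h14
        linarith
      · exact mul_nonneg (hdg a).le h13
    have h15 := hV.mono _ (hV.pp _ hA1) _ (A.smul_mem (dg a : ℝ) (A.add_mem hXA h1A)) h6
    rw [map_smul, map_add, hone, add_zero, smul_eq_mul] at h15
    have h16 : E (x (vq K q (Q a))) = 0 := hV.unit _ (hu a)
    rw [e1, map_sub, map_smul, h16, sub_zero, smul_eq_mul]
    linarith
  refine ⟨hJ, hXA, ?_, habs⟩
  have hEX : 0 ≤ E X := by
    have h17 := habs (Fin.last n)
    have h18 : 0 ≤ E |x (vq K q (Q (Fin.last n)))| :=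
      hx.pos _ (hV.abs _ (hx.mem _ (hy0 _))) (abs_nonneg _)
    have h19 := hdg (Fin.last n)
    by_contra hc
    push Not at hc
    nlinarith
  have hWg : (1 : ℝ) + g ≤ W := by exact_mod_cast hW1
  nlinarith

end Pool.Agent.Work.MP_6d7a54_an.NG
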