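import Pool.Agent.Work.MP_6d7a54_an.NG.Stmts

/-!
# Products with constants and inequivalent monomials are linearly independent (MP_6d7a54_an)
-/

set_option autoImplicit false

namespace Pool.Agent.Work.MP_6d7a54_an.NG

open Pool.Agent.Work.MP_6d7a54_an.NF (NR InK IsNev)

namespace PLIx

/-- the field of constants -/
def CK {K : Type} [Field K] (dl : Derivation ℤ K K) : Subfield K where
  carrier := {a | dl a = 0}
  zero_mem' := by simp
  one_mem' := by simp
  add_mem' := by
    intro a b ha hb
    simp only [Set.mem_ofPred_eq] at *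
    rw [map_add, ha, hb, add_zero]
  neg_mem' := by
    intro a ha
    simp only [Set.mem_ofPred_eq] at *
    rw [map_neg, ha, neg_zero]
  mul_mem' := by
    intro a b ha hb
    simp only [Set.mem_ofPred_eq] at *
    rw [Derivation.leibniz, ha, hb, smul_zero, smul_zero, add_zero]
  inv_mem' := by
    intro a ha
    simp only [Set.mem_ofPred_eq] at *
    rw [Derivation.leibniz_inv, ha, smul_zero]

/-- a basis of the space of constants spanned by finitely many constants -/
theorem basis {K L : Type} [Field K] [Field L] [Algebra K L] (dl : Derivation ℤ K K)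
    (d : Derivation ℤ L L) (hd : ∀ a, d (algebraMap K L a) = algebraMap K L (dl a)) {p : ℕ}
    (c : Fin p → L) (hc : ∀ j, d (c j) = 0) :
    ∃ (n : ℕ) (b : Fin n → L) (r : Fin p → Fin n → K), (∀ s, d (b s) = 0) ∧
      (∀ j s, dl (r j s) = 0) ∧ (∀ j, c j = ∑ s, algebraMap K L (r j s) * b s) ∧
      ∀ t : Fin n → K, (∀ s, dl (t s) = 0) → ∑ s, algebraMap K L (t s) * b s = 0 →
        ∀ s, t s = 0 := by
  let V : Submodule (CK dl) L := Submodule.span (CK dl) (Set.range c)
  have : FiniteDimensional (CK dl) V := FiniteDimensional.span_of_finite (CK dl)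
    (Set.finite_range c)
  let B := Module.finBasis (CK dl) V
  have hsm : ∀ (r : CK dl) (x : L), r • x = algebraMap K L (r : K) * x := by
    intro r x
    rw [Subfield.smul_def, Algebra.smul_def]
  refine ⟨_, fun s => (B s : L),
    fun j s => (B.repr ⟨c j, Submodule.subset_span ⟨j, rfl⟩⟩ s : K), ?_, ?_, ?_, ?_⟩
  · intro s
    have h : ∀ x ∈ V, d x = 0 := by
      intro x hx
      refine Submodule.span_induction (p := fun x _ => d x = 0) ?_ ?_ ?_ ?_ hx
      · rintro _ ⟨j, rfl⟩
        exact hc j
      · simp
      · intro x y _ _ hx hy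
        rw [map_add, hx, hy, add_zero]
      · intro a x _ hx
        have ha : dl (a : K) = 0 := a.2
        rw [hsm, Derivation.leibniz, hd, ha, hx]
        simp
    exact h _ (B s).2
  · intro j s
    exact (B.repr ⟨c j, Submodule.subset_span ⟨j, rfl⟩⟩ s).2
  · intro j
    have h := congrArg (fun x : V => (x : L))
      (B.sum_repr ⟨c j, Submodule.subset_span ⟨j, rfl⟩⟩)
    simp only [Submodule.coe_sum, Submodule.coe_smul, hsm] at h
    exact h.symm
  · intro t ht hsum s
    have h := Fintype.linearIndependent_iff.1 B.linearIndependent (fun s => (⟨t s, ht s⟩ : CK dl))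
      (by
        apply Subtype.ext
        simp only [Submodule.coe_sum, Submodule.coe_smul, hsm]
        exact hsum) s
    exact congrArg (fun x : CK dl => (x : K)) h

/-- linear independence over `K` of products of constants and monomials -/
theorem indep {K L ι : Type} [Field K] [Field L] [Algebra K L] [Fintype ι] [DecidableEq ι]
    [DecidableEq K] (dl : Derivation ℤ K K)
    (d : Derivation ℤ L L) (hd : ∀ a, d (algebraMap K L a) = algebraMap K L (dl a))
    (m : ι → L) (hm : ∀ i, m i ≠ 0) (l : ι → K) (hl : ∀ i, d (m i) = algebraMap K L (l i) * m i)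
    (hne : ∀ i j, i ≠ j → ∀ a : K, a ≠ 0 → dl a = (l j - l i) * a → False)
    {n : ℕ} (b : Fin n → L) (hb : ∀ s, d (b s) = 0)
    (hli : ∀ t : Fin n → K, (∀ s, dl (t s) = 0) → ∑ s, algebraMap K L (t s) * b s = 0 →
        ∀ s, t s = 0) :
    ∀ (N : ℕ) (a : Fin n × ι → K), (Finset.univ.filter fun q => a q ≠ 0).card = N →
      ∑ q, algebraMap K L (a q) * (b q.1 * m q.2) = 0 → ∀ q, a q = 0 := by
  intro N
  induction N using Nat.strong_induction_on with
  | _ N ih =>
    intro a hN hsum
    by_contra hcon
    push Not at hcon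
    obtain ⟨q1, hq1⟩ := hcon
    -- the normalized relation
    set a1 : Fin n × ι → K := fun q => (a q1)⁻¹ * a q with ha1
    have h1 : a1 q1 = 1 := inv_mul_cancel₀ hq1
    have hs1 : ∑ q, algebraMap K L (a1 q) * (b q.1 * m q.2) = 0 := by
      have : ∑ q, algebraMap K L (a1 q) * (b q.1 * m q.2) =
          algebraMap K L (a q1)⁻¹ * ∑ q, algebraMap K L (a q) * (b q.1 * m q.2) := by
        rw [Finset.mul_sum]
        refine Finset.sum_congr rfl (fun q _ => ?_)
        rw [ha1]
        simp only [map_mul]
        ring
      rw [this, hsum, mul_zero]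
    have hz : ∀ q, a q = 0 → a1 q = 0 := by
      intro q hq
      rw [ha1]
      simp [hq]
    -- the derived relation
    set a2 : Fin n × ι → K := fun q => dl (a1 q) + (l q.2 - l q1.2) * a1 q with ha2
    have hs2 : ∑ q, algebraMap K L (a2 q) * (b q.1 * m q.2) = 0 := by
      have e1 : d (∑ q, algebraMap K L (a1 q) * (b q.1 * m q.2)) = 0 := by rw [hs1, map_zero]
      rw [map_sum] at e1
      have e2 : ∑ q, algebraMap K L (a2 q) * (b q.1 * m q.2) =
          ∑ q, d (algebraMap K L (a1 q) * (b q.1 * m q.2)) -
            algebraMap K L (l q1.2) * ∑ q, algebraMap K L (a1 q) * (b q.1 * m q.2) := by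
        rw [Finset.mul_sum, ← Finset.sum_sub_distrib]
        refine Finset.sum_congr rfl (fun q _ => ?_)
        rw [Derivation.leibniz, Derivation.leibniz, hd, hb, hl, ha2]
        simp only [map_add, map_mul, map_sub, smul_eq_mul, mul_zero, add_zero]
        ring
      rw [e2, e1, hs1, mul_zero, sub_zero]
    have h2 : a2 q1 = 0 := by
      rw [ha2]
      simp only [h1, sub_self, zero_mul, add_zero]
      exact dl.map_one_eq_zero
    have hcard : (Finset.univ.filter fun q => a2 q ≠ 0).card < N := by
      rw [← hN]
      apply Finset.card_lt_card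
      constructor
      · intro q hq
        simp only [Finset.mem_filter, Finset.mem_univ, true_and] at hq ⊢
        intro h
        apply hq
        rw [ha2]
        simp only [hz q h, map_zero, mul_zero, add_zero]
      · intro h
        have := h (Finset.mem_filter.2 ⟨Finset.mem_univ q1, hq1⟩)
        exact (Finset.mem_filter.1 this).2 h2
    have h3 := ih _ hcard a2 rfl hs2
    have h4 : ∀ q, dl (a1 q) = (l q1.2 - l q.2) * a1 q := by
      intro q
      have := h3 q
      rw [ha2] at this
      simp only at this
      linear_combination this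
    have h5 : ∀ s i, i ≠ q1.2 → a1 (s, i) = 0 := by
      intro s i hi
      by_contra hc
      exact hne i q1.2 hi (a1 (s, i)) hc (h4 (s, i))
    have h6 : ∑ s, algebraMap K L (a1 (s, q1.2)) * b s = 0 := by
      have e3 : ∑ q : Fin n × ι, algebraMap K L (a1 q) * (b q.1 * m q.2) =
          (∑ s, algebraMap K L (a1 (s, q1.2)) * b s) * m q1.2 := by
        rw [Fintype.sum_prod_type, Finset.sum_mul]
        refine Finset.sum_congr rfl (fun s _ => ?_)
        rw [Finset.sum_eq_single q1.2]
        · simp only
          ring
        · intro i _ hi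
          rw [h5 s i hi]
          simp
        · intro h
          exact absurd (Finset.mem_univ _) h
      rw [hs1] at e3
      rcases mul_eq_zero.1 e3.symm with h | h
      · exact h
      · exact absurd h (hm _)
    have h7 := hli (fun s => a1 (s, q1.2)) (fun s => by
      have := h4 (s, q1.2)
      simp only [sub_self, zero_mul] at this
      exact this) h6 q1.1
    simp only [Prod.mk.eta, h1] at h7
    exact one_ne_zero h7

end PLIx

open PLIx in
theorem LI_proof : S_LI := by
  intro F K R L _ _ _ _ _ _ _ _ dl dR d hNR hinj hdc ι _ mn hmn p e he c hc hsum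
  classical
  let _ : Algebra K L := ((algebraMap R L).comp (algebraMap K R)).toAlgebra
  have halg : ∀ a : K, algebraMap K L a = algebraMap R L (algebraMap K R a) := fun _ => rfl
  have hd : ∀ a, d (algebraMap K L a) = algebraMap K L (dl a) := by
    intro a
    rw [halg, hdc, hNR.comp, ← halg]
  have hu : ∀ i, ∃ a : K, dR (mn i : R) = algebraMap K R a * (mn i : R) :=
    fun i => hNR.unit _ (mn i).isUnit
  choose l hl using hu
  have hinv : ∀ i, dR (((mn i)⁻¹ : Rˣ) : R) = - algebraMap K R (l i) * (((mn i)⁻¹ : Rˣ) : R) := by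
    intro i
    have h1 : dR ((mn i : R) * (((mn i)⁻¹ : Rˣ) : R)) = 0 := by
      rw [Units.mul_inv]
      exact dR.map_one_eq_zero
    rw [Derivation.leibniz, hl] at h1
    simp only [smul_eq_mul] at h1
    have h2 : (((mn i)⁻¹ : Rˣ) : R) * ((mn i : R) * dR (((mn i)⁻¹ : Rˣ) : R) +
        (((mn i)⁻¹ : Rˣ) : R) * (algebraMap K R (l i) * (mn i : R))) = 0 := by
      rw [h1, mul_zero]
    have h3 : (((mn i)⁻¹ : Rˣ) : R) * (mn i : R) = 1 := Units.inv_mul _
    linear_combination h2 + (-dR (((mn i)⁻¹ : Rˣ) : R) -
      (((mn i)⁻¹ : Rˣ) : R) * algebraMap K R (l i)) * h3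
  obtain ⟨n, b, r, hb, hr, hcr, hli⟩ := basis dl d hd c hc
  have hind := indep dl d hd (fun i => algebraMap R L (mn i : R))
    (fun i h => by
      rw [← map_zero (algebraMap R L)] at h
      exact (mn i).ne_zero (hinj h)) l
    (fun i => by
      rw [hdc, hl, map_mul, halg])
    (fun i j hij a ha hda => by
      apply hmn i j hij
      refine hNR.const _ a (mn i * (mn j)⁻¹).isUnit ha ?_
      rw [Units.val_mul, Derivation.leibniz, Derivation.leibniz, hl, hinv, hNR.comp, hda]
      simp only [map_mul, map_sub, smul_eq_mul]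
      ring) b hb hli _ (fun q => ∑ j, r j q.1 * e j q.2) rfl
    (by
      rw [← hsum, Fintype.sum_prod_type]
      have e1 : ∀ s i, algebraMap K L (∑ j, r j s * e j i) * (b s * algebraMap R L (mn i : R)) =
          ∑ j, (algebraMap K L (r j s) * b s) *
            algebraMap R L (algebraMap K R (e j i) * (mn i : R)) := by
        intro s i
        rw [map_sum, Finset.sum_mul]
        refine Finset.sum_congr rfl (fun j _ => ?_)
        rw [map_mul, map_mul, halg (e j i)]
        ring
      calc ∑ s, ∑ i, algebraMap K L (∑ j, r j s * e j i) * (b s * algebraMap R L (mn i : R))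
          = ∑ s, ∑ j, ∑ i, (algebraMap K L (r j s) * b s) *
            algebraMap R L (algebraMap K R (e j i) * (mn i : R)) := by
            refine Finset.sum_congr rfl (fun s _ => ?_)
            rw [Finset.sum_comm]
            exact Finset.sum_congr rfl (fun i _ => e1 s i)
        _ = ∑ j, ∑ s, ∑ i, (algebraMap K L (r j s) * b s) *
            algebraMap R L (algebraMap K R (e j i) * (mn i : R)) := Finset.sum_comm
        _ = ∑ j, c j * ∑ i, algebraMap R L (algebraMap K R (e j i) * (mn i : R)) := by
            refine Finset.sum_congr rfl (fun j _ => ?_)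
            rw [hcr j, Finset.sum_mul_sum])
  have h0 : ∀ j s, r j s = 0 := fun j s => he (fun j => r j s) (fun j => hr j s)
    (fun i => hind (s, i)) j
  intro j
  rw [hcr j]
  simp [h0]

end Pool.Agent.Work.MP_6d7a54_an.NG
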