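import Pool.Agent.Work.MP_6d7a54_an.NG.Defs

/-!
# Normal crossing hypersurfaces with many components: statements (MP_6d7a54_an)
-/

namespace Pool.Agent.Work.MP_6d7a54_an.NG

open MvPolynomial
open Pool.Agent.Work.MP_6d7a54_an.NF (NR InK IsNev)

noncomputable section

/-! ### Valuations -/

/-- basic facts on valuations -/
def S_VB : Prop := ∀ (F K R Om : Type) [Field F] [Field K] [CommRing R] [IsDomain R]
  [Algebra F K] [Algebra K R] (dl : Derivation ℤ K K) (dR : Derivation ℤ R R)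
  (A : Submodule ℝ (Om → ℝ)) (E : (Om → ℝ) →ₗ[ℝ] ℝ) (x : R → Om → ℝ),
  NRV F K R Om dl dR A E x → VF (K := K) dR A E x

/-- cyclic vector: the terms of a sum of inequivalent monomials are linear combinations of the
derivatives of the sum -/
def S_Cyc : Prop := ∀ (F K R : Type) [Field F] [Field K] [CommRing R] [IsDomain R]
  [Algebra F K] [Algebra K R] (dl : Derivation ℤ K K) (dR : Derivation ℤ R R),
  NR F K R dl dR → ∀ (ι : Type) [Fintype ι] (mn : ι → Rˣ) (p : ι → K), (∀ i, p i ≠ 0) →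
  (∀ i j, i ≠ j → ¬ InK K ((mn i * (mn j)⁻¹ : Rˣ) : R)) → ∀ i, ∃ (N : ℕ) (b : Fin N → K),
  (mn i : R) = ∑ k, algebraMap K R (b k) *
    ((dR : R → R)^[(k : ℕ)] (∑ i, algebraMap K R (p i) * (mn i : R)))

/-- a sum of inequivalent monomials dominates its terms -/
def S_Dom : Prop := ∀ (F K R Om : Type) [Field F] [Field K] [CommRing R] [IsDomain R]
  [Algebra F K] [Algebra K R] (dl : Derivation ℤ K K) (dR : Derivation ℤ R R)
  (A : Submodule ℝ (Om → ℝ)) (E : (Om → ℝ) →ₗ[ℝ] ℝ) (x : R → Om → ℝ),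
  NRV F K R Om dl dR A E x → ∀ (ι : Type) [Fintype ι] [Nonempty ι] (mn : ι → Rˣ) (p : ι → K),
  (∀ i, p i ≠ 0) → (∀ i j, i ≠ j → ¬ InK K ((mn i * (mn j)⁻¹ : Rˣ) : R)) →
  ∑ i, algebraMap K R (p i) * (mn i : R) ≠ 0 ∧
  ∀ i, Bl E (x (mn i : R)) (x (∑ i, algebraMap K R (p i) * (mn i : R)))

/-! ### Derivations and Wronskians -/

/-- the derivation extends to a field of fractions -/
def S_Fr : Prop := ∀ (R : Type) [CommRing R] [IsDomain R] (dR : Derivation ℤ R R),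
  ∃ (L : Type) (_ : Field L) (_ : Algebra R L) (d : Derivation ℤ L L),
    Function.Injective (algebraMap R L) ∧ ∀ r, d (algebraMap R L r) = algebraMap R L (dR r)

/-- in characteristic zero every derivation of a subring extends -/
def S_Ex0 : Prop := ∀ (B E : Type) [CommRing B] [Field E] [CharZero E] [Algebra B E]
  (de : Derivation ℤ B E), (∀ a, algebraMap B E a = 0 → de a = 0) →
  ∃ D : Derivation ℤ E E, ∀ a, D (algebraMap B E a) = de a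

/-- vanishing Wronskian -/
def S_Wr : Prop := ∀ (L : Type) [Field L] (d : Derivation ℤ L L) (p : ℕ) (f : Fin p → L),
  Wr d f = 0 → ∃ c : Fin p → L, c ≠ 0 ∧ (∀ j, d (c j) = 0) ∧ ∑ j, c j * f j = 0

/-- products with constants and inequivalent monomials are linearly independent -/
def S_LI : Prop := ∀ (F K R L : Type) [Field F] [Field K] [CommRing R] [IsDomain R] [Field L]
  [Algebra F K] [Algebra K R] [Algebra R L] (dl : Derivation ℤ K K) (dR : Derivation ℤ R R)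
  (d : Derivation ℤ L L), NR F K R dl dR → Function.Injective (algebraMap R L) →
  (∀ r, d (algebraMap R L r) = algebraMap R L (dR r)) → ∀ (ι : Type) [Fintype ι] (mn : ι → Rˣ),
  (∀ i j, i ≠ j → ¬ InK K ((mn i * (mn j)⁻¹ : Rˣ) : R)) →
  ∀ (p : ℕ) (e : Fin p → ι → K),
  (∀ c : Fin p → K, (∀ j, dl (c j) = 0) → (∀ i, ∑ j, c j * e j i = 0) → ∀ j, c j = 0) →
  ∀ c : Fin p → L, (∀ j, d (c j) = 0) →
  ∑ j, c j * ∑ i, algebraMap R L (algebraMap K R (e j i) * (mn i : R)) = 0 → ∀ j, c j = 0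

/-- a nonvanishing Wronskian -/
def S_WrN : Prop := ∀ (F K R : Type) [Field F] [Field K] [CommRing R] [IsDomain R]
  [Algebra F K] [Algebra K R] (dl : Derivation ℤ K K) (dR : Derivation ℤ R R),
  NR F K R dl dR → ∀ (ι : Type) [Fintype ι] (mn : ι → Rˣ),
  (∀ i j, i ≠ j → ¬ InK K ((mn i * (mn j)⁻¹ : Rˣ) : R)) →
  ∀ (p : ℕ) (e : Fin p → ι → K),
  (∀ c : Fin p → K, (∀ j, dl (c j) = 0) → (∀ i, ∑ j, c j * e j i = 0) → ∀ j, c j = 0) →
  Wr dR (fun j => ∑ i, algebraMap K R (e j i) * (mn i : R)) ≠ 0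

/-- formulas for Wronskians -/
def S_WrF : Prop := ∀ (R : Type) [CommRing R] (d : Derivation ℤ R R) (p : ℕ) (f : Fin p → R),
  (∀ w : R, Wr d (fun j => w * f j) = w ^ p * Wr d f) ∧
  ∀ c : Matrix (Fin p) (Fin p) R, (∀ i j, d (c i j) = 0) →
    Wr d (fun j => ∑ l, c j l * f l) = c.det * Wr d f

/-- domination of Wronskians -/
def S_WrD : Prop := ∀ (K R Om : Type) [Field K] [CommRing R] [Algebra K R]
  (dR : Derivation ℤ R R) (A : Submodule ℝ (Om → ℝ)) (E : (Om → ℝ) →ₗ[ℝ] ℝ) (x : R → Om → ℝ),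
  VF (K := K) dR A E x → ∀ (p : ℕ) (f : Fin p → R) (v : Fin p → Om → ℝ), (∀ j, v j ∈ A) →
  (∀ j, Dm E x (f j) (v j)) → Dm E x (Wr dR f) (∑ j, v j)

/-! ### Linear algebra -/

/-- slow growth of the powers of a finite dimensional space -/
def S_Grow : Prop := ∀ (k K : Type) [Field k] [Field K] [Algebra k K] (C : Submodule k K),
  C.FG → (1 : K) ∈ C → ∀ eps : ℝ, 0 < eps → ∃ s : ℕ,
  (Module.finrank k ↥(C ^ (s + 1)) : ℝ) ≤ (1 + eps) * Module.finrank k ↥(C ^ s)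

/-- adapted bases -/
def S_Adp : Prop := ∀ (k K : Type) [Field k] [Field K] [Algebra k K] (ι : Type) [Fintype ι]
  (U : Submodule k K), U.FG → ∀ (P p : ℕ) (e : Fin p → ι → K), LinearIndependent k e →
  (∀ j i, e j i ∈ U) → ∀ s : ι ≃ Fin P, p ≤ Module.finrank k U * P ∧
  ∃ c : Matrix (Fin p) (Fin p) k, c.det ≠ 0 ∧ ∀ j i, (∑ l, c j l • e l i) ≠ 0 →
    Module.finrank k U * (s i : ℕ) ≤ (j : ℕ) + (Module.finrank k U * P - p)

/-- many polynomials in an ideal generated by two coprime polynomials -/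
def S_Idl : Prop := ∀ r d0 : ℕ, ∃ C0 : ℕ, ∀ (K : Type) [Field K]
  (A B : MvPolynomial (Fin r) K), A ≠ 0 → B ≠ 0 → IsRelPrime A B → (∀ l, degreeOf l A ≤ d0) →
  (∀ l, degreeOf l B ≤ d0) → ∀ D : ℕ, 2 * d0 ≤ D → ∃ (M : ℕ)
  (f : Fin M → MvPolynomial (Fin r) K), LinearIndependent K f ∧
  (∀ j, ∃ G H : MvPolynomial (Fin r) K, f j = G * A + H * B) ∧ (∀ j l, degreeOf l (f j) ≤ D) ∧
  M ≤ (D + 1) ^ r ∧ ((D + 1) ^ r - M) * (D + 1) ^ 2 ≤ C0 * (D + 1) ^ r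

/-- sorting of the monomials -/
def S_Srt : Prop := ∀ (r D h p : ℕ), 0 < h → p ≤ h * (D + 1) ^ r → ∀ t : Fin r → ℝ,
  ∃ (s : (Fin r → Fin (D + 1)) ≃ Fin ((D + 1) ^ r)) (b : Fin p → ℝ),
  (∀ (j : Fin p) m, h * (s m : ℕ) ≤ (j : ℕ) + (h * (D + 1) ^ r - p) →
    ∑ l, ((m l : ℕ) : ℝ) * t l ≤ b j) ∧
  ∑ j, b j ≤ h * ∑ m : Fin r → Fin (D + 1), ∑ l, ((m l : ℕ) : ℝ) * t l +
    ((h * (D + 1) ^ r - p : ℕ) : ℝ) * (D * ∑ l, |t l|)

/-- selection of the finite dimensional spaces of coefficients -/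
def S_Gc1 : Prop := ∀ (K : Type) [Field K] (dl : Derivation ℤ K K) (r D M : ℕ)
  (f : Fin M → MvPolynomial (Fin r) K), LinearIndependent K f →
  (∀ j l, degreeOf l (f j) ≤ D) → ∀ eps : ℝ, 0 < eps → ∃ (h h' : ℕ) (u : Fin h → K), 0 < h ∧
  (h' : ℝ) ≤ (1 + eps) * h ∧ h * M ≤ h' * (D + 1) ^ r ∧
  (∀ c : Fin (h * M) → K, (∀ x, dl (c x) = 0) → (∀ m : Fin r → Fin (D + 1),
    ∑ x, c x * (u (finProdFinEquiv.symm x).1 * cf (f (finProdFinEquiv.symm x).2) m) = 0) →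
    ∀ x, c x = 0) ∧
  ∀ s : (Fin r → Fin (D + 1)) ≃ Fin ((D + 1) ^ r),
    ∃ c : Matrix (Fin (h * M)) (Fin (h * M)) K, (∀ i j, dl (c i j) = 0) ∧ c.det ≠ 0 ∧
    ∀ (j : Fin (h * M)) m,
    ∑ x, c j x * (u (finProdFinEquiv.symm x).1 * cf (f (finProdFinEquiv.symm x).2) m) ≠ 0 →
    h' * (s m : ℕ) ≤ (j : ℕ) + (h' * (D + 1) ^ r - h * M)

/-! ### Greatest common divisors -/

/-- GCD theorem for many polynomials -/
def S_GcdD : Prop := ∀ (F K R Om : Type) [Field F] [Field K] [CommRing R] [IsDomain R]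
  [Algebra F K] [Algebra K R] (dl : Derivation ℤ K K) (dR : Derivation ℤ R R)
  (A : Submodule ℝ (Om → ℝ)) (E : (Om → ℝ) →ₗ[ℝ] ℝ) (x : R → Om → ℝ),
  NRV F K R Om dl dR A E x → ∀ (r D : ℕ) (tau : Fin r → Rˣ), Ind K tau D →
  ∀ (M : ℕ) (f : Fin M → MvPolynomial (Fin r) K), LinearIndependent K f →
  (∀ j l, degreeOf l (f j) ≤ D) → ∀ w : R, w ≠ 0 →
  (∀ j, w ∣ aeval (fun l => (tau l : R)) (f j)) → M ≤ (D + 1) ^ r ∧
  (M : ℝ) * E (x w) ≤ (((D + 1) ^ r - M : ℕ) : ℝ) * (D * ∑ l, E |x (tau l : R)|)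

/-- GCD THEOREM -/
def S_Gcd : Prop := ∀ (r d0 : ℕ) (eta : ℝ), 0 < eta → ∃ B : ℕ, ∀ (F K R Om : Type) [Field F]
  [Field K] [CommRing R] [IsDomain R]
  [Algebra F K] [Algebra K R] (dl : Derivation ℤ K K) (dR : Derivation ℤ R R)
  (A : Submodule ℝ (Om → ℝ)) (E : (Om → ℝ) →ₗ[ℝ] ℝ) (x : R → Om → ℝ),
  NRV F K R Om dl dR A E x → ∀ tau : Fin r → Rˣ, Ind K tau B →
  ∀ P Q : MvPolynomial (Fin r) K, P ≠ 0 → Q ≠ 0 → IsRelPrime P Q → (∀ l, degreeOf l P ≤ d0) →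
  (∀ l, degreeOf l Q ≤ d0) → ∀ w : R, w ≠ 0 → w ∣ aeval (fun l => (tau l : R)) P →
  w ∣ aeval (fun l => (tau l : R)) Q → E (x w) ≤ eta * ∑ l, E |x (tau l : R)|

/-! ### Commutative algebra -/

/-- factors of weighted homogeneous polynomials -/
def S_WH : Prop := ∀ (K s : Type) [Field K] (w : s → ℕ) (f g : MvPolynomial s K) (n : ℕ),
  f * g ≠ 0 → (f * g).IsWeightedHomogeneous w n → ∃ k, k ≤ n ∧ f.IsWeightedHomogeneous w k ∧
    g.IsWeightedHomogeneous w (n - k)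

/-- common zeros, Jacobian, algebraic independence and integrality -/
def S_Int : Prop := ∀ (F : Type) [Field F] [CharZero F] (n : ℕ)
  (Q : Fin (n + 1) → MvPolynomial (Fin (n + 1)) F) (dg : Fin (n + 1) → ℕ), NC Q dg →
  (∀ (Om : Type) [Field Om] [Algebra F Om] (w : Fin (n + 1) → Om), (∀ a, aeval w (Q a) = 0) →
    w = 0) ∧ Jac Q ≠ 0 ∧ AlgebraicIndependent F Q ∧
  ∀ P : MvPolynomial (Fin (n + 1)) F, ∃ p : Polynomial (MvPolynomial (Fin (n + 1)) F), p.Monic ∧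
    Polynomial.eval₂ ((aeval Q : MvPolynomial (Fin (n + 1)) F →ₐ[F]
      MvPolynomial (Fin (n + 1)) F) : MvPolynomial (Fin (n + 1)) F →+*
      MvPolynomial (Fin (n + 1)) F) P p = 0

/-- homogeneous integral equations -/
def S_IntH : Prop := ∀ (F : Type) [Field F] [CharZero F] (n : ℕ)
  (Q : Fin (n + 1) → MvPolynomial (Fin (n + 1)) F) (dg : Fin (n + 1) → ℕ), NC Q dg →
  ∀ (P : MvPolynomial (Fin (n + 1)) F) (g : ℕ), P.IsHomogeneous g → ∃ (k : ℕ)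
  (c : Fin (k + 1) → MvPolynomial (Fin (n + 1)) F),
  (∀ i : Fin (k + 1), (c i).IsWeightedHomogeneous dg (((i : ℕ) + 1) * g)) ∧
  P ^ (k + 1) + ∑ i : Fin (k + 1), aeval Q (c i) * P ^ (k - (i : ℕ)) = 0

/-- degrees of the Jacobian and Cramer's rule -/
def S_JH : Prop := ∀ (K : Type) [Field K] (n : ℕ)
  (Q : Fin (n + 1) → MvPolynomial (Fin (n + 1)) K) (dg : Fin (n + 1) → ℕ),
  (∀ a, (Q a).IsHomogeneous (dg a)) → (∀ a, 1 ≤ dg a) →
  (Jac Q).IsHomogeneous (∑ a, dg a - (n + 1))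

/-- norm of an element of an integral extension -/
def S_Nrm : Prop := ∀ (B R : Type) [CommRing B] [IsDomain B] [IsIntegrallyClosed B]
  [CommRing R] [IsDomain R] (f : B →+* R), f.IsIntegral →
  Function.Injective f → ∀ X : R, X ≠ 0 → ∃ M : B, M ≠ 0 ∧
  X ∣ f M ∧ ∀ G : B, X ∣ f G → ∃ k : ℕ, M ∣ G ^ k

/-- elimination: equation of the image of a hypersurface, with parameters -/
def S_Nm : Prop := ∀ (F : Type) [Field F] [CharZero F] (n : ℕ)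
  (Q : Fin (n + 1) → MvPolynomial (Fin (n + 1)) F) (dg : Fin (n + 1) → ℕ), NC Q dg →
  ∀ (P : Type) [Finite P] (X : MvPolynomial (Fin (n + 1) ⊕ P) F), X ≠ 0 →
  ∃ M : MvPolynomial (Fin (n + 1) ⊕ P) F, M ≠ 0 ∧
  X ∣ aeval (Sum.elim (fun a => rename Sum.inl (Q a)) (fun i => MvPolynomial.X (Sum.inr i))) M ∧
  (∀ G : MvPolynomial (Fin (n + 1) ⊕ P) F,
    X ∣ aeval (Sum.elim (fun a => rename Sum.inl (Q a)) (fun i => MvPolynomial.X (Sum.inr i))) G →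
    ∃ k : ℕ, M ∣ G ^ k) ∧
  ∀ (Om : Type) [Field Om] [IsAlgClosed Om] [Algebra F Om] (y : Fin (n + 1) → Om) (s : P → Om),
    aeval (Sum.elim y s) M = 0 → ∃ p : Fin (n + 1) → Om, (∀ a, aeval p (Q a) = y a) ∧
    aeval (Sum.elim p s) X = 0

/-- elimination polynomial of the Jacobian -/
def S_NJ : Prop := ∀ (F : Type) [Field F] [CharZero F] (n : ℕ)
  (Q : Fin (n + 1) → MvPolynomial (Fin (n + 1)) F) (dg : Fin (n + 1) → ℕ), NC Q dg →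
  ∃ (N Js : MvPolynomial (Fin (n + 1)) F) (W g : ℕ) (Mx : Fin (n + 1) → ℕ), NJ Q dg N Js W g Mx

/-! ### Lower bound for the zeros of the Jacobian -/

/-- extreme points -/
def S_Ext : Prop := ∀ (N r : ℕ) (v : Fin N → Fin r → ℝ), ∃ Ex : Finset (Fin N),
  (∀ b ∈ Ex, ∀ th : Fin N → ℝ, (∀ c, 0 ≤ th c) → ∑ c, th c = 1 →
    ∑ c, th c • v c = v b → ∀ c, th c ≠ 0 → v c = v b) ∧
  ∀ a, ∃ th : Fin N → ℝ, (∀ c, 0 ≤ th c) ∧ ∑ c, th c = 1 ∧ (∀ c, th c ≠ 0 → c ∈ Ex) ∧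
    ∑ c, th c • v c = v a

/-- units modulo small units -/
def S_Un : Prop := ∀ (F K R : Type) [Field F] [Field K] [CommRing R] [IsDomain R]
  [Algebra F K] [Algebra K R] (dl : Derivation ℤ K K) (dR : Derivation ℤ R R),
  NR F K R dl dR → ∀ (N : ℕ) (y : Fin N → Rˣ), ∃ (r : ℕ) (g : Fin r → Rˣ) (kap : Fin N → K)
  (m : Fin N → Fin r → ℤ), (∀ a, kap a ≠ 0) ∧ (∀ a, (y a : R) = mo kap m g a) ∧
  ∀ j : Fin r → ℤ, j ≠ 0 → ¬ InK K ((∏ l, g l ^ (j l) : Rˣ) : R)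

/-- a weighted homogeneous polynomial dominates the pure powers -/
def S_Al : Prop := ∀ (F K R Om : Type) [Field F] [Field K] [CommRing R] [IsDomain R]
  [Algebra F K] [Algebra K R] (dl : Derivation ℤ K K) (dR : Derivation ℤ R R)
  (A : Submodule ℝ (Om → ℝ)) (E : (Om → ℝ) →ₗ[ℝ] ℝ) (x : R → Om → ℝ),
  NRV F K R Om dl dR A E x → ∀ (n : ℕ) (dg : Fin (n + 1) → ℕ)
  (N : MvPolynomial (Fin (n + 1)) F) (W : ℕ) (Mx : Fin (n + 1) → ℕ), (∀ a, 1 ≤ dg a) →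
  1 ≤ W → N.IsWeightedHomogeneous dg W → (∀ a, Mx a * dg a = W) → ∀ y : Fin (n + 1) → Rˣ,
  (∀ T : Finset (Fin (n + 1)), T.Nonempty → vq K (cut T fun a => (y a : R)) N ≠ 0) →
  ∀ a, Bl E ((Mx a : ℝ) • x (y a : R)) (x (vq K (fun a => (y a : R)) N))

/-- upper bound for the values of a form -/
def S_Up : Prop := ∀ (F : Type) [Field F] [CharZero F] (n : ℕ)
  (Q : Fin (n + 1) → MvPolynomial (Fin (n + 1)) F) (dg : Fin (n + 1) → ℕ), NC Q dg →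
  ∀ (P : MvPolynomial (Fin (n + 1)) F) (g : ℕ), P.IsHomogeneous g →
  ∀ (K R Om : Type) [Field K] [CommRing R] [IsDomain R]
  [Algebra F K] [Algebra K R] (dl : Derivation ℤ K K) (dR : Derivation ℤ R R)
  (A : Submodule ℝ (Om → ℝ)) (E : (Om → ℝ) →ₗ[ℝ] ℝ) (x : R → Om → ℝ),
  NRV F K R Om dl dR A E x → ∀ q : Fin (n + 1) → R, (∀ a, vq K q (Q a) ≠ 0) →
  vq K q P ≠ 0 → ∀ X ∈ A, (∀ a, x (vq K q (Q a)) ≤ (dg a : ℝ) • X) →
  Bl E (x (vq K q P)) ((g : ℝ) • X)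

/-- LOWER BOUND -/
def S_LB : Prop := ∀ (F : Type) [Field F] [CharZero F] (n : ℕ)
  (Q : Fin (n + 1) → MvPolynomial (Fin (n + 1)) F) (dg : Fin (n + 1) → ℕ), NC Q dg →
  ∀ (N Js : MvPolynomial (Fin (n + 1)) F) (W g : ℕ) (Mx : Fin (n + 1) → ℕ),
  NJ Q dg N Js W g Mx →
  ∀ (K R Om : Type) [Field K] [CommRing R] [IsDomain R]
  [Algebra F K] [Algebra K R] (dl : Derivation ℤ K K) (dR : Derivation ℤ R R)
  (A : Submodule ℝ (Om → ℝ)) (E : (Om → ℝ) →ₗ[ℝ] ℝ) (x : R → Om → ℝ),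
  NRV F K R Om dl dR A E x → ∀ q : Fin (n + 1) → R, (∀ a, IsUnit (vq K q (Q a))) →
  vq K q (Q (Fin.last n)) = 1 →
  (∀ T : Finset (Fin (n + 1)), T.Nonempty → vq K q (aeval (cut T Q) N) ≠ 0) →
  vq K q (Jac Q) ≠ 0 ∧ XX x dg (fun a => vq K q (Q a)) ∈ A ∧
  E (XX x dg fun a => vq K q (Q a)) ≤ E (x (vq K q (Jac Q))) ∧
  ∀ a, E |x (vq K q (Q a))| ≤ 2 * dg a * E (XX x dg fun a => vq K q (Q a))

/-! ### Coprimality -/

/-- no multiplicative differential factor -/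
def S_PiD : Prop := ∀ (F K R : Type) [Field F] [Field K] [CommRing R] [IsDomain R]
  [Algebra F K] [Algebra K R] (dl : Derivation ℤ K K) (dR : Derivation ℤ R R),
  NR F K R dl dR → ∀ (r B : ℕ) (tau : Fin r → Rˣ) (lam : Fin r → K), Ind K tau B →
  (∀ l, dR (tau l : R) = algebraMap K R (lam l) * (tau l : R)) →
  ∀ h : MvPolynomial (Fin r) K, Irreducible h → (∀ l, ¬ MvPolynomial.X l ∣ h) →
  (∀ l, degreeOf l h ≤ B) → ¬ h ∣ dc dl h + ∑ l, C (lam l) * MvPolynomial.X l * pderiv l h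

/-- adjugate of a matrix of corank one -/
def S_Adj : Prop := ∀ (K : Type) [Field K] (n : ℕ) (M : Matrix (Fin (n + 1)) (Fin (n + 1)) K)
  (c : Fin (n + 1) → K), c ≠ 0 → (∀ j, ∑ a, c a * M a j = 0) →
  (∀ c' : Fin (n + 1) → K, (∀ j, ∑ a, c' a * M a j = 0) → ∃ t : K, ∀ a, c' a = t * c a) →
  ∃ (j : Fin (n + 1)) (t : K), t ≠ 0 ∧ ∀ a, M.adjugate j a = t * c a

/-- the vector field does not vanish at a noncritical point -/
def S_Lcr : Prop := ∀ (F K Om : Type) [Field F] [CharZero F] [Field K] [CharZero K] [Field Om]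
  [CharZero Om] [Algebra F K] [Algebra K Om] [Algebra F Om] [IsScalarTower F K Om]
  (dl : Derivation ℤ K K), (∀ a : F, dl (algebraMap F K a) = 0) → ∀ (n : ℕ)
  (Q : Fin (n + 1) → MvPolynomial (Fin (n + 1)) F) (dg : Fin (n + 1) → ℕ), NC Q dg →
  ∀ (r : ℕ) (m : Fin (n + 1) → Fin r → ℤ) (kap l : Fin (n + 1) → K) (lam : Fin r → K),
  (∀ a, kap a ≠ 0) → (∀ a, l a * kap a = dl (kap a) + kap a * ∑ b, (m a b : K) * lam b) →
  ∀ (h : MvPolynomial (Fin r) K) (t : Fin r → Omˣ), Irreducible h →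
  ¬ h ∣ dc dl h + ∑ b, C (lam b) * MvPolynomial.X b * pderiv b h →
  (∀ f : MvPolynomial (Fin r) K, aeval (fun b => (t b : Om)) f = 0 ↔ h ∣ f) →
  ∀ p : Fin (n + 1) → Om, (∀ a, aeval p (Q a) = mo kap m t a) → aeval p (Jac Q) = 0 →
  ¬ Crit Q m p → ∃ j, aeval p (VV (fun a => bc K (Q a)) l j) ≠ 0

/-- substitution of monomials -/
def S_Sub : Prop := ∀ (F : Type) [Field F] (n r : ℕ) (P : Type) [Finite P]
  (m : Fin (n + 1) → Fin r → ℤ) (M : MvPolynomial (Fin (n + 1) ⊕ P) F),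
  ∃ (d0 : ℕ) (b : Fin r → ℕ), ∀ (K : Type) [Field K] [Algebra F K] (kap : Fin (n + 1) → K)
  (s : P → K), ∃ G : MvPolynomial (Fin r) K, (∀ l, degreeOf l G ≤ d0) ∧
  ∀ (R : Type) [CommRing R] [Algebra K R] (t : Fin r → Rˣ),
  aeval (fun l => (t l : R)) G = (∏ l, (t l : R) ^ (b l)) *
    vq K (Sum.elim (mo kap m t) (fun i => algebraMap K R (s i))) M

/-- removal of the factors `X l` -/
def S_Strip : Prop := ∀ (K : Type) [Field K] (r : ℕ) (P : MvPolynomial (Fin r) K), P ≠ 0 →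
  ∃ (k : Fin r → ℕ) (P' : MvPolynomial (Fin r) K), P = (∏ l, MvPolynomial.X l ^ (k l)) * P' ∧
  (∀ l, ¬ MvPolynomial.X l ∣ P') ∧ ∀ l, degreeOf l P' ≤ degreeOf l P

/-- finite fibres -/
def S_Fib : Prop := ∀ (F : Type) [Field F] [CharZero F] (n : ℕ)
  (Q : Fin (n + 1) → MvPolynomial (Fin (n + 1)) F) (dg : Fin (n + 1) → ℕ), NC Q dg →
  ∀ (Om : Type) [Field Om] [Algebra F Om] (y : Fin (n + 1) → Om),
  {p : Fin (n + 1) → Om | ∀ a, aeval p (Q a) = y a}.Finite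

/-- avoiding finitely many hyperplanes -/
def S_Av : Prop := ∀ (F : Type) [Field F] [Infinite F] (ι : Type) [Finite ι] (Om : ι → Type)
  [∀ i, Field (Om i)] [∀ i, Algebra F (Om i)] (N : ℕ) (c0 : ∀ i, Om i) (c : ∀ i, Fin N → Om i),
  (∀ i, ¬ (c0 i = 0 ∧ ∀ j, c i j = 0)) → ∃ al : Fin N → F, ∀ i,
  c0 i + ∑ j, algebraMap F (Om i) (al j) * c i j ≠ 0

/-- derivative of a point -/
def S_qd : Prop := ∀ (F K R : Type) [Field F] [Field K] [CommRing R] [IsDomain R]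
  [Algebra F K] [Algebra K R] (dl : Derivation ℤ K K) (dR : Derivation ℤ R R),
  NR F K R dl dR → ∀ (n : ℕ) (Q : Fin (n + 1) → MvPolynomial (Fin (n + 1)) F)
  (q : Fin (n + 1) → R) (l : Fin (n + 1) → K),
  (∀ a, dR (vq K q (Q a)) = algebraMap K R (l a) * vq K q (Q a)) →
  ∀ j, vq K q (Jac Q) * dR (q j) = aeval q (VV (fun a => bc K (Q a)) l j)

/-- COPRIMALITY -/
def S_Cpr : Prop := ∀ (F : Type) [Field F] [CharZero F] (n : ℕ)
  (Q : Fin (n + 1) → MvPolynomial (Fin (n + 1)) F) (dg : Fin (n + 1) → ℕ), NC Q dg →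
  ∀ (N Js : MvPolynomial (Fin (n + 1)) F) (W g : ℕ) (Mx : Fin (n + 1) → ℕ),
  NJ Q dg N Js W g Mx → ∀ (r : ℕ) (m : Fin (n + 1) → Fin r → ℤ), ∃ d0 : ℕ,
  ∀ e : MvPolynomial (Fin (n + 1)) F, Sard Q dg m e →
  ∀ (K R : Type) [Field K] [CharZero K] [CommRing R] [IsDomain R]
  [Algebra F K] [Algebra K R] (dl : Derivation ℤ K K) (dR : Derivation ℤ R R),
  NR F K R dl dR → ∀ (q : Fin (n + 1) → R) (kap : Fin (n + 1) → K) (tau : Fin r → Rˣ),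
  (∀ a, kap a ≠ 0) → (∀ a, vq K q (Q a) = mo kap m tau a) → Ind K tau d0 →
  vq K q (aeval Q e) ≠ 0 → vq K q (aeval Q N) ≠ 0 →
  ∃ P P' : MvPolynomial (Fin r) K, P ≠ 0 ∧ P' ≠ 0 ∧ IsRelPrime P P' ∧
  (∀ l, degreeOf l P ≤ d0) ∧ (∀ l, degreeOf l P' ≤ d0) ∧
  vq K q (Jac Q) ∣ aeval (fun l => (tau l : R)) P ∧
  vq K q (Jac Q) ∣ aeval (fun l => (tau l : R)) P'

/-! ### Critical values -/

/-- critical values at one point -/
def S_Sar1 : Prop := ∀ (F : Type) [Field F] [CharZero F] (N : ℕ)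
  (Q : Fin N → MvPolynomial (Fin N) F) (dg : Fin N → ℕ), (∀ a, (Q a).IsHomogeneous (dg a)) →
  ∀ (r : ℕ) (m : Fin N → Fin r → ℤ) (Om : Type) [Field Om] [Algebra F Om] (p : Fin N → Om),
  (∀ a, aeval p (Q a) ≠ 0) → Crit Q m p → ∃ e : MvPolynomial (Fin N) F, e ≠ 0 ∧
  (∀ i ∈ e.support, ∀ j ∈ e.support, ∑ a, ((i a : ℤ) - j a) * dg a = 0 ∧
    ∀ l, ∑ a, ((i a : ℤ) - j a) * m a l = 0) ∧ aeval (fun a => aeval p (Q a)) e = 0

/-- vanishing minors -/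
def S_Mnr : Prop := ∀ (K : Type) [Field K] (N : ℕ) (κ : Type) [Fintype κ]
  (M : Matrix (Fin N) κ K), (∃ c : Fin N → K, c ≠ 0 ∧ ∀ j, ∑ a, c a * M a j = 0) ↔
  ∀ s : Fin N → κ, (M.submatrix id s).det = 0

/-- SARD POLYNOMIAL -/
def S_Sard : Prop := ∀ (F : Type) [Field F] [CharZero F] (N : ℕ)
  (Q : Fin N → MvPolynomial (Fin N) F) (dg : Fin N → ℕ), (∀ a, (Q a).IsHomogeneous (dg a)) →
  ∀ (r : ℕ) (m : Fin N → Fin r → ℤ), ∃ e : MvPolynomial (Fin N) F, Sard Q dg m e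

/-! ### Selection of the lattice -/

/-- completion of a vector -/
def S_Uni : Prop := ∀ (r : ℕ) (j : Fin (r + 1) → ℤ), j ≠ 0 →
  ∃ (mu : (Fin (r + 1) → ℤ) →ₗ[ℤ] (Fin r → ℤ)) (nu : (Fin r → ℤ) →ₗ[ℤ] (Fin (r + 1) → ℤ)),
  (∀ v, mu (nu v) = v) ∧ ∀ v, mu v = 0 → ∃ N z : ℤ, N ≠ 0 ∧ N • v = z • j

/-- lattice selection -/
def S_Lat : Prop := ∀ (k : ℕ)
  (G : ∀ r : ℕ, (Fin k → Fin r → ℤ) → (Fin r → Fin k → ℤ) → ℕ),
  ∃ (I : Type) (_ : Fintype I) (r : I → ℕ) (m : ∀ i, Fin k → Fin (r i) → ℤ)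
  (b : ∀ i, Fin (r i) → Fin k → ℤ),
  (∀ i l l', ∑ a, b i l a * m i a l' = if l = l' then 1 else 0) ∧
  ∀ La : AddSubgroup (Fin k → ℤ), (∀ (v : Fin k → ℤ) (N : ℤ), N ≠ 0 → N • v ∈ La → v ∈ La) →
  ∃ i, (∀ v : Fin k → ℤ, (∀ l, ∑ a, v a * m i a l = 0) → v ∈ La) ∧
    ∀ j : Fin (r i) → ℤ, j ≠ 0 → (∀ l, |j l| ≤ G (r i) (m i) (b i)) →
      (fun a => ∑ l, j l * b i l a) ∉ La

/-! ### The algebraic theorem -/

/-- ALGEBRAIC THEOREM for Nevanlinna rings -/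
def S_T5R : Prop := ∀ (F : Type) [Field F] [CharZero F] (n : ℕ)
  (Q : Fin (n + 1) → MvPolynomial (Fin (n + 1)) F) (dg : Fin (n + 1) → ℕ), NC Q dg →
  ∃ (B : MvPolynomial (Fin (n + 1)) F) (nB : ℕ), B ≠ 0 ∧ B.IsHomogeneous nB ∧
  ∀ (K R Om : Type) [Field K] [CommRing R] [IsDomain R]
  [Algebra F K] [Algebra K R] (dl : Derivation ℤ K K) (dR : Derivation ℤ R R)
  (A : Submodule ℝ (Om → ℝ)) (E : (Om → ℝ) →ₗ[ℝ] ℝ) (x : R → Om → ℝ),
  NRV F K R Om dl dR A E x → ∀ q : Fin (n + 1) → R, (∀ a, IsUnit (vq K q (Q a))) →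
  vq K q (Q (Fin.last n)) = 1 → vq K q B ≠ 0 → ∀ a, InK K (vq K q (Q a))

end

end Pool.Agent.Work.MP_6d7a54_an.NG
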