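import Mathlib
import Pool.Agent.Work.MP_6d7a54_an.NG.Stmts

/-!
# Selection of the lattice
-/

set_option autoImplicit false

namespace Pool.Agent.Work.MP_6d7a54_an.NG

namespace PLatx

/-- the linear map given by `m` -/
def mv {k r : ℕ} (m : Fin k → Fin r → ℤ) (v : Fin k → ℤ) : Fin r → ℤ := ∑ a, v a • m a

theorem mv_apply {k r : ℕ} (m : Fin k → Fin r → ℤ) (v : Fin k → ℤ) (l : Fin r) :
    mv m v l = ∑ a, v a * m a l := by
  simp [mv, Finset.sum_apply]

theorem mv_sub {k r : ℕ} (m : Fin k → Fin r → ℤ) (v w : Fin k → ℤ) (N z : ℤ) :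
    mv m (N • v - z • w) = N • mv m v - z • mv m w := by
  funext l
  simp only [mv_apply, Pi.sub_apply, Pi.smul_apply, smul_eq_mul, Finset.mul_sum]
  rw [← Finset.sum_sub_distrib]
  exact Finset.sum_congr rfl fun a _ => by ring

/-- the triples -/
abbrev T (k : ℕ) : Type := Σ r : ℕ, (Fin k → Fin r → ℤ) × (Fin r → Fin k → ℤ)

/-- `b` is a section of `m` -/
def Sec {k : ℕ} (t : T k) : Prop :=
  ∀ l l', ∑ a, t.2.2 l a * t.2.1 a l' = if l = l' then 1 else 0

/-- the kernel is contained in `La` -/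
def Ker {k : ℕ} (t : T k) (La : AddSubgroup (Fin k → ℤ)) : Prop :=
  ∀ v : Fin k → ℤ, (∀ l, ∑ a, v a * t.2.1 a l = 0) → v ∈ La

/-- good triples -/
def Good {k : ℕ} (G : ∀ r : ℕ, (Fin k → Fin r → ℤ) → (Fin r → Fin k → ℤ) → ℕ) (t : T k)
    (La : AddSubgroup (Fin k → ℤ)) : Prop :=
  Ker t La ∧ ∀ j : Fin t.1 → ℤ, j ≠ 0 → (∀ l, |j l| ≤ G t.1 t.2.1 t.2.2) →
    (fun a => ∑ l, j l * t.2.2 l a) ∉ La

theorem finite_box (n : ℕ) (C : ℕ) : {j : Fin n → ℤ | ∀ l, |j l| ≤ (C : ℤ)}.Finite := by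
  refine (Set.finite_Icc (fun _ : Fin n => -(C : ℤ)) (fun _ => (C : ℤ))).subset ?_
  intro j hj
  exact ⟨fun l => (abs_le.1 (hj l)).1, fun l => (abs_le.1 (hj l)).2⟩

theorem sec_mv {k r : ℕ} (m : Fin k → Fin r → ℤ) (b : Fin r → Fin k → ℤ)
    (h : ∀ l l', ∑ a, b l a * m a l' = if l = l' then 1 else 0) (l : Fin r) :
    mv m (b l) = Pi.single l 1 := by
  funext l'
  rw [mv_apply, h l l', Pi.single_apply]
  by_cases hl : l = l'
  · rw [if_pos hl, if_pos hl.symm]
  · rw [if_neg hl, if_neg (fun h => hl h.symm)]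

theorem sum_single {r : ℕ} (j : Fin r → ℤ) : ∑ l, j l • (Pi.single l (1 : ℤ) : Fin r → ℤ) = j := by
  funext l'
  simp [Finset.sum_apply, Pi.single_apply]

theorem mv_comb {k r s : ℕ} (m : Fin k → Fin r → ℤ) (b : Fin s → Fin k → ℤ) (j : Fin s → ℤ) :
    mv m (fun a => ∑ l, j l * b l a) = ∑ l, j l • mv m (b l) := by
  funext l'
  rw [mv_apply, Finset.sum_apply]
  simp only [Pi.smul_apply, smul_eq_mul, mv_apply, Finset.mul_sum, Finset.sum_mul]
  rw [Finset.sum_comm]
  exact Finset.sum_congr rfl fun l _ => Finset.sum_congr rfl fun a _ => by ring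

theorem key (h : S_Uni) (k : ℕ) (G : ∀ r : ℕ, (Fin k → Fin r → ℤ) → (Fin r → Fin k → ℤ) → ℕ) :
    ∀ (r : ℕ) (m : Fin k → Fin r → ℤ) (b : Fin r → Fin k → ℤ), Sec (⟨r, m, b⟩ : T k) →
    ∃ Fam : Set (T k), Fam.Finite ∧ (∀ t ∈ Fam, Sec t) ∧
      ∀ La : AddSubgroup (Fin k → ℤ),
        (∀ (v : Fin k → ℤ) (N : ℤ), N ≠ 0 → N • v ∈ La → v ∈ La) →
        Ker (⟨r, m, b⟩ : T k) La → ∃ t ∈ Fam, Good G t La := by
  classical
  intro r
  induction r with
  | zero =>
    intro m b hs
    refine ⟨{⟨0, m, b⟩}, Set.finite_singleton _, ?_, ?_⟩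
    · intro t ht
      rw [Set.mem_singleton_iff] at ht
      rw [ht]
      exact hs
    · intro La _ hker
      refine ⟨⟨0, m, b⟩, rfl, hker, ?_⟩
      intro j hj
      exact absurd (Subsingleton.elim j 0) hj
  | succ r ih =>
    intro m b hs
    have hstep : ∀ j : Fin (r + 1) → ℤ, ∃ Fam : Set (T k), Fam.Finite ∧ (∀ t ∈ Fam, Sec t) ∧
        (j ≠ 0 → ∀ La : AddSubgroup (Fin k → ℤ),
          (∀ (v : Fin k → ℤ) (N : ℤ), N ≠ 0 → N • v ∈ La → v ∈ La) →
          Ker (⟨r + 1, m, b⟩ : T k) La → (fun a => ∑ l, j l * b l a) ∈ La →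
          ∃ t ∈ Fam, Good G t La) := by
      intro j
      by_cases hj : j = 0
      · exact ⟨∅, Set.finite_empty, fun t ht => absurd ht (Set.notMem_empty t),
          fun hj' => absurd hj hj'⟩
      · obtain ⟨mu, nu, h1, h2⟩ := h r j hj
        have hmn : ∀ v, mv (fun a => mu (m a)) v = mu (mv m v) := by
          intro v
          simp only [mv, map_sum, map_smul]
        obtain ⟨Fam, hF1, hF2, hF3⟩ := ih (fun a => mu (m a))
          (fun l a => ∑ l', nu (Pi.single l 1) l' * b l' a) (by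
            intro l l'
            have e1 : ∑ a, (∑ l'', nu (Pi.single l 1) l'' * b l'' a) * mu (m a) l' =
                mv (fun a => mu (m a)) (fun a => ∑ l'', nu (Pi.single l 1) l'' * b l'' a) l' := by
              rw [mv_apply]
            show ∑ a, (∑ l'', nu (Pi.single l 1) l'' * b l'' a) * mu (m a) l' = _
            rw [e1, hmn, mv_comb]
            have e2 : ∀ l'', mv m (b l'') = Pi.single l'' 1 := sec_mv m b hs
            simp only [e2]
            rw [sum_single, h1, Pi.single_apply]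
            by_cases hl : l = l'
            · rw [if_pos hl, if_pos hl.symm]
            · rw [if_neg hl, if_neg (fun h => hl h.symm)])
        refine ⟨Fam, hF1, hF2, ?_⟩
        intro _ La hLa hker hw
        refine hF3 La hLa ?_
        intro v hv
        have h3 : mu (mv m v) = 0 := by
          rw [← hmn]
          funext l
          rw [mv_apply]
          exact hv l
        obtain ⟨N, z, hN, hNz⟩ := h2 _ h3
        have h4 : mv m (fun a => ∑ l, j l * b l a) = j := by
          rw [mv_comb]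
          have e2 : ∀ l'', mv m (b l'') = Pi.single l'' 1 := sec_mv m b hs
          simp only [e2]
          exact sum_single j
        have h5 : N • v - z • (fun a => ∑ l, j l * b l a) ∈ La := by
          refine hker _ ?_
          intro l
          have h6 : mv m (N • v - z • (fun a => ∑ l, j l * b l a)) = 0 := by
            rw [mv_sub, h4, hNz, sub_self]
          have := congrFun h6 l
          rw [mv_apply] at this
          exact this
        refine hLa v N hN ?_
        have h7 := La.add_mem h5 (La.zsmul_mem hw z)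
        rwa [sub_add_cancel] at h7
    choose Fj hFj1 hFj2 hFj3 using hstep
    refine ⟨{⟨r + 1, m, b⟩} ∪ ⋃ j ∈ {j : Fin (r + 1) → ℤ | ∀ l, |j l| ≤ (G (r + 1) m b : ℤ)}, Fj j,
      (Set.finite_singleton _).union ((finite_box _ _).biUnion fun j _ => hFj1 j), ?_, ?_⟩
    · intro t ht
      rcases ht with ht | ht
      · rw [Set.mem_singleton_iff] at ht
        rw [ht]
        exact hs
      · obtain ⟨j, _, hj⟩ := Set.mem_iUnion₂.mp ht
        exact hFj2 j t hj
    · intro La hLa hker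
      by_cases hex : ∃ j : Fin (r + 1) → ℤ, j ≠ 0 ∧ (∀ l, |j l| ≤ (G (r + 1) m b : ℤ)) ∧
          (fun a => ∑ l, j l * b l a) ∈ La
      · obtain ⟨j, hj0, hjb, hjL⟩ := hex
        obtain ⟨t, ht, hg⟩ := hFj3 j hj0 La hLa hker hjL
        exact ⟨t, Or.inr (Set.mem_iUnion₂.mpr ⟨j, hjb, ht⟩), hg⟩
      · refine ⟨⟨r + 1, m, b⟩, Or.inl rfl, hker, ?_⟩
        intro j hj0 hjb hjL
        exact hex ⟨j, hj0, hjb, hjL⟩

end PLatx

open PLatx in
theorem Lat_proof (h : S_Uni) : S_Lat := by
  classical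
  intro k G
  obtain ⟨Fam, h1, h2, h3⟩ := key h k G k (fun a l => if a = l then 1 else 0)
    (fun l a => if l = a then 1 else 0) (by
      intro l l'
      simp)
  have : Fintype Fam := h1.fintype
  refine ⟨Fam, inferInstance, fun i => i.1.1, fun i => i.1.2.1, fun i => i.1.2.2, ?_, ?_⟩
  · intro i
    exact h2 i.1 i.2
  · intro La hLa
    obtain ⟨t, ht, hg⟩ := h3 La hLa (by
      intro v hv
      have : v = 0 := by
        funext l
        have := hv l
        simpa using this
      rw [this]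
      exact La.zero_mem)
    exact ⟨⟨t, ht⟩, hg⟩

end Pool.Agent.Work.MP_6d7a54_an.NG
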