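import Pool.Agent.Work.MP_6d7a54_an.NG.Stmts

/-!
# The vector field does not vanish at a noncritical point (MP_6d7a54_an)
-/

namespace Pool.Agent.Work.MP_6d7a54_an.NG

open MvPolynomial

noncomputable section

namespace PLcrx

/-! ### The derivation on the coefficients -/

theorem coeff_dc {K s : Type} [Field K] (dl : Derivation ℤ K K) (f : MvPolynomial s K)
    (m : s →₀ ℕ) : coeff m (dc dl f) = dl (coeff m f) := by
  classical
  unfold dc
  rw [coeff_sum]
  simp only [coeff_monomial]
  rw [Finset.sum_ite_eq']
  split_ifs with h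
  · rfl
  · rw [notMem_support_iff.1 h, map_zero]

theorem dc_add {K s : Type} [Field K] (dl : Derivation ℤ K K) (f g : MvPolynomial s K) :
    dc dl (f + g) = dc dl f + dc dl g := by
  ext m
  rw [coeff_dc, coeff_add, coeff_add, coeff_dc, coeff_dc, map_add]

theorem dc_monomial {K s : Type} [Field K] (dl : Derivation ℤ K K) (m : s →₀ ℕ) (a : K) :
    dc dl (monomial m a) = monomial m (dl a) := by
  classical
  ext m'
  rw [coeff_dc, coeff_monomial, coeff_monomial]
  split_ifs
  · rfl
  · exact map_zero _

theorem dc_mul {K s : Type} [Field K] (dl : Derivation ℤ K K) (f g : MvPolynomial s K) :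
    dc dl (f * g) = f * dc dl g + g * dc dl f := by
  induction f using MvPolynomial.induction_on' with
  | monomial m a =>
    induction g using MvPolynomial.induction_on' with
    | monomial n b =>
      rw [monomial_mul, dc_monomial, dc_monomial, dc_monomial, monomial_mul, monomial_mul,
        dl.leibniz, smul_eq_mul, smul_eq_mul, map_add, add_comm n m]
    | add p q hp hq =>
      rw [mul_add, dc_add, dc_add, hp, hq]
      ring
  | add p q hp hq =>
    rw [add_mul, dc_add, dc_add, hp, hq]
    ring

theorem dc_C {K s : Type} [Field K] (dl : Derivation ℤ K K) (a : K) :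
    dc dl (C a : MvPolynomial s K) = C (dl a) := dc_monomial dl 0 a

theorem dc_X {K s : Type} [Field K] (dl : Derivation ℤ K K) (b : s) :
    dc dl (X b : MvPolynomial s K) = 0 := by
  have h : dc dl (X b : MvPolynomial s K) = monomial (Finsupp.single b 1) (dl 1) :=
    dc_monomial dl (Finsupp.single b 1) 1
  rw [h, dl.map_one_eq_zero, map_zero]

/-! ### Extension of derivations -/

theorem ex_gen (h1 : S_Ex0) {B E : Type} [CommRing B] [Field E] [CharZero E] (φ : B →+* E)
    (de : B → E) (hadd : ∀ a b, de (a + b) = de a + de b)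
    (hmul : ∀ a b, de (a * b) = φ a * de b + φ b * de a) (hker : ∀ a, φ a = 0 → de a = 0) :
    ∃ D : Derivation ℤ E E, ∀ a, D (φ a) = de a := by
  let _ : Algebra B E := φ.toAlgebra
  let δ : B →+ E := AddMonoidHom.mk' de hadd
  let δd : Derivation ℤ B E := Derivation.mk' δ.toIntLinearMap (fun a b => hmul a b)
  exact h1 B E δd hker

theorem ex_D (h1 : S_Ex0) {K Om : Type} [Field K] [Field Om] [CharZero Om] [Algebra K Om]
    (dl : Derivation ℤ K K) {r : ℕ} (t w : Fin r → Om) (h : MvPolynomial (Fin r) K)
    (hker : ∀ f : MvPolynomial (Fin r) K, aeval t f = 0 → h ∣ f) (hh : aeval t h = 0)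
    (h0 : aeval t (dc dl h) + ∑ b, w b * aeval t (pderiv b h) = 0) :
    ∃ D : Derivation ℤ Om Om, ∀ f : MvPolynomial (Fin r) K,
      D (aeval t f) = aeval t (dc dl f) + ∑ b, w b * aeval t (pderiv b f) := by
  have hmul : ∀ f g : MvPolynomial (Fin r) K,
      aeval t (dc dl (f * g)) + ∑ b, w b * aeval t (pderiv b (f * g)) =
        aeval t f * (aeval t (dc dl g) + ∑ b, w b * aeval t (pderiv b g)) +
        aeval t g * (aeval t (dc dl f) + ∑ b, w b * aeval t (pderiv b f)) := by
    intro f g
    rw [dc_mul, map_add, map_mul, map_mul, mul_add, mul_add, Finset.mul_sum, Finset.mul_sum]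
    have e : ∑ b, w b * aeval t (pderiv b (f * g)) =
        ∑ b, aeval t f * (w b * aeval t (pderiv b g)) +
          ∑ b, aeval t g * (w b * aeval t (pderiv b f)) := by
      rw [← Finset.sum_add_distrib]
      apply Finset.sum_congr rfl
      intro b _
      rw [pderiv_mul, map_add, map_mul, map_mul]
      ring
    rw [e]
    ring
  refine ex_gen h1 (aeval t : MvPolynomial (Fin r) K →ₐ[K] Om).toRingHom
    (fun f => aeval t (dc dl f) + ∑ b, w b * aeval t (pderiv b f)) ?_ ?_ ?_
  · intro f g
    simp only [dc_add, map_add, mul_add, Finset.sum_add_distrib]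
    ring
  · exact hmul
  · intro f hf
    obtain ⟨g, rfl⟩ := hker f hf
    show aeval t (dc dl (h * g)) + ∑ b, w b * aeval t (pderiv b (h * g)) = 0
    rw [hmul, hh, h0, zero_mul, mul_zero, add_zero]

/-! ### Logarithmic derivatives -/

theorem D_units {Om : Type} [Field Om] (D : Derivation ℤ Om Om) {r : ℕ} (t : Fin r → Omˣ)
    (w : Fin r → Om) (ht : ∀ b, D (t b : Om) = w b * t b) (m : Fin r → ℤ) :
    D ((∏ b, t b ^ m b : Omˣ) : Om) =
      (∑ b, (m b : Om) * w b) * ((∏ b, t b ^ m b : Omˣ) : Om) := by
  let L : Omˣ →* Multiplicative Om :=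
    { toFun := fun u => Multiplicative.ofAdd ((u : Om)⁻¹ * D (u : Om))
      map_one' := by simp
      map_mul' := by
        intro u v
        rw [← ofAdd_add]
        congr 1
        rw [Units.val_mul, D.leibniz, smul_eq_mul, smul_eq_mul]
        have hu : (u : Om) ≠ 0 := u.ne_zero
        have hv : (v : Om) ≠ 0 := v.ne_zero
        field_simp
        ring }
  have hL : ∀ u : Omˣ, D (u : Om) = (L u).toAdd * (u : Om) := by
    intro u
    show D (u : Om) = ((u : Om)⁻¹ * D (u : Om)) * (u : Om)
    have hu : (u : Om) ≠ 0 := u.ne_zero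
    field_simp
  rw [hL]
  congr 1
  rw [map_prod, toAdd_prod]
  apply Finset.sum_congr rfl
  intro b _
  rw [map_zpow, toAdd_zpow, zsmul_eq_mul]
  congr 1
  show ((t b : Omˣ) : Om)⁻¹ * D ((t b : Omˣ) : Om) = w b
  rw [ht b]
  have hu : ((t b : Omˣ) : Om) ≠ 0 := (t b).ne_zero
  field_simp

theorem D_aeval {F Om : Type} [Field F] [Field Om] [Algebra F Om] (D : Derivation ℤ Om Om)
    (hD : ∀ a : F, D (algebraMap F Om a) = 0) {N : ℕ} (p : Fin N → Om)
    (P : MvPolynomial (Fin N) F) :
    D (aeval p P) = ∑ j, aeval p (pderiv j P) * D (p j) := by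
  induction P using MvPolynomial.induction_on with
  | C a => simp [hD]
  | add P Q hP hQ => simp only [map_add, hP, hQ, add_mul, Finset.sum_add_distrib]
  | mul_X P i hP =>
    rw [map_mul, aeval_X, D.leibniz, hP, smul_eq_mul, smul_eq_mul]
    have e : ∀ j, aeval p (pderiv j (P * X i)) * D (p j) =
        (if j = i then aeval p P * D (p i) else 0) +
          p i * (aeval p (pderiv j P) * D (p j)) := by
      intro j
      rw [pderiv_mul, map_add, map_mul, map_mul, aeval_X]
      by_cases hj : j = i
      · subst hj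
        rw [pderiv_X_self, map_one, if_pos rfl]
        ring
      · rw [pderiv_X_of_ne (fun h => hj h.symm), map_zero, if_neg hj]
        ring
    rw [Finset.sum_congr rfl fun j _ => e j, Finset.sum_add_distrib, Finset.sum_ite_eq',
      if_pos (Finset.mem_univ i), Finset.mul_sum]

/-! ### Partial derivatives of an irreducible polynomial -/

theorem pd_deg {K s : Type} [Field K] (i : s) (f : MvPolynomial s K) (h : pderiv i f ≠ 0) :
    (pderiv i f).totalDegree < f.totalDegree := by
  obtain ⟨m, hm, hd⟩ : ∃ m ∈ (pderiv i f).support,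
      (pderiv i f).totalDegree = m.sum fun _ e => e := by
    have h1 : (pderiv i f).support.Nonempty := support_nonempty.mpr h
    exact Finset.exists_mem_eq_sup _ h1 (fun m => m.sum fun _ e => e)
  have h2 : m + Finsupp.single i 1 ∈ f.support := by
    rw [mem_support_iff] at hm ⊢
    rw [coeff_pderiv] at hm
    exact left_ne_zero_of_mul hm
  have h3 := le_totalDegree h2
  rw [Finsupp.sum_add_index' (fun _ => rfl) (fun _ _ _ => rfl), Finsupp.sum_single_index rfl] at h3
  omega

theorem not_dvd_pd {K s : Type} [Field K] (i : s) (f : MvPolynomial s K) (h : pderiv i f ≠ 0) :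
    ¬ f ∣ pderiv i f := by
  rintro ⟨g, hg⟩
  have h1 := pd_deg i f h
  have hf : f ≠ 0 := by
    rintro rfl
    rw [map_zero] at h
    exact h rfl
  have hg0 : g ≠ 0 := by
    rintro rfl
    rw [mul_zero] at hg
    exact h hg
  rw [hg, totalDegree_mul_of_isDomain hf hg0] at h1
  omega

theorem ex_pd {K s : Type} [Field K] [CharZero K] (f : MvPolynomial s K) (hf : Irreducible f) :
    ∃ i, pderiv i f ≠ 0 := by
  classical
  by_contra hcon
  push Not at hcon
  have h1 : ∀ m : s →₀ ℕ, m ≠ 0 → coeff m f = 0 := by
    intro m hm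
    obtain ⟨i, hi⟩ := Finsupp.ne_iff.1 hm
    have hi' : 1 ≤ m i := Nat.one_le_iff_ne_zero.2 hi
    have h2 := congrArg (coeff (m - Finsupp.single i 1)) (hcon i)
    rw [coeff_pderiv, coeff_zero] at h2
    have h3 : m - Finsupp.single i 1 + Finsupp.single i 1 = m := by
      apply tsub_add_cancel_of_le
      rw [Finsupp.single_le_iff]
      exact hi'
    rw [h3] at h2
    rcases mul_eq_zero.1 h2 with h4 | h4
    · exact h4
    · exfalso
      have h5 : (((m - Finsupp.single i 1 : s →₀ ℕ) i + 1 : ℕ) : K) = 0 := by
        push_cast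
        exact h4
      rw [Nat.cast_eq_zero] at h5
      omega
  have h2 : f = C (coeff 0 f) := by
    ext m
    rw [coeff_C]
    split_ifs with h3
    · rw [h3]
    · exact h1 m (fun h => h3 h.symm)
  by_cases h3 : coeff 0 f = 0
  · rw [h3, map_zero] at h2
    exact hf.ne_zero h2
  · apply hf.not_isUnit
    rw [h2]
    exact (isUnit_iff_ne_zero.2 h3).map C

/-! ### Linear algebra -/

/-- an affine function which vanishes on an affine hyperplane -/
theorem aff {Om : Type} [Field Om] {r : ℕ} (g al : Fin r → Om) (h0 s : Om) (b0 : Fin r)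
    (hg : g b0 ≠ 0)
    (hv : ∀ be : Fin r → Om, ∑ b, be b * g b = -h0 → s + ∑ b, al b * be b = 0) :
    (∀ b, al b = al b0 / g b0 * g b) ∧ s = al b0 / g b0 * h0 := by
  classical
  have e1 : ∀ (c : Om) (b : Fin r) (v : Fin r → Om),
      ∑ b', (if b' = b then c else 0) * v b' = c * v b := by
    intro c b v
    simp [ite_mul]
  have e2 : ∀ (c : Om) (b : Fin r) (v : Fin r → Om),
      ∑ b', v b' * (if b' = b then c else 0) = v b * c := by
    intro c b v
    simp [mul_ite]
  have hs := hv (fun b => if b = b0 then -h0 / g b0 else 0) (by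
    rw [e1]
    field_simp)
  rw [e2] at hs
  have hs' : s = al b0 / g b0 * h0 := by
    have : s + al b0 * (-h0 / g b0) = 0 := hs
    field_simp at this ⊢
    linear_combination this
  refine ⟨?_, hs'⟩
  intro b
  have hb := hv (fun b' => (if b' = b0 then -h0 / g b0 - g b / g b0 else 0) +
    (if b' = b then 1 else 0)) (by
    simp only [add_mul, Finset.sum_add_distrib]
    rw [e1, e1]
    field_simp
    ring)
  simp only [mul_add, Finset.sum_add_distrib] at hb
  rw [e2, e2] at hb
  rw [hs'] at hb
  field_simp at hb ⊢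
  linear_combination hb

end PLcrx

open PLcrx in
theorem Lcr_proof (h1 : S_Ex0) (h2 : S_Adj) : S_Lcr := by
  intro F K Om _ _ _ _ _ _ _ _ _ _ dl hdl n Q dg _ r m kap l lam hkap hl h t hirr hnd hker p hp
    hJ hcrit
  -- the matrix
  let M : Matrix (Fin (n + 1)) (Fin (n + 1)) Om :=
    Matrix.of fun a j => aeval p (pderiv j (Q a))
  have hM : M.det = 0 := by
    have e : M = (Jm Q).map (aeval p : MvPolynomial (Fin (n + 1)) F →ₐ[F] Om) := by
      ext a j
      rfl
    rw [e]
    have e2 : ((Jm Q).map (aeval p : MvPolynomial (Fin (n + 1)) F →ₐ[F] Om)).det =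
        (aeval p : MvPolynomial (Fin (n + 1)) F →ₐ[F] Om) (Jm Q).det :=
      (AlgHom.map_det _ _).symm
    rw [e2]
    exact hJ
  let y : Fin (n + 1) → Om := fun a => aeval p (Q a)
  let tt : Fin r → Om := fun b => (t b : Om)
  have hh : aeval tt h = 0 := (hker h).2 (dvd_refl h)
  have hker' : ∀ f : MvPolynomial (Fin r) K, aeval tt f = 0 → h ∣ f := fun f => (hker f).1
  let h0 : Om := aeval tt (dc dl h + ∑ b, C (lam b) * MvPolynomial.X b * pderiv b h)
  have hh0 : h0 ≠ 0 := fun h => hnd (hker' _ h)
  let g : Fin r → Om := fun b => tt b * aeval tt (pderiv b h)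
  obtain ⟨b0, hb0⟩ := ex_pd h hirr
  have hg : g b0 ≠ 0 := by
    apply mul_ne_zero (t b0).ne_zero
    intro hz
    exact not_dvd_pd b0 h hb0 (hker' _ hz)
  -- the affine relation
  have hA : ∀ be : Fin r → Om, ∑ b, be b * g b = -h0 → ∀ c : Fin (n + 1) → Om,
      (∀ j, ∑ a, c a * M a j = 0) →
      (∑ a, c a * y a * algebraMap K Om (l a)) +
        ∑ b, (∑ a, c a * y a * (m a b : Om)) * be b = 0 := by
    intro be hbe c hc
    obtain ⟨D, hD⟩ := ex_D h1 dl tt (fun b => (algebraMap K Om (lam b) + be b) * tt b) h hker' hh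
      (by
        have e : h0 = aeval tt (dc dl h) +
            ∑ b, algebraMap K Om (lam b) * tt b * aeval tt (pderiv b h) := by
          show aeval tt (dc dl h + ∑ b, C (lam b) * MvPolynomial.X b * pderiv b h) = _
          simp [map_add, map_sum, map_mul]
        have e2 : ∑ b, (algebraMap K Om (lam b) + be b) * tt b * aeval tt (pderiv b h) =
            ∑ b, algebraMap K Om (lam b) * tt b * aeval tt (pderiv b h) +
              ∑ b, be b * g b := by
          rw [← Finset.sum_add_distrib]
          apply Finset.sum_congr rfl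
          intro b _
          show _ = _ + be b * (tt b * aeval tt (pderiv b h))
          ring
        rw [e2, hbe, e]
        ring)
    have hDK : ∀ k : K, D (algebraMap K Om k) = algebraMap K Om (dl k) := by
      intro k
      have := hD (C k)
      simpa [dc_C] using this
    have hDF : ∀ a : F, D (algebraMap F Om a) = 0 := by
      intro a
      rw [IsScalarTower.algebraMap_apply F K Om, hDK, hdl, map_zero]
    have hDt : ∀ b, D (t b : Om) = (algebraMap K Om (lam b) + be b) * t b := by
      intro b
      have h3 := hD (MvPolynomial.X b)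
      rw [dc_X, map_zero, zero_add, aeval_X] at h3
      have h4 : ∑ b', (algebraMap K Om (lam b') + be b') * tt b' *
          aeval tt (pderiv b' (MvPolynomial.X b : MvPolynomial (Fin r) K)) =
          (algebraMap K Om (lam b) + be b) * tt b := by
        rw [Finset.sum_eq_single b]
        · rw [pderiv_X_self, map_one, mul_one]
        · intro b' _ hb'
          rw [pderiv_X_of_ne (fun h => hb' h.symm), map_zero, mul_zero]
        · intro hb
          exact absurd (Finset.mem_univ b) hb
      exact h3.trans h4
    have hDy : ∀ a, D (y a) = y a * (algebraMap K Om (l a) + ∑ b, (m a b : Om) * be b) := by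
      intro a
      have e1 : y a = algebraMap K Om (kap a) * ((∏ b, t b ^ (m a b) : Omˣ) : Om) := hp a
      rw [e1, D.leibniz, hDK, D_units D t _ hDt (m a), smul_eq_mul, smul_eq_mul]
      have e2 : algebraMap K Om (l a) * algebraMap K Om (kap a) =
          algebraMap K Om (dl (kap a)) +
            algebraMap K Om (kap a) * ∑ b, (m a b : Om) * algebraMap K Om (lam b) := by
        have := congrArg (algebraMap K Om) (hl a)
        simpa [map_add, map_mul, map_sum] using this
      have e3 : ∑ b, (m a b : Om) * (algebraMap K Om (lam b) + be b) =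
          ∑ b, (m a b : Om) * algebraMap K Om (lam b) + ∑ b, (m a b : Om) * be b := by
        rw [← Finset.sum_add_distrib]
        apply Finset.sum_congr rfl
        intro b _
        ring
      rw [e3]
      linear_combination (-((∏ b, t b ^ (m a b) : Omˣ) : Om)) * e2
    have hDQ : ∀ a, D (y a) = ∑ j, M a j * D (p j) := fun a => D_aeval D hDF p (Q a)
    have hz : ∑ a, c a * D (y a) = 0 := by
      have e1 : ∑ a, c a * D (y a) = ∑ j, (∑ a, c a * M a j) * D (p j) := by
        simp only [hDQ, Finset.mul_sum, Finset.sum_mul]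
        rw [Finset.sum_comm]
        apply Finset.sum_congr rfl
        intro j _
        apply Finset.sum_congr rfl
        intro a _
        ring
      rw [e1]
      apply Finset.sum_eq_zero
      intro j _
      rw [hc j, zero_mul]
    rw [← hz]
    have e2 : ∑ b, (∑ a, c a * y a * (m a b : Om)) * be b =
        ∑ a, c a * y a * ∑ b, (m a b : Om) * be b := by
      simp only [Finset.mul_sum, Finset.sum_mul]
      rw [Finset.sum_comm]
      apply Finset.sum_congr rfl
      intro a _
      apply Finset.sum_congr rfl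
      intro b _
      ring
    rw [e2, ← Finset.sum_add_distrib]
    apply Finset.sum_congr rfl
    intro a _
    rw [hDy a]
    ring
  -- the values on the left kernel
  let al : (Fin (n + 1) → Om) → Fin r → Om := fun c b => ∑ a, c a * y a * (m a b : Om)
  let s : (Fin (n + 1) → Om) → Om := fun c => ∑ a, c a * y a * algebraMap K Om (l a)
  have hB : ∀ c : Fin (n + 1) → Om, (∀ j, ∑ a, c a * M a j = 0) →
      (∀ b, al c b = al c b0 / g b0 * g b) ∧ s c = al c b0 / g b0 * h0 := by
    intro c hc
    exact aff g (al c) h0 (s c) b0 hg (fun be hbe => hA be hbe c hc)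
  have hC : ∀ c : Fin (n + 1) → Om, (∀ j, ∑ a, c a * M a j = 0) → al c b0 = 0 → c = 0 := by
    intro c hc hal
    by_contra hc0
    apply hcrit
    refine ⟨c, hc0, hc, ?_⟩
    intro b
    have h3 := (hB c hc).1 b
    rw [hal, zero_div, zero_mul] at h3
    exact h3
  obtain ⟨c, hc0, hc⟩ := Matrix.exists_vecMul_eq_zero_iff.2 hM
  have hcM : ∀ j, ∑ a, c a * M a j = 0 := fun j => congrFun hc j
  have hal : al c b0 ≠ 0 := fun h => hc0 (hC c hcM h)
  obtain ⟨j, t0, ht0, hadj⟩ := h2 Om n M c hc0 hcM (by
    intro c' hc'
    refine ⟨al c' b0 / al c b0, ?_⟩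
    have h3 : (fun a => c' a - al c' b0 / al c b0 * c a) = 0 := by
      apply hC
      · intro j
        have e : ∑ a, (c' a - al c' b0 / al c b0 * c a) * M a j =
            ∑ a, c' a * M a j - al c' b0 / al c b0 * ∑ a, c a * M a j := by
          rw [Finset.mul_sum, ← Finset.sum_sub_distrib]
          apply Finset.sum_congr rfl
          intro a _
          ring
        rw [e, hc' j, hcM j, mul_zero, sub_zero]
      · have e : al (fun a => c' a - al c' b0 / al c b0 * c a) b0 =
            al c' b0 - al c' b0 / al c b0 * al c b0 := by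
          show ∑ a, (c' a - al c' b0 / al c b0 * c a) * y a * (m a b0 : Om) =
            ∑ a, c' a * y a * (m a b0 : Om) - al c' b0 / al c b0 *
              ∑ a, c a * y a * (m a b0 : Om)
          rw [Finset.mul_sum, ← Finset.sum_sub_distrib]
          apply Finset.sum_congr rfl
          intro a _
          ring
        rw [e, div_mul_cancel₀ _ hal, sub_self]
    intro a
    exact sub_eq_zero.1 (congrFun h3 a))
  refine ⟨j, ?_⟩
  have hadj' : ∀ a, aeval p ((Jm (fun a => bc K (Q a))).adjugate j a) = M.adjugate j a := by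
    intro a
    have e : M = (Jm (fun a => bc K (Q a))).map
        (aeval p : MvPolynomial (Fin (n + 1)) K →ₐ[K] Om) := by
      ext a j
      show aeval p (pderiv j (Q a)) = aeval p (pderiv j (MvPolynomial.map (algebraMap F K) (Q a)))
      rw [pderiv_map, aeval_map_algebraMap]
    rw [e]
    have e2 : (((Jm (fun a => bc K (Q a))).map
        (aeval p : MvPolynomial (Fin (n + 1)) K →ₐ[K] Om))).adjugate =
        ((Jm (fun a => bc K (Q a))).adjugate).map
          (aeval p : MvPolynomial (Fin (n + 1)) K →ₐ[K] Om) :=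
      (AlgHom.map_adjugate _ _).symm
    rw [e2]
    rfl
  have hval : aeval p (VV (fun a => bc K (Q a)) l j) = t0 * s c := by
    show aeval p (∑ a, (Jm (fun a => bc K (Q a))).adjugate j a * (C (l a) * bc K (Q a))) =
      t0 * ∑ a, c a * y a * algebraMap K Om (l a)
    rw [map_sum, Finset.mul_sum]
    apply Finset.sum_congr rfl
    intro a _
    rw [map_mul, map_mul, hadj' a, hadj a, aeval_C]
    have e : aeval p (bc K (Q a)) = y a := aeval_map_algebraMap K p (Q a)
    rw [e]
    ring
  rw [hval, (hB c hcM).2]
  exact mul_ne_zero ht0 (mul_ne_zero (div_ne_zero hal hg) hh0)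

end

end Pool.Agent.Work.MP_6d7a54_an.NG
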