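import Pool.Agent.Work.MP_6d7a54_an.NG.StmtsG
import Pool.Agent.Work.MP_6d7a54_an.NF.StmtsC

/-!
# Discs in the complement of `n + 1` hypersurfaces are bounded (MP_6d7a54_an)
-/

namespace Pool.Agent.Work.MP_6d7a54_an.NG

open MvPolynomial Metric

noncomputable section

namespace PMainNx

/-- evaluation of a form at a multiple of a point -/
theorem eval_lam {m n : ℕ} {B : MvPolynomial (Fin m) ℂ} (hB : B.IsHomogeneous n) (lam : ℂ)
    (w : Fin m → ℂ) : eval (fun j => lam * w j) B = lam ^ n * eval w B := by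
  rw [eval_eq, eval_eq, Finset.mul_sum]
  apply Finset.sum_congr rfl
  intro k hm
  have hd : k.degree = n := by
    have h1 : Finsupp.weight (fun _ : Fin m => 1) k = n := hB (mem_support_iff.1 hm)
    rw [← h1, ← Finsupp.degree_eq_weight_one]
  have e : ∏ i ∈ k.support, (lam * w i) ^ k i = lam ^ n * ∏ i ∈ k.support, w i ^ k i := by
    simp only [mul_pow]
    rw [Finset.prod_mul_distrib, Finset.prod_pow_eq_pow_sum, ← hd]
    rfl
  rw [e]
  ring

/-- a common zero of the forms is a zero of their Jacobian -/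
theorem jac_zero {m : ℕ} (P : Fin m → MvPolynomial (Fin m) ℂ) (d : Fin m → ℕ)
    (hP : ∀ a, (P a).IsHomogeneous (d a)) (w : Fin m → ℂ) (hw : w ≠ 0)
    (h : ∀ a, eval w (P a) = 0) : eval w (Jac P) = 0 := by
  have e1 : eval w (Jac P) = (Matrix.of fun a j => eval w (pderiv j (P a))).det := by
    unfold Jac Jm
    rw [RingHom.map_det]
    rfl
  rw [e1, ← Matrix.exists_mulVec_eq_zero_iff]
  refine ⟨w, hw, ?_⟩
  funext a
  have e2 := congrArg (eval w) (hP a).sum_X_mul_pderiv
  simp only [map_sum, map_mul, eval_X, map_nsmul, h a, smul_zero] at e2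
  simp only [Matrix.mulVec, dotProduct, Matrix.of_apply, Pi.zero_apply]
  rw [← e2]
  exact Finset.sum_congr rfl fun j _ => mul_comm _ _

theorem aev {F : Type} [Field F] [Algebra F ℂ] {m : ℕ} (w : Fin m → ℂ)
    (Q : MvPolynomial (Fin m) F) :
    aeval w Q = eval w (map (algebraMap F ℂ) Q) := by
  rw [eval_map, aeval_def]

theorem map_jac {F : Type} [Field F] [Algebra F ℂ] {m : ℕ} (Q : Fin m → MvPolynomial (Fin m) F) :
    map (algebraMap F ℂ) (Jac Q) = Jac (fun a => map (algebraMap F ℂ) (Q a)) := by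
  unfold Jac Jm
  rw [RingHom.map_det]
  congr 1
  ext1 a j
  simp only [RingHom.mapMatrix_apply, Matrix.map_apply, Matrix.of_apply]
  rw [pderiv_map]

/-- descent of the coefficients -/
theorem descend (hA : NF.S_ACF) {m : ℕ} (P : Fin m → MvPolynomial (Fin m) ℂ) :
    ∃ (F : Type) (_ : Field F) (_ : Algebra F ℂ), Countable F ∧ IsAlgClosed F ∧
      ∃ Q : Fin m → MvPolynomial (Fin m) F, ∀ a, map (algebraMap F ℂ) (Q a) = P a := by
  classical
  obtain ⟨F, iF, iA, hc, hac, hs⟩ := hA
    (Finset.univ.biUnion fun a => (P a).support.image fun k => coeff k (P a))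
  refine ⟨F, iF, iA, hc, hac, ?_⟩
  have hs' : ∀ a, ∀ k ∈ (P a).support, ∃ x : F, algebraMap F ℂ x = coeff k (P a) := by
    intro a k hm
    apply hs
    rw [Finset.mem_biUnion]
    exact ⟨a, Finset.mem_univ _, Finset.mem_image_of_mem _ hm⟩
  choose! pk hpk using hs'
  refine ⟨fun a => ∑ k ∈ (P a).support, monomial k (pk a k), ?_⟩
  intro a
  rw [map_sum]
  conv_rhs => rw [← support_sum_monomial_coeff (P a)]
  apply Finset.sum_congr rfl
  intro k hm
  rw [map_monomial, hpk a k hm]

end PMainNx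

open PMainNx in
theorem MainN_proof (hNev : S_NevE) (hT : S_T5) (hA : NF.S_ACF) (hN : S_NC0) (hR : S_Tr)
    (hG : S_Geo) : S_MainN := by
  intro n P d hhom hpos hdeg hnc
  have n1 := hN n P d hhom hpos hnc
  obtain ⟨F, iF, iA, hcount, hac, Q, hQ⟩ := descend hA P
  have : CharZero F := (algebraMap F ℂ).charZero
  have hinj : Function.Injective (map (algebraMap F ℂ) : MvPolynomial (Fin (n + 1)) F → _) :=
    map_injective _ (algebraMap F ℂ).injective
  have hQhom : ∀ a, (Q a).IsHomogeneous (d a) := by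
    intro a m hm
    apply hhom a
    rw [← hQ a, coeff_map]
    exact fun h => hm ((map_eq_zero _).1 h)
  have eQ : ∀ (w : Fin (n + 1) → ℂ) a, aeval w (Q a) = eval w (P a) := by
    intro w a
    rw [aev, hQ]
  have eJ : ∀ w : Fin (n + 1) → ℂ, aeval w (Jac Q) = eval w (Jac P) := by
    intro w
    rw [aev, map_jac]
    simp only [hQ]
  have hNC : NC Q d := by
    apply hR F n Q d hQhom hpos hdeg
    intro w hw a h1
    rw [eJ]
    exact n1 w hw a (fun b hb => by rw [← eQ]; exact h1 b hb)
  obtain ⟨B, nB, hB0, hBhom, hmain⟩ := hT F n Q d hNC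
  refine ⟨map (algebraMap F ℂ) B, nB, ?_, hBhom.map _, ?_⟩
  · intro h
    apply hB0
    apply hinj
    rw [h, map_zero]
  · intro w hw hPw hBw v hv
    by_contra hcon
    push Not at hcon
    have hzero : ∀ w : Fin (n + 1) → ℂ, (∀ a, eval w (P a) = 0) → w = 0 := by
      intro w h
      by_contra hw
      exact n1 w hw 0 (fun b _ => h b) (jac_zero P d hhom w hw h)
    obtain ⟨C, u0, lam, g, u, hlam, hbad, hrel, hexp, hg0⟩ := hG n P d hhom hpos hzero w v hw
      hPw hv (by
        intro A
        obtain ⟨R, f, c, h1, h2, h3, h4, h5⟩ := hcon A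
        exact ⟨R, f, c, h5.le, h1, h2, h3, h4⟩)
    obtain ⟨L, iL, iAL, D, S, Sm, phi, A, E, x, hnev, hphi, hzr, hnz, hlast⟩ :=
      hNev F (Fin (n + 1) ⊕ Fin n ⊕ Fin n) n C u0 g u hbad
    have hren : ∀ (X : MvPolynomial (Fin (n + 1)) F),
        aeval phi (rename Sum.inl X) = aeval (fun j => phi (Sum.inl j)) X := by
      intro X
      rw [aeval_rename]
      rfl
    have hrenC : ∀ (X : MvPolynomial (Fin (n + 1)) F) (k : ℕ) (z : ℂ),
        aeval (fun l => g k l z)
          (rename (Sum.inl : Fin (n + 1) → Fin (n + 1) ⊕ Fin n ⊕ Fin n) X) =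
          eval (fun j => g k (Sum.inl j) z) (map (algebraMap F ℂ) X) := by
      intro X k z
      rw [aeval_rename, aev]
      rfl
    have r0 : ∀ i : Fin n, aeval (fun j => phi (Sum.inl j)) (Q (Fin.castSucc i)) =
        phi (Sum.inr (Sum.inl i)) := by
      intro i
      have h := hzr (rename Sum.inl (Q (Fin.castSucc i)) - X (Sum.inr (Sum.inl i))) (by
        intro k z hz
        rw [map_sub, hrenC, aeval_X, hQ, (hrel k z hz).1 i, sub_self])
      rw [map_sub, hren, aeval_X] at h
      exact sub_eq_zero.1 h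
    have r2 : aeval (fun j => phi (Sum.inl j)) (Q (Fin.last n)) = 1 := by
      have h := hzr (rename Sum.inl (Q (Fin.last n)) - 1) (by
        intro k z hz
        rw [map_sub, hrenC, map_one, hQ, (hrel k z hz).2, sub_self])
      rw [map_sub, hren, map_one] at h
      exact sub_eq_zero.1 h
    have ru : ∀ i : Fin n, phi (Sum.inr (Sum.inl i)) * phi (Sum.inr (Sum.inr i)) = 1 := by
      intro i
      have h := hzr (X (Sum.inr (Sum.inl i)) * X (Sum.inr (Sum.inr i)) - 1) (by
        intro k z hz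
        rw [map_sub, map_mul, map_one, aeval_X, aeval_X, (hexp k i z hz).1, (hexp k i z hz).2,
          ← Complex.exp_add, add_neg_cancel, Complex.exp_zero, sub_self])
      rw [map_sub, map_mul, map_one, aeval_X, aeval_X] at h
      exact sub_eq_zero.1 h
    have rB : aeval (fun j => phi (Sum.inl j)) B ≠ 0 := by
      rw [← hren]
      apply hnz
      refine ⟨lam ^ nB * eval w (map (algebraMap F ℂ) B), mul_ne_zero (pow_ne_zero _ hlam) hBw, ?_⟩
      intro k
      rw [hrenC, ← eval_lam (hBhom.map _)]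
      congr 1
      congr 1
      funext j
      exact hg0 k j
    have hinv : ∀ i : Fin n, phi (Sum.inr (Sum.inl i)) ≠ 0 ∧
        (phi (Sum.inr (Sum.inl i)))⁻¹ = phi (Sum.inr (Sum.inr i)) := by
      intro i
      exact ⟨left_ne_zero_of_mul_eq_one (ru i), inv_eq_of_mul_eq_one_right (ru i)⟩
    have hfin := hmain L (ℕ × ℂ) D S Sm A E x hnev (fun j => phi (Sum.inl j)) (fun j => hphi _) (by
      intro a
      rcases Fin.eq_castSucc_or_eq_last a with ⟨i, rfl⟩ | rfl
      · rw [r0, (hinv i).2]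
        exact ⟨(hinv i).1, hphi _⟩
      · rw [r2, inv_one]
        exact ⟨one_ne_zero, S.one_mem⟩) r2 rB
    refine hlast (fun i => Sum.inr (Sum.inl i)) (fun i => Sum.inr (Sum.inr i))
      (fun k i z hz => (hexp k i z hz).1) (fun k i z hz => (hexp k i z hz).2) ⟨?_, ?_⟩
    · intro i
      have f0 := (hfin (Fin.castSucc i)).1
      rwa [r0] at f0
    · intro i
      have f0 := (hfin (Fin.castSucc i)).2
      rwa [r0, (hinv i).2] at f0

end

end Pool.Agent.Work.MP_6d7a54_an.NG
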