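import Pool.Agent.Work.MP_6d7a54_an.NG.StmtsG
import Pool.Agent.Work.MP_6d7a54_an.NG.Stmts

/-!
# Many components: from bounded discs to the Kobayashi-Royden metric (MP_6d7a54_an)
-/

set_option autoImplicit false

namespace Pool.Agent.Work.MP_6d7a54_an.NG

open MvPolynomial Metric

noncomputable section

namespace PManyx

variable {n : ℕ}

/-- the set of admissible values is not empty -/
theorem nonempty_set {Ω : Set (Fin (n + 1) → ℂ)} (hΩ : IsOpen Ω) {w : Fin (n + 1) → ℂ}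
    (hw : w ∈ Ω) (v : Fin (n + 1) → ℂ) :
    {t : ℝ | ∃ (R : ℝ) (f : ℂ → Fin (n + 1) → ℂ) (c : ℂ), 0 < R ∧
    DifferentiableOn ℂ f (ball 0 1) ∧ (∀ z ∈ ball (0 : ℂ) 1, f z ∈ Ω) ∧ f 0 = w ∧
    deriv f 0 = (R : ℂ) • v + c • w ∧ t = 1 / R}.Nonempty := by
  obtain ⟨e, he, hball⟩ := Metric.isOpen_iff.1 hΩ w hw
  set R : ℝ := e / (2 * (‖v‖ + 1)) with hR
  have hv : 0 < ‖v‖ + 1 := by positivity
  have hRpos : 0 < R := by positivity
  have hder : ∀ z : ℂ, HasDerivAt (fun z : ℂ => w + (z * R) • v) ((R : ℂ) • v) z := by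
    intro z
    have h1 : HasDerivAt (fun z : ℂ => z * (R : ℂ)) (R : ℂ) z := by
      simpa using (hasDerivAt_id z).mul_const (R : ℂ)
    exact (h1.smul_const v).const_add w
  refine ⟨1 / R, R, fun z => w + (z * R) • v, 0, hRpos, ?_, ?_, ?_, ?_, rfl⟩
  · intro z _
    exact (hder z).differentiableAt.differentiableWithinAt
  · intro z hz
    apply hball
    have hz1 : ‖z‖ < 1 := by simpa using hz
    rw [mem_ball, dist_eq_norm, add_sub_cancel_left, norm_smul, norm_mul]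
    have h1 : ‖(R : ℂ)‖ = R := by
      rw [Complex.norm_real]
      exact abs_of_pos hRpos
    rw [h1]
    calc ‖z‖ * R * ‖v‖ ≤ 1 * R * (‖v‖ + 1) := by
          gcongr
          linarith
      _ = e / 2 := by
          rw [hR]
          field_simp
      _ < e := by linarith
  · simp
  · rw [(hder 0).deriv]
    simp

theorem pos_of_bound {Ω : Set (Fin (n + 1) → ℂ)} (hΩ : IsOpen Ω) {w v : Fin (n + 1) → ℂ}
    (hw : w ∈ Ω) {M : ℝ} (hb : ∀ (R : ℝ) (f : ℂ → Fin (n + 1) → ℂ) (c : ℂ),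
      DifferentiableOn ℂ f (ball 0 1) →
      (∀ z ∈ ball (0 : ℂ) 1, f z ∈ Ω) → f 0 = w → deriv f 0 = (R : ℂ) • v + c • w → R ≤ M) :
    0 < kobayashiRoyden Ω w v := by
  have hM : 0 < max M 1 := lt_of_lt_of_le one_pos (le_max_right _ _)
  unfold kobayashiRoyden
  refine lt_of_lt_of_le (one_div_pos.2 hM) (le_csInf (nonempty_set hΩ hw v) ?_)
  rintro t ⟨R, f, c, hR, hf, hfΩ, hf0, hder, rfl⟩
  exact one_div_le_one_div_of_le hR ((hb R f c hf hfΩ hf0 hder).trans (le_max_left _ _))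

theorem cone_open (X : MvPolynomial (Fin (n + 1)) ℂ) : IsOpen (complementCone X) := by
  have : complementCone X =
      {w : Fin (n + 1) → ℂ | w ≠ 0} ∩ {w : Fin (n + 1) → ℂ | eval w X ≠ 0} := rfl
  rw [this]
  exact (isOpen_ne_fun continuous_id continuous_const).inter
    (isOpen_ne_fun (MvPolynomial.continuous_eval X) continuous_const)

theorem deg_pos {A : MvPolynomial (Fin (n + 1)) ℂ} {a : ℕ} (hA : ¬ IsUnit A) (hA0 : A ≠ 0)
    (h : A.IsHomogeneous a) : 1 ≤ a := by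
  by_contra ha
  have ha0 : a = 0 := by omega
  subst ha0
  have h1 := h.totalDegree hA0
  rw [totalDegree_eq_zero_iff_eq_C] at h1
  apply hA
  rw [h1]
  refine IsUnit.map C (isUnit_iff_ne_zero.2 fun h2 => hA0 ?_)
  rw [h1, h2, C_0]

end PManyx

open PManyx in
theorem Many_proof (h0 : S_WH) (h : S_MainN) : S_Many := by
  classical
  rintro n d X hX hd hNC ⟨P, hP, hXe⟩
  by_cases hX0 : X = 0
  · refine ⟨1, 0, one_ne_zero, isHomogeneous_one _ _, fun w hw => ?_⟩
    exfalso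
    apply hw.2
    rw [hX0, map_zero]
  have hP0 : ∀ a, P a ≠ 0 := by
    intro a ha
    apply hX0
    rw [hXe]
    exact Finset.prod_eq_zero (Finset.mem_univ a) ha
  have hhom : ∀ a, ∃ k, (P a).IsHomogeneous k := by
    intro a
    have h1 : P a * ∏ b ∈ Finset.univ.erase a, P b = X := by
      rw [hXe]
      exact Finset.mul_prod_erase _ _ (Finset.mem_univ a)
    obtain ⟨k, -, hk, -⟩ := h0 ℂ (Fin (n + 1)) 1 (P a) (∏ b ∈ Finset.univ.erase a, P b) d
      (by rw [h1]; exact hX0) (by rw [h1]; exact hX)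
    exact ⟨k, hk⟩
  choose k hk using hhom
  have hk1 : ∀ a, 1 ≤ k a := fun a => deg_pos (hP a) (hP0 a) (hk a)
  have hsum : ∑ a, k a = d := by
    have h1 : X.IsHomogeneous (∑ a, k a) := by
      rw [hXe]
      exact IsHomogeneous.prod _ _ _ fun a _ => hk a
    exact h1.inj_right hX hX0
  obtain ⟨Q, N, hQ0, hQh, hmain⟩ := h n P k hk hk1 (by rw [hsum]; exact hd)
    (by rw [← hXe]; exact hNC)
  have hiff : ∀ w : Fin (n + 1) → ℂ, eval w X ≠ 0 → ∀ i, eval w (P i) ≠ 0 := by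
    intro w hw i hi
    apply hw
    rw [hXe, map_prod]
    exact Finset.prod_eq_zero (Finset.mem_univ i) hi
  refine ⟨Q, N, hQ0, hQh, fun w hw hQw v hv => ?_⟩
  obtain ⟨M, hM⟩ := hmain w hw.1 (hiff w hw.2) hQw v hv
  refine pos_of_bound (cone_open X) hw (M := M) fun R f c hf hfΩ hf0 hder => ?_
  exact hM R f c hf (fun z hz => hiff _ (hfΩ z hz).2) hf0 hder

end

end Pool.Agent.Work.MP_6d7a54_an.NG
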