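import Mathlib
import Pool.Agent.Work.MP_6d7a54_an.NG.Stmts

/-!
# Vanishing minors
-/

set_option autoImplicit false

namespace Pool.Agent.Work.MP_6d7a54_an.NG

namespace PMnrx

theorem exists_cols (K : Type) [Field K] (N : ℕ) (κ : Type) [Fintype κ]
    (M : Matrix (Fin N) κ K)
    (h : ¬ ∃ c : Fin N → K, c ≠ 0 ∧ ∀ j, ∑ a, c a * M a j = 0) :
    ∃ s : Fin N → κ, (M.submatrix id s).det ≠ 0 := by
  classical
  set S : Set (Fin N → K) := Set.range (fun j => fun a => M a j) with hS
  have htop : Submodule.span K S = ⊤ := by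
    by_contra hne
    obtain ⟨f, hf, hle⟩ := Submodule.exists_le_ker_of_lt_top (Submodule.span K S)
      (lt_top_iff_ne_top.mpr hne)
    apply h
    refine ⟨fun a => f (Pi.single a 1), ?_, ?_⟩
    · intro h0
      apply hf
      refine LinearMap.pi_ext' fun a => ?_
      ext
      simpa using congrFun h0 a
    · intro j
      have h1 : f (fun a => M a j) = 0 := hle (Submodule.subset_span ⟨j, rfl⟩)
      have h2 : (fun a => M a j) = ∑ a, M a j • (Pi.single a (1 : K) : Fin N → K) := by
        funext b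
        simp [Finset.sum_apply, Pi.single_apply]
      rw [h2, map_sum] at h1
      rw [← h1]
      refine Finset.sum_congr rfl fun a _ => ?_
      rw [map_smul, smul_eq_mul, mul_comm]
  have hN : Module.finrank K (Submodule.span K S) = N := by
    rw [htop, finrank_top, Module.finrank_fin_fun]
  obtain ⟨f, hf1, -, hf2⟩ := Submodule.exists_fun_fin_finrank_span_eq K S
  have hf3 : LinearIndependent K (f ∘ Fin.cast hN.symm) :=
    hf2.comp _ (Fin.cast_injective _)
  have hf4 : ∀ i : Fin N, ∃ j : κ, (fun a => M a j) = (f ∘ Fin.cast hN.symm) i := fun i => hf1 _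
  choose s hs using hf4
  refine ⟨s, fun hdet => ?_⟩
  obtain ⟨v, hv0, hv⟩ := Matrix.exists_mulVec_eq_zero_iff.mpr hdet
  apply hv0
  have h3 := Fintype.linearIndependent_iff.mp hf3 v ?_
  · funext i
    exact h3 i
  · funext a
    rw [Finset.sum_apply]
    have h4 : ∑ i, M a (s i) * v i = 0 := congrFun hv a
    rw [Pi.zero_apply, ← h4]
    refine Finset.sum_congr rfl fun i _ => ?_
    rw [← hs i, Pi.smul_apply, smul_eq_mul, mul_comm]

end PMnrx

open PMnrx in
theorem Mnr_proof : S_Mnr := by
  intro K _ N κ _ M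
  constructor
  · rintro ⟨c, hc, h⟩ s
    rw [← Matrix.exists_vecMul_eq_zero_iff]
    refine ⟨c, hc, ?_⟩
    funext j
    exact h (s j)
  · intro h
    by_contra hcon
    obtain ⟨s, hs⟩ := exists_cols K N κ M hcon
    exact hs (h s)

end Pool.Agent.Work.MP_6d7a54_an.NG
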