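import Pool.Agent.Work.MP_6d7a54_an.NG.Stmts

/-!
# Block NG, item NJ: elimination polynomial of the Jacobian
-/

set_option autoImplicit false

namespace Pool.Agent.Work.MP_6d7a54_an.NG

open MvPolynomial

namespace PNJx

/-! ### The case without parameters -/

theorem nm0 (h2 : S_Nm) (F : Type) [Field F] [CharZero F] (n : ℕ)
    (Q : Fin (n + 1) → MvPolynomial (Fin (n + 1)) F) (dg : Fin (n + 1) → ℕ) (hQ : NC Q dg)
    (X : MvPolynomial (Fin (n + 1)) F) (hX : X ≠ 0) :
    ∃ N : MvPolynomial (Fin (n + 1)) F, N ≠ 0 ∧ X ∣ aeval Q N ∧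
      (∀ G : MvPolynomial (Fin (n + 1)) F, X ∣ aeval Q G → ∃ k : ℕ, N ∣ G ^ k) ∧
      ∀ (Om : Type) [Field Om] [IsAlgClosed Om] [Algebra F Om] (y : Fin (n + 1) → Om),
        aeval y N = 0 → ∃ p : Fin (n + 1) → Om, (∀ a, aeval p (Q a) = y a) ∧ aeval p X = 0 := by
  have hinj : Function.Injective (rename Sum.inl : MvPolynomial (Fin (n + 1)) F →
      MvPolynomial (Fin (n + 1) ⊕ Empty) F) := rename_injective _ Sum.inl_injective
  obtain ⟨M, hM0, hM1, hM2, hM3⟩ := h2 F n Q dg hQ Empty (rename Sum.inl X)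
    (fun h => hX (hinj (h.trans (map_zero _).symm)))
  have hth : ∀ P : MvPolynomial (Fin (n + 1)) F,
      rename (Equiv.sumEmpty (Fin (n + 1)) Empty) (rename Sum.inl P) = P := by
    intro P
    rw [rename_rename]
    have : (⇑(Equiv.sumEmpty (Fin (n + 1)) Empty) ∘ Sum.inl) = id := rfl
    rw [this, rename_id_apply]
  have hht : ∀ P : MvPolynomial (Fin (n + 1) ⊕ Empty) F,
      rename Sum.inl (rename (Equiv.sumEmpty (Fin (n + 1)) Empty) P) = P := by
    intro P
    rw [rename_rename]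
    have : (Sum.inl ∘ ⇑(Equiv.sumEmpty (Fin (n + 1)) Empty) :
        Fin (n + 1) ⊕ Empty → Fin (n + 1) ⊕ Empty) = id := by
      ext1 x
      rcases x with x | x
      · rfl
      · exact x.elim
    rw [this, rename_id_apply]
  have hae : ∀ P : MvPolynomial (Fin (n + 1)) F,
      aeval (Sum.elim (fun a => rename Sum.inl (Q a))
        (fun i => MvPolynomial.X (Sum.inr i)) :
        Fin (n + 1) ⊕ Empty → MvPolynomial (Fin (n + 1) ⊕ Empty) F) (rename Sum.inl P) =
      rename Sum.inl (aeval Q P) := by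
    intro P
    rw [aeval_rename]
    have h3 : (Sum.elim (fun a => rename Sum.inl (Q a)) (fun i => MvPolynomial.X (Sum.inr i)) ∘
        Sum.inl : Fin (n + 1) → MvPolynomial (Fin (n + 1) ⊕ Empty) F) =
        fun a => rename Sum.inl (Q a) := rfl
    rw [h3]
    exact (comp_aeval_apply Q (rename Sum.inl : MvPolynomial (Fin (n + 1)) F →ₐ[F]
      MvPolynomial (Fin (n + 1) ⊕ Empty) F) P).symm
  have hdvd : ∀ P P' : MvPolynomial (Fin (n + 1)) F,
      (rename Sum.inl P : MvPolynomial (Fin (n + 1) ⊕ Empty) F) ∣ rename Sum.inl P' →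
      P ∣ P' := by
    intro P P' h
    have h4 := map_dvd (rename (Equiv.sumEmpty (Fin (n + 1)) Empty) :
      MvPolynomial (Fin (n + 1) ⊕ Empty) F →ₐ[F] MvPolynomial (Fin (n + 1)) F) h
    rwa [hth, hth] at h4
  obtain ⟨N, rfl⟩ : ∃ N : MvPolynomial (Fin (n + 1)) F, rename Sum.inl N = M := ⟨_, hht M⟩
  refine ⟨N, ?_, ?_, ?_, ?_⟩
  · rintro rfl
    exact hM0 (map_zero _)
  · rw [hae] at hM1
    exact hdvd _ _ hM1
  · intro G hG
    obtain ⟨k, hk⟩ := hM2 (rename Sum.inl G) (by
      rw [hae]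
      exact map_dvd _ hG)
    refine ⟨k, hdvd _ _ ?_⟩
    rwa [map_pow]
  · intro Om _ _ _ y hy
    obtain ⟨p, hp, hp'⟩ := hM3 Om y (fun i => i.elim) (by
      rw [aeval_rename]
      exact hy)
    refine ⟨p, hp, ?_⟩
    rw [aeval_rename] at hp'
    exact hp'

/-! ### Homogeneity -/

theorem aeval_monomial_hom {K : Type} [Field K] {n : ℕ}
    (Q : Fin (n + 1) → MvPolynomial (Fin (n + 1)) K) (dg : Fin (n + 1) → ℕ)
    (hom : ∀ a, (Q a).IsHomogeneous (dg a)) (m : Fin (n + 1) →₀ ℕ) (c : K) :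
    (aeval Q (monomial m c)).IsHomogeneous (Finsupp.weight dg m) := by
  rw [aeval_monomial, Finsupp.weight_apply]
  have h1 : (m.prod fun i k => Q i ^ k).IsHomogeneous (m.sum fun i k => k • dg i) := by
    unfold Finsupp.prod Finsupp.sum
    refine IsHomogeneous.prod _ _ _ fun i _ => ?_
    have h2 := (hom i).pow (m i)
    rwa [mul_comm, ← smul_eq_mul] at h2
  have h3 := (isHomogeneous_C (Fin (n + 1)) c).mul h1
  rw [zero_add] at h3
  exact h3

theorem aeval_hom {K : Type} [Field K] {n : ℕ}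
    (Q : Fin (n + 1) → MvPolynomial (Fin (n + 1)) K) (dg : Fin (n + 1) → ℕ)
    (hom : ∀ a, (Q a).IsHomogeneous (dg a)) (N : MvPolynomial (Fin (n + 1)) K) (W : ℕ)
    (hN : N.IsWeightedHomogeneous dg W) : (aeval Q N).IsHomogeneous W := by
  rw [N.as_sum, map_sum]
  refine IsHomogeneous.sum _ _ _ fun m hm => ?_
  rw [← hN (mem_support_iff.1 hm)]
  exact aeval_monomial_hom Q dg hom m _

theorem comp_aeval' {K : Type} [Field K] {n : ℕ}
    (Q : Fin (n + 1) → MvPolynomial (Fin (n + 1)) K) (dg : Fin (n + 1) → ℕ)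
    (hom : ∀ a, (Q a).IsHomogeneous (dg a)) (N : MvPolynomial (Fin (n + 1)) K) (k : ℕ) :
    homogeneousComponent k (aeval Q N) = aeval Q (weightedHomogeneousComponent dg k N) := by
  induction N using MvPolynomial.induction_on' with
  | monomial m c =>
    have h1 := aeval_monomial_hom Q dg hom m c
    have h2 : (monomial m c : MvPolynomial (Fin (n + 1)) K).IsWeightedHomogeneous dg
        (Finsupp.weight dg m) := isWeightedHomogeneous_monomial dg m c rfl
    rw [homogeneousComponent_of_mem h1, weightedHomogeneousComponent_of_mem h2]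
    split_ifs
    · rfl
    · rw [map_zero]
  | add p q hp hq => rw [map_add, map_add, map_add, map_add, hp, hq]

attribute [local instance] MvPolynomial.gradedAlgebra in
theorem dvd_comp {K : Type} [Field K] {N : ℕ} (J P : MvPolynomial (Fin N) K) (e : ℕ)
    (hJ : J.IsHomogeneous e) (h : J ∣ P) (k : ℕ) : J ∣ homogeneousComponent k P := by
  rw [← Ideal.mem_span_singleton] at h ⊢
  refine homogeneousComponent_mem_of_mem ?_ h k
  refine Ideal.homogeneous_span _ _ fun x hx => ?_
  rw [Set.mem_singleton_iff] at hx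
  subst hx
  exact ⟨e, hJ⟩

/-- value at a unit vector -/
theorem exists_pure {F Om : Type} [Field F] [Field Om] [Algebra F Om] {n : ℕ}
    (N : MvPolynomial (Fin (n + 1)) F) (a : Fin (n + 1))
    (h : aeval (Pi.single a (1 : Om)) N ≠ 0) :
    ∃ k : ℕ, coeff (Finsupp.single a k) N ≠ 0 := by
  rw [aeval_def, eval₂_eq'] at h
  obtain ⟨m, hm, hne⟩ := Finset.exists_ne_zero_of_sum_ne_zero h
  refine ⟨m a, ?_⟩
  have hz : ∀ b, b ≠ a → m b = 0 := by
    intro b hb
    by_contra hmb
    apply hne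
    rw [Finset.prod_eq_zero (Finset.mem_univ b), mul_zero]
    rw [Pi.single_eq_of_ne hb]
    exact zero_pow hmb
  have hmm : m = Finsupp.single a (m a) := by
    ext b
    by_cases hb : b = a
    · subst hb
      rw [Finsupp.single_eq_same]
    · rw [Finsupp.single_eq_of_ne hb, hz b hb]
  rw [← hmm]
  exact mem_support_iff.1 hm

end PNJx

open PNJx in
theorem NJ_proof (h1 : S_Int) (h2 : S_Nm) (h3 : S_WH) (h4 : S_JH) : S_NJ := by
  intro F _ _ n Q dg hQ
  obtain ⟨-, hJ0, hAI, -⟩ := h1 F n Q dg hQ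
  obtain ⟨N, hN0, hN1, hN2, hN3⟩ := nm0 h2 F n Q dg hQ (Jac Q) hJ0
  have hJe := h4 F n Q dg hQ.hom hQ.pos
  set e := ∑ a, dg a - (n + 1) with he
  -- `N` is weighted homogeneous
  obtain ⟨W, hW⟩ : ∃ W, N.IsWeightedHomogeneous dg W := by
    obtain ⟨m, hm⟩ := ne_zero_iff.1 hN0
    have hk0 : weightedHomogeneousComponent dg (Finsupp.weight dg m) N ≠ 0 := by
      rw [ne_zero_iff]
      refine ⟨m, ?_⟩
      rw [coeff_weightedHomogeneousComponent, if_pos rfl]
      exact hm
    have hd : Jac Q ∣ aeval Q (weightedHomogeneousComponent dg (Finsupp.weight dg m) N) := by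
      rw [← comp_aeval' Q dg hQ.hom]
      exact dvd_comp _ _ e hJe hN1 _
    obtain ⟨l, c, hc⟩ := hN2 _ hd
    have hwh := (weightedHomogeneousComponent_isWeightedHomogeneous (w := dg)
      (Finsupp.weight dg m) N).pow l
    rw [hc] at hwh
    obtain ⟨k, -, hk, -⟩ := h3 F (Fin (n + 1)) dg N c _ (by
      rw [← hc]
      exact pow_ne_zero _ hk0) hwh
    exact ⟨k, hk⟩
  -- the quotient
  obtain ⟨Js, hJs⟩ := hN1
  have hA0 : aeval Q N ≠ 0 := fun h => hN0 (hAI (h.trans (map_zero _).symm))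
  have hAh := aeval_hom Q dg hQ.hom N W hW
  obtain ⟨k, hkW, hk1, hk2⟩ := h3 F (Fin (n + 1)) 1 (Jac Q) Js W (by
    rw [← hJs]
    exact hA0) (by
    rw [← hJs]
    exact hAh)
  have hke : k = e := IsHomogeneous.inj_right hk1 hJe hJ0
  -- pure powers
  have hpure : ∀ a, ∃ k, coeff (Finsupp.single a k) N ≠ 0 := by
    intro a
    refine exists_pure (Om := AlgebraicClosure F) N a fun h0 => ?_
    obtain ⟨p, hp, hp'⟩ := hN3 (AlgebraicClosure F) _ h0
    refine hQ.n1 (AlgebraicClosure F) p ?_ a ?_ hp'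
    · rintro rfl
      have h5 := hp a
      rw [Pi.single_eq_same] at h5
      have h6 : aeval (0 : Fin (n + 1) → AlgebraicClosure F) (Q a) = 0 := by
        have h7 : constantCoeff (Q a) = 0 := by
          rw [constantCoeff_eq]
          refine (hQ.hom a).coeff_eq_zero ?_
          have h8 := hQ.pos a
          rw [map_zero]
          omega
        rw [show (0 : Fin (n + 1) → AlgebraicClosure F) = fun _ => 0 from rfl, aeval_zero',
          h7, map_zero]
      rw [h6] at h5
      exact zero_ne_one h5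
    · intro b hb
      rw [hp b, Pi.single_eq_of_ne hb]
  choose Mx hMx using hpure
  refine ⟨N, Js, W, W - k, Mx, hN0, hW, ?_, hMx, hJs, hk2, ?_⟩
  · intro a
    have h8 := hW (hMx a)
    rw [Finsupp.weight_single, smul_eq_mul] at h8
    exact h8
  · have h9 := hQ.deg
    omega

end Pool.Agent.Work.MP_6d7a54_an.NG
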