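import Pool.Agent.Work.MP_6d7a54_an.NG.StmtsA

/-!
# Block NG, item NevE: the analytic theorem with a valuation (MP_6d7a54_an)
-/

set_option autoImplicit false

namespace Pool.Agent.Work.MP_6d7a54_an.NG

open MvPolynomial Filter Metric Set Topology Real
open Pool.Agent.Work.MP_6d7a54_an.NF (NR InK IsNev Conf Cen Rad DP ev dd Tiny TT UF sm lo BadSeq)

noncomputable section

namespace PNevEx

/-- embedding of polynomials -/
def em {F I : Type} [Field F] (P : MvPolynomial I F) : DP F I :=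
  MvPolynomial.rename (fun l => (l, 0)) P

lemma ev_em {F I : Type} [Field F] [Algebra F ℂ] (g : I → ℂ → ℂ) (z : ℂ)
    (P : MvPolynomial I F) :
    ev g z (em P) = MvPolynomial.aeval (fun l => g l z) P := by
  unfold ev em
  rw [MvPolynomial.aeval_rename]
  congr 1

lemma phi_em {F I L : Type} [Field F] [Field L] [Algebra F L] (phi : DP F I →ₐ[F] L)
    (P : MvPolynomial I F) :
    phi (em P) = MvPolynomial.aeval (fun l => phi (MvPolynomial.X (l, 0))) P := by
  have h := MvPolynomial.aeval_unique (phi.comp (MvPolynomial.rename (fun l : I => (l, 0))))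
  have h2 := congrArg (fun f : MvPolynomial I F →ₐ[F] L => f P) h
  have h3 : (phi.comp (MvPolynomial.rename (fun l : I => (l, 0)))) P = phi (em P) := rfl
  rw [← h3]
  refine h2.trans ?_
  congr 2
  funext l
  simp

lemma ev_mul {F I : Type} [Field F] [Algebra F ℂ] (g : I → ℂ → ℂ) (z : ℂ) (P Q : DP F I) :
    ev g z (P * Q) = ev g z P * ev g z Q := by
  unfold ev
  rw [map_mul]

lemma ev_add {F I : Type} [Field F] [Algebra F ℂ] (g : I → ℂ → ℂ) (z : ℂ) (P Q : DP F I) :
    ev g z (P + Q) = ev g z P + ev g z Q := by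
  unfold ev
  rw [map_add]

/-- a package for the mean -/
structure Mean (c : ℕ → ℂ) (r T : ℕ → ℝ) (A : Submodule ℝ (ℕ × ℂ → ℝ))
    (E : (ℕ × ℂ → ℝ) →ₗ[ℝ] ℝ) : Prop where
  hr : ∀ n, 0 < r n
  hT : ∀ K : ℝ, ∀ᶠ n in UF, K ≤ T n
  hA : ∀ v, v ∈ A ↔ InA c r T v
  sup : ∀ v ∈ A, ∀ w ∈ A, v ⊔ w ∈ A
  pos : ∀ v ∈ A, 0 ≤ v → 0 ≤ E v
  lim : ∀ v ∈ A, Tendsto (fun n => Real.circleAverage (fun z => v (n, z)) (c n) (r n) / T n) UF
    (𝓝 (E v))

variable {c : ℕ → ℂ} {r T : ℕ → ℝ} {A : Submodule ℝ (ℕ × ℂ → ℝ)} {E : (ℕ × ℂ → ℝ) →ₗ[ℝ] ℝ}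

lemma Mean.abs (h : Mean c r T A E) {v : ℕ × ℂ → ℝ} (hv : v ∈ A) : |v| ∈ A :=
  h.sup v hv (-v) (A.neg_mem hv)

lemma Mean.le_zero (h : Mean c r T A E) {v : ℕ × ℂ → ℝ} (hv : v ∈ A) (K : ℝ)
    (hK : ∀ᶠ n in UF, ∀ z ∈ sphere (c n) (r n), v (n, z) ≤ K) : E v ≤ 0 := by
  refine le_of_forall_pos_le_add (fun ε hε => ?_)
  rw [zero_add]
  refine le_of_tendsto (h.lim v hv) ?_
  filter_upwards [hK, h.hT (K / ε), h.hT 1] with n h1 h2 h3
  have hT0 : 0 < T n := lt_of_lt_of_le one_pos h3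
  rw [div_le_iff₀ hT0]
  have h4 : Real.circleAverage (fun z => v (n, z)) (c n) (r n) ≤ K := by
    refine circleAverage_mono_on_of_le_circle (((h.hA v).1 hv).1 n) (fun z hz => h1 z ?_)
    rwa [abs_of_pos (h.hr n)] at hz
  have h5 : K ≤ ε * T n := by
    rw [div_le_iff₀ hε] at h2
    linarith
  exact h4.trans h5

lemma Mean.abs_zero (h : Mean c r T A E) {v : ℕ × ℂ → ℝ} (hv : v ∈ A) (K : ℝ)
    (hK : ∀ᶠ n in UF, ∀ z ∈ sphere (c n) (r n), |v (n, z)| ≤ K) : E |v| = 0 :=
  le_antisymm (h.le_zero (h.abs hv) K hK) (h.pos _ (h.abs hv) (abs_nonneg v))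

lemma Mean.zero_of_le (h : Mean c r T A E) {v : ℕ × ℂ → ℝ} (hv : v ∈ A) (hv0 : 0 ≤ v) (K : ℝ)
    (hK : ∀ᶠ n in UF, ∀ z ∈ sphere (c n) (r n), v (n, z) ≤ K) : E v = 0 :=
  le_antisymm (h.le_zero hv K hK) (h.pos _ hv hv0)

lemma Mean.zero_iff (h : Mean c r T A E) {v : ℕ × ℂ → ℝ} (hv : v ∈ A) (hv0 : 0 ≤ v) :
    E v = 0 ↔ ∀ del : ℝ, 0 < del → ∀ᶠ n in UF,
      Real.circleAverage (fun z => v (n, z)) (c n) (r n) ≤ del * T n := by
  constructor
  · intro h0 del hdel
    have h1 := h.lim v hv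
    rw [h0] at h1
    filter_upwards [h1.eventually (gt_mem_nhds hdel), h.hT 1] with n h2 h3
    have hT0 : 0 < T n := lt_of_lt_of_le one_pos h3
    rw [div_lt_iff₀ hT0] at h2
    exact h2.le
  · intro h1
    refine le_antisymm ?_ (h.pos v hv hv0)
    refine le_of_forall_pos_le_add (fun ε hε => ?_)
    rw [zero_add]
    refine le_of_tendsto (h.lim v hv) ?_
    filter_upwards [h1 ε hε, h.hT 1] with n h2 h3
    have hT0 : 0 < T n := lt_of_lt_of_le one_pos h3
    rw [div_le_iff₀ hT0]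
    exact h2

lemma Mean.nonneg_of (h : Mean c r T A E) {v : ℕ × ℂ → ℝ} (hv : v ∈ A)
    (h1 : ∀ del : ℝ, 0 < del → ∀ᶠ n in UF,
      -(del * T n) ≤ Real.circleAverage (fun z => v (n, z)) (c n) (r n)) : 0 ≤ E v := by
  refine le_of_forall_pos_le_add (fun ε hε => ?_)
  have h5 : -ε ≤ E v := by
    refine ge_of_tendsto (h.lim v hv) ?_
    filter_upwards [h1 ε hε, h.hT 1] with n h2 h3
    have hT0 : 0 < T n := lt_of_lt_of_le one_pos h3
    rw [le_div_iff₀ hT0]
    linarith
  linarith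

end PNevEx

open PNevEx in
theorem NevE_proof (hConf : NF.S_Conf) (hid : NF.S_ideal) (hpr : NF.S_prime) (hCen : NF.S_Cen)
    (hRad : NF.S_Rad) (h1 : NF.S_s1) (h3 : NF.S_s3) (h7 : NF.S_s7) (h8 : NF.S_s8)
    (hlo : NF.S_lo) (hlo2 : NF.S_lo2) (hAC : S_AC2) (hEF : S_EF) (hEP : S_EP) (hEL : S_EL)
    (hET : S_ET) : S_NevE := by
  intro F _ _ _ I _ d C u0 g u hbad
  obtain ⟨k, a, b, hC⟩ := hConf F I d C u0 g u hbad
  obtain ⟨c, hc⟩ := hCen F I d C u0 _ _ a b hC
  obtain ⟨r, hr⟩ := hRad F I d C u0 _ _ a b c hC hc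
  set g' : ℕ → I → ℂ → ℂ := fun n => g (k n) with hg'
  set u' : ℕ → Fin d → ℂ → ℂ := fun n => u (k n) with hu'
  obtain ⟨i1, i2, i3, i4, i5⟩ := hid F I d C u0 g' u' a b hC
  have hprime := hpr F I d C u0 g' u' a b hC
  let T : Ideal (DP F I) :=
    { carrier := {P | Tiny g' u' a P}
      add_mem' := fun {x y} hx hy => i1 x y hx hy
      zero_mem' := i4 0 (fun n z _ => by unfold ev; simp)
      smul_mem' := fun x y hy => by
        have := i2 y x hy
        rw [mul_comm] at this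
        exact this }
  have hT : ∀ P : DP F I, P ∈ T ↔ Tiny g' u' a P := fun P => Iff.rfl
  have hT1 : (1 : DP F I) ∉ T := by
    rw [hT]
    exact i5 1 ⟨1, one_ne_zero, fun n => by unfold ev; simp⟩
  have hTp : T.IsPrime := by
    refine ⟨fun h => hT1 (h ▸ Submodule.mem_top), ?_⟩
    intro x y hxy
    by_contra hcon
    push Not at hcon
    exact hprime x y hcon.1 hcon.2 hxy
  have hchar : CharZero F := (algebraMap F ℂ).charZero
  obtain ⟨c1, c2, c3, c4⟩ := h3 F I d C u0 g' u' a b c r hC hc hr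
  obtain ⟨l1, l2, l3, l4, l5⟩ := hlo F I d C u0 g' u' a b c r hC hc hr
  obtain ⟨L, iF, iA, D, S, Sm, phi, hNev, hS, hker, hsm, hfrac, hlow⟩ := hAC F (DP F I) dd T hTp
    (fun x hx => i3 x hx) (sm g' u' c r) (lo g' u' c r)
    (fun p q p' q' hq hq' h hs => h1 F I d C u0 g' u' a b c r hC hc hr p q p' q' hq hq' h hs)
    (fun x => by rw [MvPolynomial.algebraMap_eq]; exact c1 x)
    (fun p q p' q' hq hq' hs hs' => c2 p q p' q' hq hq' hs hs')
    (fun p q hp hq => c3 p q hp hq)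
    (fun p q e hq he hs => c4 p q e hq he hs)
    (fun p q hq h => h7 F I d C u0 g' u' a b c r hC hc hr p q hq h)
    (fun p q p' q' hp hq hp' hq' h hl => l1 p q p' q' hp hq hp' hq' h hl)
    (fun p hp => l2 p hp)
    (fun p q p' q' hp hq hp' hq' h h' => l3 p q p' q' hp hq hp' hq' h h')
    (fun p q hp hq h => l4 p q hp hq h)
    (fun p q hp hq h h' => l5 p q hp hq h h')
    (fun x y p q hx hy hp hq h => hlo2 F I d C u0 g' u' a b c r hC hc hr x y p q hx hy hp hq h)
  -- the mean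
  set TTn : ℕ → ℝ := fun n => TT (u' n) (c n) (r n) with hTTn
  have hTT : ∀ K : ℝ, ∀ᶠ n in UF, K ≤ TTn n := hEP F I d C u0 g' u' a b c r hC hc hr
  have hr0 : ∀ n, 0 < r n := by
    intro n
    have h2 := hr.h1 n
    have h4 := hC.hab n
    have h5 := hC.hb n
    have h6 : 0 < b n * ((n : ℝ) + 1) ^ 3 := by positivity
    linarith
  obtain ⟨A, E, hA, hsup, hpos, hlim⟩ := hEF c r TTn (by
    filter_upwards [hTT 1] with n hn
    linarith)
  have hM : Mean c r TTn A E := ⟨hr0, hTT, hA, hsup, hpos, hlim⟩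
  set lg : DP F I → ℕ × ℂ → ℝ := fun P p => Real.log ‖ev (g' p.1) p.2 P‖ with hlg
  have hlgA : ∀ P, P ∉ T → lg P ∈ A := fun P hP =>
    (hA _).2 (hEL F I d C u0 g' u' a b c r hC hc hr P hP)
  obtain ⟨e1, e2⟩ := hET F I d C u0 g' u' a b c r hC hc hr
  choose pf qf hqf hpq using hfrac
  have hpf : ∀ f : L, f ≠ 0 → pf f ∉ T := by
    intro f hf hcon
    apply hf
    rw [hpq f, (hker _).2 hcon, zero_div]
  classical
  set x : L → ℕ × ℂ → ℝ := fun f => if f = 0 then 0 else lg (pf f) - lg (qf f) with hx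
  have hxf : ∀ f : L, f ≠ 0 → x f = lg (pf f) - lg (qf f) := fun f hf => if_neg hf
  have hmem : ∀ f : L, f ≠ 0 → x f ∈ A := by
    intro f hf
    rw [hxf f hf]
    exact A.sub_mem (hlgA _ (hpf f hf)) (hlgA _ (hqf f))
  have hphi0 : ∀ p, p ∉ T → phi p ≠ 0 := fun p hp h => hp ((hker p).1 h)
  have hkey : ∀ (f : L) (p q : DP F I), f ≠ 0 → p ∉ T → q ∉ T → f = phi p / phi q →
      ∀ᶠ n in UF, ∀ z ∈ sphere (c n) (r n), |x f (n, z) - (lg p (n, z) - lg q (n, z))| ≤ 1 := by
    intro f p q hf hp hq hfe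
    have h5 : pf f * q - p * qf f ∈ T := by
      rw [← hker, map_sub, map_mul, map_mul, sub_eq_zero]
      have h6 := hpq f
      rw [hfe] at h6
      have h7 := (div_eq_div_iff (hphi0 q hq) (hphi0 _ (hqf (phi p / phi q)))).1 h6
      rw [hfe]
      linear_combination -h7
    have h6 := e2 (pf f) (qf f) p q (hpf f hf) (hqf f) hp hq h5
    filter_upwards [h6] with n hn z hz
    rw [hxf f hf]
    exact hn z hz
  have hnz : ∀ p, p ∉ T → ∀ᶠ n in UF, ∀ z ∈ sphere (c n) (r n), ‖ev (g' n) z p‖ ≠ 0 := by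
    intro p hp
    filter_upwards [e1 p hp] with n hn z hz
    exact norm_ne_zero_iff.2 (hn z hz)
  refine ⟨L, iF, iA, D, S, Sm, fun l => phi (MvPolynomial.X (l, 0)), A, E, x, ?_,
    fun l => hS _, ?_, ?_, ?_⟩
  · refine ⟨hNev, hsup, hpos, hmem, ?_, ?_, ?_, ?_⟩
    · -- products
      intro f g0 hf hg
      have hfg : f * g0 ≠ 0 := mul_ne_zero hf hg
      have hp : pf f * pf g0 ∉ T := fun h => (hTp.mem_or_mem h).elim (hpf f hf) (hpf g0 hg)
      have hq : qf f * qf g0 ∉ T := fun h => (hTp.mem_or_mem h).elim (hqf f) (hqf g0)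
      have hfe : f * g0 = phi (pf f * pf g0) / phi (qf f * qf g0) := by
        rw [map_mul, map_mul, mul_div_mul_comm, ← hpq f, ← hpq g0]
      refine hM.abs_zero (A.sub_mem (hmem _ hfg) (A.add_mem (hmem f hf) (hmem g0 hg))) 1 ?_
      filter_upwards [hkey _ _ _ hfg hp hq hfe, hnz _ (hpf f hf), hnz _ (hpf g0 hg),
        hnz _ (hqf f), hnz _ (hqf g0)] with n hn h5 h6 h7 h8 z hz
      have h9 := hn z hz
      have h10 : lg (pf f * pf g0) (n, z) = lg (pf f) (n, z) + lg (pf g0) (n, z) := by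
        show Real.log ‖ev (g' n) z (pf f * pf g0)‖ = _
        rw [ev_mul, norm_mul, Real.log_mul (h5 z hz) (h6 z hz)]
      have h11 : lg (qf f * qf g0) (n, z) = lg (qf f) (n, z) + lg (qf g0) (n, z) := by
        show Real.log ‖ev (g' n) z (qf f * qf g0)‖ = _
        rw [ev_mul, norm_mul, Real.log_mul (h7 z hz) (h8 z hz)]
      rw [h10, h11] at h9
      show |x (f * g0) (n, z) - (x f (n, z) + x g0 (n, z))| ≤ 1
      have h12 : x f (n, z) = lg (pf f) (n, z) - lg (qf f) (n, z) := by rw [hxf f hf]; rfl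
      have h13 : x g0 (n, z) = lg (pf g0) (n, z) - lg (qf g0) (n, z) := by rw [hxf g0 hg]; rfl
      rw [h12, h13]
      have h14 : x (f * g0) (n, z) - (lg (pf f) (n, z) - lg (qf f) (n, z) +
          (lg (pf g0) (n, z) - lg (qf g0) (n, z))) = x (f * g0) (n, z) -
          (lg (pf f) (n, z) + lg (pf g0) (n, z) - (lg (qf f) (n, z) + lg (qf g0) (n, z))) := by
        ring
      rw [h14]
      exact h9
    · -- sums
      intro f g0 hf hg hfg
      have hq : qf f * qf g0 ∉ T := fun h => (hTp.mem_or_mem h).elim (hqf f) (hqf g0)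
      have hfe : f + g0 = phi (pf f * qf g0 + pf g0 * qf f) / phi (qf f * qf g0) := by
        have h5 := hphi0 _ (hqf f)
        have h6 := hphi0 _ (hqf g0)
        conv_lhs => rw [hpq f, hpq g0]
        rw [map_add, map_mul, map_mul, map_mul]
        field_simp
      have hp : pf f * qf g0 + pf g0 * qf f ∉ T := by
        intro hcon
        apply hfg
        rw [hfe, (hker _).2 hcon, zero_div]
      have hmA : (x (f + g0) - x f ⊔ x g0) ⊔ 0 ∈ A :=
        hsup _ (A.sub_mem (hmem _ hfg) (hsup _ (hmem f hf) _ (hmem g0 hg))) 0 A.zero_mem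
      refine hM.zero_of_le hmA (le_sup_right) (1 + Real.log 2) ?_
      filter_upwards [hkey _ _ _ hfg hp hq hfe, hnz _ (hpf f hf), hnz _ (hpf g0 hg),
        hnz _ (hqf f), hnz _ (hqf g0), hnz _ hp] with n hn h5 h6 h7 h8 h8' z hz
      have h9 := hn z hz
      have h11 : lg (qf f * qf g0) (n, z) = lg (qf f) (n, z) + lg (qf g0) (n, z) := by
        show Real.log ‖ev (g' n) z (qf f * qf g0)‖ = _
        rw [ev_mul, norm_mul, Real.log_mul (h7 z hz) (h8 z hz)]
      have h12 : x f (n, z) = lg (pf f) (n, z) - lg (qf f) (n, z) := by rw [hxf f hf]; rfl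
      have h13 : x g0 (n, z) = lg (pf g0) (n, z) - lg (qf g0) (n, z) := by rw [hxf g0 hg]; rfl
      have h14 : lg (pf f * qf g0 + pf g0 * qf f) (n, z) ≤
          Real.log 2 + max (lg (pf f) (n, z) + lg (qf g0) (n, z))
            (lg (pf g0) (n, z) + lg (qf f) (n, z)) := by
        show Real.log ‖ev (g' n) z (pf f * qf g0 + pf g0 * qf f)‖ ≤ _
        have e3 : ‖ev (g' n) z (pf f * qf g0 + pf g0 * qf f)‖ ≤
            2 * max (‖ev (g' n) z (pf f)‖ * ‖ev (g' n) z (qf g0)‖)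
              (‖ev (g' n) z (pf g0)‖ * ‖ev (g' n) z (qf f)‖) := by
          rw [ev_add, ev_mul, ev_mul]
          refine (norm_add_le _ _).trans ?_
          rw [norm_mul, norm_mul, two_mul]
          exact add_le_add (le_max_left _ _) (le_max_right _ _)
        have e4 : 0 < ‖ev (g' n) z (pf f)‖ * ‖ev (g' n) z (qf g0)‖ :=
          mul_pos (lt_of_le_of_ne (norm_nonneg _) (Ne.symm (h5 z hz)))
            (lt_of_le_of_ne (norm_nonneg _) (Ne.symm (h8 z hz)))
        have e5 : 0 < ‖ev (g' n) z (pf g0)‖ * ‖ev (g' n) z (qf f)‖ :=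
          mul_pos (lt_of_le_of_ne (norm_nonneg _) (Ne.symm (h6 z hz)))
            (lt_of_le_of_ne (norm_nonneg _) (Ne.symm (h7 z hz)))
        have e6 := Real.log_le_log (lt_of_le_of_ne (norm_nonneg _) (Ne.symm (h8' z hz))) e3
        refine e6.trans ?_
        rw [Real.log_mul two_ne_zero (ne_of_gt (lt_max_of_lt_left e4))]
        refine add_le_add le_rfl ?_
        rcases le_total (‖ev (g' n) z (pf f)‖ * ‖ev (g' n) z (qf g0)‖)
          (‖ev (g' n) z (pf g0)‖ * ‖ev (g' n) z (qf f)‖) with h15 | h15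
        · rw [max_eq_right h15, Real.log_mul (h6 z hz) (h7 z hz)]
          exact le_max_right _ _
        · rw [max_eq_left h15, Real.log_mul (h5 z hz) (h8 z hz)]
          exact le_max_left _ _
      show max (x (f + g0) (n, z) - max (x f (n, z)) (x g0 (n, z))) 0 ≤ 1 + Real.log 2
      refine max_le ?_ (by positivity)
      rw [h12, h13]
      rw [h11] at h9
      have h15 := (abs_le.1 h9).2
      have h16 : max (lg (pf f) (n, z) + lg (qf g0) (n, z)) (lg (pf g0) (n, z) + lg (qf f) (n, z))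
          = max (lg (pf f) (n, z) - lg (qf f) (n, z)) (lg (pf g0) (n, z) - lg (qf g0) (n, z))
            + (lg (qf f) (n, z) + lg (qf g0) (n, z)) := by
        rw [← max_add_add_right]
        congr 1 <;> ring
      rw [h16] at h14
      linarith
    · -- small elements
      intro f hf
      have hwA : (x f - 0) ⊔ 0 ∈ A := hsup _ (A.sub_mem (hmem f hf) A.zero_mem) 0 A.zero_mem
      have h5 : f ∈ Sm ↔ sm g' u' c r (pf f) (qf f) := by
        rw [← hsm (pf f) (qf f) (hqf f), ← hpq f]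
      have hcong : ∀ᶠ n in UF,
          Real.circleAverage (fun z => ((x f - 0) ⊔ 0) (n, z)) (c n) (r n) =
          Real.circleAverage (fun z => Real.posLog (‖ev (g' n) z (pf f)‖ / ‖ev (g' n) z (qf f)‖))
            (c n) (r n) := by
        filter_upwards [hnz _ (hpf f hf), hnz _ (hqf f)] with n h6 h7
        refine circleAverage_congr_sphere (fun z hz => ?_)
        rw [abs_of_pos (hr0 n)] at hz
        show max (x f (n, z) - 0) 0 = _
        have h12 : x f (n, z) = lg (pf f) (n, z) - lg (qf f) (n, z) := by rw [hxf f hf]; rfl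
        rw [Real.posLog_apply, Real.log_div (h6 z hz) (h7 z hz), sub_zero, h12, max_comm]
      unfold Bl
      rw [h5, hM.zero_iff hwA le_sup_right]
      constructor
      · intro h6 del hdel
        filter_upwards [h6 del hdel, hcong] with n h7 h8
        rw [h8]
        exact h7
      · intro h6 del hdel
        filter_upwards [h6 del hdel, hcong] with n h7 h8
        rw [← h8]
        exact h7
    · -- holomorphic elements
      intro f hfS hf
      refine hM.nonneg_of (hmem f hf) (fun del hdel => ?_)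
      have h5 : lo g' u' c r (pf f) (qf f) := by
        refine hlow (pf f) (qf f) (hpf f hf) (hqf f) ?_
        rw [← hpq f]
        exact hfS
      have h6 := h5 del hdel
      rw [hxf f hf]
      exact h6
  · intro P hP
    rw [← phi_em, hker, hT]
    apply i4
    intro n z hz
    rw [ev_em]
    exact hP (k n) z hz
  · rintro P ⟨y, hy, hP⟩
    rw [← phi_em, Ne, hker, hT]
    apply i5
    refine ⟨y, hy, fun n => ?_⟩
    rw [ev_em]
    exact hP (k n)
  · intro e e' he he' hcon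
    refine h8 F I d C u0 g' u' a b c r hC hc hr e e' (fun n => he (k n)) (fun n => he' (k n)) ?_
    have key : ∀ y : DP F I, phi y ∈ Sm → sm g' u' c r y 1 := by
      intro y hy
      rw [← hsm y 1 hT1, map_one, div_one]
      exact hy
    exact ⟨fun i => key _ (hcon.1 i), fun i => key _ (hcon.2 i)⟩

end

end Pool.Agent.Work.MP_6d7a54_an.NG
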