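import Pool.Agent.Work.MP_6d7a54_an.NG.Stmts

/-!
# Elimination with parameters (MP_6d7a54_an)
-/

set_option autoImplicit false

namespace Pool.Agent.Work.MP_6d7a54_an.NG

open MvPolynomial
open Pool.Agent.Work.MP_6d7a54_an.NF (NR InK IsNev)

noncomputable section

namespace PNmx

/-- extension of a point along an integral map -/
theorem lift_point {B R Om : Type} [CommRing B] [CommRing R] [Field Om] [IsAlgClosed Om]
    (f : B →+* R) (hf : f.IsIntegral) (ψ : B →+* Om) (I : Ideal R)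
    (hI : I.comap f ≤ RingHom.ker ψ) :
    ∃ Ψ : R →+* Om, (∀ b, Ψ (f b) = ψ b) ∧ ∀ x ∈ I, Ψ x = 0 := by
  have hk : (RingHom.ker ψ).IsPrime := RingHom.ker_isPrime ψ
  obtain ⟨Pp, hPI, hPp, hPc⟩ : ∃ Pp ≥ I, Pp.IsPrime ∧ Pp.comap f = RingHom.ker ψ := by
    let := f.toAlgebra
    have : Algebra.IsIntegral B R := ⟨hf⟩
    exact Ideal.exists_ideal_over_prime_of_isIntegral (RingHom.ker ψ) I hI
  let a1 : Algebra (B ⧸ RingHom.ker ψ) (R ⧸ Pp) := (Ideal.quotientMap Pp f hPc.ge).toAlgebra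
  let a2 : Algebra (B ⧸ RingHom.ker ψ) Om := (RingHom.kerLift ψ).toAlgebra
  have i1 : Function.Injective (algebraMap (B ⧸ RingHom.ker ψ) (R ⧸ Pp)) :=
    Ideal.quotientMap_injective' hPc.le
  have i2 : Function.Injective (algebraMap (B ⧸ RingHom.ker ψ) Om) :=
    RingHom.kerLift_injective ψ
  have : Module.IsTorsionFree (B ⧸ RingHom.ker ψ) (R ⧸ Pp) :=
    Module.isTorsionFree_iff_algebraMap_injective.2 i1
  have : Module.IsTorsionFree (B ⧸ RingHom.ker ψ) Om :=
    Module.isTorsionFree_iff_algebraMap_injective.2 i2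
  have : Algebra.IsIntegral (B ⧸ RingHom.ker ψ) (R ⧸ Pp) := by
    constructor
    intro x
    obtain ⟨y, rfl⟩ := Ideal.Quotient.mk_surjective x
    obtain ⟨p, hp, hp'⟩ := hf y
    refine ⟨p.map (Ideal.Quotient.mk (RingHom.ker ψ)), hp.map _, ?_⟩
    rw [Polynomial.eval₂_map]
    have h1 : (algebraMap (B ⧸ RingHom.ker ψ) (R ⧸ Pp)).comp
        (Ideal.Quotient.mk (RingHom.ker ψ)) = (Ideal.Quotient.mk Pp).comp f :=
      Ideal.quotientMap_comp_mk hPc.ge
    rw [h1, ← Polynomial.hom_eval₂, hp', map_zero]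
  have : Algebra.IsAlgebraic (B ⧸ RingHom.ker ψ) (R ⧸ Pp) := inferInstance
  let L : (R ⧸ Pp) →ₐ[B ⧸ RingHom.ker ψ] Om := IsAlgClosed.lift
  refine ⟨L.toRingHom.comp (Ideal.Quotient.mk Pp), ?_, ?_⟩
  · intro b
    have h1 : Ideal.Quotient.mk Pp (f b) =
        algebraMap (B ⧸ RingHom.ker ψ) (R ⧸ Pp) (Ideal.Quotient.mk (RingHom.ker ψ) b) :=
      (Ideal.quotientMap_mk (H := hPc.ge)).symm
    show L (Ideal.Quotient.mk Pp (f b)) = ψ b
    rw [h1, L.commutes]
    exact RingHom.kerLift_mk ψ b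
  · intro x hx
    show L (Ideal.Quotient.mk Pp x) = 0
    rw [Ideal.Quotient.eq_zero_iff_mem.2 (hPI hx), map_zero]

variable {F : Type} [Field F] {n : ℕ} {P : Type}

/-- the substitution of `Q` -/
def sb (P : Type) (Q : Fin (n + 1) → MvPolynomial (Fin (n + 1)) F) :
    MvPolynomial (Fin (n + 1) ⊕ P) F →ₐ[F] MvPolynomial (Fin (n + 1) ⊕ P) F :=
  aeval (Sum.elim (fun a => rename Sum.inl (Q a)) (fun i => MvPolynomial.X (Sum.inr i)))

theorem sb_rename (Q : Fin (n + 1) → MvPolynomial (Fin (n + 1)) F)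
    (p : MvPolynomial (Fin (n + 1)) F) :
    sb P Q (rename Sum.inl p) = rename Sum.inl (aeval Q p) := by
  have h1 : (sb P Q).comp (rename Sum.inl) = (rename Sum.inl).comp (aeval Q) := by
    ext a
    simp [sb]
  exact DFunLike.congr_fun h1 p

theorem sb_integral (Q : Fin (n + 1) → MvPolynomial (Fin (n + 1)) F)
    (h : ∀ P : MvPolynomial (Fin (n + 1)) F, ∃ p : Polynomial (MvPolynomial (Fin (n + 1)) F),
      p.Monic ∧ Polynomial.eval₂ ((aeval Q : MvPolynomial (Fin (n + 1)) F →ₐ[F]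
        MvPolynomial (Fin (n + 1)) F) : MvPolynomial (Fin (n + 1)) F →+*
        MvPolynomial (Fin (n + 1)) F) P p = 0) :
    ((sb P Q : MvPolynomial (Fin (n + 1) ⊕ P) F →ₐ[F] MvPolynomial (Fin (n + 1) ⊕ P) F) :
      MvPolynomial (Fin (n + 1) ⊕ P) F →+* MvPolynomial (Fin (n + 1) ⊕ P) F).IsIntegral := by
  intro x
  induction x using MvPolynomial.induction_on with
  | C a =>
    have h1 := RingHom.isIntegralElem_map (f := ((sb P Q : MvPolynomial (Fin (n + 1) ⊕ P) F →ₐ[F]
      MvPolynomial (Fin (n + 1) ⊕ P) F) : MvPolynomial (Fin (n + 1) ⊕ P) F →+*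
      MvPolynomial (Fin (n + 1) ⊕ P) F)) (x := C a)
    simpa [sb] using h1
  | add p q hp hq => exact hp.add _ hq
  | mul_X p i hp =>
    refine hp.mul _ ?_
    rcases i with j | i
    · obtain ⟨p, hp, hp'⟩ := h (MvPolynomial.X j)
      refine ⟨p.map (rename Sum.inl : MvPolynomial (Fin (n + 1)) F →ₐ[F]
        MvPolynomial (Fin (n + 1) ⊕ P) F).toRingHom, hp.map _, ?_⟩
      rw [Polynomial.eval₂_map]
      have h1 : (((sb P Q : MvPolynomial (Fin (n + 1) ⊕ P) F →ₐ[F]
          MvPolynomial (Fin (n + 1) ⊕ P) F) : MvPolynomial (Fin (n + 1) ⊕ P) F →+*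
          MvPolynomial (Fin (n + 1) ⊕ P) F)).comp (rename Sum.inl : MvPolynomial (Fin (n + 1)) F
            →ₐ[F] MvPolynomial (Fin (n + 1) ⊕ P) F).toRingHom =
          (rename Sum.inl : MvPolynomial (Fin (n + 1)) F →ₐ[F]
            MvPolynomial (Fin (n + 1) ⊕ P) F).toRingHom.comp
            ((aeval Q : MvPolynomial (Fin (n + 1)) F →ₐ[F]
        MvPolynomial (Fin (n + 1)) F) : MvPolynomial (Fin (n + 1)) F →+*
        MvPolynomial (Fin (n + 1)) F) := RingHom.ext fun q => sb_rename Q q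
      have h2 : (MvPolynomial.X (Sum.inl j) : MvPolynomial (Fin (n + 1) ⊕ P) F) =
          (rename Sum.inl : MvPolynomial (Fin (n + 1)) F →ₐ[F]
            MvPolynomial (Fin (n + 1) ⊕ P) F).toRingHom (MvPolynomial.X j) :=
        (rename_X _ _).symm
      rw [h1, h2, ← Polynomial.hom_eval₂, hp', map_zero]
    · have h1 := RingHom.isIntegralElem_map (f := ((sb P Q : MvPolynomial (Fin (n + 1) ⊕ P) F
        →ₐ[F] MvPolynomial (Fin (n + 1) ⊕ P) F) : MvPolynomial (Fin (n + 1) ⊕ P) F →+*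
        MvPolynomial (Fin (n + 1) ⊕ P) F)) (x := MvPolynomial.X (Sum.inr i))
      simpa [sb] using h1

theorem sb_inj (Q : Fin (n + 1) → MvPolynomial (Fin (n + 1)) F)
    (h : AlgebraicIndependent F Q) : Function.Injective (sb P Q) := by
  let e : MvPolynomial (Fin (n + 1) ⊕ P) F ≃ₐ[F]
      MvPolynomial P (MvPolynomial (Fin (n + 1)) F) :=
    (renameEquiv F (Equiv.sumComm (Fin (n + 1)) P)).trans (sumAlgEquiv F P (Fin (n + 1)))
  have eC : ∀ a, e (C a) = C (C a) := fun a => by simp [e]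
  have el : ∀ j, e (MvPolynomial.X (Sum.inl j)) = C (MvPolynomial.X j) := fun j => by simp [e]
  have er : ∀ i, e (MvPolynomial.X (Sum.inr i)) = MvPolynomial.X i := fun i => by simp [e]
  have hren : ∀ q : MvPolynomial (Fin (n + 1)) F, e (rename Sum.inl q) = C q := by
    intro q
    induction q using MvPolynomial.induction_on with
    | C a => rw [rename_C, eC]
    | add p q hp hq => rw [map_add, map_add, hp, hq, map_add]
    | mul_X p i hp => rw [map_mul, map_mul, hp, rename_X, el, map_mul]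
  have hcomm : ∀ x, e (sb P Q x) = MvPolynomial.map ((aeval Q : MvPolynomial (Fin (n + 1)) F →ₐ[F]
      MvPolynomial (Fin (n + 1)) F) : MvPolynomial (Fin (n + 1)) F →+*
        MvPolynomial (Fin (n + 1)) F) (e x) := by
    intro x
    induction x using MvPolynomial.induction_on with
    | C a =>
      rw [show sb P Q (C a) = C a by simp [sb], eC, map_C]
      simp
    | add p q hp hq => rw [map_add, map_add, hp, hq, map_add, map_add]
    | mul_X p i hp =>
      rw [map_mul, map_mul, hp, map_mul, map_mul]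
      congr 1
      rcases i with j | i
      · rw [show sb P Q (MvPolynomial.X (Sum.inl j)) = rename Sum.inl (Q j) by simp [sb], hren,
          el, map_C]
        simp
      · rw [show sb P Q (MvPolynomial.X (Sum.inr i)) = MvPolynomial.X (Sum.inr i) by simp [sb],
          er, map_X]
  intro x y hxy
  apply e.injective
  apply MvPolynomial.map_injective _ (show Function.Injective ((aeval Q :
    MvPolynomial (Fin (n + 1)) F →ₐ[F] MvPolynomial (Fin (n + 1)) F) :
    MvPolynomial (Fin (n + 1)) F →+* MvPolynomial (Fin (n + 1)) F) from h)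
  rw [← hcomm, ← hcomm, hxy]

end PNmx

open PNmx in
theorem Nm_proof (h1 : S_Int) (h2 : S_Nrm) : S_Nm := by
  intro F _ _ n Q dg hQ P _ X hX
  obtain ⟨-, -, hind, hint⟩ := h1 F n Q dg hQ
  have hfi := sb_integral (P := P) Q hint
  have hinj := sb_inj (P := P) Q hind
  obtain ⟨M, hM0, hM1, hM2⟩ := h2 (MvPolynomial (Fin (n + 1) ⊕ P) F)
    (MvPolynomial (Fin (n + 1) ⊕ P) F) _ hfi hinj X hX
  refine ⟨M, hM0, hM1, hM2, ?_⟩
  intro Om _ _ _ y s hys
  have hker : (Ideal.span {X}).comap ((sb P Q : MvPolynomial (Fin (n + 1) ⊕ P) F →ₐ[F]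
      MvPolynomial (Fin (n + 1) ⊕ P) F) : MvPolynomial (Fin (n + 1) ⊕ P) F →+*
      MvPolynomial (Fin (n + 1) ⊕ P) F) ≤
      RingHom.ker ((aeval (Sum.elim y s) : MvPolynomial (Fin (n + 1) ⊕ P) F →ₐ[F] Om) :
        MvPolynomial (Fin (n + 1) ⊕ P) F →+* Om) := by
    intro G hG
    rw [Ideal.mem_comap, Ideal.mem_span_singleton] at hG
    obtain ⟨k, hk⟩ := hM2 G hG
    rw [RingHom.mem_ker]
    obtain ⟨c, hc⟩ := hk
    have h3 : (aeval (Sum.elim y s) G : Om) ^ k = 0 := by
      rw [← map_pow, hc, map_mul, hys, zero_mul]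
    by_contra hne
    exact pow_ne_zero k hne h3
  obtain ⟨Ψ, hΨ1, hΨ2⟩ := lift_point _ hfi _ (Ideal.span {X}) hker
  have hΨC : ∀ a : F, Ψ (C a) = algebraMap F Om a := by
    intro a
    have h4 := hΨ1 (C a)
    have h5 : sb P Q (C a) = C a := by simp [sb]
    have h6 : Ψ (sb P Q (C a)) = aeval (Sum.elim y s) (C a) := h4
    rw [h5, aeval_C] at h6
    exact h6
  refine ⟨fun j => Ψ (MvPolynomial.X (Sum.inl j)), ?_, ?_⟩
  · intro a
    have h4 : Ψ (sb P Q (MvPolynomial.X (Sum.inl a))) =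
      aeval (Sum.elim y s) (MvPolynomial.X (Sum.inl a)) := hΨ1 _
    have h5 : sb P Q (MvPolynomial.X (Sum.inl a)) = rename Sum.inl (Q a) := by simp [sb]
    rw [h5, aeval_X, Sum.elim_inl] at h4
    rw [← h4]
    have h6 : ∀ q : MvPolynomial (Fin (n + 1)) F,
        aeval (fun j => Ψ (MvPolynomial.X (Sum.inl j))) q = Ψ (rename Sum.inl q) := by
      intro q
      induction q using MvPolynomial.induction_on with
      | C a => rw [aeval_C, rename_C, hΨC]
      | add p q hp hq => rw [map_add, map_add, map_add, hp, hq]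
      | mul_X p i hp => rw [map_mul, map_mul, map_mul, hp, rename_X, aeval_X]
    exact h6 (Q a)
  · have h6 : ∀ q : MvPolynomial (Fin (n + 1) ⊕ P) F,
        aeval (Sum.elim (fun j => Ψ (MvPolynomial.X (Sum.inl j))) s) q = Ψ q := by
      intro q
      induction q using MvPolynomial.induction_on with
      | C a => rw [aeval_C, hΨC]
      | add p q hp hq => rw [map_add, map_add, hp, hq]
      | mul_X p i hp =>
        rw [map_mul, map_mul, hp, aeval_X]
        congr 1
        rcases i with j | i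
        · rfl
        · have h4 : Ψ (sb P Q (MvPolynomial.X (Sum.inr i))) =
            aeval (Sum.elim y s) (MvPolynomial.X (Sum.inr i)) := hΨ1 _
          have h5 : sb P Q (MvPolynomial.X (Sum.inr i)) = MvPolynomial.X (Sum.inr i) := by
            simp [sb]
          rw [h5, aeval_X, Sum.elim_inr] at h4
          rw [h4, Sum.elim_inr]
    rw [h6]
    exact hΨ2 X (Ideal.mem_span_singleton_self X)

end

end Pool.Agent.Work.MP_6d7a54_an.NG
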