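import Pool.Agent.Work.MP_6d7a54_an.NG.Stmts

/-!
# Block NG, item Nrm: norm of an element of an integral extension
-/

set_option autoImplicit false

namespace Pool.Agent.Work.MP_6d7a54_an.NG

namespace PNrmx

open Polynomial

theorem coeff_zero_ne {B R : Type} [CommRing B] [IsDomain B] [IsIntegrallyClosed B]
    [CommRing R] [IsDomain R] [Algebra B R] [Module.IsTorsionFree B R] {x : R}
    (hx : IsIntegral B x) (h0 : x ≠ 0) : (minpoly B x).coeff 0 ≠ 0 := by
  intro hc
  have h1 : minpoly B x = Polynomial.X * (minpoly B x).divX := by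
    conv_lhs => rw [← Polynomial.X_mul_divX_add (minpoly B x)]
    rw [hc, C_0, add_zero]
  have h2 : aeval x (minpoly B x).divX = 0 := by
    have h3 := minpoly.aeval B x
    rw [h1, map_mul, aeval_X] at h3
    rcases mul_eq_zero.mp h3 with h4 | h4
    · exact absurd h4 h0
    · exact h4
  have h3 : minpoly B x ∣ (minpoly B x).divX := minpoly.isIntegrallyClosed_dvd hx h2
  have h4 : (minpoly B x).divX ≠ 0 := by
    intro h5
    rw [h5, mul_zero] at h1
    exact minpoly.ne_zero hx h1
  have h5 := natDegree_le_of_dvd h3 h4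
  have h6 : (minpoly B x).natDegree = (minpoly B x).divX.natDegree + 1 := by
    conv_lhs => rw [h1]
    rw [natDegree_X_mul h4]
  omega

theorem main {B R : Type} [CommRing B] [IsDomain B] [IsIntegrallyClosed B]
    [CommRing R] [IsDomain R] [Algebra B R] [Module.IsTorsionFree B R]
    (hint : ∀ x : R, IsIntegral B x) (x : R) (h0 : x ≠ 0) :
    ∃ M : B, M ≠ 0 ∧ x ∣ algebraMap B R M ∧ ∀ G : B, x ∣ algebraMap B R G →
      ∃ k : ℕ, M ∣ G ^ k := by
  refine ⟨(minpoly B x).coeff 0, coeff_zero_ne (hint x) h0, ?_, ?_⟩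
  · refine ⟨-aeval x (minpoly B x).divX, ?_⟩
    have h1 := minpoly.aeval B x
    rw [← Polynomial.X_mul_divX_add (minpoly B x), map_add, map_mul, aeval_X, aeval_C] at h1
    linear_combination h1
  · rintro G ⟨H, hH⟩
    set h := minpoly B H with hh
    have hm : h.Monic := minpoly.monic (hint H)
    set P : B[X] := ∑ i ∈ Finset.range (h.natDegree + 1),
      C (h.coeff i * G ^ i) * Polynomial.X ^ (h.natDegree - i) with hP
    have h1 : aeval x P = 0 := by
      have h2 : aeval x P = x ^ h.natDegree * aeval H h := by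
        rw [hP, map_sum, aeval_eq_sum_range, Finset.mul_sum]
        refine Finset.sum_congr rfl (fun i hi => ?_)
        have h3 : i ≤ h.natDegree := Nat.lt_succ_iff.mp (Finset.mem_range.mp hi)
        rw [map_mul, map_pow, aeval_X, aeval_C, map_mul, map_pow, hH, Algebra.smul_def, mul_pow]
        have h4 : x ^ h.natDegree = x ^ i * x ^ (h.natDegree - i) := by
          rw [← pow_add, Nat.add_sub_cancel' h3]
        rw [h4]
        ring
      rw [h2, minpoly.aeval, mul_zero]
    obtain ⟨ν, hν⟩ := minpoly.isIntegrallyClosed_dvd (hint x) h1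
    refine ⟨h.natDegree, ν.coeff 0, ?_⟩
    have h2 : P.coeff 0 = G ^ h.natDegree := by
      rw [hP, finsetSum_coeff, Finset.sum_eq_single h.natDegree]
      · rw [Nat.sub_self, pow_zero, mul_one, coeff_C_zero, hm.coeff_natDegree, one_mul]
      · intro i hi hne
        have h3 : i ≤ h.natDegree := Nat.lt_succ_iff.mp (Finset.mem_range.mp hi)
        rw [coeff_C_mul, coeff_X_pow, if_neg (by omega), mul_zero]
      · intro hcon
        exact absurd (Finset.mem_range.mpr (Nat.lt_succ_self _)) hcon
    rw [← h2, hν, mul_coeff_zero]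

end PNrmx

open PNrmx in
theorem Nrm_proof : S_Nrm := by
  intro B R _ _ _ _ _ f hf hinj X hX
  let _ : Algebra B R := f.toAlgebra
  have htf : Module.IsTorsionFree B R :=
    Module.isTorsionFree_iff_algebraMap_injective.mpr hinj
  exact main (B := B) (R := R) (fun x => hf x) X hX

end Pool.Agent.Work.MP_6d7a54_an.NG
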