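import Pool.Agent.Work.MP_6d7a54_an.NG.Stmts

set_option autoImplicit false

namespace Pool.Agent.Work.MP_6d7a54_an.NG

open MvPolynomial
open Pool.Agent.Work.MP_6d7a54_an.NF (NR InK IsNev)

noncomputable section

namespace PPiDx

section units

variable {K R : Type} [Field K] [CommRing R] [Algebra K R] (dR : Derivation ℤ R R)

/-- logarithmic derivative -/
def LD (u : Rˣ) (lam : K) : Prop := dR (u : R) = algebraMap K R lam * (u : R)

theorem LD_one : LD dR (1 : Rˣ) (0 : K) := by
  unfold LD
  simp

theorem LD_mul {u v : Rˣ} {a b : K} (hu : LD dR u a) (hv : LD dR v b) :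
    LD dR (u * v) (a + b) := by
  unfold LD at *
  rw [Units.val_mul, Derivation.leibniz, hu, hv, map_add, smul_eq_mul, smul_eq_mul]
  ring

theorem LD_inv {u : Rˣ} {a : K} (hu : LD dR u a) : LD dR u⁻¹ (-a) := by
  unfold LD at *
  have h1 : dR ((u : R) * ((u⁻¹ : Rˣ) : R)) = 0 := by
    rw [Units.mul_inv]
    simp
  rw [Derivation.leibniz, hu, smul_eq_mul, smul_eq_mul] at h1
  have h2 : (u : R) * ((u⁻¹ : Rˣ) : R) = 1 := Units.mul_inv u
  have h3 : ((u⁻¹ : Rˣ) : R) * ((u : R) * dR ((u⁻¹ : Rˣ) : R) +
      ((u⁻¹ : Rˣ) : R) * (algebraMap K R a * (u : R))) = 0 := by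
    rw [h1, mul_zero]
  rw [map_neg]
  linear_combination h3 - (dR ((u⁻¹ : Rˣ) : R) + ((u⁻¹ : Rˣ) : R) * algebraMap K R a) * h2

theorem LD_pow {u : Rˣ} {a : K} (hu : LD dR u a) (n : ℕ) : LD dR (u ^ n) ((n : K) * a) := by
  induction n with
  | zero =>
    rw [pow_zero, Nat.cast_zero, zero_mul]
    exact LD_one dR
  | succ n ih =>
    have h := LD_mul dR ih hu
    rw [pow_succ]
    have e : (((n + 1 : ℕ) : K)) * a = (n : K) * a + a := by push_cast; ring
    rw [e]
    exact h

theorem LD_zpow {u : Rˣ} {a : K} (hu : LD dR u a) (n : ℤ) : LD dR (u ^ n) ((n : K) * a) := by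
  obtain ⟨m, rfl | rfl⟩ := n.eq_nat_or_neg
  · have := LD_pow dR hu m
    simpa using this
  · have := LD_inv dR (LD_pow dR hu m)
    rw [zpow_neg, zpow_natCast]
    have e : ((-(m : ℤ) : ℤ) : K) * a = -((m : K) * a) := by push_cast; ring
    rw [e]
    exact this

theorem LD_prod {ι : Type} (s : Finset ι) (u : ι → Rˣ) (a : ι → K)
    (h : ∀ i, LD dR (u i) (a i)) : LD dR (∏ i ∈ s, u i) (∑ i ∈ s, a i) := by
  classical
  induction s using Finset.induction_on with
  | empty => simpa using LD_one (K := K) dR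
  | insert i s hi ih =>
    rw [Finset.prod_insert hi, Finset.sum_insert hi]
    exact LD_mul dR (h i) ih

end units

variable {K : Type} [Field K] (dl : Derivation ℤ K K) {r : ℕ} (lam : Fin r → K)

theorem coeff_dc (f : MvPolynomial (Fin r) K) (m : Fin r →₀ ℕ) :
    coeff m (dc dl f) = dl (coeff m f) := by
  classical
  unfold dc
  rw [coeff_sum]
  simp_rw [coeff_monomial]
  rw [Finset.sum_ite_eq']
  split_ifs with h
  · rfl
  · rw [notMem_support_iff.1 h, map_zero]

theorem coeff_X_pd (f : MvPolynomial (Fin r) K) (l : Fin r) (m : Fin r →₀ ℕ) :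
    coeff m (MvPolynomial.X l * pderiv l f) = (m l : K) * coeff m f := by
  classical
  induction f using MvPolynomial.induction_on' with
  | monomial n a =>
    rw [X_mul_pderiv_monomial, coeff_smul, coeff_monomial]
    split_ifs with h
    · rw [h, nsmul_eq_mul]
    · simp
  | add p q hp hq => rw [map_add, mul_add, coeff_add, coeff_add, hp, hq, mul_add]

theorem coeff_D (h : MvPolynomial (Fin r) K) (m : Fin r →₀ ℕ) :
    coeff m (dc dl h + ∑ l, C (lam l) * MvPolynomial.X l * pderiv l h) =
      dl (coeff m h) + (∑ l, (m l : K) * lam l) * coeff m h := by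
  rw [coeff_add, coeff_dc, coeff_sum, Finset.sum_mul]
  congr 1
  refine Finset.sum_congr rfl fun l _ => ?_
  rw [mul_assoc, coeff_C_mul, coeff_X_pd]
  ring

/-- the cofactor is constant -/
theorem const {h : MvPolynomial (Fin r) K} (h0 : h ≠ 0)
    (hd : h ∣ dc dl h + ∑ l, C (lam l) * MvPolynomial.X l * pderiv l h) :
    ∃ c0 : K, ∀ m, dl (coeff m h) + (∑ l, (m l : K) * lam l) * coeff m h = c0 * coeff m h := by
  obtain ⟨c, hc⟩ := hd
  by_cases hz : dc dl h + ∑ l, C (lam l) * MvPolynomial.X l * pderiv l h = 0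
  · refine ⟨0, fun m => ?_⟩
    rw [← coeff_D, hz, coeff_zero, zero_mul]
  · have hc0 : c ≠ 0 := by
      rintro rfl
      rw [mul_zero] at hc
      exact hz hc
    have h1 : ∀ l, degreeOf l c = 0 := by
      intro l
      have h2 : degreeOf l (dc dl h + ∑ l, C (lam l) * MvPolynomial.X l * pderiv l h) ≤
          degreeOf l h := by
        rw [degreeOf_le_iff]
        intro m hm
        refine monomial_le_degreeOf l ?_
        rw [mem_support_iff] at hm ⊢
        intro h3
        apply hm
        rw [coeff_D, h3, map_zero, mul_zero, add_zero]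
      rw [hc, degreeOf_mul_eq h0 hc0] at h2
      omega
    have h2 : c = C (coeff 0 c) := by
      classical
      ext m
      rw [coeff_C]
      split_ifs with hm
      · rw [hm]
      · by_contra h3
        apply hm
        ext l
        have h4 := monomial_le_degreeOf l (mem_support_iff.2 h3)
        rw [h1 l] at h4
        exact (Nat.le_zero.1 h4).symm
    refine ⟨coeff 0 c, fun m => ?_⟩
    rw [← coeff_D, hc, h2, mul_comm h, coeff_C_mul]
    simp

end PPiDx

open PPiDx in
theorem PiD_proof : S_PiD := by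
  intro F K R _ _ _ _ _ _ dl dR hN r B tau lam hInd htau h hirr hX hdeg hdvd
  obtain ⟨c0, hc0⟩ := const dl lam hirr.ne_zero hdvd
  -- two different exponents
  obtain ⟨i, hi⟩ : ∃ i, i ∈ h.support := by
    by_contra hcon
    push Not at hcon
    exact hirr.ne_zero (support_eq_empty.1 (Finset.eq_empty_of_forall_notMem hcon))
  obtain ⟨j, hj, hij⟩ : ∃ j ∈ h.support, i ≠ j := by
    by_contra hcon
    push Not at hcon
    have h1 : h = monomial i (coeff i h) := by
      classical
      ext m
      rw [coeff_monomial]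
      split_ifs with hm
      · rw [hm]
      · by_contra h2
        exact hm (hcon m (mem_support_iff.2 h2))
    by_cases hi0 : i = 0
    · apply hirr.not_isUnit
      rw [h1, hi0]
      have h2 : coeff i h ≠ 0 := mem_support_iff.1 hi
      rw [hi0] at h2
      exact (IsUnit.mk0 _ h2).map (C : K →+* MvPolynomial (Fin r) K)
    · obtain ⟨l, hl⟩ := Finsupp.ne_iff.1 hi0
      apply hX l
      rw [h1, X_dvd_monomial]
      exact Or.inr hl
  have hi' : coeff i h ≠ 0 := mem_support_iff.1 hi
  have hj' : coeff j h ≠ 0 := mem_support_iff.1 hj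
  set a : K := coeff i h / coeff j h with ha
  have ha0 : a ≠ 0 := div_ne_zero hi' hj'
  have hah : a * coeff j h = coeff i h := div_mul_cancel₀ _ hj'
  have hdl : dl a = a * ∑ l, ((j l : K) - i l) * lam l := by
    have h1 : dl (a * coeff j h) = dl (coeff i h) := by rw [hah]
    rw [Derivation.leibniz, smul_eq_mul, smul_eq_mul] at h1
    have h2 := hc0 i
    have h3 := hc0 j
    have h4 : ∑ l, ((j l : K) - i l) * lam l =
        ∑ l, (j l : K) * lam l - ∑ l, (i l : K) * lam l := by
      rw [← Finset.sum_sub_distrib]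
      exact Finset.sum_congr rfl fun l _ => by ring
    rw [h4]
    apply mul_right_cancel₀ hj'
    linear_combination h1 + h2 - a * h3 - (c0 - ∑ l, (i l : K) * lam l) * hah
  set u : Rˣ := ∏ l, tau l ^ ((i l : ℤ) - j l) with hu
  have hLD : LD dR u (∑ l, (((i l : ℤ) - j l : ℤ) : K) * lam l) :=
    LD_prod dR _ _ _ fun l => LD_zpow dR (htau l) _
  have hzero : dR (algebraMap K R a * (u : R)) = 0 := by
    rw [Derivation.leibniz, hLD, hN.comp, smul_eq_mul, smul_eq_mul, hdl]
    have h5 : ∑ l, ((j l : K) - i l) * lam l = -∑ l, (((i l : ℤ) - j l : ℤ) : K) * lam l := by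
      rw [← Finset.sum_neg_distrib]
      exact Finset.sum_congr rfl fun l _ => by push_cast; ring
    rw [h5, map_mul, map_neg]
    ring
  have hK := hN.const (u : R) a u.isUnit ha0 hzero
  refine hInd (fun l => (i l : ℤ) - j l) ?_ ?_ hK
  · intro h6
    apply hij
    ext l
    have := congrFun h6 l
    simp only [Pi.zero_apply] at this
    omega
  · intro l
    have h7 := (monomial_le_degreeOf l hi).trans (hdeg l)
    have h8 := (monomial_le_degreeOf l hj).trans (hdeg l)
    show |(i l : ℤ) - j l| ≤ (B : ℤ)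
    rw [abs_le]
    omega

end

end Pool.Agent.Work.MP_6d7a54_an.NG
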