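import Pool.Agent.Work.MP_6d7a54_an.NG.Stmts

/-!
# Item Sar1: critical values at one point

The value `y = Q(p)` of a critical point satisfies an equation whose exponents differ by elements
of the lattice `La`.  Otherwise the group algebra of `La` embeds, the derivation of the group
algebra given by a coordinate extends to `Om`, and the critical condition gives a contradiction.
-/

set_option autoImplicit false

namespace Pool.Agent.Work.MP_6d7a54_an.NG

open MvPolynomial
open Pool.Agent.Work.MP_6d7a54_an.NF (NR InK IsNev)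

namespace PSar1x

/-- extension of a derivation along an injective homomorphism -/
theorem ext_aux (h1 : S_Ex0) {B Om : Type} [CommRing B] [Field Om] [CharZero Om]
    (f : B →+* Om) (g : B →+ Om) (hinj : ∀ b, f b = 0 → b = 0)
    (hmul : ∀ a b, g (a * b) = f a * g b + f b * g a) :
    ∃ D : Derivation ℤ Om Om, ∀ b, D (f b) = g b := by
  let _ : Algebra B Om := f.toAlgebra
  have hal : ∀ b : B, algebraMap B Om b = f b := fun b => rfl
  let de : Derivation ℤ B Om :=
    Derivation.mk' g.toIntLinearMap (by
      intro a b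
      rw [Algebra.smul_def, Algebra.smul_def, hal, hal]
      exact hmul a b)
  obtain ⟨D, hD⟩ := h1 B Om de (by
    intro b hb
    rw [hal] at hb
    rw [hinj b hb, map_zero])
  exact ⟨D, hD⟩

/-! ### the derivation of a group algebra -/

section Der

variable {F G Om : Type} [Field F] [AddCommGroup G] [Field Om] [Algebra F Om]

/-- the additive map with `c X^i ↦ c θ(i) y(i)` -/
noncomputable def H (y : Multiplicative G →* Om) (th : G →+ Om) :
    AddMonoidAlgebra F G →+ Om where
  toFun f := f.coeff.sum fun i c => algebraMap F Om c * (th i * y (Multiplicative.ofAdd i))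
  map_zero' := Finsupp.sum_zero_index
  map_add' f g := by
    rw [AddMonoidAlgebra.coeff_add]
    exact Finsupp.sum_add_index' (fun _ => by rw [map_zero, zero_mul])
      (fun _ _ _ => by rw [map_add, add_mul])

theorem H_single (y : Multiplicative G →* Om) (th : G →+ Om) (i : G) (c : F) :
    H y th (AddMonoidAlgebra.single i c) =
      algebraMap F Om c * (th i * y (Multiplicative.ofAdd i)) := by
  show ((AddMonoidAlgebra.single i c : AddMonoidAlgebra F G).coeff.sum fun i c =>
    algebraMap F Om c * (th i * y (Multiplicative.ofAdd i))) = _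
  rw [AddMonoidAlgebra.coeff_single]
  exact Finsupp.sum_single_index (by rw [map_zero, zero_mul])

theorem H_mul (y : Multiplicative G →* Om) (th : G →+ Om) (f g : AddMonoidAlgebra F G) :
    H y th (f * g) = AddMonoidAlgebra.lift F Om G y f * H y th g
      + AddMonoidAlgebra.lift F Om G y g * H y th f := by
  induction f using AddMonoidAlgebra.induction_linear with
  | zero => rw [zero_mul, map_zero, map_zero, zero_mul, mul_zero, add_zero]
  | add f₁ f₂ h₁ h₂ => rw [add_mul, map_add, map_add, map_add, h₁, h₂]; ring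
  | single i c =>
    induction g using AddMonoidAlgebra.induction_linear with
    | zero => rw [mul_zero, map_zero, map_zero, zero_mul, mul_zero, add_zero]
    | add g₁ g₂ h₁ h₂ => rw [mul_add, map_add, map_add, map_add, h₁, h₂]; ring
    | single j d =>
      rw [AddMonoidAlgebra.single_mul_single, H_single, H_single, H_single,
        AddMonoidAlgebra.lift_single, AddMonoidAlgebra.lift_single, ofAdd_add, map_mul, map_add,
        map_mul, Algebra.smul_def, Algebra.smul_def]
      ring

/-- extension of the derivation -/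
theorem extend (h1 : S_Ex0) [CharZero Om] (y : Multiplicative G →* Om) (th : G →+ Om)
    (hinj : ∀ f : AddMonoidAlgebra F G, AddMonoidAlgebra.lift F Om G y f = 0 → f = 0) :
    ∃ D : Derivation ℤ Om Om, (∀ c : F, D (algebraMap F Om c) = 0) ∧
      ∀ i : G, D (y (Multiplicative.ofAdd i)) = th i * y (Multiplicative.ofAdd i) := by
  obtain ⟨D, hD⟩ := ext_aux h1 (AddMonoidAlgebra.lift F Om G y).toRingHom (H y th) hinj
    (H_mul y th)
  have hD' : ∀ b, D (AddMonoidAlgebra.lift F Om G y b) = H y th b := hD
  refine ⟨D, ?_, ?_⟩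
  · intro c
    have h2 := hD' (AddMonoidAlgebra.single 0 c)
    rw [AddMonoidAlgebra.lift_single, ofAdd_zero, map_one, Algebra.smul_def, mul_one,
      H_single, map_zero, zero_mul, mul_zero] at h2
    exact h2
  · intro i
    have h2 := hD' (AddMonoidAlgebra.single i 1)
    rw [AddMonoidAlgebra.lift_single, one_smul, H_single, map_one, one_mul] at h2
    exact h2

end Der

/-! ### derivations of fields -/

section Field

variable {Om : Type} [Field Om]

/-- logarithmic derivative -/
noncomputable def Ld (D : Derivation ℤ Om Om) : Omˣ →* Multiplicative Om where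
  toFun u := Multiplicative.ofAdd (D (u : Om) * (u : Om)⁻¹)
  map_one' := by simp
  map_mul' u v := by
    rw [← ofAdd_add]
    congr 1
    rw [Units.val_mul, Derivation.leibniz, smul_eq_mul, smul_eq_mul, mul_inv]
    have hu : (u : Om) ≠ 0 := u.ne_zero
    have hv : (v : Om) ≠ 0 := v.ne_zero
    field_simp
    ring

theorem Ld_prod (D : Derivation ℤ Om Om) {N : ℕ} (y : Fin N → Omˣ) (i : Fin N → ℤ) :
    D ((∏ b, y b ^ i b : Omˣ) : Om) * ((∏ b, y b ^ i b : Omˣ) : Om)⁻¹ =
      ∑ b, (i b : Om) * (D (y b : Om) * (y b : Om)⁻¹) := by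
  have h : Ld D (∏ b, y b ^ i b) = ∏ b, Ld D (y b) ^ i b := by
    rw [map_prod]
    exact Finset.prod_congr rfl fun b _ => map_zpow _ _ _
  have h2 := congrArg Multiplicative.toAdd h
  rw [toAdd_prod] at h2
  refine h2.trans (Finset.sum_congr rfl fun b _ => ?_)
  rw [toAdd_zpow, zsmul_eq_mul]
  rfl

/-- chain rule -/
theorem chain {F : Type} [Field F] [Algebra F Om] (D : Derivation ℤ Om Om)
    (hD : ∀ c : F, D (algebraMap F Om c) = 0) {N : ℕ} (p : Fin N → Om)
    (f : MvPolynomial (Fin N) F) : D (aeval p f) = ∑ j, aeval p (pderiv j f) * D (p j) := by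
  induction f using MvPolynomial.induction_on with
  | C a => simp [hD]
  | add f g hf hg =>
    rw [map_add, map_add, hf, hg, ← Finset.sum_add_distrib]
    refine Finset.sum_congr rfl fun j _ => ?_
    rw [map_add, map_add, add_mul]
  | mul_X f i hf =>
    rw [map_mul, Derivation.leibniz, hf, aeval_X, smul_eq_mul, smul_eq_mul]
    have h1 : ∀ j, aeval p (pderiv j (f * X i)) * D (p j) =
        aeval p f * (if i = j then D (p j) else 0) + p i * (aeval p (pderiv j f) * D (p j)) := by
      intro j
      rw [Derivation.leibniz, pderiv_X, smul_eq_mul, smul_eq_mul, map_add, map_mul, map_mul,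
        aeval_X, Pi.single_apply]
      by_cases h : i = j
      · subst h
        simp
        ring
      · rw [if_neg h, if_neg h]
        simp
        ring
    rw [Finset.sum_congr rfl fun j _ => h1 j, Finset.sum_add_distrib, ← Finset.mul_sum,
      ← Finset.mul_sum, Finset.sum_ite_eq Finset.univ i]
    simp

end Field

/-! ### the lattice -/

/-- the lattice of the relations -/
def La {N r : ℕ} (dg : Fin N → ℕ) (m : Fin N → Fin r → ℤ) : AddSubgroup (Fin N → ℤ) where
  carrier := {i | ∑ a, i a * (dg a : ℤ) = 0 ∧ ∀ l, ∑ a, i a * m a l = 0}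
  zero_mem' := by simp
  add_mem' := by
    rintro i j ⟨hi, hi'⟩ ⟨hj, hj'⟩
    refine ⟨?_, fun l => ?_⟩
    · simp only [Pi.add_apply, add_mul, Finset.sum_add_distrib, hi, hj, add_zero]
    · simp only [Pi.add_apply, add_mul, Finset.sum_add_distrib, hi' l, hj' l, add_zero]
  neg_mem' := by
    rintro i ⟨hi, hi'⟩
    refine ⟨?_, fun l => ?_⟩
    · simp only [Pi.neg_apply, neg_mul, Finset.sum_neg_distrib, hi, neg_zero]
    · simp only [Pi.neg_apply, neg_mul, Finset.sum_neg_distrib, hi' l, neg_zero]

/-- integral coordinates of a vector -/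
theorem coords {Om : Type} [Field Om] [CharZero Om] {N : ℕ} (a : Fin N → Om) :
    ∃ (k : ℕ) (w : Fin k → Om) (R : Fin k → Fin N → ℤ), (∀ b, a b = ∑ x, w x * (R x b : Om)) ∧
      ∀ n : Fin N → ℤ, ∑ b, a b * (n b : Om) = 0 → ∀ x, ∑ b, R x b * n b = 0 := by
  classical
  let S : Submodule ℤ Om := Submodule.span ℤ (Set.range a)
  have hfin : Module.Finite ℤ S := Module.Finite.span_of_finite ℤ (Set.finite_range a)
  have hfree : Module.Free ℤ S := inferInstance
  let bs := Module.finBasis ℤ S
  have ha : ∀ b, a b ∈ S := fun b => Submodule.subset_span ⟨b, rfl⟩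
  refine ⟨Module.finrank ℤ S, fun x => (bs x : Om), fun x b => bs.repr ⟨a b, ha b⟩ x, ?_, ?_⟩
  · intro b
    have h := congrArg (Subtype.val) (bs.sum_repr ⟨a b, ha b⟩)
    rw [Submodule.coe_sum] at h
    refine h.symm.trans (Finset.sum_congr rfl fun x _ => ?_)
    rw [Submodule.coe_smul, zsmul_eq_mul, mul_comm]
  · intro n hn x
    have h : ∑ b, n b • (⟨a b, ha b⟩ : S) = 0 := by
      apply Subtype.ext
      rw [Submodule.coe_sum, Submodule.coe_zero, ← hn]
      refine Finset.sum_congr rfl fun b _ => ?_
      rw [Submodule.coe_smul, zsmul_eq_mul, mul_comm]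
    have h2 := congrArg (fun v => bs.repr v x) h
    simp only [map_sum, map_zsmul, Finsupp.coe_finsetSum, Finset.sum_apply, Finsupp.smul_apply,
      map_zero, Finsupp.coe_zero, Pi.zero_apply] at h2
    rw [← h2]
    refine Finset.sum_congr rfl fun b _ => ?_
    rw [smul_eq_mul, mul_comm]

end PSar1x

open PSar1x in
theorem Sar1_proof (h1 : S_Ex0) : S_Sar1 := by
  classical
  intro F _ _ N Q dg hQ r m Om _ _ p hp hcrit
  obtain ⟨c, hc0, hc1, hc2⟩ := hcrit
  have hcz : CharZero Om := charZero_of_injective_algebraMap (algebraMap F Om).injective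
  obtain ⟨y, hy⟩ : ∃ y : Fin N → Omˣ, ∀ a, (y a : Om) = aeval p (Q a) :=
    ⟨fun a => Units.mk0 (aeval p (Q a)) (hp a), fun a => rfl⟩
  have hyf : (fun a => aeval p (Q a)) = fun a => (y a : Om) := funext fun a => (hy a).symm
  let Y : Multiplicative (La dg m) →* Om :=
    { toFun := fun i =>
        ((∏ b, y b ^ ((Multiplicative.toAdd i : La dg m) : Fin N → ℤ) b : Omˣ) : Om)
      map_one' := by simp
      map_mul' := by
        intro i j
        rw [← Units.val_mul, ← Finset.prod_mul_distrib]
        congr 1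
        refine Finset.prod_congr rfl fun b _ => ?_
        rw [toAdd_mul, AddSubgroup.coe_add, Pi.add_apply, zpow_add] }
  have hY : ∀ i : La dg m, Y (Multiplicative.ofAdd i) =
      ((∏ b, y b ^ (i : Fin N → ℤ) b : Omˣ) : Om) := fun i => rfl
  by_cases hinj : ∀ f : AddMonoidAlgebra F (La dg m), AddMonoidAlgebra.lift F Om _ Y f = 0 → f = 0
  · exfalso
    obtain ⟨b0, hb0⟩ : ∃ b, c b ≠ 0 := Function.ne_iff.mp hc0
    let th : La dg m →+ Om := (Int.castAddHom Om).comp
      ((Pi.evalAddMonoidHom (fun _ : Fin N => ℤ) b0).comp (La dg m).subtype)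
    have hth : ∀ i : La dg m, th i = (((i : Fin N → ℤ) b0 : ℤ) : Om) := fun i => rfl
    obtain ⟨D, hD0, hD⟩ := extend h1 Y th hinj
    have hlog : ∀ i : La dg m, ∑ b, ((i : Fin N → ℤ) b : Om) * (D (y b : Om) * (y b : Om)⁻¹) =
        (((i : Fin N → ℤ) b0 : ℤ) : Om) := by
      intro i
      rw [← Ld_prod D y i, ← hY i, hD i, hth i, mul_assoc, mul_inv_cancel₀, mul_one]
      rw [hY i]
      exact Units.ne_zero _
    obtain ⟨k, w, R, hR, hR'⟩ := coords fun b => c b * (y b : Om)
    -- Euler
    have heul : ∑ b, c b * (y b : Om) * ((dg b : ℤ) : Om) = 0 := by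
      have h2 : ∀ b, c b * (y b : Om) * ((dg b : ℤ) : Om) =
          ∑ j, p j * (c b * aeval p (pderiv j (Q b))) := by
        intro b
        have h3 := congrArg (aeval p) (hQ b).sum_X_mul_pderiv
        rw [map_sum, map_nsmul, nsmul_eq_mul, ← hy b] at h3
        rw [mul_assoc, Int.cast_natCast, mul_comm (y b : Om), ← h3, Finset.mul_sum]
        refine Finset.sum_congr rfl fun j _ => ?_
        rw [map_mul, aeval_X]
        ring
      rw [Finset.sum_congr rfl fun b _ => h2 b, Finset.sum_comm]
      refine Finset.sum_eq_zero fun j _ => ?_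
      rw [← Finset.mul_sum, hc1 j, mul_zero]
    have hRL : ∀ x, R x ∈ La dg m := by
      intro x
      refine ⟨hR' (fun b => (dg b : ℤ)) heul x, fun l => hR' (fun b => m b l) ?_ x⟩
      rw [← hc2 l]
      exact Finset.sum_congr rfl fun b _ => by rw [hy b]
    have h5 : ∑ b, c b * (y b : Om) * (D (y b : Om) * (y b : Om)⁻¹) = c b0 * (y b0 : Om) := by
      rw [hR b0]
      have h6 : ∀ b, c b * (y b : Om) * (D (y b : Om) * (y b : Om)⁻¹) =
          ∑ x, w x * ((R x b : Om) * (D (y b : Om) * (y b : Om)⁻¹)) := by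
        intro b
        rw [hR b, Finset.sum_mul]
        exact Finset.sum_congr rfl fun x _ => by ring
      rw [Finset.sum_congr rfl fun b _ => h6 b, Finset.sum_comm]
      refine Finset.sum_congr rfl fun x _ => ?_
      rw [← Finset.mul_sum, hlog ⟨R x, hRL x⟩]
    have h6 : ∑ b, c b * (y b : Om) * (D (y b : Om) * (y b : Om)⁻¹) = 0 := by
      have h7 : ∀ b, c b * (y b : Om) * (D (y b : Om) * (y b : Om)⁻¹) =
          ∑ j, D (p j) * (c b * aeval p (pderiv j (Q b))) := by
        intro b
        have h8 : c b * (y b : Om) * (D (y b : Om) * (y b : Om)⁻¹) = c b * D (y b : Om) := by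
          have := (y b).ne_zero
          field_simp
        rw [h8, hy b, chain D hD0 p, Finset.mul_sum]
        exact Finset.sum_congr rfl fun j _ => by ring
      rw [Finset.sum_congr rfl fun b _ => h7 b, Finset.sum_comm]
      refine Finset.sum_eq_zero fun j _ => ?_
      rw [← Finset.mul_sum, hc1 j, mul_zero]
    rw [h5] at h6
    exact mul_ne_zero hb0 (y b0).ne_zero h6
  · push Not at hinj
    obtain ⟨f, hf, hf0⟩ := hinj
    obtain ⟨B, hB⟩ : ∃ B : Fin N → ℕ, ∀ i ∈ f.coeff.support, ∀ b,
        0 ≤ (B b : ℤ) + (i : Fin N → ℤ) b := by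
      refine ⟨fun b => ∑ i ∈ f.coeff.support, ((i : Fin N → ℤ) b).natAbs, fun i hi b => ?_⟩
      have h2 : ((i : Fin N → ℤ) b).natAbs ≤
          ∑ i ∈ f.coeff.support, ((i : Fin N → ℤ) b).natAbs :=
        Finset.single_le_sum (f := fun i : La dg m => ((i : Fin N → ℤ) b).natAbs)
          (fun _ _ => Nat.zero_le _) hi
      show 0 ≤ ((∑ i ∈ f.coeff.support, ((i : Fin N → ℤ) b).natAbs : ℕ) : ℤ) + (i : Fin N → ℤ) b
      omega
    obtain ⟨E, hE⟩ : ∃ E : La dg m → (Fin N →₀ ℕ), ∀ i ∈ f.coeff.support, ∀ b,
        (E i b : ℤ) = (B b : ℤ) + (i : Fin N → ℤ) b := by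
      refine ⟨fun i => Finsupp.equivFunOnFinite.symm
        fun b => ((B b : ℤ) + (i : Fin N → ℤ) b).toNat, fun i hi b => ?_⟩
      rw [Finsupp.equivFunOnFinite_symm_apply_apply]
      exact Int.toNat_of_nonneg (hB i hi b)
    have hEinj : ∀ i ∈ f.coeff.support, ∀ j ∈ f.coeff.support, E i = E j → i = j := by
      intro i hi j hj hij
      apply Subtype.ext
      funext b
      have h2 := hE i hi b
      have h3 := hE j hj b
      rw [hij] at h2
      omega
    obtain ⟨e, he⟩ : ∃ e : MvPolynomial (Fin N) F,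
        e = ∑ i ∈ f.coeff.support, monomial (E i) (f.coeff i) := ⟨_, rfl⟩
    have hsupp : ∀ s ∈ e.support, ∃ i ∈ f.coeff.support, s = E i := by
      intro s hs
      rw [he] at hs
      obtain ⟨i, hi, hi2⟩ := Finset.mem_biUnion.1 (MvPolynomial.support_sum hs)
      exact ⟨i, hi, Finset.mem_singleton.1 (support_monomial_subset hi2)⟩
    refine ⟨e, ?_, ?_, ?_⟩
    · intro h0
      apply hf0
      rw [← AddMonoidAlgebra.coeff_eq_zero, ← Finsupp.support_eq_empty]
      by_contra hne
      obtain ⟨i0, hi0⟩ := Finset.nonempty_iff_ne_empty.2 hne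
      have h2 : coeff (E i0) e = f.coeff i0 := by
        rw [he, coeff_sum, Finset.sum_eq_single i0]
        · rw [coeff_monomial, if_pos rfl]
        · intro j hj hj2
          rw [coeff_monomial, if_neg (fun h => hj2 (hEinj j hj i0 hi0 h))]
        · intro h
          exact absurd hi0 h
      rw [h0, coeff_zero] at h2
      exact (Finsupp.mem_support_iff.1 hi0) h2.symm
    · intro s hs t ht
      obtain ⟨i, hi, rfl⟩ := hsupp s hs
      obtain ⟨j, hj, rfl⟩ := hsupp t ht
      have h2 : ∀ b, ((E i b : ℤ) - E j b) = ((i - j : La dg m) : Fin N → ℤ) b := by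
        intro b
        rw [hE i hi b, hE j hj b, AddSubgroup.coe_sub, Pi.sub_apply]
        ring
      have h3 := (i - j).2
      refine ⟨?_, fun l => ?_⟩
      · rw [← h3.1]
        exact Finset.sum_congr rfl fun b _ => by rw [h2 b]
      · rw [← h3.2 l]
        exact Finset.sum_congr rfl fun b _ => by rw [h2 b]
    · rw [hyf, he, map_sum]
      have h2 : ∀ i ∈ f.coeff.support,
          aeval (fun a => (y a : Om)) (monomial (E i) (f.coeff i)) =
          (∏ b, (y b : Om) ^ B b) * (f.coeff i • Y (Multiplicative.ofAdd i)) := by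
        intro i hi
        rw [aeval_monomial, Finsupp.prod_fintype _ _ (fun b => pow_zero _), hY, Algebra.smul_def,
          mul_left_comm]
        congr 1
        rw [Units.coe_prod, ← Finset.prod_mul_distrib]
        refine Finset.prod_congr rfl fun b _ => ?_
        rw [Units.val_zpow_eq_zpow_val, ← zpow_natCast, ← zpow_natCast,
          ← zpow_add₀ (y b).ne_zero, hE i hi b]
      rw [Finset.sum_congr rfl h2, ← Finset.mul_sum]
      have h3 := AddMonoidAlgebra.lift_apply Y f
      rw [hf] at h3
      have h4 : ∑ i ∈ f.coeff.support, f.coeff i • Y (Multiplicative.ofAdd i) = 0 := h3.symm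
      rw [h4, mul_zero]

end Pool.Agent.Work.MP_6d7a54_an.NG
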