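import Pool.Agent.Work.MP_6d7a54_an.NG.Stmts

/-!
# MP_6d7a54_an, block NG, item Sard: Sard polynomials
-/

set_option autoImplicit false

namespace Pool.Agent.Work.MP_6d7a54_an.NG

open MvPolynomial

noncomputable section

namespace PSardx

variable {F : Type} [Field F] {N r : ℕ}

/-- all exponents are in one coset -/
def Cs (dg : Fin N → ℕ) (m : Fin N → Fin r → ℤ) (e : MvPolynomial (Fin N) F) : Prop :=
  ∀ i ∈ e.support, ∀ j ∈ e.support, ∑ a, ((i a : ℤ) - j a) * dg a = 0 ∧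
    ∀ l, ∑ a, ((i a : ℤ) - j a) * m a l = 0

theorem cs_one (dg : Fin N → ℕ) (m : Fin N → Fin r → ℤ) :
    Cs dg m (1 : MvPolynomial (Fin N) F) := by
  classical
  intro i hi j hj
  have h0 : ∀ i ∈ (1 : MvPolynomial (Fin N) F).support, i = 0 := by
    intro i hi
    by_contra hne
    apply (mem_support_iff.1 hi)
    rw [coeff_one, if_neg (Ne.symm hne)]
  rw [h0 i hi, h0 j hj]
  simp

theorem cs_mul (dg : Fin N → ℕ) (m : Fin N → Fin r → ℤ) {e f : MvPolynomial (Fin N) F}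
    (he : Cs dg m e) (hf : Cs dg m f) : Cs dg m (e * f) := by
  classical
  intro i hi j hj
  obtain ⟨i1, hi1, i2, hi2, rfl⟩ := Finset.mem_add.1 (support_mul e f hi)
  obtain ⟨j1, hj1, j2, hj2, rfl⟩ := Finset.mem_add.1 (support_mul e f hj)
  obtain ⟨a1, a2⟩ := he i1 hi1 j1 hj1
  obtain ⟨b1, b2⟩ := hf i2 hi2 j2 hj2
  have key : ∀ w : Fin N → ℤ, ∑ a, (((i1 + i2 : Fin N →₀ ℕ) a : ℤ) - (j1 + j2 : Fin N →₀ ℕ) a) * w a
      = ∑ a, ((i1 a : ℤ) - j1 a) * w a + ∑ a, ((i2 a : ℤ) - j2 a) * w a := by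
    intro w
    rw [← Finset.sum_add_distrib]
    refine Finset.sum_congr rfl fun a _ => ?_
    rw [Finsupp.add_apply, Finsupp.add_apply]
    push_cast
    ring
  refine ⟨?_, fun l => ?_⟩
  · rw [key fun a => (dg a : ℤ), a1, b1, add_zero]
  · rw [key fun a => m a l, a2 l, b2 l, add_zero]

theorem cs_prod (dg : Fin N → ℕ) (m : Fin N → Fin r → ℤ) {ι : Type} (T : Finset ι)
    (g : ι → MvPolynomial (Fin N) F) (h : ∀ i ∈ T, Cs dg m (g i)) : Cs dg m (∏ i ∈ T, g i) := by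
  classical
  induction T using Finset.induction_on with
  | empty =>
    rw [Finset.prod_empty]
    exact cs_one dg m
  | insert a s ha ih =>
    rw [Finset.prod_insert ha]
    exact cs_mul dg m (h a (Finset.mem_insert_self a s))
      (ih fun i hi => h i (Finset.mem_insert_of_mem hi))

/-- the extended Jacobian matrix -/
def MM (Q : Fin N → MvPolynomial (Fin N) F) (m : Fin N → Fin r → ℤ) :
    Matrix (Fin N) (Fin N ⊕ Fin r) (MvPolynomial (Fin N) F) :=
  Matrix.of fun a => Sum.elim (fun j => pderiv j (Q a)) (fun l => Q a * C ((m a l : ℤ) : F))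

theorem crit_iff (h2 : S_Mnr) (Q : Fin N → MvPolynomial (Fin N) F) (m : Fin N → Fin r → ℤ)
    (Om : Type) [Field Om] [Algebra F Om] (p : Fin N → Om) :
    Crit Q m p ↔ ∀ s : Fin N → Fin N ⊕ Fin r, aeval p ((MM Q m).submatrix id s).det = 0 := by
  have h3 := h2 Om N (Fin N ⊕ Fin r) ((MM Q m).map (aeval p))
  have e1 : (∀ s : Fin N → Fin N ⊕ Fin r, (((MM Q m).map (aeval p)).submatrix id s).det = 0) ↔
      ∀ s : Fin N → Fin N ⊕ Fin r, aeval p ((MM Q m).submatrix id s).det = 0 := by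
    refine forall_congr' fun s => ?_
    rw [AlgHom.map_det]
    rfl
  rw [← e1, ← h3]
  unfold Crit
  refine exists_congr fun c => and_congr_right fun _ => ?_
  rw [Sum.forall]
  refine and_congr (forall_congr' fun j => Iff.rfl) (forall_congr' fun l => ?_)
  have e2 : ∀ a, c a * ((MM Q m).map (aeval p)) a (Sum.inr l) =
      c a * aeval p (Q a) * (m a l : Om) := by
    intro a
    change c a * aeval p (Q a * C ((m a l : ℤ) : F)) = _
    rw [map_mul, aeval_C, map_intCast, mul_assoc]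
  rw [Finset.sum_congr rfl fun a _ => e2 a]

/-- one minimal prime -/
theorem one (h1 : S_Sar1) (h2 : S_Mnr) [CharZero F] (Q : Fin N → MvPolynomial (Fin N) F)
    (dg : Fin N → ℕ) (hQ : ∀ a, (Q a).IsHomogeneous (dg a)) (m : Fin N → Fin r → ℤ)
    (P : Ideal (MvPolynomial (Fin N) F)) (hP : P.IsPrime)
    (hI : ∀ s : Fin N → Fin N ⊕ Fin r, ((MM Q m).submatrix id s).det ∈ P)
    (hQP : ∀ a, Q a ∉ P) :
    ∃ e : MvPolynomial (Fin N) F, e ≠ 0 ∧ Cs dg m e ∧ aeval Q e ∈ P := by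
  obtain ⟨p0, hp0⟩ : ∃ p0 : Fin N → FractionRing (MvPolynomial (Fin N) F ⧸ P),
      ∀ f : MvPolynomial (Fin N) F, aeval p0 f =
        algebraMap (MvPolynomial (Fin N) F ⧸ P) (FractionRing (MvPolynomial (Fin N) F ⧸ P))
          (Ideal.Quotient.mk P f) := by
    refine ⟨fun j => algebraMap (MvPolynomial (Fin N) F ⧸ P)
      (FractionRing (MvPolynomial (Fin N) F ⧸ P)) (Ideal.Quotient.mk P (X j)), fun f => ?_⟩
    have : (aeval (fun j => algebraMap (MvPolynomial (Fin N) F ⧸ P)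
        (FractionRing (MvPolynomial (Fin N) F ⧸ P)) (Ideal.Quotient.mk P (X j))) :
          MvPolynomial (Fin N) F →ₐ[F] _) =
        (IsScalarTower.toAlgHom F (MvPolynomial (Fin N) F ⧸ P)
          (FractionRing (MvPolynomial (Fin N) F ⧸ P))).comp (Ideal.Quotient.mkₐ F P) := by
      ext j
      rw [aeval_X]
      rfl
    rw [this]
    rfl
  have hz : ∀ f : MvPolynomial (Fin N) F, aeval p0 f = 0 ↔ f ∈ P := by
    intro f
    rw [hp0, ← Ideal.Quotient.eq_zero_iff_mem]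
    exact map_eq_zero_iff _ (IsFractionRing.injective _ _)
  obtain ⟨e, he1, he2, he3⟩ := h1 F N Q dg hQ r m _ p0 (fun a h => hQP a ((hz _).1 h))
    ((crit_iff h2 Q m _ p0).2 fun s => (hz _).2 (hI s))
  refine ⟨e, he1, he2, (hz _).1 ?_⟩
  have e4 : aeval p0 (aeval Q e) = aeval (fun a => aeval p0 (Q a)) e := by
    rw [← AlgHom.comp_apply, comp_aeval]
  rw [e4]
  exact he3

end PSardx

open PSardx

theorem Sard_proof (h1 : S_Sar1) (h2 : S_Mnr) : S_Sard := by
  intro F _ _ N Q dg hQ r m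
  classical
  set I : Ideal (MvPolynomial (Fin N) F) :=
    Ideal.span (Set.range fun s : Fin N → Fin N ⊕ Fin r => ((MM Q m).submatrix id s).det) with hI
  have hfin : I.minimalPrimes.Finite := Ideal.finite_minimalPrimes_of_isNoetherianRing _ I
  have hch : ∀ P : Ideal (MvPolynomial (Fin N) F), ∃ e : MvPolynomial (Fin N) F, e ≠ 0 ∧
      Cs dg m e ∧ (P ∈ I.minimalPrimes → (∀ a, Q a ∉ P) → aeval Q e ∈ P) := by
    intro P
    by_cases hP : P ∈ I.minimalPrimes ∧ ∀ a, Q a ∉ P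
    · have hPI : I ≤ P := hP.1.1.2
      obtain ⟨e, he1, he2, he3⟩ := one h1 h2 Q dg hQ m P hP.1.1.1
        (fun s => hPI (Ideal.subset_span ⟨s, rfl⟩)) hP.2
      exact ⟨e, he1, he2, fun _ _ => he3⟩
    · exact ⟨1, one_ne_zero, cs_one dg m, fun a b => absurd ⟨a, b⟩ hP⟩
  choose g hg1 hg2 hg3 using hch
  refine ⟨∏ P ∈ hfin.toFinset, g P, Finset.prod_ne_zero_iff.2 fun P _ => hg1 P,
    cs_prod dg m _ _ fun P _ => hg2 P, ?_⟩
  intro Om _ _ p hp hc
  have hIk : I ≤ RingHom.ker (aeval p : MvPolynomial (Fin N) F →ₐ[F] Om) := by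
    rw [hI, Ideal.span_le]
    rintro _ ⟨s, rfl⟩
    exact (crit_iff h2 Q m Om p).1 hc s
  have hpr : (RingHom.ker (aeval p : MvPolynomial (Fin N) F →ₐ[F] Om)).IsPrime :=
    RingHom.ker_isPrime _
  obtain ⟨P, hP, hPk⟩ := Ideal.exists_minimalPrimes_le hIk
  have h5 : aeval Q (g P) ∈ P := hg3 P hP fun a ha => hp a (hPk ha)
  have h6 : aeval p (aeval Q (g P)) = 0 := hPk h5
  have e4 : ∀ e : MvPolynomial (Fin N) F,
      aeval (fun a => aeval p (Q a)) e = aeval p (aeval Q e) := fun e => by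
    rw [← AlgHom.comp_apply, comp_aeval]
  rw [map_prod]
  exact Finset.prod_eq_zero (hfin.mem_toFinset.2 hP) (by rw [e4, h6])

end

end Pool.Agent.Work.MP_6d7a54_an.NG
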