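import Pool.Agent.Work.MP_6d7a54_an.NG.Stmts

/-!
# Sorting of the monomials (MP_6d7a54_an)
-/

set_option autoImplicit false

namespace Pool.Agent.Work.MP_6d7a54_an.NG

noncomputable section

namespace PSrtx

theorem sum_div (h : ℕ) (hh : 0 < h) (F : ℕ → ℝ) (P : ℕ) :
    ∑ t ∈ Finset.range (h * P), F (t / h) = h * ∑ i ∈ Finset.range P, F i := by
  induction P with
  | zero => simp
  | succ P ih =>
    rw [Nat.mul_succ, Finset.sum_range_add, ih, Finset.sum_range_succ, mul_add]
    congr 1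
    have e : ∀ x ∈ Finset.range h, F ((h * P + x) / h) = F P := by
      intro x hx
      rw [Nat.mul_add_div hh, Nat.div_eq_of_lt (Finset.mem_range.1 hx), add_zero]
    rw [Finset.sum_congr rfl e]
    simp

theorem core (h P g p : ℕ) (hh : 0 < h) (hg : p + g = h * P) (F : ℕ → ℝ) (C : ℝ)
    (hF : ∀ i < P, -C ≤ F i) : ∑ j : Fin p, F (((j : ℕ) + g) / h) ≤
      h * ∑ i ∈ Finset.range P, F i + g * C := by
  have h1 : ∑ t ∈ Finset.range (h * P), F (t / h) =
      ∑ t ∈ Finset.range g, F (t / h) + ∑ j : Fin p, F (((j : ℕ) + g) / h) := by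
    rw [← hg, add_comm p g, Finset.sum_range_add]
    congr 1
    rw [Finset.sum_range]
    apply Finset.sum_congr rfl
    intro j _
    rw [add_comm]
  rw [sum_div h hh F P] at h1
  have h2 : ∑ t ∈ Finset.range g, (-C) ≤ ∑ t ∈ Finset.range g, F (t / h) := by
    apply Finset.sum_le_sum
    intro t ht
    apply hF
    rw [Nat.div_lt_iff_lt_mul hh, mul_comm]
    have := Finset.mem_range.1 ht
    omega
  rw [Finset.sum_const, Finset.card_range, nsmul_eq_mul] at h2
  linarith

end PSrtx

theorem Srt_proof : S_Srt := by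
  classical
  intro r D h p hh hp t
  set P : ℕ := (D + 1) ^ r with hP
  let val : (Fin r → Fin (D + 1)) → ℝ := fun m => ∑ l, ((m l : ℕ) : ℝ) * t l
  have hcard : Fintype.card (Fin r → Fin (D + 1)) = P := by
    rw [Fintype.card_fun, Fintype.card_fin, Fintype.card_fin]
  let e0 : (Fin r → Fin (D + 1)) ≃ Fin P := Fintype.equivFinOfCardEq hcard
  let f : Fin P → ℝ := fun i => val (e0.symm i)
  let s : (Fin r → Fin (D + 1)) ≃ Fin P := e0.trans (Tuple.sort f).symm
  have hmono : Monotone fun i : Fin P => val (s.symm i) := Tuple.monotone_sort f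
  let F : ℕ → ℝ := fun i => if hi : i < P then val (s.symm ⟨i, hi⟩) else 0
  have hF : ∀ i (hi : i < P), F i = val (s.symm ⟨i, hi⟩) := fun i hi => dif_pos hi
  have hval : ∀ m, -(D * ∑ l, |t l|) ≤ val m := by
    intro m
    show _ ≤ ∑ l, ((m l : ℕ) : ℝ) * t l
    rw [Finset.mul_sum, ← Finset.sum_neg_distrib]
    apply Finset.sum_le_sum
    intro l _
    have h1 : ((m l : ℕ) : ℝ) ≤ D := by exact_mod_cast Nat.lt_succ_iff.1 (m l).2
    have h2 : (0 : ℝ) ≤ ((m l : ℕ) : ℝ) := by positivity
    have h3 : -(((m l : ℕ) : ℝ) * |t l|) ≤ ((m l : ℕ) : ℝ) * t l := by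
      have := neg_abs_le (t l)
      nlinarith
    have h4 : ((m l : ℕ) : ℝ) * |t l| ≤ D * |t l| := by
      gcongr
    linarith
  refine ⟨s, fun j => F (((j : ℕ) + (h * P - p)) / h), ?_, ?_⟩
  · intro j m hjm
    have hlt : ((j : ℕ) + (h * P - p)) / h < P := by
      rw [Nat.div_lt_iff_lt_mul hh, mul_comm P h]
      have := j.2
      omega
    have hle : (s m : ℕ) ≤ ((j : ℕ) + (h * P - p)) / h := by
      rw [Nat.le_div_iff_mul_le hh, mul_comm]
      exact hjm
    show val m ≤ F (((j : ℕ) + (h * P - p)) / h)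
    rw [hF _ hlt]
    have h1 := hmono (show s m ≤ ⟨((j : ℕ) + (h * P - p)) / h, hlt⟩ from hle)
    simpa using h1
  · have h1 := PSrtx.core h P (h * P - p) p hh (by omega) F (D * ∑ l, |t l|)
      (fun i hi => by
        rw [hF i hi]
        exact hval _)
    have h2 : ∑ i ∈ Finset.range P, F i = ∑ m, val m := by
      rw [Finset.sum_range, ← Equiv.sum_comp s]
      apply Finset.sum_congr rfl
      intro m _
      rw [hF _ (s m).2]
      simp
    rw [h2] at h1
    exact h1

end

end Pool.Agent.Work.MP_6d7a54_an.NG
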