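import Pool.Agent.Work.MP_6d7a54_an.NG.Stmts

/-!
# Removal of the factors `X l` (block NG)
-/

set_option autoImplicit false

namespace Pool.Agent.Work.MP_6d7a54_an.NG

open MvPolynomial

namespace PStripx

theorem main (K : Type) [Field K] (r : ℕ) : ∀ (N : ℕ) (P : MvPolynomial (Fin r) K), P ≠ 0 →
    P.totalDegree ≤ N →
    ∃ (k : Fin r → ℕ) (P' : MvPolynomial (Fin r) K),
      P = (∏ l, MvPolynomial.X l ^ (k l)) * P' ∧
      (∀ l, ¬ MvPolynomial.X l ∣ P') ∧ ∀ l, degreeOf l P' ≤ degreeOf l P := by
  classical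
  intro N
  induction N with
  | zero =>
    intro P hP hN
    refine ⟨fun _ => 0, P, by simp, ?_, fun _ => le_rfl⟩
    rintro l ⟨Q, hQ⟩
    have hQ0 : Q ≠ 0 := by
      rintro rfl
      exact hP (by rw [hQ, mul_zero])
    rw [hQ, totalDegree_mul_of_isDomain (X_ne_zero l) hQ0, totalDegree_X] at hN
    omega
  | succ N ih =>
    intro P hP hN
    by_cases h : ∃ l, MvPolynomial.X l ∣ P
    · obtain ⟨l, Q, hQ⟩ := h
      have hQ0 : Q ≠ 0 := by
        rintro rfl
        exact hP (by rw [hQ, mul_zero])
      have h1 : Q.totalDegree ≤ N := by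
        rw [hQ, totalDegree_mul_of_isDomain (X_ne_zero l) hQ0, totalDegree_X] at hN
        omega
      obtain ⟨k, P', h2, h3, h4⟩ := ih Q hQ0 h1
      refine ⟨Function.update k l (k l + 1), P', ?_, h3, fun l' => ?_⟩
      · rw [hQ]
        conv_lhs => rw [h2]
        rw [← Finset.mul_prod_erase Finset.univ _ (Finset.mem_univ l),
          ← Finset.mul_prod_erase Finset.univ (fun i => X i ^ Function.update k l (k l + 1) i)
            (Finset.mem_univ l), Function.update_self]
        have h5 : ∏ x ∈ Finset.univ.erase l, (X x : MvPolynomial (Fin r) K) ^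
            Function.update k l (k l + 1) x = ∏ x ∈ Finset.univ.erase l, X x ^ k x := by
          refine Finset.prod_congr rfl fun x hx => ?_
          rw [Function.update_of_ne (Finset.ne_of_mem_erase hx)]
        rw [h5, pow_succ]
        ring
      · refine (h4 l').trans ?_
        rw [hQ, degreeOf_mul_eq (X_ne_zero l) hQ0]
        exact Nat.le_add_left _ _
    · push Not at h
      exact ⟨fun _ => 0, P, by simp, h, fun _ => le_rfl⟩

end PStripx

theorem Strip_proof : S_Strip := fun K _ r P hP => PStripx.main K r _ P hP le_rfl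

end Pool.Agent.Work.MP_6d7a54_an.NG
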