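import Pool.Agent.Work.MP_6d7a54_an.NG.StmtsA
import Pool.Agent.Work.MP_6d7a54_an.NG.Stmts

/-!
# Block NG: the algebraic theorem for Nevanlinna fields (MP_6d7a54_an)
-/

set_option autoImplicit false

namespace Pool.Agent.Work.MP_6d7a54_an.NG

open MvPolynomial
open Pool.Agent.Work.MP_6d7a54_an.NF (NR InK IsNev)

namespace PT5x

theorem io_vq {F K R L s : Type} [Field F] [Field K] [CommRing R] [Field L] [Algebra F K]
    [Algebra K R] [Algebra F L] (io : R →+* L)
    (hc : ∀ a : F, io (algebraMap K R (algebraMap F K a)) = algebraMap F L a)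
    (q' : s → R) (q : s → L) (hq : ∀ j, io (q' j) = q j)
    (P : MvPolynomial s F) : io (vq K q' P) = aeval q P := by
  unfold vq bc
  induction P using MvPolynomial.induction_on with
  | C a => rw [map_C, aeval_C, aeval_C, hc]
  | add P P' h1 h2 => rw [map_add, map_add, map_add, map_add, h1, h2]
  | mul_X P i h => rw [map_mul, map_mul, map_mul, map_mul, h, map_X, aeval_X, aeval_X, hq]

end PT5x

theorem T5_proof (h1 : S_KSV) (h2 : S_T5R) : S_T5 := by
  intro F _ _ n Q dg hQ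
  obtain ⟨B, nB, hB0, hBh, hB⟩ := h2 F n Q dg hQ
  refine ⟨B, nB, hB0, hBh, ?_⟩
  intro L Om _ _ D S Sm A E x hN q hqS hqu hq2 hqB
  obtain ⟨K, R, iK, iR, iD, iFK, iKR, dl, dR, io, hinj, hS, hSm, hcon, hNR⟩ :=
    h1 F L Om D S Sm A E x hN
  choose q' hq' using fun j => (hS (q j)).1 (hqS j)
  have hval : ∀ P : MvPolynomial (Fin (n + 1)) F, io (vq K q' P) = aeval q P :=
    fun P => PT5x.io_vq io hcon q' q hq' P
  have hunit : ∀ a : Fin (n + 1), IsUnit (vq K q' (Q a)) := by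
    intro a
    obtain ⟨h0, hi⟩ := hqu a
    obtain ⟨r, hr⟩ := (hS _).1 hi
    refine IsUnit.of_mul_eq_one r (hinj ?_)
    rw [map_mul, hval, hr, mul_inv_cancel₀ h0, map_one]
  have hlast : vq K q' (Q (Fin.last n)) = 1 := by
    apply hinj
    rw [hval, hq2, map_one]
  have hne : vq K q' B ≠ 0 := by
    intro h
    apply hqB
    rw [← hval, h, map_zero]
  have hIn := hB K R Om dl dR A E _ hNR q' hunit hlast hne
  intro a
  obtain ⟨b, hb⟩ := hIn a
  have e : io (algebraMap K R b) = aeval q (Q a) := by rw [← hb, hval]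
  refine ⟨((hSm _).2 ⟨b, e⟩).2, ((hSm _).2 ⟨b⁻¹, ?_⟩).2⟩
  have h3 : (io.comp (algebraMap K R)) b⁻¹ = ((io.comp (algebraMap K R)) b)⁻¹ := map_inv₀ _ _
  simp only [RingHom.comp_apply] at h3
  rw [h3, e]

end Pool.Agent.Work.MP_6d7a54_an.NG
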