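import Pool.Agent.Work.MP_6d7a54_an.NG.Stmts

/-!
# The algebraic theorem for Nevanlinna rings (MP_6d7a54_an)
-/

set_option autoImplicit false

namespace Pool.Agent.Work.MP_6d7a54_an.NG

open MvPolynomial
open Pool.Agent.Work.MP_6d7a54_an.NF (NR InK IsNev)

noncomputable section

namespace PT5Rx

/-! ### The polynomial `B` -/

theorem aeval_cut {F : Type} [Field F] {k : ℕ} (Q : Fin k → MvPolynomial (Fin k) F)
    (T : Finset (Fin k)) (N : MvPolynomial (Fin k) F) :
    aeval (cut T Q) N = aeval Q (aeval (cut T (MvPolynomial.X : Fin k → MvPolynomial (Fin k) F)) N) := by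
  have h : (aeval (cut T Q) : MvPolynomial (Fin k) F →ₐ[F] MvPolynomial (Fin k) F) =
      (aeval Q : MvPolynomial (Fin k) F →ₐ[F] MvPolynomial (Fin k) F).comp
        (aeval (cut T (MvPolynomial.X : Fin k → MvPolynomial (Fin k) F))) := by
    apply MvPolynomial.algHom_ext
    intro a
    simp only [AlgHom.comp_apply, aeval_X]
    unfold cut
    split
    · rw [aeval_X]
    · rw [map_zero]
  rw [h, AlgHom.comp_apply]

theorem coeff_cut {F : Type} [Field F] {k : ℕ} (a : Fin k) (M : ℕ)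
    (P : MvPolynomial (Fin k) F) :
    coeff (Finsupp.single a M) (aeval (cut {a} (MvPolynomial.X : Fin k → MvPolynomial (Fin k) F)) P) =
      coeff (Finsupp.single a M) P := by
  induction P using MvPolynomial.induction_on' with
  | add p q hp hq => rw [map_add, coeff_add, coeff_add, hp, hq]
  | monomial i c =>
    rw [aeval_monomial]
    by_cases hi : ∀ b, b ≠ a → i b = 0
    · have e1 : i = Finsupp.single a (i a) := by
        ext b
        by_cases hb : b = a
        · subst hb; rw [Finsupp.single_eq_same]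
        · rw [hi b hb, Finsupp.single_eq_of_ne hb]
      have e2 : (i.prod fun b e => cut {a} (MvPolynomial.X : Fin k → MvPolynomial (Fin k) F) b ^ e) =
          monomial i 1 := by
        conv_lhs => rw [e1]
        rw [Finsupp.prod_single_index (by rw [pow_zero])]
        conv_rhs => rw [e1]
        have e3 : cut {a} (MvPolynomial.X : Fin k → MvPolynomial (Fin k) F) a = MvPolynomial.X a := by
          unfold cut
          rw [if_pos (Finset.mem_singleton_self a)]
        rw [e3, X_pow_eq_monomial]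
      rw [e2, MvPolynomial.algebraMap_eq, C_mul_monomial, mul_one]
    · push Not at hi
      obtain ⟨b, hb, hib⟩ := hi
      have e2 : (i.prod fun b e => cut {a} (MvPolynomial.X : Fin k → MvPolynomial (Fin k) F) b ^ e) =
          0 := by
        apply Finset.prod_eq_zero (Finsupp.mem_support_iff.2 hib)
        have e3 : cut {a} (MvPolynomial.X : Fin k → MvPolynomial (Fin k) F) b = 0 := by
          unfold cut
          rw [if_neg (by rwa [Finset.mem_singleton])]
        show cut {a} (MvPolynomial.X : Fin k → MvPolynomial (Fin k) F) b ^ (i b) = 0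
        rw [e3, zero_pow hib]
      rw [e2, mul_zero, coeff_zero, coeff_monomial, if_neg]
      intro h
      apply hib
      rw [h, Finsupp.single_eq_of_ne hb]

theorem cut_ne {F : Type} [Field F] {k : ℕ} {Q : Fin k → MvPolynomial (Fin k) F}
    (hQ : AlgebraicIndependent F Q) {N : MvPolynomial (Fin k) F} {a : Fin k} {M : ℕ}
    (hN : coeff (Finsupp.single a M) N ≠ 0) {T : Finset (Fin k)} (ha : a ∈ T) :
    aeval (cut T Q) N ≠ 0 := by
  intro h
  rw [aeval_cut] at h
  have h1 : aeval (cut T (MvPolynomial.X : Fin k → MvPolynomial (Fin k) F)) N = 0 := by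
    apply hQ
    rw [h, map_zero]
  have h2 := congrArg (aeval (cut {a} (MvPolynomial.X : Fin k → MvPolynomial (Fin k) F))) h1
  rw [map_zero, ← AlgHom.comp_apply] at h2
  have h3 : (aeval (cut {a} (MvPolynomial.X : Fin k → MvPolynomial (Fin k) F)) :
      MvPolynomial (Fin k) F →ₐ[F] MvPolynomial (Fin k) F).comp
      (aeval (cut T (MvPolynomial.X : Fin k → MvPolynomial (Fin k) F))) =
      aeval (cut {a} (MvPolynomial.X : Fin k → MvPolynomial (Fin k) F)) := by
    apply MvPolynomial.algHom_ext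
    intro b
    simp only [AlgHom.comp_apply, aeval_X]
    unfold cut
    by_cases hb : b = a
    · subst hb
      rw [if_pos ha, aeval_X]
    · by_cases hbT : b ∈ T
      · rw [if_pos hbT, aeval_X]
      · rw [if_neg hbT, map_zero, if_neg (by rwa [Finset.mem_singleton])]
  rw [h3] at h2
  apply hN
  rw [← coeff_cut a M N, h2, coeff_zero]

theorem hom_aeval {F : Type} [Field F] {k : ℕ} {f : Fin k → MvPolynomial (Fin k) F}
    {dg : Fin k → ℕ} (hf : ∀ a, (f a).IsHomogeneous (dg a)) {P : MvPolynomial (Fin k) F} {W : ℕ}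
    (hP : P.IsWeightedHomogeneous dg W) : (aeval f P).IsHomogeneous W := by
  rw [MvPolynomial.aeval_def, MvPolynomial.eval₂_eq']
  apply MvPolynomial.IsHomogeneous.sum
  intro d hd
  have h1 : ∑ a, dg a * d a = W := by
    have := hP (mem_support_iff.1 hd)
    rw [Finsupp.weight_eq_sum] at this
    rw [← this]
    exact Finset.sum_congr rfl fun a _ => by rw [smul_eq_mul, mul_comm]
  have h2 : (∏ i, f i ^ d i).IsHomogeneous (∑ a, dg a * d a) :=
    MvPolynomial.IsHomogeneous.prod _ _ _ fun a _ => (hf a).pow (d a)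
  rw [h1] at h2
  have h3 := (MvPolynomial.isHomogeneous_C (Fin k) (coeff d P)).mul h2
  rw [zero_add] at h3
  exact h3

theorem hom_cut {F : Type} [Field F] {k : ℕ} {Q : Fin k → MvPolynomial (Fin k) F}
    {dg : Fin k → ℕ} (hf : ∀ a, (Q a).IsHomogeneous (dg a)) (T : Finset (Fin k)) (a : Fin k) :
    (cut T Q a).IsHomogeneous (dg a) := by
  unfold cut
  split
  · exact hf a
  · exact MvPolynomial.isHomogeneous_zero _ _ _

theorem sard_hom {F : Type} [Field F] {N r : ℕ} {Q : Fin N → MvPolynomial (Fin N) F}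
    {dg : Fin N → ℕ} {m : Fin N → Fin r → ℤ} {e : MvPolynomial (Fin N) F}
    (h : Sard Q dg m e) : ∃ W, e.IsWeightedHomogeneous dg W := by
  obtain ⟨j, hj⟩ := (MvPolynomial.support_nonempty.2 h.ne)
  refine ⟨∑ a, j a * dg a, ?_⟩
  intro d hd
  have h1 := (h.coset d (mem_support_iff.2 hd) j hj).1
  rw [Finsupp.weight_eq_sum]
  have h2 : (∑ a, (d a : ℤ) * dg a) = ∑ a, (j a : ℤ) * dg a := by
    rw [← sub_eq_zero, ← Finset.sum_sub_distrib, ← h1]
    exact Finset.sum_congr rfl fun a _ => by ring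
  have h3 : ((∑ a, d a * dg a : ℕ) : ℤ) = ((∑ a, j a * dg a : ℕ) : ℤ) := by
    push_cast
    exact h2
  exact_mod_cast h3

/-! ### The map `vq` -/

theorem vq_mul {F s : Type} {K R : Type} [Field F] [Field K] [CommRing R] [Algebra F K]
    [Algebra K R] (q : s → R) (P P' : MvPolynomial s F) :
    vq K q (P * P') = vq K q P * vq K q P' := by
  unfold vq bc
  rw [map_mul, map_mul]

theorem vq_prod {F s : Type} {K R : Type} [Field F] [Field K] [CommRing R] [Algebra F K]
    [Algebra K R] (q : s → R) {ι : Type} (S : Finset ι) (P : ι → MvPolynomial s F) :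
    vq K q (∏ i ∈ S, P i) = ∏ i ∈ S, vq K q (P i) := by
  unfold vq bc
  rw [map_prod, map_prod]

/-! ### The group of relations -/

section

variable {K R : Type} [Field K] [CommRing R] [IsDomain R] [Algebra K R]

omit [IsDomain R] in
theorem InK_mul {x y : R} (hx : InK K x) (hy : InK K y) : InK K (x * y) := by
  obtain ⟨a, rfl⟩ := hx
  obtain ⟨b, rfl⟩ := hy
  exact ⟨a * b, (map_mul _ _ _).symm⟩

theorem InK_inv {x : Rˣ} (hx : InK K (x : R)) : InK K ((x⁻¹ : Rˣ) : R) := by
  obtain ⟨a, ha⟩ := hx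
  refine ⟨a⁻¹, ?_⟩
  have ha0 : a ≠ 0 := by
    rintro rfl
    rw [map_zero] at ha
    exact x.ne_zero ha
  have h1 : (x : R) * algebraMap K R a⁻¹ = 1 := by
    rw [ha, ← map_mul, mul_inv_cancel₀ ha0, map_one]
  calc ((x⁻¹ : Rˣ) : R) = ((x⁻¹ : Rˣ) : R) * ((x : R) * algebraMap K R a⁻¹) := by
        rw [h1, mul_one]
    _ = algebraMap K R a⁻¹ := by rw [← mul_assoc, Units.inv_mul, one_mul]

/-- the group of exponents of small products -/
def La {n : ℕ} (u : Fin n → Rˣ) : AddSubgroup (Fin n → ℤ) where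
  carrier := {v | InK K ((∏ a, u a ^ v a : Rˣ) : R)}
  zero_mem' := by
    refine ⟨1, ?_⟩
    simp
  add_mem' := by
    intro v w hv hw
    have h := InK_mul hv hw
    have e : ((∏ a, u a ^ v a : Rˣ) : R) * ((∏ a, u a ^ w a : Rˣ) : R) =
        ((∏ a, u a ^ (v + w) a : Rˣ) : R) := by
      rw [← Units.val_mul, ← Finset.prod_mul_distrib]
      congr 1
      exact Finset.prod_congr rfl fun a _ => (zpow_add _ _ _).symm
    rw [e] at h
    exact h
  neg_mem' := by
    intro v hv
    have h := InK_inv hv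
    have e : (∏ a, u a ^ v a : Rˣ)⁻¹ = ∏ a, u a ^ (-v) a := by
      rw [← Finset.prod_inv_distrib]
      exact Finset.prod_congr rfl fun a _ => (zpow_neg _ _).symm
    rw [e] at h
    exact h

theorem La_sat {F : Type} [Field F] [Algebra F K] {dl : Derivation ℤ K K}
    {dR : Derivation ℤ R R} (hnr : NR F K R dl dR) {n : ℕ} (u : Fin n → Rˣ) (v : Fin n → ℤ)
    (N : ℤ) (hN : N ≠ 0) (h : N • v ∈ La (K := K) u) : v ∈ La (K := K) u := by
  have h' : (N.natAbs : ℤ) • v ∈ La (K := K) u := by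
    rcases Int.natAbs_eq N with h1 | h1
    · rw [← h1]; exact h
    · have h2 := (La (K := K) u).neg_mem h
      rw [h1, ← neg_smul, neg_neg] at h2
      exact h2
  have h3 : InK K ((∏ a, u a ^ ((N.natAbs : ℤ) • v) a : Rˣ) : R) := h'
  have e : (∏ a, u a ^ ((N.natAbs : ℤ) • v) a : Rˣ) = (∏ a, u a ^ v a) ^ N.natAbs := by
    rw [← Finset.prod_pow]
    refine Finset.prod_congr rfl fun a _ => ?_
    rw [Pi.smul_apply, smul_eq_mul, mul_comm, zpow_mul, zpow_natCast]
  rw [e, Units.val_pow_eq_pow_val] at h3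
  exact hnr.root _ N.natAbs (Int.natAbs_ne_zero.2 hN) h3

end

theorem zsum {G : Type} [CommGroup G] {ι : Type} (x : G) (s : Finset ι) (f : ι → ℤ) :
    ∏ l ∈ s, x ^ f l = x ^ (∑ l ∈ s, f l) := by
  classical
  induction s using Finset.induction_on with
  | empty => rw [Finset.prod_empty, Finset.sum_empty, zpow_zero]
  | insert a s ha ih => rw [Finset.prod_insert ha, Finset.sum_insert ha, ih, zpow_add]

theorem prod_tau {G : Type} [CommGroup G] {n r : ℕ} (u : Fin n → G) (b : Fin r → Fin n → ℤ)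
    (j : Fin r → ℤ) : ∏ l, (∏ a, u a ^ b l a) ^ j l = ∏ a, u a ^ (∑ l, j l * b l a) := by
  have e : ∀ l, (∏ a, u a ^ b l a) ^ j l = ∏ a, u a ^ (j l * b l a) := by
    intro l
    rw [← Finset.prod_zpow]
    refine Finset.prod_congr rfl fun a _ => ?_
    rw [mul_comm, zpow_mul]
  rw [Finset.prod_congr rfl fun l _ => e l, Finset.prod_comm]
  exact Finset.prod_congr rfl fun a _ => zsum _ _ _

theorem kap_ex {K R : Type} [Field K] [CommRing R] [IsDomain R] [Algebra K R] {n r : ℕ}
    (u : Fin n → Rˣ) (m : Fin n → Fin r → ℤ) (b : Fin r → Fin n → ℤ)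
    (hbm : ∀ l l', ∑ a, b l a * m a l' = if l = l' then 1 else 0)
    (h : ∀ v : Fin n → ℤ, (∀ l, ∑ a, v a * m a l = 0) → v ∈ La (K := K) u) (a : Fin n) :
    ∃ k : K, k ≠ 0 ∧ (u a : R) = algebraMap K R k *
      ((∏ l, (∏ c, u c ^ b l c) ^ m a l : Rˣ) : R) := by
  classical
  set v : Fin n → ℤ := fun c => (if c = a then 1 else 0) - ∑ l, m a l * b l c with hv
  have h1 : v ∈ La (K := K) u := by
    apply h
    intro l'
    simp only [hv, sub_mul, Finset.sum_sub_distrib, ite_mul, one_mul, zero_mul,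
      Finset.sum_ite_eq', Finset.mem_univ, if_true]
    have e : ∑ c, (∑ l, m a l * b l c) * m c l' = m a l' := by
      calc ∑ c, (∑ l, m a l * b l c) * m c l' = ∑ c, ∑ l, m a l * (b l c * m c l') := by
            refine Finset.sum_congr rfl fun c _ => ?_
            rw [Finset.sum_mul]
            exact Finset.sum_congr rfl fun l _ => mul_assoc _ _ _
        _ = ∑ l, m a l * ∑ c, b l c * m c l' := by
            rw [Finset.sum_comm]
            exact Finset.sum_congr rfl fun l _ => (Finset.mul_sum _ _ _).symm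
        _ = m a l' := by
            rw [Finset.sum_congr rfl fun l _ => by rw [hbm l l']]
            simp
    rw [e, sub_self]
  obtain ⟨k, hk⟩ : InK K ((∏ c, u c ^ v c : Rˣ) : R) := h1
  have hk0 : k ≠ 0 := by
    rintro rfl
    rw [map_zero] at hk
    exact (∏ c, u c ^ v c : Rˣ).ne_zero hk
  refine ⟨k, hk0, ?_⟩
  rw [← hk, ← Units.val_mul]
  congr 1
  rw [prod_tau]
  rw [← Finset.prod_mul_distrib]
  have e : ∀ c, u c ^ v c * u c ^ (∑ l, m a l * b l c) = if c = a then u c else 1 := by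
    intro c
    rw [← zpow_add, hv]
    simp only [sub_add_cancel]
    split
    · rw [zpow_one]
    · rw [zpow_zero]
  rw [Finset.prod_congr rfl fun c _ => e c, Finset.prod_ite_eq']
  simp

/-! ### Means -/

section

variable {K R Om F : Type} [Field F] [Field K] [CommRing R] [IsDomain R] [Algebra F K]
  [Algebra K R] {dl : Derivation ℤ K K} {dR : Derivation ℤ R R}
  {A : Submodule ℝ (Om → ℝ)} {E : (Om → ℝ) →ₗ[ℝ] ℝ} {x : R → Om → ℝ}

theorem E_add_abs (_hx : NRV F K R Om dl dR A E x) (hv : VF (K := K) dR A E x) {v w : Om → ℝ}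
    (hvA : v ∈ A) (hwA : w ∈ A) : E |v| ≤ E |v - w| + E |w| := by
  rw [← map_add]
  apply hv.mono _ (hv.abs _ hvA) _ (A.add_mem (hv.abs _ (A.sub_mem hvA hwA)) (hv.abs _ hwA))
  intro o
  simp only [Pi.abs_apply, Pi.add_apply, Pi.sub_apply]
  have := abs_add_le (v o - w o) (w o)
  rwa [sub_add_cancel] at this

omit [IsDomain R] in
theorem E_sum_abs (hv : VF (K := K) dR A E x) {ι : Type} (s : Finset ι) (c : ι → ℝ)
    (f : ι → Om → ℝ) (hf : ∀ i ∈ s, f i ∈ A) :
    E |∑ i ∈ s, c i • f i| ≤ ∑ i ∈ s, |c i| * E |f i| := by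
  have h1 : ∑ i ∈ s, |c i| * E |f i| = E (∑ i ∈ s, |c i| • |f i|) := by
    rw [map_sum]
    exact Finset.sum_congr rfl fun i _ => by rw [map_smul, smul_eq_mul]
  rw [h1]
  apply hv.mono _ (hv.abs _ (A.sum_mem fun i hi => A.smul_mem _ (hf i hi))) _
    (A.sum_mem fun i hi => A.smul_mem _ (hv.abs _ (hf i hi)))
  intro o
  simp only [Pi.abs_apply, Finset.sum_apply, Pi.smul_apply, smul_eq_mul]
  refine (Finset.abs_sum_le_sum_abs _ _).trans ?_
  exact Finset.sum_le_sum fun i _ => by rw [abs_mul]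

theorem E_tau (hx : NRV F K R Om dl dR A E x) (hv : VF (K := K) dR A E x) {n : ℕ}
    (u : Fin n → Rˣ) (b : Fin n → ℤ) :
    E |x ((∏ a, u a ^ b a : Rˣ) : R)| ≤ ∑ a, |(b a : ℝ)| * E |x (u a : R)| := by
  have h1 := hv.mon n u b 1 one_ne_zero
  rw [map_one, one_mul] at h1
  have h2 : (∑ l, (b l : ℝ) • x (u l : R)) ∈ A :=
    A.sum_mem fun l _ => A.smul_mem _ (hx.mem _ (u l).ne_zero)
  have h3 := E_add_abs hx hv (hx.mem _ (∏ a, u a ^ b a : Rˣ).ne_zero) h2
  rw [h1, zero_add] at h3
  exact h3.trans (E_sum_abs hv _ _ _ fun l _ => hx.mem _ (u l).ne_zero)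

theorem small (hx : NRV F K R Om dl dR A E x) (hv : VF (K := K) dR A E x) {f : R} (hf : f ≠ 0)
    (h : E |x f| ≤ 0) : InK K f := by
  apply hx.sml f hf
  unfold Bl
  rw [sub_zero]
  apply le_antisymm
  · refine le_trans ?_ h
    apply hv.mono _ (hv.pp _ (hx.mem f hf)) _ (hv.abs _ (hx.mem f hf))
    intro o
    exact sup_le (le_abs_self _) (abs_nonneg _)
  · exact hx.pos _ (hv.pp _ (hx.mem f hf)) le_sup_right

end

/-- extension by zero -/
def xt {n r : ℕ} (m : Fin n → Fin r → ℤ) : Fin (n + 1) → Fin r → ℤ :=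
  Fin.snoc (α := fun _ => Fin r → ℤ) m 0

theorem xt_cast {n r : ℕ} (m : Fin n → Fin r → ℤ) (a : Fin n) : xt m (Fin.castSucc a) = m a :=
  Fin.snoc_castSucc (α := fun _ => Fin r → ℤ) 0 m a

theorem xt_last {n r : ℕ} (m : Fin n → Fin r → ℤ) : xt m (Fin.last n) = 0 :=
  Fin.snoc_last (α := fun _ => Fin r → ℤ) 0 m

/-- the constant -/
def Cb {n r : ℕ} (dg : Fin (n + 1) → ℕ) (b : Fin r → Fin n → ℤ) : ℝ :=
  ∑ l, ∑ a, |(b l a : ℝ)| * (2 * dg (Fin.castSucc a))

theorem Cb_nonneg {n r : ℕ} (dg : Fin (n + 1) → ℕ) (b : Fin r → Fin n → ℤ) : 0 ≤ Cb dg b :=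
  Finset.sum_nonneg fun l _ => Finset.sum_nonneg fun a _ => by positivity

theorem Ind_mono {K R : Type} [Field K] [CommRing R] [Algebra K R] {r : ℕ} {tau : Fin r → Rˣ}
    {B B' : ℕ} (h : Ind K tau B) (hB : B' ≤ B) : Ind K tau B' := fun j hj hl =>
  h j hj fun l => (hl l).trans (by exact_mod_cast hB)

end PT5Rx

open PT5Rx in
theorem T5R_proof (h1 : S_VB) (h2 : S_Int) (h3 : S_NJ) (h4 : S_Sard) (h5 : S_Cpr) (h6 : S_Gcd)
    (h7 : S_Lat) (h8 : S_LB) : S_T5R := by
  classical
  intro F _ _ n Q dg hNC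
  obtain ⟨-, -, hAI, -⟩ := h2 F n Q dg hNC
  obtain ⟨N, Js, W, g, Mx, hNJ⟩ := h3 F n Q dg hNC
  have h5' := h5 F n Q dg hNC N Js W g Mx hNJ
  choose d0 hd0 using fun (r : ℕ) (m : Fin n → Fin r → ℤ) => h5' r (xt m)
  have heta : ∀ (r : ℕ) (b : Fin r → Fin n → ℤ), 0 < 1 / (2 * (Cb dg b + 1)) := fun r b => by
    have := Cb_nonneg dg b
    positivity
  choose B1 hB1 using fun (r : ℕ) (m : Fin n → Fin r → ℤ) (b : Fin r → Fin n → ℤ) =>
    h6 r (d0 r m) (1 / (2 * (Cb dg b + 1))) (heta r b)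
  obtain ⟨I, hI, r, m, b, hbm, hLa⟩ := h7 n fun r m b => max (d0 r m) (B1 r m b)
  choose e he using fun i => h4 F (n + 1) Q dg hNC.hom (r i) (xt (m i))
  have hw : ∃ We : I → ℕ, ∀ i, (e i).IsWeightedHomogeneous dg (We i) :=
    ⟨fun i => (sard_hom (he i)).choose, fun i => (sard_hom (he i)).choose_spec⟩
  obtain ⟨We, hWe⟩ := hw
  set ST : Finset (Finset (Fin (n + 1))) := Finset.univ.filter fun T => T.Nonempty with hST
  refine ⟨(∏ T ∈ ST, aeval (cut T Q) N) * ∏ i, aeval Q (e i), ∑ T ∈ ST, W + ∑ i, We i, ?_, ?_, ?_⟩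
  · apply mul_ne_zero
    · rw [Finset.prod_ne_zero_iff]
      intro T hT
      obtain ⟨a, ha⟩ := (Finset.mem_filter.1 hT).2
      exact cut_ne hAI (hNJ.pure a) ha
    · rw [Finset.prod_ne_zero_iff]
      intro i _ h0
      apply (he i).ne
      apply hAI
      rw [h0, map_zero]
  · apply MvPolynomial.IsHomogeneous.mul
    · exact MvPolynomial.IsHomogeneous.prod _ _ _ fun T _ =>
        hom_aeval (fun a => hom_cut hNC.hom T a) hNJ.hom
    · exact MvPolynomial.IsHomogeneous.prod _ _ _ fun i _ => hom_aeval hNC.hom (hWe i)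
  · intro K R Om _ _ _ _ _ dl dR A E x hx q hu hq1 hB
    have hK0 : CharZero K := charZero_of_injective_algebraMap (algebraMap F K).injective
    rw [vq_mul, vq_prod, vq_prod] at hB
    have hT : ∀ T : Finset (Fin (n + 1)), T.Nonempty → vq K q (aeval (cut T Q) N) ≠ 0 := by
      intro T hT
      exact Finset.prod_ne_zero_iff.1 (left_ne_zero_of_mul hB) T
        (Finset.mem_filter.2 ⟨Finset.mem_univ _, hT⟩)
    have hei : ∀ i, vq K q (aeval Q (e i)) ≠ 0 := fun i =>
      Finset.prod_ne_zero_iff.1 (right_ne_zero_of_mul hB) i (Finset.mem_univ _)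
    have hNN : vq K q (aeval Q N) ≠ 0 := by
      have := hT Finset.univ ⟨Fin.last n, Finset.mem_univ _⟩
      have e1 : cut Finset.univ Q = Q := by
        funext a
        unfold cut
        rw [if_pos (Finset.mem_univ _)]
      rwa [e1] at this
    obtain ⟨hJ, hXA, hXJ, hYX⟩ := h8 F n Q dg hNC N Js W g Mx hNJ K R Om dl dR A E x hx q hu hq1 hT
    have hv := h1 F K R Om dl dR A E x hx
    set u : Fin n → Rˣ := fun a => (hu (Fin.castSucc a)).unit with hudef
    have huv : ∀ a, (u a : R) = vq K q (Q (Fin.castSucc a)) := fun a => IsUnit.unit_spec _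
    obtain ⟨i, hi1, hi2⟩ := hLa (La (K := K) u) (La_sat hx.nr u)
    set tau : Fin (r i) → Rˣ := fun l => ∏ c, u c ^ b i l c with htau
    choose k hk0 hk using fun a => kap_ex (K := K) u (m i) (b i) (hbm i) hi1 a
    have hInd : Ind K tau (max (d0 (r i) (m i)) (B1 (r i) (m i) (b i))) := by
      intro j hj hl hin
      apply hi2 j hj hl
      show InK K ((∏ a, u a ^ (∑ l, j l * b i l a) : Rˣ) : R)
      rw [← prod_tau]
      exact hin
    set kap : Fin (n + 1) → K := Fin.snoc (α := fun _ => K) k 1 with hkap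
    have hkap0 : ∀ a, kap a ≠ 0 := by
      intro a
      refine Fin.lastCases ?_ (fun a => ?_) a
      · rw [hkap, Fin.snoc_last]; exact one_ne_zero
      · rw [hkap, Fin.snoc_castSucc]; exact hk0 a
    have hmo : ∀ a, vq K q (Q a) = mo kap (xt (m i)) tau a := by
      intro a
      refine Fin.lastCases ?_ (fun a => ?_) a
      · rw [hq1]
        unfold mo
        rw [hkap, Fin.snoc_last, map_one, xt_last, one_mul]
        simp
      · rw [← huv, hk a]
        unfold mo
        rw [hkap, Fin.snoc_castSucc, xt_cast]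
    obtain ⟨P, P', hP, hP', hPP, hdP, hdP', hJP, hJP'⟩ := hd0 (r i) (m i) (e i) (he i) K R dl dR
      hx.nr q kap tau hkap0 hmo (Ind_mono hInd (le_max_left _ _)) (hei i) hNN
    have hG := hB1 (r i) (m i) (b i) F K R Om dl dR A E x hx tau
      (Ind_mono hInd (le_max_right _ _)) P P' hP hP' hPP hdP hdP' _ hJ hJP hJP'
    set EX : ℝ := E (XX x dg fun a => vq K q (Q a)) with hEX
    have hC := Cb_nonneg dg (b i)
    have hS : ∑ l, E |x (tau l : R)| ≤ Cb dg (b i) * EX := by
      unfold Cb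
      rw [Finset.sum_mul]
      refine Finset.sum_le_sum fun l _ => ?_
      refine (E_tau hx hv u (b i l)).trans ?_
      rw [Finset.sum_mul]
      refine Finset.sum_le_sum fun a _ => ?_
      rw [mul_assoc]
      apply mul_le_mul_of_nonneg_left _ (abs_nonneg _)
      rw [huv]
      exact hYX _
    have hne : ∀ a, vq K q (Q a) ≠ 0 := fun a => (hu a).ne_zero
    have hEX0 : 0 ≤ EX := by
      have h9 := hYX (Fin.last n)
      have h10 : 0 ≤ E |x (vq K q (Q (Fin.last n)))| :=
        hx.pos _ (hv.abs _ (hx.mem _ (hne _))) (abs_nonneg _)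
      have h11 : (1 : ℝ) ≤ dg (Fin.last n) := by exact_mod_cast hNC.pos _
      by_contra hcon
      push Not at hcon
      have : 2 * (dg (Fin.last n) : ℝ) * EX < 0 := mul_neg_of_pos_of_neg (by positivity) hcon
      linarith
    have hEX1 : EX ≤ 0 := by
      have h12 : E (x (vq K q (Jac Q))) ≤ 1 / (2 * (Cb dg (b i) + 1)) * (Cb dg (b i) * EX) :=
        hG.trans (mul_le_mul_of_nonneg_left hS (heta _ _).le)
      have h13 : 1 / (2 * (Cb dg (b i) + 1)) * (Cb dg (b i) * EX) ≤ 1 / 2 * EX := by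
        rw [← mul_assoc]
        apply mul_le_mul_of_nonneg_right _ hEX0
        rw [div_mul_eq_mul_div, one_mul, div_le_iff₀ (by positivity)]
        linarith
      linarith
    intro a
    apply small hx hv (hne a)
    refine (hYX a).trans ?_
    exact mul_nonpos_of_nonneg_of_nonpos (by positivity) hEX1

end

end Pool.Agent.Work.MP_6d7a54_an.NG
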