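import Pool.Agent.Work.MP_6d7a54_an.NG.StmtsG

/-!
# Block NG: transfer of the normal crossing condition to all extension fields (MP_6d7a54_an)
-/

set_option autoImplicit false

namespace Pool.Agent.Work.MP_6d7a54_an.NG

open MvPolynomial

namespace PTrx

lemma key {F s : Type} [Finite s] [Field F] [Algebra F ℂ] {Om : Type} [Field Om] [Algebra F Om]
    (S : Set (MvPolynomial s F)) (w : s → Om) (hw : w ≠ 0)
    (h : ∀ p ∈ S, aeval w p = 0) :
    ∃ w' : s → ℂ, w' ≠ 0 ∧ ∀ p ∈ S, aeval w' p = 0 := by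
  by_contra hcon
  push Not at hcon
  apply hw
  funext j
  have h1 : (X j : MvPolynomial s F) ∈ (Ideal.span S).radical := by
    rw [← vanishingIdeal_zeroLocus_eq_radical (K := ℂ), mem_vanishingIdeal_iff]
    intro x hx
    rw [zeroLocus_span] at hx
    have hx0 : x = 0 := by
      by_contra hne
      obtain ⟨p, hp, hpx⟩ := hcon x hne
      exact hpx (hx p hp)
    rw [hx0, aeval_X]
    rfl
  obtain ⟨n, hn⟩ := h1
  have h2 : Ideal.span S ≤ RingHom.ker (aeval w : MvPolynomial s F →ₐ[F] Om) :=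
    Ideal.span_le.2 fun p hp => h p hp
  have h3 := h2 hn
  rw [RingHom.mem_ker, map_pow, aeval_X] at h3
  exact eq_zero_of_pow_eq_zero h3

end PTrx

open PTrx

theorem Tr_proof : S_Tr := by
  intro F _ _ _ _ n Q dg hom pos deg n1
  refine ⟨hom, pos, deg, ?_⟩
  intro Om _ _ w hw a h1 h2
  obtain ⟨w', hw', hS⟩ := key ({p | (∃ b, b ≠ a ∧ p = Q b) ∨ p = Jac Q}) w hw (by
    rintro p (⟨b, hb, rfl⟩ | rfl)
    · exact h1 b hb
    · exact h2)
  exact n1 w' hw' a (fun b hb => hS _ (Or.inl ⟨b, hb, rfl⟩)) (hS _ (Or.inr rfl))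

end Pool.Agent.Work.MP_6d7a54_an.NG
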