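import Pool.Agent.Work.MP_6d7a54_an.NG.Stmts

/-!
# Item P_Un: units modulo small units
-/

set_option autoImplicit false

namespace Pool.Agent.Work.MP_6d7a54_an.NG

open Pool.Agent.Work.MP_6d7a54_an.NF (NR InK IsNev)

namespace PUnx

/-- a finitely generated group modulo a subgroup with torsion free quotient -/
theorem gen {U : Type} [CommGroup U] (H : Subgroup U)
    (htf : ∀ (u : U) (n : ℕ), n ≠ 0 → u ^ n ∈ H → u ∈ H) (N : ℕ) (y : Fin N → U) :
    ∃ (r : ℕ) (g : Fin r → U) (m : Fin N → Fin r → ℤ),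
      (∀ a, ∃ h ∈ H, y a = h * ∏ l, g l ^ (m a l)) ∧
      ∀ j : Fin r → ℤ, j ≠ 0 → ∏ l, g l ^ (j l) ∉ H := by
  classical
  have hT : IsAddTorsionFree (Additive (U ⧸ H)) := by
    refine ⟨fun n hn a b hab => ?_⟩
    obtain ⟨u, hu⟩ := QuotientGroup.mk_surjective (Additive.toMul a)
    obtain ⟨v, hv⟩ := QuotientGroup.mk_surjective (Additive.toMul b)
    have h1 : (QuotientGroup.mk u : U ⧸ H) ^ n = (QuotientGroup.mk v) ^ n := by
      rw [hu, hv]
      exact hab
    have h2 : (v⁻¹ * u) ∈ H := by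
      refine htf _ n hn ?_
      rw [← QuotientGroup.eq_one_iff, QuotientGroup.mk_pow, QuotientGroup.mk_mul,
        QuotientGroup.mk_inv, mul_pow, h1, inv_pow, inv_mul_cancel]
    have h3 : (QuotientGroup.mk v : U ⧸ H) = QuotientGroup.mk u := QuotientGroup.eq.2 h2
    have h4 : Additive.toMul a = Additive.toMul b := by rw [← hu, ← hv, h3]
    exact Additive.toMul.injective h4
  obtain ⟨S, hS⟩ : ∃ S : Submodule ℤ (Additive (U ⧸ H)), S = Submodule.span ℤ
      (Set.range fun a => Additive.ofMul (QuotientGroup.mk (y a) : U ⧸ H)) := ⟨_, rfl⟩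
  have hSf : Module.Finite ℤ S := by
    rw [hS]
    exact Module.Finite.span_of_finite _ (Set.finite_range _)
  have hSfree : Module.Free ℤ S := Module.free_of_finite_type_torsion_free'
  let b := Module.finBasis ℤ S
  have hg : ∀ l, ∃ u : U, Additive.ofMul (QuotientGroup.mk u : U ⧸ H) = (b l : Additive (U ⧸ H)) := by
    intro l
    obtain ⟨u, hu⟩ := QuotientGroup.mk_surjective (Additive.toMul (b l : Additive (U ⧸ H)))
    exact ⟨u, by rw [hu]; rfl⟩
  choose g hg using hg
  have hprod : ∀ c : Fin (Module.finrank ℤ S) → ℤ,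
      ((∑ l, c l • b l : S) : Additive (U ⧸ H)) =
        Additive.ofMul (QuotientGroup.mk (∏ l, g l ^ (c l)) : U ⧸ H) := by
    intro c
    have h1 : (QuotientGroup.mk (∏ l, g l ^ (c l)) : U ⧸ H) =
        ∏ l, (QuotientGroup.mk (g l) : U ⧸ H) ^ (c l) := by
      have h2 := map_prod (QuotientGroup.mk' H) (fun l => g l ^ (c l)) Finset.univ
      exact h2
    rw [h1, ofMul_prod, AddSubmonoidClass.coe_finsetSum]
    refine Finset.sum_congr rfl fun l _ => ?_
    rw [ofMul_zpow, hg, Submodule.coe_smul]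
  refine ⟨Module.finrank ℤ S, g, fun a l => b.repr ⟨Additive.ofMul (QuotientGroup.mk (y a)), by
    rw [hS]
    exact Submodule.subset_span ⟨a, rfl⟩⟩ l, ?_, ?_⟩
  · intro a
    set c : S := ⟨Additive.ofMul (QuotientGroup.mk (y a)), by
      rw [hS]
      exact Submodule.subset_span ⟨a, rfl⟩⟩ with hc
    have h1 := hprod (fun l => b.repr c l)
    rw [b.sum_repr c] at h1
    have h2 : (QuotientGroup.mk (y a) : U ⧸ H) =
        QuotientGroup.mk (∏ l, g l ^ (b.repr c l)) := Additive.ofMul.injective h1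
    have h3 := QuotientGroup.eq.1 h2
    refine ⟨y a * (∏ l, g l ^ (b.repr c l))⁻¹, ?_, (inv_mul_cancel_right (y a)
      (∏ l, g l ^ (b.repr c l))).symm⟩
    have h4 := H.inv_mem h3
    have h5 : ((y a)⁻¹ * ∏ l, g l ^ (b.repr c l))⁻¹ =
        y a * (∏ l, g l ^ (b.repr c l))⁻¹ := by
      rw [mul_inv_rev, inv_inv, mul_comm]
    rwa [h5] at h4
  · intro j hj hmem
    apply hj
    have h1 := hprod j
    rw [(QuotientGroup.eq_one_iff _).2 hmem, ofMul_one] at h1
    have h2 : ∑ l, j l • b l = 0 := Subtype.ext h1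
    funext l
    exact Fintype.linearIndependent_iff.1 b.linearIndependent j h2 l

end PUnx

theorem Un_proof : S_Un := by
  intro F K R _ _ _ _ _ _ dl dR hNR N y
  -- the subgroup of the small units
  have hne : ∀ (u : Rˣ) (b : K), (u : R) = algebraMap K R b → b ≠ 0 := by
    rintro u b h rfl
    rw [map_zero] at h
    exact u.ne_zero h
  let H : Subgroup Rˣ :=
    { carrier := {u | InK K (u : R)}
      mul_mem' := by
        rintro u v ⟨a, ha⟩ ⟨b, hb⟩
        exact ⟨a * b, by rw [Units.val_mul, ha, hb, map_mul]⟩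
      one_mem' := ⟨1, by rw [Units.val_one, map_one]⟩
      inv_mem' := by
        rintro u ⟨a, ha⟩
        refine ⟨a⁻¹, ?_⟩
        have ha0 := hne u a ha
        have h1 : (u : R) * algebraMap K R a⁻¹ = 1 := by
          rw [ha, ← map_mul, mul_inv_cancel₀ ha0, map_one]
        exact (left_inv_eq_right_inv (Units.inv_mul u) h1) }
  have hH : ∀ u : Rˣ, u ∈ H ↔ InK K (u : R) := fun u => Iff.rfl
  obtain ⟨r, g, m, h1, h2⟩ := PUnx.gen H (by
    intro u n hn hu
    rw [hH] at hu ⊢
    rw [Units.val_pow_eq_pow_val] at hu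
    exact hNR.root _ n hn hu) N y
  choose h hH' hy using h1
  choose kap hkap using fun a => (hH (h a)).1 (hH' a)
  refine ⟨r, g, kap, m, fun a => hne (h a) (kap a) (hkap a), fun a => ?_, fun j hj hK => ?_⟩
  · unfold mo
    rw [← hkap a, ← Units.val_mul, ← hy a]
  · exact h2 j hj ((hH _).2 hK)

end Pool.Agent.Work.MP_6d7a54_an.NG
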