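import Mathlib
import Pool.Agent.Work.MP_6d7a54_an.NG.Stmts

/-!
# Completion of a vector
-/

set_option autoImplicit false

namespace Pool.Agent.Work.MP_6d7a54_an.NG

namespace PUnix

open Module

/-- projection to the coordinates different from `f0` -/
theorem main (r : ℕ) (bM : Basis (Fin (r + 1)) ℤ (Fin (r + 1) → ℤ)) (f0 : Fin (r + 1)) :
    ∃ (mu : (Fin (r + 1) → ℤ) →ₗ[ℤ] (Fin r → ℤ)) (nu : (Fin r → ℤ) →ₗ[ℤ] (Fin (r + 1) → ℤ)),
    (∀ v, mu (nu v) = v) ∧ ∀ v, mu v = 0 → v = bM.repr v f0 • bM f0 := by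
  classical
  refine ⟨LinearMap.pi fun l => (Finsupp.lapply (f0.succAbove l)) ∘ₗ bM.repr.toLinearMap,
    Fintype.linearCombination ℤ (fun l => bM (f0.succAbove l)), ?_, ?_⟩
  · intro v
    funext l
    simp only [LinearMap.pi_apply, LinearMap.comp_apply, Fintype.linearCombination_apply,
      map_sum, map_smul, LinearEquiv.coe_coe, Basis.repr_self, Finsupp.lapply_apply,
      Finsupp.smul_single, smul_eq_mul, mul_one]
    simp [Finsupp.single_apply]
  · intro v hv
    have h1 : ∀ i, i ≠ f0 → bM.repr v i = 0 := by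
      intro i hi
      obtain ⟨l, rfl⟩ := Fin.exists_succAbove_eq hi
      exact congrFun hv l
    conv_lhs => rw [← bM.sum_repr v]
    rw [Finset.sum_eq_single f0]
    · intro i _ hi
      rw [h1 i hi, zero_smul]
    · intro h
      exact absurd (Finset.mem_univ _) h

end PUnix

open PUnix in
theorem Uni_proof : S_Uni := by
  intro r j hj
  obtain ⟨n, bM, bN, f, a, snf⟩ :=
    Submodule.smithNormalForm (Pi.basisFun ℤ (Fin (r + 1))) (Submodule.span ℤ {j})
  have hn : 0 < n := by
    rcases Nat.eq_zero_or_pos n with h | h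
    · exfalso
      subst h
      apply hj
      have hmem : j ∈ Submodule.span ℤ {j} := Submodule.mem_span_singleton_self j
      have h1 : (⟨j, hmem⟩ : Submodule.span ℤ {j}) = 0 := by
        rw [← bN.sum_repr ⟨j, hmem⟩]
        simp
      exact congrArg Subtype.val h1
    · exact h
  let i0 : Fin n := ⟨0, hn⟩
  obtain ⟨mu, nu, h1, h2⟩ := main r bM (f i0)
  refine ⟨mu, nu, h1, ?_⟩
  intro v hv
  have h3 := h2 v hv
  obtain ⟨z, hz⟩ := Submodule.mem_span_singleton.mp (bN i0).2
  have ha : a i0 ≠ 0 := by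
    intro h0
    have h4 := snf i0
    rw [h0, zero_smul] at h4
    exact bN.ne_zero i0 (Subtype.ext h4)
  refine ⟨a i0, bM.repr v (f i0) * z, ha, ?_⟩
  conv_lhs => rw [h3]
  rw [smul_comm, ← snf i0, ← hz, smul_smul]

end Pool.Agent.Work.MP_6d7a54_an.NG
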