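import Pool.Agent.Work.MP_6d7a54_an.NG.Stmts

/-!
# Upper bound for the values of a form (MP_6d7a54_an)
-/

set_option autoImplicit false
set_option linter.unusedSectionVars false

namespace Pool.Agent.Work.MP_6d7a54_an.NG

open MvPolynomial
open Pool.Agent.Work.MP_6d7a54_an.NF (NR InK IsNev)

noncomputable section

namespace PUpx

section

variable {F K R Om : Type} [Field F] [Field K] [CommRing R] [IsDomain R] [Algebra F K]
  [Algebra K R] {dl : Derivation ℤ K K} {dR : Derivation ℤ R R}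
  {A : Submodule ℝ (Om → ℝ)} {E : (Om → ℝ) →ₗ[ℝ] ℝ} {x : R → Om → ℝ}

omit [IsDomain R] [Algebra F K] [Algebra K R] [Field F] [Field K] [CommRing R] in
theorem Bl_le {v w : Om → ℝ} (h : v ≤ w) : Bl E v w := by
  unfold Bl
  have : (v - w) ⊔ 0 = 0 := by
    apply sup_eq_right.2
    exact sub_nonpos.2 h
  rw [this, map_zero]

theorem Bl_abs (hN : NRV F K R Om dl dR A E x) (hv : VF (K := K) dR A E x) {v w : Om → ℝ}
    (hA : v ∈ A) (hB : w ∈ A) (h : E |v - w| = 0) : Bl E v w := by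
  unfold Bl
  have h1 : v - w ∈ A := A.sub_mem hA hB
  have h2 : (v - w) ⊔ 0 ∈ A := hv.pp _ h1
  have h3 : |v - w| ∈ A := hv.abs _ h1
  have h4 : (v - w) ⊔ 0 ≤ |v - w| := by
    intro o
    simp only [Pi.sup_apply, Pi.sub_apply, Pi.zero_apply, Pi.abs_apply]
    exact sup_le (le_abs_self _) (abs_nonneg _)
  have h5 := hv.mono _ h2 _ h3 h4
  have h6 := hN.pos _ h2 le_sup_right
  linarith

theorem Dm_pow (hv : VF (K := K) dR A E x) {f : R} {v : Om → ℝ} (hA : v ∈ A)
    (h : Dm E x f v) (k : ℕ) : Dm E x (f ^ k) ((k : ℝ) • v) := by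
  induction k with
  | zero =>
    have := hv.cst (1 : K)
    simpa using this
  | succ k ih =>
    have := hv.mul (f ^ k) f ((k : ℝ) • v) (A.smul_mem _ hA) v hA ih h
    rw [pow_succ]
    convert this using 1
    push_cast
    rw [add_smul, one_smul]

theorem Dm_prod (hv : VF (K := K) dR A E x) {ι : Type} (s : Finset ι) (f : ι → R)
    (v : ι → Om → ℝ) (hA : ∀ i, v i ∈ A) (h : ∀ i, Dm E x (f i) (v i)) :
    Dm E x (∏ i ∈ s, f i) (∑ i ∈ s, v i) := by
  classical
  induction s using Finset.induction_on with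
  | empty =>
    have := hv.cst (1 : K)
    simpa using this
  | insert i s hi ih =>
    rw [Finset.prod_insert hi, Finset.sum_insert hi]
    exact hv.mul _ _ _ (hA i) _ (A.sum_mem fun j _ => hA j) (h i) ih

theorem Dm_sum (hv : VF (K := K) dR A E x) {ι : Type} (s : Finset ι) (f : ι → R)
    (v : Om → ℝ) (hA : v ∈ A) (h : ∀ i ∈ s, Dm E x (f i) v) :
    Dm E x (∑ i ∈ s, f i) v := by
  classical
  induction s using Finset.induction_on with
  | empty =>
    simpa using hv.zero v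
  | insert i s hi ih =>
    rw [Finset.sum_insert hi]
    exact hv.add _ _ _ hA (h i (Finset.mem_insert_self i s))
      (ih fun j hj => h j (Finset.mem_insert_of_mem hj))

omit [IsDomain R] in
theorem vq_eq {s : Type} (q : s → R) (P : MvPolynomial s F) :
    vq K q P = eval₂Hom ((algebraMap K R).comp (algebraMap F K)) q P := by
  unfold vq bc
  rw [aeval_def, eval₂_map]
  rfl

omit [IsDomain R] in
theorem vq_aeval {s t : Type} (q : s → R) (Q : t → MvPolynomial s F) (P : MvPolynomial t F) :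
    vq K q (aeval Q P) = vq K (fun a => vq K q (Q a)) P := by
  rw [vq_eq, vq_eq]
  have : (eval₂Hom ((algebraMap K R).comp (algebraMap F K)) q).comp
      ((aeval Q : MvPolynomial t F →ₐ[F] MvPolynomial s F) : MvPolynomial t F →+* _) =
      eval₂Hom ((algebraMap K R).comp (algebraMap F K)) (fun a => vq K q (Q a)) := by
    apply MvPolynomial.ringHom_ext
    · intro r
      simp [MvPolynomial.algebraMap_eq]
    · intro i
      simp only [RingHom.comp_apply, RingHom.coe_coe, aeval_X, coe_eval₂Hom, eval₂_X]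
      rw [vq_eq]
      rfl
  exact congrArg (fun f => f P) this

omit [IsDomain R] in
theorem vq_sum {n : ℕ} (q : Fin n → R) (P : MvPolynomial (Fin n) F) :
    vq K q P = ∑ d ∈ P.support, algebraMap K R (algebraMap F K (coeff d P)) *
      ∏ i, q i ^ d i := by
  rw [vq_eq, coe_eval₂Hom, eval₂_eq']
  rfl

/-- values of weighted homogeneous polynomials -/
theorem Dm_wh (hv : VF (K := K) dR A E x) {n : ℕ} (dg : Fin n → ℕ)
    (c : MvPolynomial (Fin n) F) (d : ℕ) (hc : c.IsWeightedHomogeneous dg d) (y : Fin n → R)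
    (X : Om → ℝ) (hX : X ∈ A) (hy : ∀ a, Dm E x (y a) ((dg a : ℝ) • X)) :
    Dm E x (vq K y c) ((d : ℝ) • X) := by
  rw [vq_sum]
  apply Dm_sum hv _ _ _ (A.smul_mem _ hX)
  intro I hI
  have h1 := Dm_prod hv Finset.univ (fun i => y i ^ I i)
    (fun i => ((I i : ℕ) : ℝ) • ((dg i : ℝ) • X)) (fun i => A.smul_mem _ (A.smul_mem _ hX))
    (fun i => Dm_pow hv (A.smul_mem _ hX) (hy i) (I i))
  have h2 := hv.mul _ _ _ A.zero_mem _ (A.sum_mem fun i _ => A.smul_mem _ (A.smul_mem _ hX))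
    (hv.cst (algebraMap F K (coeff I c))) h1
  convert h2 using 1
  rw [zero_add]
  have h3 : (d : ℝ) = ∑ i, ((I i : ℕ) : ℝ) * (dg i : ℝ) := by
    have h4 := hc (mem_support_iff.1 hI)
    rw [Finsupp.weight_apply, Finsupp.sum_fintype _ _ (by simp)] at h4
    rw [← h4]
    push_cast
    simp
  rw [h3, Finset.sum_smul]
  exact Finset.sum_congr rfl fun i _ => by rw [mul_smul]

theorem sup'_mem (hN : NRV F K R Om dl dR A E x) {ι : Type} (s : Finset ι) (hs : s.Nonempty)
    (b : ι → Om → ℝ) (hb : ∀ i, b i ∈ A) : s.sup' hs b ∈ A := by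
  classical
  induction hs using Finset.Nonempty.cons_induction with
  | singleton a => simpa using hb a
  | cons a s ha hs ih =>
    rw [Finset.sup'_cons hs]
    exact hN.sup _ (hb a) _ ih

end

end PUpx

open PUpx in
theorem Up_proof (h1 : S_VB) (h2 : S_IntH) : S_Up := by
  intro F _ _ n Q dg hQ P g hP K R Om _ _ _ _ _ dl dR A E x hN q hq hPq X hX hle
  have hv := h1 F K R Om dl dR A E x hN
  obtain ⟨k, c, hc, he⟩ := h2 F n Q dg hQ P g hP
  set xi : Om → ℝ := x (vq K q P) with hxi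
  have hxiA : xi ∈ A := hN.mem _ hPq
  have hy : ∀ a, Dm E x (vq K q (Q a)) ((dg a : ℝ) • X) := by
    intro a
    exact hv.weak _ _ (hN.mem _ (hq a)) _ (A.smul_mem _ hX) (Bl_le (hle a)) (hv.self _ (hq a))
  have he2 : vq K q P ^ (k + 1) = - ∑ i : Fin (k + 1), vq K (fun a => vq K q (Q a)) (c i) *
      vq K q P ^ (k - (i : ℕ)) := by
    have h3 : vq K q (P ^ (k + 1) + ∑ i : Fin (k + 1), aeval Q (c i) * P ^ (k - (i : ℕ))) = 0 := by
      rw [he, vq_eq, map_zero]
    rw [vq_eq, map_add, map_pow, map_sum] at h3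
    simp only [map_mul, map_pow, ← vq_eq, vq_aeval] at h3
    exact eq_neg_of_add_eq_zero_left h3
  -- the bounds
  set b : Fin (k + 1) → Om → ℝ := fun i => ((((i : ℕ) + 1) * g : ℕ) : ℝ) • X +
    ((k - (i : ℕ) : ℕ) : ℝ) • xi with hb
  have hbA : ∀ i, b i ∈ A := fun i => A.add_mem (A.smul_mem _ hX) (A.smul_mem _ hxiA)
  set B : Om → ℝ := Finset.univ.sup' Finset.univ_nonempty b with hB
  have hBA : B ∈ A := sup'_mem hN _ _ b hbA
  have hdm : ∀ i, Dm E x (vq K (fun a => vq K q (Q a)) (c i) * vq K q P ^ (k - (i : ℕ))) B := by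
    intro i
    have h4 := Dm_wh (F := F) hv dg (c i) _ (hc i) (fun a => vq K q (Q a)) X hX hy
    have h5 := Dm_pow hv hxiA (hv.self _ hPq) (k - (i : ℕ))
    have h6 := hv.mul _ _ _ (A.smul_mem _ hX) _ (A.smul_mem _ hxiA) h4 h5
    exact hv.weak _ _ (hbA i) _ hBA (Bl_le (Finset.le_sup' b (Finset.mem_univ i))) h6
  have hdm2 : Dm E x (vq K q P ^ (k + 1)) B := by
    rw [he2]
    have h7 := Dm_sum hv Finset.univ _ B hBA (fun i _ => hdm i)
    have h8 := hv.mul _ _ _ A.zero_mem _ hBA (hv.cst (-1 : K)) h7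
    rw [zero_add] at h8
    convert h8 using 1
    simp
  have hne : vq K q P ^ (k + 1) ≠ 0 := pow_ne_zero _ hPq
  have hbl : Bl E (x (vq K q P ^ (k + 1))) B := by
    rcases hdm2 with h | h
    · exact absurd h hne
    · exact h
  have hpw := hv.pw (vq K q P) (k + 1) hPq
  have hbl2 : Bl E (((k + 1 : ℕ) : ℝ) • xi) B := by
    apply hv.blt _ (A.smul_mem _ hxiA) _ (hN.mem _ hne) _ hBA _ hbl
    apply Bl_abs hN hv (A.smul_mem _ hxiA) (hN.mem _ hne)
    rw [abs_sub_comm]
    exact hpw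
  -- the end
  unfold Bl at hbl2 ⊢
  set n0 : Om → ℝ := (((k + 1 : ℕ) : ℝ) • xi - B) ⊔ 0 with hn0
  have hn0A : n0 ∈ A := hv.pp _ (A.sub_mem (A.smul_mem _ hxiA) hBA)
  have hfA : (xi - (g : ℝ) • X) ⊔ 0 ∈ A := hv.pp _ (A.sub_mem hxiA (A.smul_mem _ hX))
  have hpt : (xi - (g : ℝ) • X) ⊔ 0 ≤ n0 := by
    intro o
    simp only [hn0, Pi.sup_apply, Pi.sub_apply, Pi.smul_apply, smul_eq_mul, Pi.zero_apply]
    apply sup_le _ le_sup_right
    by_cases hpos : xi o - g * X o ≤ 0
    · exact hpos.trans le_sup_right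
    push Not at hpos
    apply le_sup_of_le_left
    have h9 : B o ≤ ((k + 1 : ℕ) : ℝ) * xi o - (xi o - g * X o) := by
      rw [hB, Finset.sup'_apply]
      apply Finset.sup'_le
      intro i _
      simp only [hb, Pi.add_apply, Pi.smul_apply, smul_eq_mul]
      have h10 : ((k - (i : ℕ) : ℕ) : ℝ) = (k : ℝ) - (i : ℕ) := by
        rw [Nat.cast_sub (by omega)]
      rw [h10]
      push_cast
      have h11 : (0 : ℝ) ≤ ((i : ℕ) : ℝ) := Nat.cast_nonneg _
      nlinarith
    linarith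
  have h12 := hv.mono _ hfA _ hn0A hpt
  have h13 := hN.pos _ hfA le_sup_right
  linarith

end

end Pool.Agent.Work.MP_6d7a54_an.NG
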