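import Pool.Agent.Work.MP_6d7a54_an.NG.Stmts

/-!
# Facts on valuations with values in functions
-/

namespace Pool.Agent.Work.MP_6d7a54_an.NG

open Pool.Agent.Work.MP_6d7a54_an.NF (NR InK IsNev)

noncomputable section

namespace PVBx

variable {Om : Type} {A : Submodule ℝ (Om → ℝ)} {E : (Om → ℝ) →ₗ[ℝ] ℝ}

/-- the lattice of functions and the positive mean -/
structure Lat (A : Submodule ℝ (Om → ℝ)) (E : (Om → ℝ) →ₗ[ℝ] ℝ) : Prop where
  sup : ∀ v ∈ A, ∀ w ∈ A, v ⊔ w ∈ A
  pos : ∀ v ∈ A, 0 ≤ v → 0 ≤ E v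

theorem Lat.abs (h : Lat A E) {v : Om → ℝ} (hv : v ∈ A) : |v| ∈ A :=
  h.sup v hv (-v) (A.neg_mem hv)

theorem Lat.pp (h : Lat A E) {v : Om → ℝ} (hv : v ∈ A) : v ⊔ 0 ∈ A :=
  h.sup v hv 0 A.zero_mem

theorem Lat.mono (h : Lat A E) {v w : Om → ℝ} (hv : v ∈ A) (hw : w ∈ A) (hvw : v ≤ w) :
    E v ≤ E w := by
  have h1 := h.pos (w - v) (A.sub_mem hw hv) (sub_nonneg.2 hvw)
  rw [map_sub] at h1
  linarith

/-- squeezing -/
theorem Lat.sq (h : Lat A E) {v z : Om → ℝ} (hv : v ∈ A) (hz : z ∈ A) (h0 : 0 ≤ v) (h1 : v ≤ z)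
    (h2 : E z = 0) : E v = 0 :=
  le_antisymm ((h.mono hv hz h1).trans h2.le) (h.pos v hv h0)

theorem Lat.ble (h : Lat A E) {v w : Om → ℝ} (hv : v ∈ A) (hw : w ∈ A) (hb : Bl E v w) :
    E v ≤ E w := by
  have h1 : v ≤ w + (v - w) ⊔ 0 := by
    intro t
    simp only [Pi.add_apply, Pi.sup_apply, Pi.sub_apply, Pi.zero_apply]
    have := le_max_left (v t - w t) 0
    linarith
  have h2 := h.mono hv (A.add_mem hw (h.pp (A.sub_mem hv hw))) h1
  rw [map_add] at h2
  unfold Bl at hb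
  linarith

theorem Lat.blt (h : Lat A E) {v w z : Om → ℝ} (hv : v ∈ A) (hw : w ∈ A) (hz : z ∈ A)
    (h1 : Bl E v w) (h2 : Bl E w z) : Bl E v z := by
  unfold Bl at *
  refine h.sq (h.pp (A.sub_mem hv hz))
    (A.add_mem (h.pp (A.sub_mem hv hw)) (h.pp (A.sub_mem hw hz))) le_sup_right ?_ ?_
  · intro t
    simp only [Pi.add_apply, Pi.sup_apply, Pi.sub_apply, Pi.zero_apply]
    have a1 := le_max_left (v t - w t) 0
    have a2 := le_max_left (w t - z t) 0
    have a3 := le_max_right (v t - w t) 0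
    have a4 := le_max_right (w t - z t) 0
    exact max_le (by linarith) (by linarith)
  · rw [map_add, h1, h2, add_zero]

theorem Lat.blw (h : Lat A E) {v w z : Om → ℝ} (hv : v ∈ A) (hw : w ∈ A) (hz : z ∈ A)
    (h0 : 0 ≤ z) (h1 : E z = 0) (h2 : v ≤ w + z) : Bl E v w := by
  unfold Bl
  refine h.sq (h.pp (A.sub_mem hv hw)) hz le_sup_right ?_ h1
  refine sup_le ?_ h0
  intro t
  have := h2 t
  simp only [Pi.add_apply, Pi.sub_apply] at this ⊢
  linarith

theorem Lat.bla (h : Lat A E) {v w v' w' : Om → ℝ} (hv : v ∈ A) (hw : w ∈ A) (hv' : v' ∈ A)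
    (hw' : w' ∈ A) (h1 : Bl E v w) (h2 : Bl E v' w') : Bl E (v + v') (w + w') := by
  unfold Bl at *
  refine h.sq (h.pp (A.sub_mem (A.add_mem hv hv') (A.add_mem hw hw')))
    (A.add_mem (h.pp (A.sub_mem hv hw)) (h.pp (A.sub_mem hv' hw'))) le_sup_right ?_ ?_
  · intro t
    simp only [Pi.add_apply, Pi.sup_apply, Pi.sub_apply, Pi.zero_apply]
    have a1 := le_max_left (v t - w t) 0
    have a2 := le_max_left (v' t - w' t) 0
    have a3 := le_max_right (v t - w t) 0
    have a4 := le_max_right (v' t - w' t) 0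
    exact max_le (by linarith) (by linarith)
  · rw [map_add, h1, h2, add_zero]

theorem Lat.blc {v w : Om → ℝ} {c : ℝ} (hc : 0 ≤ c) (h1 : Bl E v w) :
    Bl E (c • v) (c • w) := by
  unfold Bl at *
  have e : (c • v - c • w) ⊔ 0 = c • ((v - w) ⊔ 0) := by
    funext t
    simp only [Pi.sup_apply, Pi.sub_apply, Pi.smul_apply, Pi.zero_apply, smul_eq_mul]
    rw [mul_max_of_nonneg _ _ hc, mul_zero, mul_sub]
  rw [e, map_smul, h1, smul_zero]

/-- functions of mean absolute value zero -/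
def Nul (A : Submodule ℝ (Om → ℝ)) (E : (Om → ℝ) →ₗ[ℝ] ℝ) (h : Lat A E) :
    AddSubgroup (Om → ℝ) where
  carrier := {v | v ∈ A ∧ E |v| = 0}
  zero_mem' := ⟨A.zero_mem, by rw [abs_zero, map_zero]⟩
  add_mem' := by
    rintro v w ⟨hv, hv'⟩ ⟨hw, hw'⟩
    refine ⟨A.add_mem hv hw, ?_⟩
    refine h.sq (h.abs (A.add_mem hv hw)) (A.add_mem (h.abs hv) (h.abs hw)) (abs_nonneg _)
      (abs_add_le v w) ?_
    rw [map_add, hv', hw', add_zero]
  neg_mem' := by
    rintro v ⟨hv, hv'⟩
    exact ⟨A.neg_mem hv, by rw [abs_neg, hv']⟩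

theorem mem_Nul {h : Lat A E} {v : Om → ℝ} : v ∈ Nul A E h ↔ v ∈ A ∧ E |v| = 0 := Iff.rfl

theorem Nul_zero {h : Lat A E} {v : Om → ℝ} (hv : v ∈ Nul A E h) : E v = 0 := by
  obtain ⟨h1, h2⟩ := hv
  have h3 := h.mono h1 (h.abs h1) (le_abs_self v)
  have h4 := h.mono (A.neg_mem h1) (h.abs h1) (neg_le_abs v)
  rw [map_neg] at h4
  linarith

variable {F K R : Type} [Field F] [Field K] [CommRing R] [IsDomain R] [Algebra F K] [Algebra K R]
  {dl : Derivation ℤ K K} {dR : Derivation ℤ R R} {x : R → Om → ℝ}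

theorem lat (hx : NRV F K R Om dl dR A E x) : Lat A E := ⟨hx.sup, hx.pos⟩

theorem am {a : K} (ha : a ≠ 0) : algebraMap K R a ≠ 0 := by
  rw [Ne, map_eq_zero_iff _ (algebraMap K R).injective]
  exact ha

theorem nmul (hx : NRV F K R Om dl dR A E x) {f g : R} (hf : f ≠ 0) (hg : g ≠ 0) :
    x (f * g) - (x f + x g) ∈ Nul A E (lat hx) :=
  ⟨A.sub_mem (hx.mem _ (mul_ne_zero hf hg)) (A.add_mem (hx.mem f hf) (hx.mem g hg)),
    hx.mul f g hf hg⟩

theorem ncst (hx : NRV F K R Om dl dR A E x) {a : K} (ha : a ≠ 0) :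
    x (algebraMap K R a) ∈ Nul A E (lat hx) :=
  ⟨hx.mem _ (am ha), hx.cst a ha⟩

theorem none1 (hx : NRV F K R Om dl dR A E x) : x 1 ∈ Nul A E (lat hx) := by
  have := ncst hx (one_ne_zero (α := K))
  rwa [map_one] at this

theorem npw (hx : NRV F K R Om dl dR A E x) {f : R} (hf : f ≠ 0) (k : ℕ) :
    x (f ^ k) - (k : ℝ) • x f ∈ Nul A E (lat hx) := by
  induction k with
  | zero =>
    rw [pow_zero, Nat.cast_zero, zero_smul, sub_zero]
    exact none1 hx
  | succ n ih =>
    have h1 := (Nul A E (lat hx)).add_mem (nmul hx (pow_ne_zero n hf) hf) ih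
    have e : x (f ^ (n + 1)) - ((n + 1 : ℕ) : ℝ) • x f =
        x (f ^ n * f) - (x (f ^ n) + x f) + (x (f ^ n) - (n : ℝ) • x f) := by
      rw [pow_succ]
      push_cast
      rw [add_smul, one_smul]
      abel
    rw [e]
    exact h1

theorem ninv (hx : NRV F K R Om dl dR A E x) (t : Rˣ) :
    x ((t⁻¹ : Rˣ) : R) + x (t : R) ∈ Nul A E (lat hx) := by
  have h1 := nmul hx (f := ((t⁻¹ : Rˣ) : R)) (g := (t : R)) (t⁻¹).ne_zero t.ne_zero
  rw [Units.inv_mul] at h1
  have h2 := (Nul A E (lat hx)).sub_mem (none1 hx) h1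
  rwa [sub_sub_cancel] at h2

theorem nzpw (hx : NRV F K R Om dl dR A E x) (t : Rˣ) (m : ℤ) :
    x ((t ^ m : Rˣ) : R) - (m : ℝ) • x (t : R) ∈ Nul A E (lat hx) := by
  cases m with
  | ofNat k =>
    have h1 := npw hx t.ne_zero k
    rw [Int.ofNat_eq_natCast, zpow_natCast, Units.val_pow_eq_pow_val, Int.cast_natCast]
    exact h1
  | negSucc k =>
    have h1 := npw hx (t⁻¹).ne_zero (k + 1)
    have h2 := (Nul A E (lat hx)).nsmul_mem (ninv hx t) (k + 1)
    have h3 := (Nul A E (lat hx)).add_mem h1 h2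
    rw [zpow_negSucc, ← inv_pow, Units.val_pow_eq_pow_val, Int.cast_negSucc]
    have e : x (((t⁻¹ : Rˣ) : R) ^ (k + 1)) - -((k + 1 : ℕ) : ℝ) • x (t : R) =
        x (((t⁻¹ : Rˣ) : R) ^ (k + 1)) - ((k + 1 : ℕ) : ℝ) • x ((t⁻¹ : Rˣ) : R) +
          (k + 1) • (x ((t⁻¹ : Rˣ) : R) + x (t : R)) := by
      rw [← Nat.cast_smul_eq_nsmul ℝ (k + 1), smul_add, neg_smul]
      abel
    rw [e]
    exact h3

theorem nprod (hx : NRV F K R Om dl dR A E x) {r : ℕ} (tau : Fin r → Rˣ) (m : Fin r → ℤ)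
    (s : Finset (Fin r)) :
    x ((∏ l ∈ s, tau l ^ (m l) : Rˣ) : R) - ∑ l ∈ s, (m l : ℝ) • x (tau l : R) ∈
      Nul A E (lat hx) := by
  classical
  induction s using Finset.induction_on with
  | empty =>
    rw [Finset.prod_empty, Finset.sum_empty, sub_zero, Units.val_one]
    exact none1 hx
  | insert a s ha ih =>
    rw [Finset.prod_insert ha, Finset.sum_insert ha, Units.val_mul]
    have h1 := nmul hx (f := ((tau a ^ m a : Rˣ) : R))
      (g := ((∏ l ∈ s, tau l ^ (m l) : Rˣ) : R)) (Units.ne_zero _) (Units.ne_zero _)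
    have h2 := (Nul A E (lat hx)).add_mem ((Nul A E (lat hx)).add_mem h1 (nzpw hx (tau a) (m a))) ih
    convert h2 using 1
    abel

end PVBx

open PVBx

/-- basic facts on valuations -/
theorem VB_proof : S_VB := by
  intro F K R Om _ _ _ _ _ _ dl dR A E x hx
  have h := lat hx
  have hadd : ∀ f g : R, ∀ v ∈ A, Dm E x f v → Dm E x g v → Dm E x (f + g) v := by
    intro f g v hv hf hg
    by_cases hf0 : f = 0
    · rw [hf0, zero_add]
      exact hg
    by_cases hg0 : g = 0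
    · rw [hg0, add_zero]
      exact hf
    by_cases hfg : f + g = 0
    · exact Or.inl hfg
    refine Or.inr ?_
    have h1 := hf.resolve_left hf0
    have h2 := hg.resolve_left hg0
    have mf := hx.mem f hf0
    have mg := hx.mem g hg0
    refine h.blt (hx.mem _ hfg) (hx.sup _ mf _ mg) hv (hx.add f g hf0 hg0 hfg) ?_
    unfold Bl at *
    refine h.sq (h.pp (A.sub_mem (hx.sup _ mf _ mg) hv))
      (A.add_mem (h.pp (A.sub_mem mf hv)) (h.pp (A.sub_mem mg hv))) le_sup_right ?_ ?_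
    · intro t
      simp only [Pi.add_apply, Pi.sup_apply, Pi.sub_apply, Pi.zero_apply]
      have a1 := le_max_left (x f t - v t) 0
      have a2 := le_max_left (x g t - v t) 0
      have a3 := le_max_right (x f t - v t) 0
      have a4 := le_max_right (x g t - v t) 0
      refine max_le ?_ (by linarith)
      rcases le_total (x f t) (x g t) with h5 | h5
      · rw [max_eq_right h5]
        linarith
      · rw [max_eq_left h5]
        linarith
    · rw [map_add, h1, h2, add_zero]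
  have hmul : ∀ f g : R, ∀ v ∈ A, ∀ w ∈ A, Dm E x f v → Dm E x g w →
      Dm E x (f * g) (v + w) := by
    intro f g v hv w hw hf hg
    by_cases hf0 : f = 0
    · left
      rw [hf0, zero_mul]
    by_cases hg0 : g = 0
    · left
      rw [hg0, mul_zero]
    refine Or.inr ?_
    have h1 := hf.resolve_left hf0
    have h2 := hg.resolve_left hg0
    have mf := hx.mem f hf0
    have mg := hx.mem g hg0
    have mfg := hx.mem _ (mul_ne_zero hf0 hg0)
    refine h.blt mfg (A.add_mem mf mg) (A.add_mem hv hw) ?_ (h.bla mf hv mg hw h1 h2)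
    refine h.blw mfg (A.add_mem mf mg) (h.abs (A.sub_mem mfg (A.add_mem mf mg)))
      (abs_nonneg _) (hx.mul f g hf0 hg0) ?_
    have := le_abs_self (x (f * g) - (x f + x g))
    rw [sub_le_iff_le_add'] at this
    exact this
  refine
    { abs := fun v hv => h.abs hv
      pp := fun v hv => h.pp hv
      mono := fun v hv w hw hvw => h.mono hv hw hvw
      ble := fun v hv w hw hb => h.ble hv hw hb
      blt := fun v hv w hw z hz h1 h2 => h.blt hv hw hz h1 h2
      blw := fun v hv w hw z hz h0 h1 h2 => h.blw hv hw hz h0 h1 h2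
      bla := fun v hv w hw v' hv' w' hw' h1 h2 => h.bla hv hw hv' hw' h1 h2
      blc := fun v _ w _ c hc h1 => Lat.blc hc h1
      zero := fun v => Or.inl rfl
      self := ?_
      weak := ?_
      add := hadd
      der := ?_
      mul := hmul
      cst := ?_
      unit := ?_
      pw := fun f k hf => (npw hx hf k).2
      mon := ?_ }
  · intro f _
    right
    unfold Bl
    rw [sub_self, sup_idem, map_zero]
  · intro f v hv w hw h1 hf
    rcases hf with hf | hf
    · exact Or.inl hf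
    · by_cases hf0 : f = 0
      · exact Or.inl hf0
      · exact Or.inr (h.blt (hx.mem f hf0) hv hw hf h1)
  · intro f v hv hf
    by_cases hf0 : f = 0
    · left
      rw [hf0, map_zero]
    by_cases hd : dR f = 0
    · exact Or.inl hd
    · exact Or.inr (h.blt (hx.mem _ hd) (hx.mem _ hf0) hv (hx.der f hf0 hd)
        (hf.resolve_left hf0))
  · intro a
    by_cases ha : a = 0
    · left
      rw [ha, map_zero]
    · right
      have h1 := ncst hx ha
      refine h.blw h1.1 A.zero_mem (h.abs h1.1) (abs_nonneg _) h1.2 ?_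
      rw [zero_add]
      exact le_abs_self _
  · rintro f ⟨t, rfl⟩
    have h1 := Nul_zero (ninv hx t)
    rw [map_add] at h1
    have h2 := hx.hol _ t.ne_zero
    have h3 := hx.hol _ (t⁻¹).ne_zero
    linarith
  · intro r tau m k hk
    have h1 := nmul hx (f := algebraMap K R k)
      (g := ((∏ l, tau l ^ (m l) : Rˣ) : R)) (am hk) (Units.ne_zero _)
    have h2 := (Nul A E h).add_mem ((Nul A E h).add_mem h1 (ncst hx hk))
      (nprod hx tau m Finset.univ)
    refine (mem_Nul (h := h).1 ?_).2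
    convert h2 using 1
    abel

end

end Pool.Agent.Work.MP_6d7a54_an.NG
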