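import Pool.Agent.Work.MP_6d7a54_an.NG.Stmts

/-!
# Factors of weighted homogeneous polynomials (MP_6d7a54_an)
-/

namespace Pool.Agent.Work.MP_6d7a54_an.NG

open MvPolynomial

namespace PWHx

/-- the substitution `X_i -> X_i t^(w i)` -/
noncomputable def T {K s : Type} [Field K] (w : s → ℕ) :
    MvPolynomial s K →ₐ[K] Polynomial (MvPolynomial s K) :=
  aeval fun i => Polynomial.C (X i) * Polynomial.X ^ (w i)

variable {K s : Type} [Field K] (w : s → ℕ)

lemma T_monomial (d : s →₀ ℕ) (c : K) :
    T w (monomial d c) = Polynomial.C (monomial d c) * Polynomial.X ^ (Finsupp.weight w d) := by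
  unfold T
  rw [aeval_monomial]
  have h1 : (d.prod fun i k => (Polynomial.C (X i : MvPolynomial s K) * Polynomial.X ^ (w i)) ^ k)
      = Polynomial.C (d.prod fun i k => (X i : MvPolynomial s K) ^ k) *
        Polynomial.X ^ (Finsupp.weight w d) := by
    unfold Finsupp.prod
    simp_rw [mul_pow]
    rw [Finset.prod_mul_distrib, map_prod]
    congr 1
    · simp
    · rw [Finsupp.weight_apply, Finsupp.sum, ← Finset.prod_pow_eq_pow_sum]
      refine Finset.prod_congr rfl fun i _ => ?_
      rw [smul_eq_mul, ← pow_mul, mul_comm]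
  rw [h1, ← mul_assoc]
  congr 1
  rw [monomial_eq, Polynomial.C_mul]
  rfl

lemma coeff_T (h : MvPolynomial s K) (d : s →₀ ℕ) (k : ℕ) :
    coeff d ((T w h).coeff k) = if Finsupp.weight w d = k then coeff d h else 0 := by
  classical
  induction h using MvPolynomial.induction_on' with
  | monomial u a =>
    rw [T_monomial, Polynomial.coeff_C_mul, Polynomial.coeff_X_pow, mul_ite, mul_one, mul_zero]
    by_cases hk : k = Finsupp.weight w u
    · rw [if_pos hk, coeff_monomial]
      by_cases hd : u = d
      · subst hd
        rw [if_pos rfl, if_pos hk.symm]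
      · rw [if_neg hd]
        simp
    · rw [if_neg hk, coeff_zero, coeff_monomial]
      by_cases hd : u = d
      · subst hd
        rw [if_neg (fun h => hk h.symm)]
      · rw [if_neg hd]
        simp
  | add p q hp hq =>
    rw [map_add, Polynomial.coeff_add, coeff_add, hp, hq, coeff_add]
    split_ifs <;> simp

lemma T_ne {h : MvPolynomial s K} (hh : h ≠ 0) : T w h ≠ 0 := by
  intro h0
  apply hh
  ext d
  have := coeff_T w h d (Finsupp.weight w d)
  rw [h0, if_pos rfl] at this
  simpa using this.symm

lemma T_coeff_ne {h : MvPolynomial s K} {d : s →₀ ℕ} (hd : coeff d h ≠ 0) :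
    (T w h).coeff (Finsupp.weight w d) ≠ 0 := by
  intro h0
  have := coeff_T w h d (Finsupp.weight w d)
  rw [h0, if_pos rfl] at this
  exact hd (by simpa using this.symm)

end PWHx

open PWHx in
theorem WH_proof : S_WH := by
  intro K s _ w f g n hfg hn
  have hf : f ≠ 0 := left_ne_zero_of_mul hfg
  have hg : g ≠ 0 := right_ne_zero_of_mul hfg
  -- the image of the product
  have hcoeff : ∀ k, k ≠ n → (T w (f * g)).coeff k = 0 := by
    intro k hk
    ext d
    rw [coeff_T, coeff_zero]
    split_ifs with h
    · by_contra hne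
      exact hk (h.symm.trans (hn hne))
    · rfl
  have hT := T_ne w hfg
  have h1 : (T w (f * g)).natDegree = n := by
    by_contra hne
    have := hcoeff _ hne
    rw [Polynomial.coeff_natDegree, Polynomial.leadingCoeff_eq_zero] at this
    exact hT this
  have h2 : (T w (f * g)).natTrailingDegree = n := by
    by_contra hne
    have := hcoeff _ hne
    rw [Polynomial.coeff_natTrailingDegree_eq_zero] at this
    exact hT this
  rw [map_mul, Polynomial.natDegree_mul (T_ne w hf) (T_ne w hg)] at h1
  rw [map_mul, Polynomial.natTrailingDegree_mul (T_ne w hf) (T_ne w hg)] at h2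
  have h3 := Polynomial.natTrailingDegree_le_natDegree (T w f)
  have h4 := Polynomial.natTrailingDegree_le_natDegree (T w g)
  refine ⟨(T w f).natDegree, by omega, ?_, ?_⟩
  · intro d hd
    have h5 := T_coeff_ne w hd
    have h6 := Polynomial.le_natDegree_of_ne_zero h5
    have h7 := Polynomial.natTrailingDegree_le_of_ne_zero h5
    omega
  · intro d hd
    have h5 := T_coeff_ne w hd
    have h6 := Polynomial.le_natDegree_of_ne_zero h5
    have h7 := Polynomial.natTrailingDegree_le_of_ne_zero h5
    omega

end Pool.Agent.Work.MP_6d7a54_an.NG
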