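import Pool.Agent.Work.MP_6d7a54_an.NG.Stmts

/-!
# Block NG: vanishing Wronskians (MP_6d7a54_an)
-/

set_option autoImplicit false

namespace Pool.Agent.Work.MP_6d7a54_an.NG

namespace PWrx

variable {L : Type} [Field L] (d : Derivation ℤ L L)

theorem inj {p : ℕ} {f : Fin p → L} (h : Wr d f ≠ 0) (v : Fin p → L)
    (hv : ∀ k : Fin p, ∑ j, ((d : L → L)^[(k : ℕ)] (f j)) * v j = 0) : v = 0 := by
  by_contra hne
  apply h
  unfold Wr
  rw [← Matrix.exists_mulVec_eq_zero_iff]
  refine ⟨v, hne, ?_⟩
  funext k
  simpa [Matrix.mulVec, dotProduct] using hv k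

theorem main : ∀ (p : ℕ) (f : Fin p → L), Wr d f = 0 →
    ∃ c : Fin p → L, c ≠ 0 ∧ (∀ j, d (c j) = 0) ∧ ∑ j, c j * f j = 0 := by
  intro p
  induction p with
  | zero =>
    intro f h
    exfalso
    unfold Wr at h
    rw [Matrix.det_isEmpty] at h
    exact one_ne_zero h
  | succ p ih =>
    intro f h
    by_cases h' : Wr d (fun j : Fin p => f j.castSucc) = 0
    · obtain ⟨c, hc0, hcd, hcs⟩ := ih _ h'
      refine ⟨Fin.snoc c 0, ?_, ?_, ?_⟩
      · intro h0
        apply hc0
        funext j
        have := congrFun h0 j.castSucc
        simpa using this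
      · intro j
        refine Fin.lastCases ?_ (fun i => ?_) j
        · simp
        · simpa using hcd i
      · rw [Fin.sum_univ_castSucc]
        simpa using hcs
    · have hk := h
      unfold Wr at hk
      rw [← Matrix.exists_mulVec_eq_zero_iff] at hk
      obtain ⟨v, hv0, hv⟩ := hk
      have hv1 : ∀ k : Fin (p + 1), ∑ j, ((d : L → L)^[(k : ℕ)] (f j)) * v j = 0 := by
        intro k
        have := congrFun hv k
        simpa [Matrix.mulVec, dotProduct] using this
      have hlast : v (Fin.last p) ≠ 0 := by
        intro hl
        apply hv0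
        have h1 : (fun j : Fin p => v j.castSucc) = 0 := by
          apply inj d h'
          intro k
          have := hv1 k.castSucc
          rw [Fin.sum_univ_castSucc, hl, mul_zero, add_zero] at this
          exact this
        funext j
        refine Fin.lastCases ?_ (fun i => ?_) j
        · exact hl
        · exact congrFun h1 i
      set c : Fin (p + 1) → L := fun j => v j / v (Fin.last p) with hc
      have hcl : c (Fin.last p) = 1 := div_self hlast
      have hc1 : ∀ k : Fin (p + 1), ∑ j, ((d : L → L)^[(k : ℕ)] (f j)) * c j = 0 := by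
        intro k
        have : ∑ j, ((d : L → L)^[(k : ℕ)] (f j)) * c j =
            (∑ j, ((d : L → L)^[(k : ℕ)] (f j)) * v j) / v (Fin.last p) := by
          rw [Finset.sum_div]
          refine Finset.sum_congr rfl fun j _ => ?_
          simp only [hc]
          ring
        rw [this, hv1 k, zero_div]
      have hdc : (fun j : Fin p => d (c j.castSucc)) = 0 := by
        apply inj d h'
        intro k
        have e1 := hc1 k.castSucc
        have e2 := hc1 k.succ
        have e3 := congrArg d e1
        rw [map_sum, map_zero] at e3
        have e4 : ∑ j, d (((d : L → L)^[((k.castSucc : Fin (p + 1)) : ℕ)] (f j)) * c j) =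
            ∑ j, ((d : L → L)^[((k.castSucc : Fin (p + 1)) : ℕ)] (f j)) * d (c j) +
            ∑ j, ((d : L → L)^[((k.succ : Fin (p + 1)) : ℕ)] (f j)) * c j := by
          rw [← Finset.sum_add_distrib]
          refine Finset.sum_congr rfl fun j _ => ?_
          rw [Derivation.leibniz, Fin.val_succ, Fin.val_castSucc, Function.iterate_succ_apply',
            smul_eq_mul, smul_eq_mul]
          ring
        rw [e4, e2, add_zero, Fin.sum_univ_castSucc, hcl] at e3
        rw [Derivation.map_one_eq_zero, mul_zero, add_zero] at e3
        exact e3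
      refine ⟨c, ?_, ?_, ?_⟩
      · intro h0
        rw [h0] at hcl
        exact zero_ne_one hcl
      · intro j
        refine Fin.lastCases ?_ (fun i => ?_) j
        · rw [hcl, Derivation.map_one_eq_zero]
        · exact congrFun hdc i
      · have := hc1 0
        simp only [Fin.val_zero, Function.iterate_zero, id_eq] at this
        rw [← this]
        exact Finset.sum_congr rfl fun j _ => mul_comm _ _

end PWrx

theorem Wr_proof : S_Wr := fun _ _ d p f h => PWrx.main d p f h

end Pool.Agent.Work.MP_6d7a54_an.NG
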