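import Pool.Agent.Work.MP_6d7a54_an.NG.Stmts

set_option autoImplicit false

namespace Pool.Agent.Work.MP_6d7a54_an.NG

noncomputable section

namespace PWrDx

variable {K R Om : Type} [Field K] [CommRing R] [Algebra K R] {dR : Derivation ℤ R R}
  {A : Submodule ℝ (Om → ℝ)} {E : (Om → ℝ) →ₗ[ℝ] ℝ} {x : R → Om → ℝ}

theorem iter (h : VF (K := K) dR A E x) (k : ℕ) (f : R) (v : Om → ℝ) (hv : v ∈ A)
    (hf : Dm E x f v) : Dm E x ((dR : R → R)^[k] f) v := by
  induction k generalizing f with
  | zero => exact hf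
  | succ k ih =>
    rw [Function.iterate_succ_apply]
    exact ih _ (h.der f v hv hf)

theorem prd (h : VF (K := K) dR A E x) {ι : Type} (s : Finset ι) (f : ι → R) (v : ι → Om → ℝ)
    (hv : ∀ j, v j ∈ A) (hf : ∀ j, Dm E x (f j) (v j)) :
    Dm E x (∏ j ∈ s, f j) (∑ j ∈ s, v j) := by
  classical
  induction s using Finset.induction_on with
  | empty =>
    have := h.cst 1
    rw [map_one] at this
    simpa using this
  | insert a s ha ih =>
    rw [Finset.prod_insert ha, Finset.sum_insert ha]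
    exact h.mul _ _ _ (hv a) _ (Submodule.sum_mem _ fun j _ => hv j) (hf a) ih

theorem sm (h : VF (K := K) dR A E x) {ι : Type} (s : Finset ι) (f : ι → R) (v : Om → ℝ)
    (hv : v ∈ A) (hf : ∀ j, Dm E x (f j) v) : Dm E x (∑ j ∈ s, f j) v := by
  classical
  induction s using Finset.induction_on with
  | empty => simpa using h.zero v
  | insert a s ha ih =>
    rw [Finset.sum_insert ha]
    exact h.add _ _ _ hv (hf a) ih

end PWrDx

open PWrDx in
theorem WrD_proof : S_WrD := by
  intro K R Om _ _ _ dR A E x h p f v hv hf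
  unfold Wr
  rw [Matrix.det_apply']
  have hs : ∑ j, v j ∈ A := Submodule.sum_mem _ fun j _ => hv j
  refine sm h _ _ _ hs fun σ => ?_
  have h1 : Dm E x (∏ i, (Matrix.of fun k j : Fin p => ((dR : R → R)^[(k : ℕ)] (f j))) (σ i) i)
      (∑ j, v j) := prd h _ _ _ hv fun i => iter h _ _ _ (hv i) (hf i)
  have h2 : Dm E x (((Equiv.Perm.sign σ : ℤ) : R)) 0 := by
    have h3 := h.cst (((Equiv.Perm.sign σ : ℤ) : K))
    rwa [map_intCast] at h3
  have h4 := h.mul _ _ _ A.zero_mem _ hs h2 h1
  rwa [zero_add] at h4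

end

end Pool.Agent.Work.MP_6d7a54_an.NG
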