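import Pool.Agent.Work.MP_6d7a54_an.NG.Stmts

set_option autoImplicit false

namespace Pool.Agent.Work.MP_6d7a54_an.NG

open Pool.Agent.Work.MP_6d7a54_an.NF (NR InK IsNev)

noncomputable section

namespace PWrNx

theorem iter {R L : Type} [CommRing R] [Field L] [Algebra R L] {dR : Derivation ℤ R R}
    {d : Derivation ℤ L L} (hd : ∀ r, d (algebraMap R L r) = algebraMap R L (dR r)) (k : ℕ)
    (r : R) : (d : L → L)^[k] (algebraMap R L r) = algebraMap R L ((dR : R → R)^[k] r) := by
  induction k generalizing r with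
  | zero => rfl
  | succ k ih => rw [Function.iterate_succ_apply, Function.iterate_succ_apply, hd, ih]

theorem map_wr {R L : Type} [CommRing R] [Field L] [Algebra R L] {dR : Derivation ℤ R R}
    {d : Derivation ℤ L L} (hd : ∀ r, d (algebraMap R L r) = algebraMap R L (dR r)) {p : ℕ}
    (f : Fin p → R) : Wr d (fun j => algebraMap R L (f j)) = algebraMap R L (Wr dR f) := by
  unfold Wr
  rw [RingHom.map_det]
  congr 1
  ext k j
  simp only [Matrix.of_apply, RingHom.mapMatrix_apply, Matrix.map_apply]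
  exact iter hd k (f j)

end PWrNx

theorem WrN_proof (h1 : S_Fr) (h2 : S_Wr) (h3 : S_LI) : S_WrN := by
  intro F K R _ _ _ _ _ _ dl dR hNR ι _ mn hmn p e he h0
  obtain ⟨L, hL, hA, d, hinj, hd⟩ := h1 R dR
  have h4 : Wr d (fun j => algebraMap R L (∑ i, algebraMap K R (e j i) * (mn i : R))) = 0 := by
    rw [PWrNx.map_wr hd, h0, map_zero]
  obtain ⟨c, hc, hdc, hs⟩ := h2 L d p _ h4
  apply hc
  funext j
  refine h3 F K R L dl dR d hNR hinj hd ι mn hmn p e he c hdc ?_ j
  rw [← hs]
  refine Finset.sum_congr rfl fun j _ => ?_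
  rw [map_sum]

end

end Pool.Agent.Work.MP_6d7a54_an.NG
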