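import Mathlib

/-!
# Normal crossing hypersurfaces and the Kobayashi-Royden metric of their complement
(MP_6d7a54_an)
-/

namespace Pool.Agent.Work.MP_6d7a54_an.NG

open Metric MvPolynomial Topology

noncomputable section

/-- The hypersurface `X = 0` of the projective space of dimension `n` (`X` a homogeneous
polynomial in `n + 1` variables) has only normal crossing singularities: near every point `w ≠ 0`
of the cone over the hypersurface the polynomial `X` is a product of analytic functions which
vanish at `w` and whose differentials at `w` are linearly independent. -/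
def NormalCrossing {n : ℕ} (X : MvPolynomial (Fin (n + 1)) ℂ) : Prop :=
  ∀ w : Fin (n + 1) → ℂ, w ≠ 0 → eval w X = 0 →
    ∃ (k : ℕ) (h : Fin k → (Fin (n + 1) → ℂ) → ℂ), (∀ i, AnalyticAt ℂ (h i) w ∧ h i w = 0) ∧
      LinearIndependent ℂ (fun i => fderiv ℂ (h i) w) ∧ ∀ᶠ z in 𝓝 w, eval z X = ∏ i, h i z

/-- The cone (in the affine space of dimension `n + 1`) over the complement of `X = 0`. -/
def complementCone {n : ℕ} (X : MvPolynomial (Fin (n + 1)) ℂ) : Set (Fin (n + 1) → ℂ) :=
  {w | w ≠ 0 ∧ eval w X ≠ 0}

/-- The infinitesimal Kobayashi (Kobayashi-Royden) pseudometric of the open subset `M` of the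
projective space whose cone is `Ω`, at the point `[w]`, evaluated at the tangent vector
represented by `v` (the tangent space at `[w]` is the quotient of the affine space by the line
`ℂ w`). A holomorphic disc in `M` is given by a holomorphic map `f` from the unit disc to `Ω`
(homogeneous coordinates); `f'(0) = R v` in the tangent space means `f'(0) = R v + c w`. -/
def kobayashiRoyden {n : ℕ} (Ω : Set (Fin (n + 1) → ℂ)) (w v : Fin (n + 1) → ℂ) : ℝ :=
  sInf {t : ℝ | ∃ (R : ℝ) (f : ℂ → Fin (n + 1) → ℂ) (c : ℂ), 0 < R ∧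
    DifferentiableOn ℂ f (ball 0 1) ∧ (∀ z ∈ ball (0 : ℂ) 1, f z ∈ Ω) ∧ f 0 = w ∧
    deriv f 0 = (R : ℂ) • v + c • w ∧ t = 1 / R}

end

end Pool.Agent.Work.MP_6d7a54_an.NG
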