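import Pool.Agent.Work.MP_6d7a54_an.NG.Stmts

/-!
# MP_6d7a54_an, block NG: adapted bases
-/

namespace Pool.Agent.Work.MP_6d7a54_an.NG

namespace PAdpx

/-- independent vectors in large subspaces -/
theorem choose_indep {k V : Type} [Field k] [AddCommGroup V] [Module k V] (p : ℕ) :
    ∀ G : Fin p → Submodule k V, (∀ j : Fin p, (j : ℕ) + 1 ≤ Module.finrank k (G j)) →
      ∃ c : Fin p → V, LinearIndependent k c ∧ ∀ j, c j ∈ G j := by
  induction p with
  | zero =>
    intro G _
    exact ⟨fun j => j.elim0, linearIndependent_empty_type, fun j => j.elim0⟩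
  | succ p ih =>
    intro G hG
    obtain ⟨c', hc', hcG⟩ := ih (fun j => G j.castSucc) (fun j => by simpa using hG j.castSucc)
    obtain ⟨v, hv, hvs⟩ : ∃ v ∈ G (Fin.last p), v ∉ Submodule.span k (Set.range c') := by
      by_contra hcon
      push Not at hcon
      have h1 : G (Fin.last p) ≤ Submodule.span k (Set.range c') := hcon
      have : Module.Finite k (Submodule.span k (Set.range c')) :=
        Module.Finite.span_of_finite k (Set.finite_range c')
      have h2 := Submodule.finrank_mono h1
      have h3 : Module.finrank k (Submodule.span k (Set.range c')) ≤ p := by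
        have := finrank_range_le_card (R := k) c'
        rwa [Fintype.card_fin] at this
      have h4 := hG (Fin.last p)
      rw [Fin.val_last] at h4
      omega
    refine ⟨Fin.snoc c' v, (linearIndependent_finSnoc).2 ⟨hc', hvs⟩, fun j => ?_⟩
    refine Fin.lastCases ?_ (fun i => ?_) j
    · rw [Fin.snoc_last]; exact hv
    · rw [Fin.snoc_castSucc]; exact hcG i

/-- the dimension of the kernel of the restriction -/
theorem ker_dim {k U ι : Type} [Field k] [AddCommGroup U] [Module k U] [Module.Finite k U]
    [Fintype ι] {P p : ℕ} (e : Fin p → ι → U) (s : ι ≃ Fin P) (l : ℕ) :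
    p ≤ Module.finrank k (LinearMap.ker ((LinearMap.funLeft k U
      (Subtype.val : {i // l ≤ (s i : ℕ)} → ι)) ∘ₗ (Fintype.linearCombination k e))) +
      (P - l) * Module.finrank k U := by
  classical
  set L := (LinearMap.funLeft k U
      (Subtype.val : {i // l ≤ (s i : ℕ)} → ι)) ∘ₗ (Fintype.linearCombination k e) with hL
  have h1 := LinearMap.finrank_range_add_finrank_ker L
  rw [Module.finrank_fin_fun] at h1
  have h2 : Module.finrank k (LinearMap.range L) ≤
      Module.finrank k ({i // l ≤ (s i : ℕ)} → U) := Submodule.finrank_le _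
  have h3 : Module.finrank k ({i // l ≤ (s i : ℕ)} → U) =
      Fintype.card {i // l ≤ (s i : ℕ)} * Module.finrank k U := by
    rw [Module.finrank_pi_fintype, Finset.sum_const, Finset.card_univ, smul_eq_mul]
  have h4 : Fintype.card {i // l ≤ (s i : ℕ)} ≤ P - l := by
    have h5 : Function.Injective (fun i : {i // l ≤ (s i : ℕ)} =>
        (⟨(s i : ℕ) - l, by have := (s i).isLt; have := i.2; omega⟩ : Fin (P - l))) := by
      intro i j h
      have h6 : (s i : ℕ) - l = (s j : ℕ) - l := congrArg Fin.val h
      have h7 := i.2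
      have h8 := j.2
      exact Subtype.ext (s.injective (Fin.ext (by omega)))
    simpa using Fintype.card_le_of_injective _ h5
  have h5 := Nat.mul_le_mul_right (Module.finrank k U) h4
  rw [h3] at h2
  omega

end PAdpx

open PAdpx in
theorem Adp_proof : S_Adp := by
  classical
  intro k K _ _ _ ι _ U hU P p e he heU s
  have : Module.Finite k U := Module.Finite.iff_fg.2 hU
  set e' : Fin p → ι → U := fun j i => ⟨e j i, heU j i⟩ with he'
  have hι : Fintype.card ι = P := by
    rw [Fintype.card_congr s, Fintype.card_fin]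
  have hli : LinearIndependent k e' := by
    have h1 : LinearIndependent k ((U.subtype.compLeft ι) ∘ e') := he
    exact h1.of_comp _
  have hp : p ≤ Module.finrank k U * P := by
    have h1 := hli.fintype_card_le_finrank
    rw [Fintype.card_fin, Module.finrank_pi_fintype, Finset.sum_const, Finset.card_univ,
      smul_eq_mul, hι, mul_comm] at h1
    exact h1
  refine ⟨hp, ?_⟩
  set h := Module.finrank k U with hh
  set g := h * P - p with hg
  obtain ⟨c, hc, hcG⟩ := choose_indep (k := k) p (fun j : Fin p => LinearMap.ker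
    ((LinearMap.funLeft k U (Subtype.val : {i // ((j : ℕ) + g) / h + 1 ≤ (s i : ℕ)} → ι)) ∘ₗ
      (Fintype.linearCombination k e'))) (by
    intro j
    have h1 := ker_dim (k := k) e' s (((j : ℕ) + g) / h + 1)
    have hj := j.isLt
    have hh0 : 0 < h := by
      rcases Nat.eq_zero_or_pos h with h0 | h0
      · rw [h0] at hp; omega
      · exact h0
    have h2 : (j : ℕ) + g < h * (((j : ℕ) + g) / h + 1) := Nat.lt_mul_div_succ _ hh0
    have h3 : ((j : ℕ) + g) / h < P := Nat.div_lt_of_lt_mul (by omega)
    obtain ⟨q, hq⟩ := Nat.exists_eq_add_of_lt h3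
    have h4 : P - (((j : ℕ) + g) / h + 1) = q := by omega
    rw [h4, ← hh] at h1
    have h5 : h * P = h * (((j : ℕ) + g) / h + 1) + q * h := by
      conv_lhs => rw [hq]
      ring
    omega)
  refine ⟨Matrix.of c, ?_, ?_⟩
  · have h1 : LinearIndependent k (Matrix.of c).row := hc
    rw [Matrix.linearIndependent_rows_iff_isUnit, Matrix.isUnit_iff_isUnit_det] at h1
    exact h1.ne_zero
  · intro j i hne
    have h1 := hcG j
    rw [LinearMap.mem_ker] at h1
    have h2 : ¬ ((j : ℕ) + g) / h + 1 ≤ (s i : ℕ) := by
      intro hle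
      apply hne
      have h3 := congrFun h1 ⟨i, hle⟩
      rw [LinearMap.comp_apply, LinearMap.funLeft_apply, Fintype.linearCombination_apply,
        Finset.sum_apply] at h3
      have h4 := congrArg (Subtype.val : U → K) h3
      simpa [he'] using h4
    have h3 : (s i : ℕ) ≤ ((j : ℕ) + g) / h := by omega
    calc h * (s i : ℕ) ≤ h * (((j : ℕ) + g) / h) := Nat.mul_le_mul_left _ h3
      _ ≤ (j : ℕ) + g := Nat.mul_div_le _ _

end Pool.Agent.Work.MP_6d7a54_an.NG
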