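import Pool.Agent.Work.MP_6d7a54_an.NG.Stmts

set_option autoImplicit false

/-! Item `Ext`: extreme points. -/

namespace Pool.Agent.Work.MP_6d7a54_an.NG

namespace PExtx

lemma split {N r : ℕ} (v : Fin N → Fin r → ℝ) (b : Fin N)
    (hb : v b ∈ (convexHull ℝ (Set.range v)).extremePoints ℝ) (th : Fin N → ℝ)
    (h0 : ∀ c, 0 ≤ th c) (h1 : ∑ c, th c = 1) (h2 : ∑ c, th c • v c = v b) (c : Fin N)
    (hc : th c ≠ 0) : v c = v b := by
  classical
  have hT : ∀ c, v c ∈ convexHull ℝ (Set.range v) := fun c =>
    subset_convexHull ℝ _ (Set.mem_range_self c)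
  have hpos : 0 < th c := lt_of_le_of_ne (h0 c) (Ne.symm hc)
  have hs1 : th c + ∑ x ∈ Finset.univ.erase c, th x = 1 := by
    rw [Finset.add_sum_erase _ _ (Finset.mem_univ c), h1]
  have hs2 : th c • v c + ∑ x ∈ Finset.univ.erase c, th x • v x = v b := by
    rw [Finset.add_sum_erase _ (fun x => th x • v x) (Finset.mem_univ c), h2]
  rcases eq_or_ne (th c) 1 with h | h
  · have h3 : ∑ x ∈ Finset.univ.erase c, th x = 0 := by linarith
    have h4 : ∀ x ∈ Finset.univ.erase c, th x = 0 :=
      (Finset.sum_eq_zero_iff_of_nonneg fun x _ => h0 x).1 h3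
    rw [Finset.sum_eq_zero (fun x hx => by rw [h4 x hx, zero_smul]), h, one_smul, add_zero] at hs2
    exact hs2
  · have hle : th c ≤ 1 := by
      have : 0 ≤ ∑ x ∈ Finset.univ.erase c, th x := Finset.sum_nonneg fun x _ => h0 x
      linarith
    have hlt : 0 < 1 - th c := by
      have := lt_of_le_of_ne hle h
      linarith
    have hz : ∑ x ∈ Finset.univ.erase c, (th x / (1 - th c)) • v x ∈
        convexHull ℝ (Set.range v) := by
      refine (convex_convexHull ℝ _).sum_mem (fun x _ => div_nonneg (h0 x) hlt.le) ?_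
        (fun x _ => hT x)
      rw [← Finset.sum_div, div_eq_one_iff_eq hlt.ne']
      linarith
    refine ((mem_extremePoints.1 hb).2 _ (hT c) _ hz ?_).1
    refine ⟨th c, 1 - th c, hpos, hlt, by ring, ?_⟩
    rw [Finset.smul_sum, ← hs2]
    congr 1
    refine Finset.sum_congr rfl fun x _ => ?_
    rw [smul_smul, mul_div_cancel₀ _ hlt.ne']

end PExtx

open PExtx in
theorem Ext_proof : S_Ext := by
  classical
  intro N r v
  have hfin : (Set.range v).Finite := Set.finite_range v
  have hK : IsCompact (convexHull ℝ (Set.range v)) := hfin.isCompact_convexHull ℝ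
  have hsub : (convexHull ℝ (Set.range v)).extremePoints ℝ ⊆ Set.range v :=
    extremePoints_convexHull_subset
  refine ⟨Finset.univ.filter fun b => v b ∈ (convexHull ℝ (Set.range v)).extremePoints ℝ, ?_, ?_⟩
  · intro b hb th h0 h1 h2 c hc
    exact split v b (Finset.mem_filter.1 hb).2 th h0 h1 h2 c hc
  · intro a
    have h1 : v a ∈ convexHull ℝ ((convexHull ℝ (Set.range v)).extremePoints ℝ) := by
      have h2 := closure_convexHull_extremePoints hK (convex_convexHull ℝ (Set.range v))
      rw [((hfin.subset hsub).isCompact_convexHull ℝ).isClosed.closure_eq] at h2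
      rw [h2]
      exact subset_convexHull ℝ _ (Set.mem_range_self a)
    obtain ⟨ι, _, w, z, hw, hw1, hz, hs⟩ := mem_convexHull_iff_exists_fintype.1 h1
    choose k hk using fun i => hsub (hz i)
    refine ⟨fun c => ∑ i, if k i = c then w i else 0, ?_, ?_, ?_, ?_⟩
    · intro c
      refine Finset.sum_nonneg fun i _ => ?_
      split_ifs
      · exact hw i
      · exact le_rfl
    · rw [Finset.sum_comm]
      simpa using hw1
    · intro c hc
      obtain ⟨i, _, hi⟩ := Finset.exists_ne_zero_of_sum_ne_zero hc
      have hic : k i = c := by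
        by_contra hcon
        exact hi (if_neg hcon)
      refine Finset.mem_filter.2 ⟨Finset.mem_univ c, ?_⟩
      rw [← hic, hk i]
      exact hz i
    · simp_rw [Finset.sum_smul]
      rw [Finset.sum_comm, ← hs]
      refine Finset.sum_congr rfl fun i _ => ?_
      rw [Finset.sum_eq_single (k i)]
      · rw [if_pos rfl, hk i]
      · intro c _ hc
        rw [if_neg (Ne.symm hc), zero_smul]
      · intro h
        exact absurd (Finset.mem_univ _) h

end Pool.Agent.Work.MP_6d7a54_an.NG
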