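import Pool.Agent.Work.MP_6d7a54_an.NG.Stmts

/-!
# Homogeneous integral equations (MP_6d7a54_an)
-/

namespace Pool.Agent.Work.MP_6d7a54_an.NG

open MvPolynomial

namespace PIntHx

/-- the homogeneous component of a product with a homogeneous polynomial -/
theorem hc_mul {F : Type} [Field F] {N : ℕ} (m n : ℕ) (a b : MvPolynomial (Fin N) F)
    (hb : b.IsHomogeneous n) :
    homogeneousComponent (m + n) (a * b) = homogeneousComponent m a * b := by
  have h1 : a * b = ∑ i ∈ Finset.range (a.totalDegree + 1), homogeneousComponent i a * b := by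
    rw [← Finset.sum_mul, sum_homogeneousComponent]
  rw [h1, map_sum]
  have h2 : ∀ i ∈ Finset.range (a.totalDegree + 1),
      homogeneousComponent (m + n) (homogeneousComponent i a * b)
        = if m = i then homogeneousComponent i a * b else 0 := by
    intro i _
    have h3 : (homogeneousComponent i a * b).IsHomogeneous (i + n) :=
      (homogeneousComponent_isHomogeneous i a).mul hb
    rw [homogeneousComponent_of_mem ((mem_homogeneousSubmodule _ _).2 h3)]
    by_cases h : m = i
    · subst h
      simp
    · rw [if_neg h, if_neg]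
      omega
  rw [Finset.sum_congr rfl h2, Finset.sum_ite_eq]
  split_ifs with h
  · rfl
  · rw [Finset.mem_range, not_lt] at h
    rw [homogeneousComponent_eq_zero m a (by omega), zero_mul]

/-- composition with homogeneous polynomials of degrees `dg` takes weighted homogeneous
components to homogeneous components -/
theorem hc_aeval {F : Type} [Field F] {N : ℕ} (Q : Fin N → MvPolynomial (Fin N) F)
    (dg : Fin N → ℕ) (hQ : ∀ a, (Q a).IsHomogeneous (dg a)) (e : ℕ)
    (d : MvPolynomial (Fin N) F) :
    homogeneousComponent e (aeval Q d) = aeval Q (weightedHomogeneousComponent dg e d) := by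
  induction d using MvPolynomial.induction_on' with
  | monomial m a =>
    have h1 : (aeval Q (monomial m a)).IsHomogeneous (Finsupp.weight dg m) := by
      rw [aeval_monomial, Finsupp.prod]
      have h2 : (∏ i ∈ m.support, Q i ^ m i).IsHomogeneous (∑ i ∈ m.support, dg i * m i) :=
        IsHomogeneous.prod _ _ _ (fun i _ => (hQ i).pow (m i))
      have h3 : Finsupp.weight dg m = 0 + ∑ i ∈ m.support, dg i * m i := by
        rw [Finsupp.weight_apply, Finsupp.sum, zero_add]
        refine Finset.sum_congr rfl (fun i _ => ?_)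
        rw [smul_eq_mul, mul_comm]
      rw [h3]
      exact (isHomogeneous_C _ a).mul h2
    have h4 : (monomial m a).IsWeightedHomogeneous dg (Finsupp.weight dg m) :=
      isWeightedHomogeneous_monomial dg m a rfl
    rw [homogeneousComponent_of_mem ((mem_homogeneousSubmodule _ _).2 h1),
      weightedHomogeneousComponent_of_mem ((mem_weightedHomogeneousSubmodule _ _ _ _).2 h4)]
    split_ifs
    · rfl
    · rw [map_zero]
  | add p q hp hq =>
    rw [map_add, map_add, hp, hq, map_add, map_add]

/-- a monic equation, written with decreasing powers -/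
theorem ev_rev {B R : Type} [CommRing B] [CommRing R] (f : B →+* R) (P : R) (p : Polynomial B)
    (k : ℕ) (hk : p.natDegree = k + 1) (hp : p.Monic) (h : Polynomial.eval₂ f P p = 0) :
    P ^ (k + 1) + ∑ i : Fin (k + 1), f (p.coeff (k - (i : ℕ))) * P ^ (k - (i : ℕ)) = 0 := by
  rw [Polynomial.eval₂_eq_sum_range, hk, Finset.sum_range_succ] at h
  have h2 : p.coeff (k + 1) = 1 := by
    rw [← hk]
    exact hp
  rw [h2, map_one, one_mul, ← Finset.sum_range_reflect, add_comm, Finset.sum_range] at h
  rw [← h]
  congr 1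

theorem deg_eq (k g i : ℕ) (hi : i ≤ k) : (k + 1) * g = (i + 1) * g + g * (k - i) := by
  obtain ⟨t, ht⟩ := Nat.exists_eq_add_of_le hi
  subst ht
  rw [Nat.add_sub_cancel_left]
  ring

end PIntHx

open PIntHx in
theorem IntH_proof (h : S_Int) : S_IntH := by
  intro F _ _ n Q dg hNC P g hP
  obtain ⟨p, hp, hpe⟩ := (h F n Q dg hNC).2.2.2 P
  have hQ := hNC.hom
  rcases Nat.eq_zero_or_pos p.natDegree with h0 | h0
  · exfalso
    rw [hp.natDegree_eq_zero.1 h0] at hpe
    simp at hpe
  obtain ⟨k, hk⟩ : ∃ k, p.natDegree = k + 1 := ⟨p.natDegree - 1, by omega⟩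
  refine ⟨k, fun i => weightedHomogeneousComponent dg (((i : ℕ) + 1) * g)
    (p.coeff (k - (i : ℕ))), ?_, ?_⟩
  · intro i
    exact weightedHomogeneousComponent_isWeightedHomogeneous (w := dg) (((i : ℕ) + 1) * g)
      (p.coeff (k - (i : ℕ)))
  have h1 : P ^ (k + 1) + ∑ i : Fin (k + 1), aeval Q (p.coeff (k - (i : ℕ))) * P ^ (k - (i : ℕ))
      = 0 := ev_rev _ P p k hk hp hpe
  have h4 := congrArg (homogeneousComponent ((k + 1) * g)) h1
  rw [map_zero, map_add, map_sum] at h4
  rw [← h4]
  congr 1
  · have h5 : (P ^ (k + 1)).IsHomogeneous ((k + 1) * g) := by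
      rw [mul_comm]
      exact hP.pow _
    rw [homogeneousComponent_of_mem ((mem_homogeneousSubmodule _ _).2 h5), if_pos rfl]
  · refine Finset.sum_congr rfl (fun i _ => ?_)
    have h6 : (P ^ (k - (i : ℕ))).IsHomogeneous (g * (k - (i : ℕ))) := hP.pow _
    have h7 : (k + 1) * g = ((i : ℕ) + 1) * g + g * (k - (i : ℕ)) :=
      deg_eq k g i (by omega)
    rw [h7, hc_mul _ _ _ _ h6, hc_aeval Q dg hQ]

end Pool.Agent.Work.MP_6d7a54_an.NG
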