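import Pool.Agent.Work.MP_6d7a54_an.NG.StmtsG

/-!
# Item P_NC0: components of a normal crossing hypersurface meet transversally
-/

set_option autoImplicit false

namespace Pool.Agent.Work.MP_6d7a54_an.NG

open MvPolynomial Filter Topology

namespace PNC0x

variable {N : ℕ}

/-- scaling -/
theorem hom_smul {D : ℕ} {φ : MvPolynomial (Fin N) ℂ} (h : φ.IsHomogeneous D) (c : ℂ)
    (x : Fin N → ℂ) : eval (c • x) φ = c ^ D * eval x φ := by
  rw [eval_eq', eval_eq', Finset.mul_sum]
  refine Finset.sum_congr rfl fun m hm => ?_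
  have h1 : ∑ i, m i = D := by
    have h2 := h (mem_support_iff.1 hm)
    rw [Finsupp.weight_apply, Finsupp.sum_fintype _ _ (fun i => by simp)] at h2
    simpa using h2
  have h2 : ∏ i, (c • x) i ^ m i = c ^ D * ∏ i, x i ^ m i := by
    simp only [Pi.smul_apply, smul_eq_mul, mul_pow]
    rw [Finset.prod_mul_distrib, Finset.prod_pow_eq_pow_sum, h1]
  rw [h2]
  ring

/-- the directional derivative -/
noncomputable def dd (Q : MvPolynomial (Fin N) ℂ) (w v : Fin N → ℂ) : ℂ :=
  ∑ j, eval w (pderiv j Q) * v j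

theorem hasDeriv (Q : MvPolynomial (Fin N) ℂ) (w v : Fin N → ℂ) :
    HasDerivAt (fun ε : ℂ => eval (w + ε • v) Q) (dd Q w v) 0 := by
  induction Q using MvPolynomial.induction_on with
  | C a =>
    have h1 : dd (C a) w v = 0 := by
      unfold dd
      simp
    rw [h1]
    simp only [eval_C]
    exact hasDerivAt_const _ _
  | add p q hp hq =>
    have h1 : dd (p + q) w v = dd p w v + dd q w v := by
      unfold dd
      simp only [map_add, add_mul, Finset.sum_add_distrib]
    rw [h1]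
    simp only [map_add]
    exact hp.add hq
  | mul_X p i hp =>
    have h1 : dd (p * X i) w v = dd p w v * w i + eval w p * v i := by
      unfold dd
      simp only [Derivation.leibniz, smul_eq_mul, map_add, map_mul, eval_X, pderiv_X, add_mul,
        Finset.sum_add_distrib]
      rw [Finset.sum_mul, add_comm]
      congr 1
      · refine Finset.sum_congr rfl fun j _ => by ring
      · rw [Finset.sum_eq_single i]
        · simp
        · intro j _ hj
          simp [hj]
        · intro h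
          exact absurd (Finset.mem_univ i) h
    rw [h1]
    simp only [map_mul, eval_X, Pi.add_apply, Pi.smul_apply, smul_eq_mul]
    have h2 : HasDerivAt (fun ε : ℂ => w i + ε * v i) (v i) 0 := by
      have h3 := ((hasDerivAt_id (0 : ℂ)).mul_const (v i)).const_add (w i)
      simpa using h3
    have h4 := hp.mul h2
    have h5 : dd p w v * w i + eval w p * v i =
        dd p w v * (w i + 0 * v i) + eval (w + (0 : ℂ) • v) p * v i := by
      rw [zero_mul, add_zero, zero_smul, add_zero]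
    rw [h5]
    exact h4

theorem slope {f : ℂ → ℂ} {f' : ℂ} (h : HasDerivAt f f' 0) (h0 : f 0 = 0) :
    Tendsto (fun ε => f ε / ε) (𝓝[≠] 0) (𝓝 f') := by
  have h1 := hasDerivAt_iff_tendsto_slope_zero.1 h
  refine h1.congr fun ε => ?_
  rw [zero_add, h0, sub_zero, smul_eq_mul, div_eq_inv_mul]

theorem line (w v : Fin N → ℂ) : Tendsto (fun ε : ℂ => w + ε • v) (𝓝 0) (𝓝 w) := by
  have h1 : Continuous (fun ε : ℂ => w + ε • v) := by fun_prop
  have h2 := h1.tendsto 0
  simpa using h2

theorem slopeQ (Q : MvPolynomial (Fin N) ℂ) (w v : Fin N → ℂ) (h0 : eval w Q = 0) :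
    Tendsto (fun ε : ℂ => eval (w + ε • v) Q / ε) (𝓝[≠] 0) (𝓝 (dd Q w v)) :=
  slope (hasDeriv Q w v) (by simpa using h0)

theorem valQ (Q : MvPolynomial (Fin N) ℂ) (w v : Fin N → ℂ) :
    Tendsto (fun ε : ℂ => eval (w + ε • v) Q) (𝓝[≠] 0) (𝓝 (eval w Q)) := by
  have h1 := (hasDeriv Q w v).continuousAt.tendsto
  have h2 : eval (w + (0 : ℂ) • v) Q = eval w Q := by simp
  rw [h2] at h1
  exact h1.mono_left nhdsWithin_le_nhds

/-- the leading term in the direction `v` -/
theorem lead (X : MvPolynomial (Fin N) ℂ) (w v : Fin N → ℂ) {k : ℕ}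
    (h : Fin k → (Fin N → ℂ) → ℂ) (h1 : ∀ i, AnalyticAt ℂ (h i) w ∧ h i w = 0)
    (h2 : ∀ᶠ z in 𝓝 w, eval z X = ∏ i, h i z) :
    Tendsto (fun ε : ℂ => eval (w + ε • v) X / ε ^ k) (𝓝[≠] 0)
      (𝓝 (∏ i, fderiv ℂ (h i) w v)) := by
  have h3 : ∀ i, Tendsto (fun ε : ℂ => h i (w + ε • v) / ε) (𝓝[≠] 0)
      (𝓝 (fderiv ℂ (h i) w v)) := by
    intro i
    refine slope ?_ (by simpa using (h1 i).2)
    have h4 : HasDerivAt (fun ε : ℂ => w + ε • v) v 0 := by
      have h5 := ((hasDerivAt_id (0 : ℂ)).smul_const v).const_add w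
      simpa using h5
    have h6 : HasFDerivAt (h i) (fderiv ℂ (h i) w) (w + (0 : ℂ) • v) := by
      rw [zero_smul, add_zero]
      exact (h1 i).1.differentiableAt.hasFDerivAt
    exact h6.comp_hasDerivAt (0 : ℂ) h4
  have h4 := tendsto_finsetProd Finset.univ (fun i _ => h3 i)
  refine h4.congr' ?_
  have h5 : ∀ᶠ ε : ℂ in 𝓝[≠] 0, eval (w + ε • v) X = ∏ i, h i (w + ε • v) :=
    ((line w v).eventually h2).filter_mono nhdsWithin_le_nhds
  filter_upwards [h5] with ε hε
  rw [hε, Finset.prod_div_distrib, Finset.prod_const, Finset.card_univ, Fintype.card_fin]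

/-- surjectivity of independent functionals -/
theorem surj {k : ℕ} (l : Fin k → ((Fin N → ℂ) →L[ℂ] ℂ)) (hl : LinearIndependent ℂ l) :
    Function.Surjective (LinearMap.pi (fun i => (l i : (Fin N → ℂ) →ₗ[ℂ] ℂ))) := by
  rw [← LinearMap.dualMap_injective_iff, injective_iff_map_eq_zero]
  intro ψ hψ
  have h1 : ∑ i, ψ (Pi.single i 1) • l i = 0 := by
    ext v
    have h2 : ψ (fun i => l i v) = 0 := by
      have h3 := congrArg (fun F : Module.Dual ℂ (Fin N → ℂ) => F v) hψ
      exact h3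
    have h3 : (fun i => l i v) = ∑ i, (l i v) • (Pi.single i 1 : Fin k → ℂ) := by
      funext m
      rw [Finset.sum_apply, Finset.sum_eq_single m]
      · simp
      · intro b _ hb
        simp [Ne.symm hb]
      · intro h
        exact absurd (Finset.mem_univ m) h
    rw [h3, map_sum] at h2
    simp only [map_smul, smul_eq_mul] at h2
    simp only [sum_apply, smul_apply, smul_eq_mul, zero_apply]
    rw [← h2]
    exact Finset.sum_congr rfl fun i _ => mul_comm _ _
  have h2 := Fintype.linearIndependent_iff.1 hl _ h1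
  refine LinearMap.ext fun x => ?_
  have h3 : x = ∑ i, x i • (Pi.single i 1 : Fin k → ℂ) := by
    funext m
    rw [Finset.sum_apply, Finset.sum_eq_single m]
    · simp
    · intro b _ hb
      simp [Ne.symm hb]
    · intro h
      exact absurd (Finset.mem_univ m) h
  rw [h3, map_sum, LinearMap.zero_apply]
  refine Finset.sum_eq_zero fun i _ => ?_
  rw [map_smul, h2 i, smul_zero]

/-- the leading term does not change in the direction of `w` -/
theorem shift {D : ℕ} {X : MvPolynomial (Fin N) ℂ} (hX : X.IsHomogeneous D) (w v : Fin N → ℂ)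
    {k : ℕ} (h : Fin k → (Fin N → ℂ) → ℂ) (h1 : ∀ i, AnalyticAt ℂ (h i) w ∧ h i w = 0)
    (h2 : ∀ᶠ z in 𝓝 w, eval z X = ∏ i, h i z) (s : ℂ) :
    ∏ i, fderiv ℂ (h i) w (v + s • w) = ∏ i, fderiv ℂ (h i) w v := by
  have c1 : Tendsto (fun ε : ℂ => 1 + ε * s) (𝓝[≠] 0) (𝓝 1) := by
    have c2 : Continuous (fun ε : ℂ => 1 + ε * s) := by fun_prop
    have c3 := c2.tendsto 0
    simp only [zero_mul, add_zero] at c3
    exact c3.mono_left nhdsWithin_le_nhds
  have c2 : ∀ᶠ ε : ℂ in 𝓝[≠] 0, 1 + ε * s ≠ 0 := c1.eventually_ne one_ne_zero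
  have c3 : Tendsto (fun ε : ℂ => ε / (1 + ε * s)) (𝓝[≠] 0) (𝓝[≠] 0) := by
    rw [tendsto_nhdsWithin_iff]
    constructor
    · have c4 : Tendsto (fun ε : ℂ => ε) (𝓝[≠] 0) (𝓝 0) := nhdsWithin_le_nhds
      have c5 := c4.div c1 one_ne_zero
      rw [zero_div] at c5
      exact c5
    · filter_upwards [c2, self_mem_nhdsWithin] with ε hε hε0
      exact div_ne_zero hε0 hε
  have e1 := lead X w (v + s • w) h h1 h2
  have e2 := (lead X w v h h1 h2).comp c3
  have e3 := ((c1.pow D).mul ((c1.inv₀ one_ne_zero).pow k)).mul e2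
  rw [one_pow, inv_one, one_pow, one_mul, one_mul] at e3
  refine tendsto_nhds_unique e1 (e3.congr' ?_)
  filter_upwards [c2, self_mem_nhdsWithin] with ε hε hε0
  have hε0' : ε ≠ 0 := hε0
  have e4 : w + ε • (v + s • w) = (1 + ε * s) • (w + (ε / (1 + ε * s)) • v) := by
    funext j
    simp only [Pi.add_apply, Pi.smul_apply, smul_eq_mul]
    field_simp
    ring
  rw [e4, hom_smul hX]
  simp only [Function.comp]
  have e5 : (1 + ε * s)⁻¹ ^ k * (ε ^ k * ((ε / (1 + ε * s)) ^ k)⁻¹) = 1 := by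
    rw [← inv_pow, ← mul_pow, ← mul_pow]
    have e6 : (1 + ε * s)⁻¹ * (ε * (ε / (1 + ε * s))⁻¹) = 1 := by
      field_simp
    rw [e6, one_pow]
  have e7 : ε ^ k ≠ 0 := pow_ne_zero k hε0'
  rw [eq_div_iff e7]
  calc (1 + ε * s) ^ D * (1 + ε * s)⁻¹ ^ k *
        (eval (w + (ε / (1 + ε * s)) • v) X / (ε / (1 + ε * s)) ^ k) * ε ^ k =
        (1 + ε * s) ^ D * eval (w + (ε / (1 + ε * s)) • v) X *
          ((1 + ε * s)⁻¹ ^ k * (ε ^ k * ((ε / (1 + ε * s)) ^ k)⁻¹)) := by
        rw [div_eq_mul_inv]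
        ring
    _ = _ := by rw [e5, mul_one]

theorem dd_add (Q : MvPolynomial (Fin N) ℂ) (w v u : Fin N → ℂ) :
    dd Q w (v + u) = dd Q w v + dd Q w u := by
  unfold dd
  rw [← Finset.sum_add_distrib]
  exact Finset.sum_congr rfl fun j _ => by rw [Pi.add_apply]; ring

theorem dd_smul (Q : MvPolynomial (Fin N) ℂ) (w v : Fin N → ℂ) (s : ℂ) :
    dd Q w (s • v) = s * dd Q w v := by
  unfold dd
  rw [Finset.mul_sum]
  exact Finset.sum_congr rfl fun j _ => by rw [Pi.smul_apply, smul_eq_mul]; ring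

theorem euler {D : ℕ} {Q : MvPolynomial (Fin N) ℂ} (hQ : Q.IsHomogeneous D) (w : Fin N → ℂ) :
    dd Q w w = D * eval w Q := by
  have h1 := congrArg (eval w) hQ.sum_X_mul_pderiv
  rw [map_sum, nsmul_eq_mul, map_mul, map_natCast] at h1
  rw [← h1]
  unfold dd
  exact Finset.sum_congr rfl fun j _ => by rw [map_mul, eval_X, mul_comm]

theorem core {n : ℕ} (P : Fin (n + 1) → MvPolynomial (Fin (n + 1)) ℂ) (d : Fin (n + 1) → ℕ)
    (hP : ∀ a, (P a).IsHomogeneous (d a)) (w : Fin (n + 1) → ℂ) (hw : w ≠ 0) (a : Fin (n + 1))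
    (hb : ∀ b, b ≠ a → eval w (P b) = 0) (hX : eval w (∏ a, P a) = 0)
    (hNC : NormalCrossing (∏ a, P a)) : eval w (P a) ≠ 0 ∧
    ∀ v, (∀ b, b ≠ a → dd (P b) w v = 0) → ∃ t : ℂ, v = t • w := by
  classical
  obtain ⟨k, h, h1, hl, h2⟩ := hNC w hw hX
  have hhom : (∏ a, P a).IsHomogeneous (∑ a, d a) :=
    IsHomogeneous.prod _ _ _ fun a _ => hP a
  have hs := surj (fun i => fderiv ℂ (h i) w) hl
  obtain ⟨v1, hv1⟩ := hs (fun _ => 1)
  have hv1' : ∀ i, fderiv ℂ (h i) w v1 = 1 := fun i => congrFun hv1 i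
  have hv1p : ∏ i, fderiv ℂ (h i) w v1 = 1 := Finset.prod_eq_one fun i _ => hv1' i
  have hlw : ∀ i, fderiv ℂ (h i) w w = 0 := by
    intro i
    by_contra hc
    have e1 := shift hhom w v1 h h1 h2 (-(fderiv ℂ (h i) w w)⁻¹)
    rw [hv1p, Finset.prod_eq_zero (Finset.mem_univ i)] at e1
    · exact zero_ne_one e1
    · rw [map_add, map_smul, hv1', smul_eq_mul, neg_mul, inv_mul_cancel₀ hc, add_neg_cancel]
  set L := LinearMap.pi (fun i => (fderiv ℂ (h i) w : (Fin (n + 1) → ℂ) →ₗ[ℂ] ℂ)) with hL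
  have hLmem : ∀ v, v ∈ LinearMap.ker L ↔ ∀ i, fderiv ℂ (h i) w v = 0 := by
    intro v
    rw [LinearMap.mem_ker]
    exact ⟨fun hv i => congrFun hv i, fun hv => funext hv⟩
  have hwL : w ∈ LinearMap.ker L := (hLmem w).2 hlw
  have hrk : k + Module.finrank ℂ (LinearMap.ker L) = n + 1 := by
    have e1 := LinearMap.finrank_range_add_finrank_ker L
    rw [LinearMap.range_eq_top.2 hs, finrank_top, Module.finrank_fin_fun,
      Module.finrank_fin_fun] at e1
    exact e1
  have hker : 1 ≤ Module.finrank ℂ (LinearMap.ker L) := by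
    rw [Nat.one_le_iff_ne_zero]
    intro h0
    rw [Submodule.finrank_eq_zero] at h0
    rw [h0, Submodule.mem_bot] at hwL
    exact hw hwL
  -- the other expansion
  have hexp : ∀ v, Tendsto (fun ε : ℂ => eval (w + ε • v) (∏ a, P a) / ε ^ n) (𝓝[≠] 0)
      (𝓝 (eval w (P a) * ∏ b ∈ Finset.univ.erase a, dd (P b) w v)) := by
    intro v
    have e1 := tendsto_finsetProd (Finset.univ.erase a) (fun b hb' =>
      slopeQ (P b) w v (hb b (Finset.ne_of_mem_erase hb')))
    have e2 := (valQ (P a) w v).mul e1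
    refine e2.congr fun ε => ?_
    rw [Finset.prod_div_distrib, Finset.prod_const, Finset.card_erase_of_mem (Finset.mem_univ a),
      Finset.card_univ, Fintype.card_fin, Nat.add_sub_cancel, map_prod,
      ← Finset.mul_prod_erase Finset.univ _ (Finset.mem_univ a), mul_div_assoc]
  have hkn : k = n := by
    by_contra hne
    have hlt : k < n := by omega
    have e1 := lead (∏ a, P a) w v1 h h1 h2
    have e2 : Tendsto (fun ε : ℂ => ε ^ (n - k)) (𝓝[≠] 0) (𝓝 0) := by
      have e3 : Continuous (fun ε : ℂ => ε ^ (n - k)) := by fun_prop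
      have e4 := e3.tendsto 0
      rw [zero_pow (by omega)] at e4
      exact e4.mono_left nhdsWithin_le_nhds
    have e3 := (hexp v1).mul e2
    rw [mul_zero] at e3
    have e4 := tendsto_nhds_unique e1 (e3.congr' (by
      filter_upwards [self_mem_nhdsWithin] with ε hε
      have hε' : ε ≠ 0 := hε
      have e5 : ε ^ n = ε ^ k * ε ^ (n - k) := by
        rw [← pow_add]
        congr 1
        omega
      rw [e5]
      field_simp))
    rw [hv1p] at e4
    exact one_ne_zero e4
  subst hkn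
  have hid : ∀ v, ∏ i, fderiv ℂ (h i) w v =
      eval w (P a) * ∏ b ∈ Finset.univ.erase a, dd (P b) w v := fun v =>
    tendsto_nhds_unique (lead (∏ a, P a) w v h h1 h2) (hexp v)
  have hPa : eval w (P a) ≠ 0 := by
    intro h0
    have e1 := hid v1
    rw [hv1p, h0, zero_mul] at e1
    exact one_ne_zero e1
  refine ⟨hPa, fun v hv => ?_⟩
  have hlv : ∀ i, fderiv ℂ (h i) w v = 0 := by
    intro i
    by_contra hc
    have e1 := hid (v + (-(fderiv ℂ (h i) w v)) • v1)
    rw [Finset.prod_eq_zero (Finset.mem_univ i)] at e1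
    · have e2 : ∏ b ∈ Finset.univ.erase a,
          dd (P b) w (v + (-(fderiv ℂ (h i) w v)) • v1) =
          (-(fderiv ℂ (h i) w v)) ^ k * ∏ b ∈ Finset.univ.erase a, dd (P b) w v1 := by
        have e3 : ∀ b ∈ Finset.univ.erase a, dd (P b) w (v + (-(fderiv ℂ (h i) w v)) • v1) =
            (-(fderiv ℂ (h i) w v)) * dd (P b) w v1 := by
          intro b hb'
          rw [dd_add, dd_smul, hv b (Finset.ne_of_mem_erase hb'), zero_add]
        rw [Finset.prod_congr rfl e3, Finset.prod_mul_distrib, Finset.prod_const,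
          Finset.card_erase_of_mem (Finset.mem_univ a), Finset.card_univ, Fintype.card_fin,
          Nat.add_sub_cancel]
      rw [e2, mul_left_comm, ← hid v1, hv1p, mul_one] at e1
      exact pow_ne_zero k (neg_ne_zero.2 hc) e1.symm
    · rw [map_add, map_smul, hv1', smul_eq_mul, mul_one, add_neg_cancel]
  have hf : Module.finrank ℂ (LinearMap.ker L) = 1 := by omega
  obtain ⟨t, ht⟩ := (finrank_eq_one_iff_of_nonzero' (⟨w, hwL⟩ : LinearMap.ker L)
    (fun h0 => hw (congrArg Subtype.val h0))).1 hf ⟨v, (hLmem v).2 hlv⟩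
  exact ⟨t, (congrArg Subtype.val ht).symm⟩

end PNC0x

open PNC0x in
theorem NC0_proof : S_NC0 := by
  classical
  intro n P d hP hd hNC w hw a hb hJ
  -- a vector in the kernel of the Jacobian matrix
  have h1 : ((Jm P).map (eval w)).det = 0 := by
    have h2 := (RingHom.map_det (eval w) (Jm P)).symm
    rw [RingHom.mapMatrix_apply] at h2
    rw [h2]
    exact hJ
  obtain ⟨v, hv0, hv⟩ := Matrix.exists_mulVec_eq_zero_iff.2 h1
  have hdv : ∀ b, dd (P b) w v = 0 := fun b => congrFun hv b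
  have key : eval w (P a) ≠ 0 ∧ ∃ t : ℂ, v = t • w := by
    by_cases hX : eval w (∏ a, P a) = 0
    · obtain ⟨k1, k2⟩ := core P d hP w hw a hb hX hNC
      exact ⟨k1, k2 v fun b _ => hdv b⟩
    · rw [map_prod, Finset.prod_eq_zero_iff] at hX
      push Not at hX
      have hn : n = 0 := by
        by_contra hn
        obtain ⟨b, hba⟩ : ∃ b : Fin (n + 1), b ≠ a := by
          have : Nontrivial (Fin (n + 1)) := Fin.nontrivial_iff_two_le.2 (by omega)
          exact exists_ne a
        exact hX b (Finset.mem_univ b) (hb b hba)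
      subst hn
      have hsub : ∀ j : Fin (0 + 1), j = 0 := fun j => Fin.ext (by omega)
      refine ⟨hX a (Finset.mem_univ a), v 0 / w 0, ?_⟩
      have hw0 : w 0 ≠ 0 := by
        intro h0
        apply hw
        funext j
        rw [hsub j, h0]
        rfl
      funext j
      rw [hsub j, Pi.smul_apply, smul_eq_mul, div_mul_cancel₀ _ hw0]
  obtain ⟨hPa, t, rfl⟩ := key
  have h2 := hdv a
  rw [dd_smul, euler (hP a)] at h2
  have hda : (d a : ℂ) ≠ 0 := by
    have := hd a
    exact_mod_cast (by omega : d a ≠ 0)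
  have ht : t = 0 := (mul_eq_zero.1 h2).resolve_right (mul_ne_zero hda hPa)
  exact hv0 (by rw [ht, zero_smul])

end Pool.Agent.Work.MP_6d7a54_an.NG
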