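import Pool.Agent.Work.MP_6d7a54_an.NG.Stmts

/-!
# Substitution of monomials
-/

namespace Pool.Agent.Work.MP_6d7a54_an.NG

open MvPolynomial
open Pool.Agent.Work.MP_6d7a54_an.NF (NR InK IsNev)

namespace PSubx

/-- exponent bound -/
def bb {F : Type} [Field F] {n r : ℕ} {P : Type} (m : Fin (n + 1) → Fin r → ℤ)
    (M : MvPolynomial (Fin (n + 1) ⊕ P) F) (l : Fin r) : ℕ :=
  ∑ i ∈ M.support, ∑ a, i (Sum.inl a) * (m a l).natAbs

/-- shifted exponent, integer -/
def ez {n r : ℕ} {P : Type} (m : Fin (n + 1) → Fin r → ℤ) (b : Fin r → ℕ)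
    (i : (Fin (n + 1) ⊕ P) →₀ ℕ) (l : Fin r) : ℤ :=
  (b l : ℤ) + ∑ a, (i (Sum.inl a) : ℤ) * m a l

theorem abs_le {F : Type} [Field F] {n r : ℕ} {P : Type} (m : Fin (n + 1) → Fin r → ℤ)
    (M : MvPolynomial (Fin (n + 1) ⊕ P) F) (i : (Fin (n + 1) ⊕ P) →₀ ℕ) (hi : i ∈ M.support)
    (l : Fin r) : |∑ a, (i (Sum.inl a) : ℤ) * m a l| ≤ (bb m M l : ℤ) := by
  have h1 : |∑ a, (i (Sum.inl a) : ℤ) * m a l| ≤ ∑ a, ((i (Sum.inl a) * (m a l).natAbs : ℕ) : ℤ) := by
    refine (Finset.abs_sum_le_sum_abs _ _).trans (Finset.sum_le_sum fun a _ => ?_)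
    rw [abs_mul, Nat.cast_mul, Int.natCast_natAbs, Nat.abs_cast]
  have h2 : (∑ a, i (Sum.inl a) * (m a l).natAbs) ≤ bb m M l :=
    Finset.single_le_sum (f := fun i : (Fin (n + 1) ⊕ P) →₀ ℕ =>
      ∑ a, i (Sum.inl a) * (m a l).natAbs) (fun _ _ => Nat.zero_le _) hi
  have h3 : ((∑ a, i (Sum.inl a) * (m a l).natAbs : ℕ) : ℤ) ≤ (bb m M l : ℤ) := by exact_mod_cast h2
  rw [Nat.cast_sum] at h3
  exact h1.trans h3

theorem ez_nonneg {F : Type} [Field F] {n r : ℕ} {P : Type} (m : Fin (n + 1) → Fin r → ℤ)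
    (M : MvPolynomial (Fin (n + 1) ⊕ P) F) (i : (Fin (n + 1) ⊕ P) →₀ ℕ) (hi : i ∈ M.support)
    (l : Fin r) : 0 ≤ ez m (bb m M) i l := by
  have := (_root_.abs_le.mp (abs_le m M i hi l)).1
  unfold ez
  linarith

theorem ez_le {F : Type} [Field F] {n r : ℕ} {P : Type} (m : Fin (n + 1) → Fin r → ℤ)
    (M : MvPolynomial (Fin (n + 1) ⊕ P) F) (i : (Fin (n + 1) ⊕ P) →₀ ℕ) (hi : i ∈ M.support)
    (l : Fin r) : (ez m (bb m M) i l).toNat ≤ 2 * ∑ l, bb m M l := by
  have h1 := (_root_.abs_le.mp (abs_le m M i hi l)).2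
  have h2 : bb m M l ≤ ∑ l, bb m M l :=
    Finset.single_le_sum (f := fun l => bb m M l) (fun _ _ => Nat.zero_le _) (Finset.mem_univ l)
  have h3 : ez m (bb m M) i l ≤ ((2 * ∑ l, bb m M l : ℕ) : ℤ) := by
    unfold ez
    have h4 : (bb m M l : ℤ) ≤ ((∑ l, bb m M l : ℕ) : ℤ) := by exact_mod_cast h2
    push_cast at h4 ⊢
    linarith
  omega

/-- the coefficient -/
noncomputable def cc {F K : Type} [Field F] [Field K] [Algebra F K] {n : ℕ} {P : Type} [Fintype P]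
    (M : MvPolynomial (Fin (n + 1) ⊕ P) F) (kap : Fin (n + 1) → K) (s : P → K)
    (i : (Fin (n + 1) ⊕ P) →₀ ℕ) : K :=
  algebraMap F K (coeff i M) * ((∏ a, kap a ^ (i (Sum.inl a))) * ∏ j, s j ^ (i (Sum.inr j)))

/-- the polynomial `G` -/
noncomputable def GG {F K : Type} [Field F] [Field K] [Algebra F K] {n r : ℕ} {P : Type}
    [Fintype P] (m : Fin (n + 1) → Fin r → ℤ)
    (M : MvPolynomial (Fin (n + 1) ⊕ P) F) (kap : Fin (n + 1) → K) (s : P → K) :
    MvPolynomial (Fin r) K :=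
  ∑ i ∈ M.support, monomial (Finsupp.equivFunOnFinite.symm
    fun l => (ez m (bb m M) i l).toNat) (cc M kap s i)

theorem prod_units {R : Type} [CommRing R] {n r : ℕ} {P : Type} (m : Fin (n + 1) → Fin r → ℤ)
    (b : Fin r → ℕ) (i : (Fin (n + 1) ⊕ P) →₀ ℕ) (t : Fin r → Rˣ)
    (h : ∀ l, 0 ≤ ez m b i l) :
    ∏ l, t l ^ ((ez m b i l).toNat) =
      (∏ l, t l ^ (b l)) * ∏ a, (∏ l, t l ^ (m a l)) ^ (i (Sum.inl a)) := by
  have h1 : ∏ a, (∏ l, t l ^ (m a l)) ^ (i (Sum.inl a))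
      = ∏ l, t l ^ (∑ a, (i (Sum.inl a) : ℤ) * m a l) := by
    have : ∀ a, (∏ l, t l ^ (m a l)) ^ (i (Sum.inl a))
        = ∏ l, t l ^ ((i (Sum.inl a) : ℤ) * m a l) := by
      intro a
      rw [← Finset.prod_pow]
      refine Finset.prod_congr rfl fun l _ => ?_
      rw [mul_comm, zpow_mul, zpow_natCast]
    rw [Finset.prod_congr rfl fun a _ => this a, Finset.prod_comm]
    refine Finset.prod_congr rfl fun l _ => ?_
    induction (Finset.univ : Finset (Fin (n + 1))) using Finset.cons_induction with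
    | empty => simp
    | cons a s has ih => rw [Finset.prod_cons, Finset.sum_cons, zpow_add, ih]
  rw [h1, ← Finset.prod_mul_distrib]
  refine Finset.prod_congr rfl fun l _ => ?_
  rw [← zpow_natCast, Int.toNat_of_nonneg (h l)]
  unfold ez
  rw [zpow_add, zpow_natCast]

end PSubx

open PSubx in
theorem Sub_proof : S_Sub := by
  intro F _ n r P _ m M
  have := Fintype.ofFinite P
  refine ⟨2 * ∑ l, bb m M l, bb m M, ?_⟩
  intro K _ _ kap s
  refine ⟨GG m M kap s, ?_, ?_⟩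
  · intro l
    rw [degreeOf_le_iff]
    intro d hd
    unfold GG at hd
    obtain ⟨i, hi, hdi⟩ := Finset.mem_biUnion.mp (support_sum hd)
    have h1 := support_monomial_subset hdi
    rw [Finset.mem_singleton] at h1
    rw [h1]
    exact ez_le m M i hi l
  · intro R _ _ t
    unfold GG vq bc
    rw [map_sum, aeval_def (Sum.elim (mo kap m t) fun i => algebraMap K R (s i)), eval₂_map, eval₂_eq', Finset.mul_sum]
    refine Finset.sum_congr rfl fun i hi => ?_
    rw [aeval_monomial, Finsupp.prod_fintype _ _ (fun _ => pow_zero _), Fintype.prod_sum_type]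
    have h1 := prod_units m (bb m M) i t (ez_nonneg m M i hi)
    have h2 : (∏ l, (t l : R) ^ ((ez m (bb m M) i l).toNat))
        = (∏ l, (t l : R) ^ (bb m M l)) *
          ∏ a, (((∏ l, t l ^ (m a l) : Rˣ) : R)) ^ (i (Sum.inl a)) := by
      have := congrArg (fun u : Rˣ => (u : R)) h1
      simpa using this
    have h3 : ∀ l, (Finsupp.equivFunOnFinite.symm
        (fun l => (ez m (bb m M) i l).toNat) : Fin r →₀ ℕ) l = (ez m (bb m M) i l).toNat :=
      fun l => rfl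
    rw [Finset.prod_congr rfl fun l _ => by rw [h3 l], h2]
    unfold cc mo
    simp only [Sum.elim_inl, Sum.elim_inr, mul_pow, Finset.prod_mul_distrib, RingHom.comp_apply,
      map_mul, map_prod, map_pow]
    ring

end Pool.Agent.Work.MP_6d7a54_an.NG
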