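import Pool.Agent.Work.MP_6d7a54_an.NG.Stmts

set_option autoImplicit false

namespace Pool.Agent.Work.MP_6d7a54_an.NG

noncomputable section

namespace PWrFx

open Finset

theorem iter_zero {R : Type} [CommRing R] (d : Derivation ℤ R R) (k : ℕ) :
    (d : R → R)^[k] 0 = 0 := by
  induction k with
  | zero => rfl
  | succ k ih => rw [Function.iterate_succ_apply, map_zero, ih]

theorem iter_add {R : Type} [CommRing R] (d : Derivation ℤ R R) (k : ℕ) (a b : R) :
    (d : R → R)^[k] (a + b) = (d : R → R)^[k] a + (d : R → R)^[k] b := by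
  induction k generalizing a b with
  | zero => rfl
  | succ k ih => rw [Function.iterate_succ_apply, map_add, ih]; rfl

theorem iter_sum {R ι : Type} [CommRing R] (d : Derivation ℤ R R) (k : ℕ) (s : Finset ι)
    (f : ι → R) : (d : R → R)^[k] (∑ i ∈ s, f i) = ∑ i ∈ s, (d : R → R)^[k] (f i) := by
  classical
  induction s using Finset.induction_on with
  | empty => simp [iter_zero]
  | insert a s ha ih => rw [sum_insert ha, sum_insert ha, iter_add, ih]

theorem iter_const {R : Type} [CommRing R] (d : Derivation ℤ R R) (k : ℕ) (c a : R)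
    (hc : d c = 0) : (d : R → R)^[k] (c * a) = c * (d : R → R)^[k] a := by
  induction k generalizing a with
  | zero => rfl
  | succ k ih =>
    rw [Function.iterate_succ_apply, Function.iterate_succ_apply, d.leibniz, hc, smul_zero,
      add_zero, smul_eq_mul, ih]

/-- iterated Leibniz rule -/
theorem leib {R : Type} [CommRing R] (d : Derivation ℤ R R) (k : ℕ) (w f : R) :
    (d : R → R)^[k] (w * f) = ∑ i ∈ range (k + 1),
      (k.choose i : R) * (d : R → R)^[k - i] w * (d : R → R)^[i] f := by
  induction k with
  | zero => simp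
  | succ k ih =>
    rw [Function.iterate_succ_apply', ih, map_sum]
    have h1 : ∀ i ∈ range (k + 1), d ((k.choose i : R) * (d : R → R)^[k - i] w *
        (d : R → R)^[i] f) = (k.choose i : R) * (d : R → R)^[k - i] w * (d : R → R)^[i + 1] f +
        (k.choose i : R) * (d : R → R)^[k + 1 - i] w * (d : R → R)^[i] f := by
      intro i hi
      have hi' : i ≤ k := by
        have := mem_range.1 hi
        omega
      rw [d.leibniz, d.leibniz, d.map_natCast, smul_zero, add_zero]
      simp only [smul_eq_mul]
      rw [← Function.iterate_succ_apply' (⇑d) i f, ← Function.iterate_succ_apply' (⇑d) (k - i) w,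
        show (k - i).succ = k + 1 - i by omega]
      show _ * (d : R → R)^[i + 1] f + _ = _
      ring
    rw [sum_congr rfl h1, sum_add_distrib]
    rw [sum_range_succ' (fun i => (((k + 1).choose i : ℕ) : R) * (d : R → R)^[k + 1 - i] w *
      (d : R → R)^[i] f) (k + 1)]
    have h2 : ∑ i ∈ range (k + 1), (k.choose i : R) * (d : R → R)^[k + 1 - i] w *
        (d : R → R)^[i] f = ∑ i ∈ range (k + 1), (k.choose (i + 1) : R) *
        (d : R → R)^[k + 1 - (i + 1)] w * (d : R → R)^[i + 1] f + (d : R → R)^[k + 1] w * f := by
      have h3 := sum_range_succ' (fun i => (k.choose i : R) * (d : R → R)^[k + 1 - i] w *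
        (d : R → R)^[i] f) (k + 1)
      rw [sum_range_succ] at h3
      simp only [Nat.choose_succ_self, Nat.cast_zero, zero_mul, add_zero, Nat.choose_zero_right,
        Nat.cast_one, one_mul, Nat.sub_zero, Function.iterate_zero, id_eq] at h3
      exact h3
    rw [h2, ← add_assoc, ← sum_add_distrib]
    congr 1
    · refine sum_congr rfl fun i _ => ?_
      rw [Nat.choose_succ_succ, Nat.cast_add, show k + 1 - (i + 1) = k - i by omega]
      ring
    · simp

end PWrFx

open PWrFx in
theorem WrF_proof : S_WrF := by
  intro R _ d p f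
  refine ⟨fun w => ?_, fun c hc => ?_⟩
  · let T : Matrix (Fin p) (Fin p) R := Matrix.of fun k i =>
      if (i : ℕ) ≤ k then (((k : ℕ).choose i : ℕ) : R) * (d : R → R)^[(k : ℕ) - i] w else 0
    have h1 : (Matrix.of fun k j : Fin p => ((d : R → R)^[(k : ℕ)] (w * f j))) =
        T * (Matrix.of fun k j : Fin p => ((d : R → R)^[(k : ℕ)] (f j))) := by
      ext k j
      rw [Matrix.mul_apply]
      simp only [Matrix.of_apply, T]
      rw [leib]
      have h2 : ∑ i : Fin p, (if (i : ℕ) ≤ k then
          (((k : ℕ).choose i : ℕ) : R) * (d : R → R)^[(k : ℕ) - i] w else 0) *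
          (d : R → R)^[(i : ℕ)] (f j) = ∑ i ∈ Finset.range p, (if i ≤ (k : ℕ) then
          (((k : ℕ).choose i : ℕ) : R) * (d : R → R)^[(k : ℕ) - i] w else 0) *
          (d : R → R)^[i] (f j) :=
        Fin.sum_univ_eq_sum_range (fun i => (if i ≤ (k : ℕ) then
          (((k : ℕ).choose i : ℕ) : R) * (d : R → R)^[(k : ℕ) - i] w else 0) *
          (d : R → R)^[i] (f j)) p
      rw [h2]
      have h3 : Finset.range ((k : ℕ) + 1) ⊆ Finset.range p := by
        intro i hi
        have := Finset.mem_range.1 hi
        have := k.2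
        exact Finset.mem_range.2 (by omega)
      rw [← Finset.sum_subset h3]
      · refine Finset.sum_congr rfl fun i hi => ?_
        have := Finset.mem_range.1 hi
        rw [if_pos (by omega)]
      · intro i _ hi
        have : ¬ i < (k : ℕ) + 1 := fun h => hi (Finset.mem_range.2 h)
        rw [if_neg (by omega), zero_mul]
    unfold Wr
    rw [h1, Matrix.det_mul]
    congr 1
    rw [Matrix.det_of_lowerTriangular T]
    · have h4 : ∀ i : Fin p, T i i = w := by
        intro i
        simp [T]
      rw [Finset.prod_congr rfl fun i _ => h4 i]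
      simp
    · intro i j hij
      have h5 : i < j := hij
      have h6 : ¬ ((j : ℕ) ≤ i) := by
        have : (i : ℕ) < j := h5
        omega
      simp only [T, Matrix.of_apply]
      rw [if_neg h6]
  · have h1 : (Matrix.of fun k j : Fin p => ((d : R → R)^[(k : ℕ)] (∑ l, c j l * f l))) =
        (Matrix.of fun k j : Fin p => ((d : R → R)^[(k : ℕ)] (f j))) * c.transpose := by
      ext k j
      rw [Matrix.mul_apply]
      simp only [Matrix.of_apply, Matrix.transpose_apply]
      rw [iter_sum]
      refine Finset.sum_congr rfl fun l _ => ?_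
      rw [iter_const d _ _ _ (hc j l), mul_comm]
    unfold Wr
    rw [h1, Matrix.det_mul, Matrix.det_transpose, mul_comm]

end

end Pool.Agent.Work.MP_6d7a54_an.NG
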