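import Pool.Agent.Work.MP_6d7a54_an.NG.StmtsA
import Pool.Agent.Work.MP_6d7a54_an.NG.Hyp

/-!
# Statements of the geometric items (MP_6d7a54_an)
-/

namespace Pool.Agent.Work.MP_6d7a54_an.NG

open MvPolynomial Metric
open Pool.Agent.Work.MP_6d7a54_an.NF (BadSeq)

noncomputable section

/-- `n` components of a normal crossing hypersurface meet transversally -/
def S_NC0 : Prop := ∀ (n : ℕ) (P : Fin (n + 1) → MvPolynomial (Fin (n + 1)) ℂ)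
  (d : Fin (n + 1) → ℕ), (∀ a, (P a).IsHomogeneous (d a)) → (∀ a, 1 ≤ d a) →
  NormalCrossing (∏ a, P a) → ∀ w : Fin (n + 1) → ℂ, w ≠ 0 → ∀ a,
  (∀ b, b ≠ a → eval w (P b) = 0) → eval w (Jac P) ≠ 0

/-- transfer to all extension fields (Nullstellensatz) -/
def S_Tr : Prop := ∀ (F : Type) [Field F] [CharZero F] [IsAlgClosed F] [Algebra F ℂ] (n : ℕ)
  (Q : Fin (n + 1) → MvPolynomial (Fin (n + 1)) F) (dg : Fin (n + 1) → ℕ),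
  (∀ a, (Q a).IsHomogeneous (dg a)) → (∀ a, 1 ≤ dg a) → n + 2 ≤ ∑ a, dg a →
  (∀ w : Fin (n + 1) → ℂ, w ≠ 0 → ∀ a, (∀ b, b ≠ a → aeval w (Q b) = 0) →
    aeval w (Jac Q) ≠ 0) → NC Q dg

/-- bad sequences of discs in the complement of the hypersurfaces -/
def S_Geo : Prop := ∀ (n : ℕ) (P : Fin (n + 1) → MvPolynomial (Fin (n + 1)) ℂ)
  (d : Fin (n + 1) → ℕ), (∀ a, (P a).IsHomogeneous (d a)) → (∀ a, 1 ≤ d a) →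
  (∀ w : Fin (n + 1) → ℂ, (∀ a, eval w (P a) = 0) → w = 0) → ∀ w v : Fin (n + 1) → ℂ, w ≠ 0 →
  (∀ a, eval w (P a) ≠ 0) → (∀ c : ℂ, v ≠ c • w) →
  (∀ A : ℝ, ∃ (R : ℝ) (f : ℂ → Fin (n + 1) → ℂ) (c : ℂ), A ≤ R ∧
    DifferentiableOn ℂ f (ball 0 1) ∧
    (∀ z ∈ ball (0 : ℂ) 1, ∀ a, eval (f z) (P a) ≠ 0) ∧ f 0 = w ∧
    deriv f 0 = (R : ℂ) • v + c • w) →
  ∃ (C : ℝ) (u0 : Fin n → ℂ) (lam : ℂ) (g : ℕ → (Fin (n + 1) ⊕ Fin n ⊕ Fin n) → ℂ → ℂ)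
    (u : ℕ → Fin n → ℂ → ℂ), lam ≠ 0 ∧ BadSeq C u0 g u ∧
    (∀ k, ∀ z ∈ ball (0 : ℂ) 1,
      (∀ i : Fin n, eval (fun j => g k (Sum.inl j) z) (P (Fin.castSucc i)) =
        g k (Sum.inr (Sum.inl i)) z) ∧
      eval (fun j => g k (Sum.inl j) z) (P (Fin.last n)) = 1) ∧
    (∀ k i, ∀ z ∈ ball (0 : ℂ) 1, g k (Sum.inr (Sum.inl i)) z = Complex.exp (u k i z) ∧
      g k (Sum.inr (Sum.inr i)) z = Complex.exp (-(u k i z))) ∧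
    ∀ k j, g k (Sum.inl j) 0 = lam * w j

/-- discs in the complement of the hypersurfaces are bounded -/
def S_MainN : Prop := ∀ (n : ℕ) (P : Fin (n + 1) → MvPolynomial (Fin (n + 1)) ℂ)
  (d : Fin (n + 1) → ℕ), (∀ a, (P a).IsHomogeneous (d a)) → (∀ a, 1 ≤ d a) →
  n + 2 ≤ ∑ a, d a → NormalCrossing (∏ a, P a) →
  ∃ (Q : MvPolynomial (Fin (n + 1)) ℂ) (N : ℕ), Q ≠ 0 ∧
  Q.IsHomogeneous N ∧ ∀ w : Fin (n + 1) → ℂ, w ≠ 0 → (∀ a, eval w (P a) ≠ 0) →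
  eval w Q ≠ 0 → ∀ v : Fin (n + 1) → ℂ, (∀ c : ℂ, v ≠ c • w) →
  ∃ A : ℝ, ∀ (R : ℝ) (f : ℂ → Fin (n + 1) → ℂ) (c : ℂ),
    DifferentiableOn ℂ f (ball 0 1) → (∀ z ∈ ball (0 : ℂ) 1, ∀ a, eval (f z) (P a) ≠ 0) →
    f 0 = w → deriv f 0 = (R : ℂ) • v + c • w → R ≤ A

/-- THE THEOREM: normal crossing hypersurfaces of degree at least `n + 2` with at least `n + 1`
components -/
def S_Many : Prop := ∀ (n d : ℕ) (X : MvPolynomial (Fin (n + 1)) ℂ), X.IsHomogeneous d →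
  n + 2 ≤ d → NormalCrossing X →
  (∃ P : Fin (n + 1) → MvPolynomial (Fin (n + 1)) ℂ, (∀ a, ¬ IsUnit (P a)) ∧ X = ∏ a, P a) →
  ∃ (Q : MvPolynomial (Fin (n + 1)) ℂ) (N : ℕ), Q ≠ 0 ∧ Q.IsHomogeneous N ∧
    ∀ w ∈ complementCone X, eval w Q ≠ 0 → ∀ v : Fin (n + 1) → ℂ, (∀ c : ℂ, v ≠ c • w) →
      0 < kobayashiRoyden (complementCone X) w v

end

end Pool.Agent.Work.MP_6d7a54_an.NG
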